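import Pool.Agent.Lib.MP_a17b09_nt.PQH.T3_64
import Pool.Agent.Lib.MP_a17b09_nt.PQ.T4_64
import Pool.Agent.Lib.MP_a17b09_nt.HY.EndH20

/-!
Project PQH, module T4 (helper64): the pairs with both windows and the arguments `t`, positive
nonsquare discriminant.
-/

set_option autoImplicit false

open Filter Topology Finset

namespace Pool.Agent.Lib.MP_a17b09_nt.PQH

open CH CH.PE HY
open PQ (B1 Wy gw gcw Win WinN bb bN rho wz1 wr StSchW StWinS StRho TwW CW MPQ)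

namespace T64

/-- no integral zeros -/
theorem fv_ne {a b c : ℤ} {d : ℕ} (hd : b ^ 2 - 4 * a * c = d) (hns : ¬ IsSquare d) (t : ℕ) :
    fv a b c t ≠ 0 := by
  intro h0
  have h1 : IsSquare (d : ℤ) := by
    refine ⟨2 * a * t + b, ?_⟩
    unfold fv at h0
    linear_combination (-4 * a) * h0 - hd
  apply hns
  obtain ⟨s, hs⟩ := h1
  refine ⟨s.natAbs, ?_⟩
  have h2 : (d : ℤ) = ((s.natAbs * s.natAbs : ℕ) : ℤ) := by
    rw [hs]
    push_cast
    rw [abs_mul_abs_self]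
  exact_mod_cast h2

private lemma t4_low52 {t a b c bn cn : ℝ} (ht1 : 1 ≤ t) (ha : 1 ≤ a) (hb : -bn ≤ b)
    (hc : -cn ≤ c) (hcn : 0 ≤ cn) (h : 2 * (bn + cn) + 1 ≤ t) :
    t ^ 2 / 2 ≤ a * t ^ 2 + b * t + c := by
  have htp : 0 < t := lt_of_lt_of_le one_pos ht1
  have h3 : -(bn * t) ≤ b * t := by
    rw [← neg_mul]
    exact mul_le_mul_of_nonneg_right hb htp.le
  have h4 : -(cn * t) ≤ c := le_trans (neg_le_neg (le_mul_of_one_le_right hcn ht1)) hc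
  have h5 : 1 * t ^ 2 ≤ a * t ^ 2 := mul_le_mul_of_nonneg_right ha (sq_nonneg t)
  have h6 : (2 * (bn + cn) + 1) * t ≤ t * t := mul_le_mul_of_nonneg_right h htp.le
  have h7 : t * t = t ^ 2 := (sq t).symm
  linarith

private lemma t4_up52 {t a b c an bn cn : ℝ} (ht : 1 ≤ t) (ha : a ≤ an) (hb : b ≤ bn)
    (hc : c ≤ cn) (hbn : 0 ≤ bn) (hcn : 0 ≤ cn) :
    a * t ^ 2 + b * t + c ≤ (an + bn + cn) * t ^ 2 := by
  have htp : 0 ≤ t := le_trans zero_le_one ht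
  have htt : t ≤ t ^ 2 := le_self_pow₀ ht two_ne_zero
  have htt1 : 1 ≤ t ^ 2 := one_le_pow₀ ht
  have h3 : b * t ≤ bn * t ^ 2 :=
    (mul_le_mul_of_nonneg_right hb htp).trans (mul_le_mul_of_nonneg_left htt hbn)
  have h4 : c ≤ cn * t ^ 2 := hc.trans (le_mul_of_one_le_right hcn htt1)
  have h5 : a * t ^ 2 ≤ an * t ^ 2 := mul_le_mul_of_nonneg_right ha (sq_nonneg _)
  linarith

private lemma t4_e52 {t d e F : ℝ} (htp : 0 < t) (he : 0 ≤ e) (hd2 : d ≤ 2 * t)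
    (hF : F = d * e) (hlow : t ^ 2 / 2 ≤ F) : t / 4 ≤ e := by
  have h3 : t ^ 2 / 2 ≤ 2 * t * e :=
    hlow.trans (hF.le.trans (mul_le_mul_of_nonneg_right hd2 he))
  have h4 : t * (t / 4) ≤ t * e := by
    have h5 : t * (t / 4) = t ^ 2 / 2 / 2 := by ring
    rw [h5]
    linarith
  exact le_of_mul_le_mul_left h4 htp

private lemma t4_q52 {t s : ℝ} (htp : 0 < t) (hs : s ≤ 1) : t ^ s / 4 ≤ (t / 4) ^ s := by
  rw [Real.div_rpow htp.le (by norm_num)]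
  apply div_le_div_of_nonneg_left (Real.rpow_nonneg htp.le _)
    (Real.rpow_pos_of_pos (by norm_num) _)
  calc (4 : ℝ) ^ s ≤ 4 ^ (1 : ℝ) := Real.rpow_le_rpow_of_exponent_le (by norm_num) hs
    _ = 4 := Real.rpow_one 4

private lemma t4_x52 {t δ δ' : ℝ} (htp : 0 < t) (ht1 : 4 ≤ t ^ (δ - δ')) :
    t ^ (1 - δ) ≤ t ^ (1 - δ') / 4 := by
  rw [le_div_iff₀ (by norm_num : (0 : ℝ) < 4)]
  have h3 : t ^ (1 - δ') = t ^ (1 - δ) * t ^ (δ - δ') := by
    rw [← Real.rpow_add htp]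
    congr 1
    ring
  rw [h3]
  exact mul_le_mul_of_nonneg_left ht1 (Real.rpow_nonneg htp.le _)

private lemma t4_m52 {t δ δ' M P P' F B : ℝ} (htp : 0 < t) (hM : 0 ≤ M) (hP : 0 ≤ P)
    (hF : F = M * P * P') (g1 : t ^ (1 - δ') ≤ P) (g2 : t ^ (1 - δ') / 4 ≤ P')
    (hup : F ≤ B * t ^ 2) (ht2 : 4 * B ≤ t ^ (2 * (δ - δ'))) : M ≤ t ^ (2 * δ) := by
  have hT : 0 < t ^ (1 - δ') := Real.rpow_pos_of_pos htp _
  have h3 : M * (t ^ (1 - δ') * (t ^ (1 - δ') / 4)) ≤ B * t ^ 2 := by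
    calc _ ≤ M * (P * P') := by
          apply mul_le_mul_of_nonneg_left _ hM
          exact mul_le_mul g1 g2 (div_pos hT four_pos).le hP
      _ = F := by rw [hF]; ring
      _ ≤ _ := hup
  have h4 : t ^ (1 - δ') * t ^ (1 - δ') * t ^ (2 * δ') = t ^ 2 := by
    rw [← Real.rpow_add htp, ← Real.rpow_add htp, ← Real.rpow_natCast]
    congr 1
    push_cast
    ring
  have h5 : M ≤ 4 * B * t ^ (2 * δ') := by
    have h6 : M * (t ^ (1 - δ') * t ^ (1 - δ')) ≤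
        (4 * B * t ^ (2 * δ')) * (t ^ (1 - δ') * t ^ (1 - δ')) := by
      have h7 : (4 * B * t ^ (2 * δ')) * (t ^ (1 - δ') * t ^ (1 - δ')) =
          4 * (B * t ^ 2) := by
        rw [← h4]; ring
      rw [h7]
      linarith
    exact le_of_mul_le_mul_right h6 (mul_pos hT hT)
  refine h5.trans ?_
  have h8 : t ^ (2 * δ) = t ^ (2 * (δ - δ')) * t ^ (2 * δ') := by
    rw [← Real.rpow_add htp]
    congr 1
    ring
  rw [h8]
  exact mul_le_mul_of_nonneg_right ht2 (Real.rpow_nonneg htp.le _)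

private lemma t4_fv52 {t a b c bn cn : ℤ} (ht : 1 ≤ t) (ha : 0 < a) (hb : -bn ≤ b)
    (hc : -cn ≤ c) (hbn : 0 ≤ bn) (hcn : 0 ≤ cn) (h : 2 * (bn + cn) + 1 ≤ t) :
    0 < a * t ^ 2 + b * t + c := by
  have htp : 0 < t := lt_of_lt_of_le one_pos ht
  have h3 : -(bn * t) ≤ b * t := by
    rw [← neg_mul]
    exact mul_le_mul_of_nonneg_right hb htp.le
  have h4 : -(cn * t) ≤ c := le_trans (neg_le_neg (le_mul_of_one_le_right hcn ht)) hc
  have h5 : 1 * t ^ 2 ≤ a * t ^ 2 := mul_le_mul_of_nonneg_right ha (sq_nonneg t)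
  have h6 : (2 * (bn + cn) + 1) * t ≤ t * t := mul_le_mul_of_nonneg_right h htp.le
  have h7 : t * t = t ^ 2 := (sq t).symm
  have h8 : 0 ≤ bn * t := mul_nonneg hbn htp.le
  have h9 : 0 ≤ cn * t := mul_nonneg hcn htp.le
  linarith

/-- a pair with both windows gives two large prime factors -/
theorem mpq_of {a b c : ℤ} (ha : 0 < a) {δ δ' : ℝ} (h0 : 0 < δ')
    (h1 : δ' < 1 / 2) (h2 : δ' < δ) (q k r : ℕ) : ∀ᶠ t : ℕ in atTop, ∀ d : ℕ,
    (d : ℤ) ∣ a * (t : ℤ) ^ 2 + b * t + c → (1 : ℝ) * t ≤ d → (d : ℝ) ≤ 2 * t → Win q δ' d →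
    Win q δ' (a.natAbs * ((fv a b c t).natAbs / d)) → Omn d ≡ 0 [MOD k] →
    Omn ((fv a b c t).natAbs / d) ≡ r [MOD k] → MPQ a b c δ k r t := by
  have hg : 0 < δ - δ' := sub_pos.2 h2
  set B : ℝ := (a.natAbs : ℝ) + b.natAbs + c.natAbs with hB
  have hB0 : 0 ≤ B := by positivity
  filter_upwards [PQ.T64.ev_rpow 4 hg, PQ.T64.ev_rpow (4 * B) (by linarith : 0 < 2 * (δ - δ')),
    PQ.T64.ev_rpow (4 * (a.natAbs : ℝ)) (by linarith : 0 < 1 - δ'),
    eventually_ge_atTop (2 * (b.natAbs + c.natAbs) + 1)] with t ht1 ht2 ht3 ht4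
  intro d hd hd1 hd2 hw1 hw2 hr1 hr2
  have ht0 : 1 ≤ t := by omega
  have htR : (1 : ℝ) ≤ t := by exact_mod_cast ht0
  have htp : (0 : ℝ) < t := lt_of_lt_of_le one_pos htR
  have hfp : 0 < fv a b c t := by
    unfold fv
    exact t4_fv52 (by exact_mod_cast ht0) ha (by omega : -(b.natAbs : ℤ) ≤ b)
      (by omega : -(c.natAbs : ℤ) ≤ c) (Int.natCast_nonneg _) (Int.natCast_nonneg _)
      (by exact_mod_cast ht4)
  set F : ℕ := (fv a b c t).natAbs with hF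
  have hF1 : (F : ℤ) = a * (t : ℤ) ^ 2 + b * t + c := by
    rw [hF, Int.natCast_natAbs, abs_of_pos hfp]
    rfl
  have hF0 : F ≠ 0 := Int.natAbs_ne_zero.2 hfp.ne'
  have hdF : d ∣ F := by
    have h3 : (d : ℤ) ∣ (F : ℤ) := by rw [hF1]; exact hd
    exact_mod_cast h3
  obtain ⟨e, he⟩ := hdF
  have hd0 : d ≠ 0 := by
    rintro rfl
    exact hF0 (by rw [he, zero_mul])
  have hdp : 0 < d := Nat.pos_of_ne_zero hd0
  have hFe : F / d = e := by
    rw [he]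
    exact Nat.mul_div_cancel_left e hdp
  have he0 : e ≠ 0 := by
    rintro rfl
    exact hF0 (by rw [he, mul_zero])
  rw [hFe] at hw2 hr2
  have hFR : (F : ℝ) = d * e := by rw [he]; push_cast; ring
  have hFR2 : (F : ℝ) = a * (t : ℝ) ^ 2 + b * t + c := by
    have h3 : ((F : ℤ) : ℝ) = ((a * (t : ℤ) ^ 2 + b * t + c : ℤ) : ℝ) := by rw [hF1]
    push_cast at h3
    exact h3
  have ha1 : (1 : ℝ) ≤ a := by exact_mod_cast ha
  have habs : ∀ x : ℤ, |(x : ℝ)| = (x.natAbs : ℝ) := by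
    intro x
    rw [← Int.cast_abs, Int.abs_eq_natAbs, Int.cast_natCast]
  have hb := abs_le.1 (le_of_eq (habs b))
  have hc := abs_le.1 (le_of_eq (habs c))
  have ha2 := abs_le.1 (le_of_eq (habs a))
  have ht4' : 2 * ((b.natAbs : ℝ) + c.natAbs) + 1 ≤ t := by exact_mod_cast ht4
  have hbn : (0 : ℝ) ≤ b.natAbs := Nat.cast_nonneg _
  have hcn : (0 : ℝ) ≤ c.natAbs := Nat.cast_nonneg _
  -- lower and upper bound of `F`
  have hlow : (t : ℝ) ^ 2 / 2 ≤ F := by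
    rw [hFR2]
    exact t4_low52 htR ha1 hb.1 hc.1 hcn ht4'
  have hup : (F : ℝ) ≤ B * (t : ℝ) ^ 2 := by
    rw [hFR2, hB]
    exact t4_up52 htR ha2.2 hb.2 hc.2 hbn hcn
  have heR : (t : ℝ) / 4 ≤ e := t4_e52 htp (Nat.cast_nonneg e) hd2 hFR hlow
  obtain ⟨p, hp, -, hpd, hpl, -⟩ := hw1
  obtain ⟨p2, hp2, -, hpd2, hpl2, -⟩ := hw2
  have hexp : 0 ≤ 1 - δ' := sub_nonneg.2 (h1.le.trans (by norm_num))
  -- the first prime
  have hpt : (t : ℝ) ^ (1 - δ') < p := by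
    refine lt_of_le_of_lt ?_ hpl
    exact Real.rpow_le_rpow htp.le (by rw [← one_mul (t : ℝ)]; exact hd1) hexp
  -- the second prime
  have hq4 : (t : ℝ) ^ (1 - δ') / 4 ≤ ((t : ℝ) / 4) ^ (1 - δ') :=
    t4_q52 htp (sub_le_self 1 h0.le)
  have ha3 : 1 ≤ a.natAbs := by
    have := Int.natAbs_pos.2 ha.ne'
    omega
  have hpt2 : (t : ℝ) ^ (1 - δ') / 4 < p2 := by
    refine lt_of_le_of_lt (hq4.trans ?_) hpl2
    apply Real.rpow_le_rpow (div_pos htp four_pos).le _ hexp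
    refine heR.trans ?_
    have h3 : e ≤ a.natAbs * e := Nat.le_mul_of_pos_left e (by omega)
    exact_mod_cast h3
  have hpa : ¬ p2 ∣ a.natAbs := by
    intro h3
    have h4 := Nat.le_of_dvd (by omega) h3
    have h5 : (p2 : ℝ) ≤ a.natAbs := by exact_mod_cast h4
    have h6 : (a.natAbs : ℝ) ≤ (t : ℝ) ^ (1 - δ') / 4 := by
      rw [le_div_iff₀ four_pos, mul_comm]
      exact ht3
    exact absurd (lt_of_le_of_lt (h5.trans h6) hpt2) (lt_irrefl _)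
  have hpe : p2 ∣ e := (hp2.dvd_mul.1 hpd2).resolve_left hpa
  obtain ⟨m1, hm1⟩ := hpd
  obtain ⟨m2, hm2⟩ := hpe
  -- exponents
  have hx1 : (t : ℝ) ^ (1 - δ) ≤ (t : ℝ) ^ (1 - δ') :=
    Real.rpow_le_rpow_of_exponent_le htR (sub_le_sub_left h2.le 1)
  have hx2 : (t : ℝ) ^ (1 - δ) ≤ (t : ℝ) ^ (1 - δ') / 4 := t4_x52 htp ht1
  have hprod : F = m1 * m2 * p * p2 := by
    rw [he, hm1, hm2]
    ring
  refine ⟨m1 * m2, p, p2, hp, hp2, lt_of_le_of_lt hx1 hpt, lt_of_le_of_lt hx2 hpt2, ?_, ?_, ?_⟩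
  · -- the size of `m`
    have hprodR : (F : ℝ) = ((m1 * m2 : ℕ) : ℝ) * p * p2 := by
      rw [hprod]
      push_cast
      ring
    exact t4_m52 htp (Nat.cast_nonneg _) (Nat.cast_nonneg p) hprodR hpt.le hpt2.le hup ht2
  · rw [← hF1, hprod]
    push_cast
    ring
  · rw [← hprod, he, ArithmeticFunction.cardFactors_mul hd0 he0]
    have h3 : Omn d + Omn e ≡ 0 + r [MOD k] := hr1.add hr2
    rw [zero_add] at h3
    exact h3

end T64

/-- (T4a) the pairs with both windows -/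
theorem stEndAH_64 (hF : StFinHW) (hMain : StHMainS) (hU : StMeanU) (hMean : StMean)
    (hR : StRho) : StEndAH := by
  classical
  intro a b c ha d hd hns h t₀ hh α β hα hαβ
  have hf := T64.fv_ne hd hns
  obtain ⟨κ, hκ, hlim⟩ := hMain a b c ha d hd hns h hh t₀ α β hα hαβ
  have e0 : ∀ N : ℕ, pairCount a b c h t₀ α β (fun _ _ => True) N =
      CST a b c α β h t₀ 1 0 0 N := by
    intro N
    unfold pairCount CST
    apply Finset.sum_congr rfl
    intro t _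
    rw [EndH20.ncard_eq (hf t) α β (fun _ => True)]
    congr 1
    apply Finset.filter_congr
    intro d _
    exact ⟨fun _ => ⟨Nat.modEq_one, Nat.modEq_one⟩, fun _ => trivial⟩
  have hd0 : 0 < d := by
    rcases Nat.eq_zero_or_pos d with h0 | h0
    · exact absurd ⟨0, by rw [h0]⟩ hns
    · exact h0
  have hq0 : 0 < 4 * d := by omega
  refine ⟨κ, hκ, by simpa only [e0] using hlim, fun δ hδ0 hδ1 k hk r s => ?_⟩
  obtain ⟨hρ, -⟩ := hR (4 * d) hq0 δ hδ0 hδ1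
  obtain ⟨C, hC0, hC⟩ := PQ.T64.lin_of_lim hlim
  have hk' : (0 : ℝ) < k := by exact_mod_cast hk
  have hfin := EndJ90.final hU hMean a b c h t₀ α β (fun t e => Win (4 * d) δ e ∧
      Win (4 * d) δ (a.natAbs * ((fv a b c t).natAbs / e)) ∧ Omn e ≡ r [MOD k] ∧
      Omn ((fv a b c t).natAbs / e) ≡ s [MOD k]) (CW a b c α β h t₀ (4 * d) δ k r s)
      (fun N => by
        unfold pairCount CW
        refine Finset.sum_congr rfl fun t _ => ?_
        exact EndH20.ncard_eq (hf t) α β _)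
      (κ := rho (4 * d) δ ^ 2 * κ / k ^ 2) (by positivity)
      (PQ.T64.bdd_of_le hC0 (fun N => Nat.cast_nonneg _) fun N => by
        refine le_trans ?_ (hC N)
        have h1 : CW a b c α β h t₀ (4 * d) δ k r s N ≤ CST a b c α β h t₀ 1 0 0 N := by
          refine le_trans ?_ (PQ.T64.NW_le a b c α β h t₀ (4 * d) δ N)
          rw [PQ.T64.CW_eq]
          exact Finset.sum_le_sum fun t _ => Finset.card_filter_le _ _
        exact_mod_cast h1)
      (fun M => hF a b c ha d hd hns δ hδ0 hδ1 h hh t₀ α β hα hαβ κ hκ hlim k hk r s M)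
  exact ⟨hfin.1, hfin.2.1⟩


open Classical in
/-- (T4b) the arguments `t` -/
theorem stEndBH_64 (hA : StEndAH) : StEndBH := by
  intro a b c ha d hd hns h t₀ hh δ hδ k hk r ε hε
  set δ' : ℝ := min δ (1 / 2) / 2 with hδ'
  have hm0 : 0 < min δ (1 / 2) := lt_min hδ (by norm_num)
  have h0 : 0 < δ' := by positivity
  have h1 : δ' < 1 / 2 := by
    have := min_le_right δ (1 / 2)
    linarith
  have h2 : δ' < δ := by
    have := min_le_left δ (1 / 2)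
    linarith
  obtain ⟨κ, hκ, -, hA⟩ := hA a b c ha d hd hns h t₀ hh 1 2 one_pos (by norm_num)
  obtain ⟨-, η, hη, hev⟩ := hA δ' h0 h1 k hk 0 r
  have hsq : ¬ IsSquare (b ^ 2 - 4 * a * c) := by
    rw [hd]
    rintro ⟨s, hs⟩
    apply hns
    refine ⟨s.natAbs, ?_⟩
    have h2 : (d : ℤ) = ((s.natAbs * s.natAbs : ℕ) : ℤ) := by
      rw [hs]
      push_cast
      rw [abs_mul_abs_self]
    exact_mod_cast h2
  generalize 4 * d = q at hev
  have hunw := UW.U64.unwD a b c ha hsq h t₀ 1 2 one_pos (by norm_num) _ hη hev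
    (ε := ε / 2) (by positivity)
  obtain ⟨T0, hT0⟩ := eventually_atTop.1 (T64.mpq_of ha h0 h1 h2 q k r)
  have hlog : Tendsto (fun N : ℕ => Real.log (N : ℝ)) atTop atTop :=
    Real.tendsto_log_atTop.comp tendsto_natCast_atTop_atTop
  have hlo : ∀ᶠ N : ℕ in atTop,
      Real.log (N : ℝ) ^ (Real.log 2 + ε) ≤ (N : ℝ) ^ (1 / 2 : ℝ) := by
    have h3 := (isLittleO_log_rpow_rpow_atTop (Real.log 2 + ε)
      (by norm_num : (0 : ℝ) < 1 / 2)).comp_tendsto tendsto_natCast_atTop_atTop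
    have h4 := h3.bound (by norm_num : (0 : ℝ) < 1)
    filter_upwards [h4, hlog.eventually_ge_atTop 1] with N hN hN1
    simp only [Function.comp] at hN
    rw [Real.norm_of_nonneg (Real.rpow_nonneg (by linarith) _),
      Real.norm_of_nonneg (Real.rpow_nonneg (Nat.cast_nonneg _) _), one_mul] at hN
    exact hN
  have he2 : ∀ᶠ N : ℕ in atTop, 2 ≤ Real.log (N : ℝ) ^ (ε / 2) :=
    ((tendsto_rpow_atTop (by positivity : 0 < ε / 2)).comp hlog).eventually_ge_atTop 2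
  filter_upwards [hunw, hlo, he2, hlog.eventually_ge_atTop 1,
    PQ.T64.ev_rpow (T0 : ℝ) (by norm_num : (0 : ℝ) < 1 / 2), eventually_ge_atTop 1]
    with N hN hN2 hN3 hN4 hN5 hN6
  have hNp : (0 : ℝ) < N := by exact_mod_cast hN6
  have hL0 : 0 < Real.log (N : ℝ) := by linarith
  set Y : ℝ := Real.log (N : ℝ) ^ (Real.log 2 + ε) with hY
  have hY0 : 0 < Y := Real.rpow_pos_of_pos hL0 _
  -- cardinalities
  have hsub : (Finset.Icc 1 N).filter (fun t : ℕ => t ≡ t₀ [MOD h] ∧ ∃ d : ℕ,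
      (d : ℤ) ∣ a * (t : ℤ) ^ 2 + b * t + c ∧ (1 : ℝ) * t ≤ d ∧ (d : ℝ) ≤ 2 * t ∧
      (Win q δ' d ∧ Win q δ' (a.natAbs * ((fv a b c t).natAbs / d)) ∧ Omn d ≡ 0 [MOD k] ∧
      Omn ((fv a b c t).natAbs / d) ≡ r [MOD k])) ⊆
      (Finset.Icc 1 N).filter (fun t : ℕ => t ≡ t₀ [MOD h] ∧ MPQ a b c δ k r t) ∪
      Finset.range T0 := by
    intro t ht
    rw [Finset.mem_filter] at ht
    obtain ⟨hu1, hu2, d, hd, hd1, hd2, hw1, hw2, hr1, hr2⟩ := ht
    rw [Finset.mem_union, Finset.mem_filter, Finset.mem_range]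
    by_cases hlt : t < T0
    · exact Or.inr hlt
    · exact Or.inl ⟨hu1, hu2, hT0 t (not_lt.1 hlt) d hd hd1 hd2 hw1 hw2 hr1 hr2⟩
  have hcard : (((Finset.Icc 1 N).filter (fun t : ℕ => t ≡ t₀ [MOD h] ∧ ∃ d : ℕ,
      (d : ℤ) ∣ a * (t : ℤ) ^ 2 + b * t + c ∧ (1 : ℝ) * t ≤ d ∧ (d : ℝ) ≤ 2 * t ∧
      (Win q δ' d ∧ Win q δ' (a.natAbs * ((fv a b c t).natAbs / d)) ∧ Omn d ≡ 0 [MOD k] ∧
      Omn ((fv a b c t).natAbs / d) ≡ r [MOD k]))).card : ℝ) ≤
      (((Finset.Icc 1 N).filter (fun t : ℕ => t ≡ t₀ [MOD h] ∧ MPQ a b c δ k r t)).card : ℝ) +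
      T0 := by
    have h3 := (Finset.card_le_card hsub).trans (Finset.card_union_le _ _)
    rw [Finset.card_range] at h3
    exact_mod_cast h3
  have hlow := hN.trans hcard
  -- the comparison of the logarithms
  have h4 : Y = Real.log (N : ℝ) ^ (Real.log 2 + ε / 2) * Real.log (N : ℝ) ^ (ε / 2) := by
    rw [hY, ← Real.rpow_add hL0]
    congr 1
    ring
  have hZ0 : 0 < Real.log (N : ℝ) ^ (Real.log 2 + ε / 2) := Real.rpow_pos_of_pos hL0 _
  have h5 : 2 * ((N : ℝ) / Y) ≤ (N : ℝ) / Real.log (N : ℝ) ^ (Real.log 2 + ε / 2) := by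
    rw [le_div_iff₀ hZ0, h4]
    have h6 : 2 * ((N : ℝ) / (Real.log (N : ℝ) ^ (Real.log 2 + ε / 2) *
        Real.log (N : ℝ) ^ (ε / 2))) * Real.log (N : ℝ) ^ (Real.log 2 + ε / 2) =
        N * (2 / Real.log (N : ℝ) ^ (ε / 2)) := by
      have h7 : Real.log (N : ℝ) ^ (ε / 2) ≠ 0 := by linarith
      field_simp
    rw [h6]
    have h8 : 2 / Real.log (N : ℝ) ^ (ε / 2) ≤ 1 := by
      rw [div_le_one (by linarith)]
      exact hN3
    calc (N : ℝ) * (2 / Real.log (N : ℝ) ^ (ε / 2)) ≤ N * 1 :=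
          mul_le_mul_of_nonneg_left h8 hNp.le
      _ = N := mul_one _
  have h9 : (T0 : ℝ) ≤ (N : ℝ) / Y := by
    rw [le_div_iff₀ hY0]
    calc (T0 : ℝ) * Y ≤ (N : ℝ) ^ (1 / 2 : ℝ) * (N : ℝ) ^ (1 / 2 : ℝ) :=
          mul_le_mul hN5 hN2 hY0.le (Real.rpow_nonneg hNp.le _)
      _ = N := by
          rw [← Real.rpow_add hNp]
          norm_num
  linarith

end Pool.Agent.Lib.MP_a17b09_nt.PQH
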