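import Pool.Agent.Lib.MP_a17b09_nt.PQ.Stmts79
import Pool.Agent.Lib.MP_a17b09_nt.MRH.Stmts79
import Pool.Agent.Lib.MP_a17b09_nt.HY.StmtsR20

/-!
Project PQH (MP_a17b09_nt): project PQ for positive nonsquare discriminant.  Statements.
`PQ/Stmts79` word by word, with the classes `Cx D` of indefinite forms, the shells over the sector
`0 ≤ ψ < T` (`MRH`), the sector sums `Hk` and the systems `HSystem` (`HY`).  The weights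
`w : ℕ → ℂ` of the value `Q v`, `B1`, `Wy`, `gw`, `gcw`, `Win`, `WinN`, `bb`, `bN`, `rho`, `wz1`,
`wr`, `StSchW`, `StWinS`, `StRho`, `TwW`, `CW`, `MPQ` are those of project PQ.
-/

set_option autoImplicit false

open Filter Topology Finset

namespace Pool.Agent.Lib.MP_a17b09_nt.PQH

open CH CH.PE HY HY.S68 MRH
open PQ (B1 Wy gw gcw Win WinN bb bN rho wz1 wr StSchW StWinS StRho TwW CW MPQ)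

/-! ### Part M: the mean square over the frequencies -/

section defs

/-- the vector of the shell sums over all vectors -/
noncomputable def VAh (D : Dat) (w : ℕ → ℂ) (r1 r2 N : ℝ) (j : ℤ) : Hs D :=
  vec D (fun i => Shg i (r1 * N) (r2 * N)) (fun i v => (1 / (N : ℂ)) * gw w (rp i) v) j

/-- the vector of the shell sums over the primitive vectors -/
noncomputable def VPh (D : Dat) (w : ℕ → ℂ) (r1 r2 N : ℝ) (j : ℤ) : Hs D :=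
  vec D (fun i => (Shg i (r1 * N) (r2 * N)).filter Prim)
    (fun i v => (1 / (N : ℂ)) * gw w (rp i) v) j

variable {D : Dat}

/-- all vectors of the shell -/
noncomputable def Mah (w : ℕ → ℂ) (r1 r2 N : ℝ) (f : Fq D) : ℂ :=
  (1 / (N : ℂ)) * ∑ i, ∑ v ∈ Shg i (r1 * N) (r2 * N), gw w (rp i) v * ch f i v

/-- primitive vectors of the shell -/
noncomputable def Mph (w : ℕ → ℂ) (r1 r2 N : ℝ) (f : Fq D) : ℂ :=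
  (1 / (N : ℂ)) * ∑ i, ∑ v ∈ (Shg i (r1 * N) (r2 * N)).filter Prim, gw w (rp i) v * ch f i v

theorem co_VAh (w : ℕ → ℂ) (r1 r2 N : ℝ) (j : ℤ) (k : Fin (mm D j)) :
    co D j k (VAh D w r1 r2 N j) = Mah w r1 r2 N ⟨j, k⟩ := by
  unfold VAh Mah
  rw [co_vec, Finset.mul_sum]
  refine Finset.sum_congr rfl fun i _ => ?_
  rw [Finset.mul_sum]
  exact Finset.sum_congr rfl fun v _ => by ring

theorem co_VPh (w : ℕ → ℂ) (r1 r2 N : ℝ) (j : ℤ) (k : Fin (mm D j)) :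
    co D j k (VPh D w r1 r2 N j) = Mph w r1 r2 N ⟨j, k⟩ := by
  unfold VPh Mph
  rw [co_vec, Finset.mul_sum]
  refine Finset.sum_congr rfl fun i _ => ?_
  rw [Finset.mul_sum]
  exact Finset.sum_congr rfl fun v _ => by ring

/-- the weight of an indefinite form is invariant under the automorphs -/
theorem gw_act {d : ℕ} {Q : Form} (hQ : Hyp d Q) (w : ℕ → ℂ) (a : Pell.Solution₁ (d : ℤ)) (v : V) :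
    gw w Q (act Q a v) = gw w Q v := by
  unfold gw
  rw [q_act hQ]

end defs

section props

variable (D : Dat)

/-- (M1) STRUCT: the shell vectors are in `E_j`; Parseval; every weight -/
def StParH : Prop := ∀ (w : ℕ → ℂ) (r1 r2 N : ℝ) (j : ℤ),
  VAh D w r1 r2 N j ∈ Ej D j ∧ VPh D w r1 r2 N j ∈ Ej D j ∧
  ∑ k, ‖Mah w r1 r2 N (⟨j, k⟩ : Fq D)‖ ^ 2 = ∑ ia, ‖VAh D w r1 r2 N j ia‖ ^ 2 ∧
  ∑ k, ‖Mph w r1 r2 N (⟨j, k⟩ : Fq D)‖ ^ 2 = ∑ ia, ‖VPh D w r1 r2 N j ia‖ ^ 2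

open Classical in
/-- (M1b) IDENT: the exact identity for the vectors `M_P u`, every weight -/
def StIdH : Prop := ∀ (w : ℕ → ℂ) (a b : ℝ) (P : ℕ × Bool) (f : Fq D), Adm D P →
  ∑ i, ∑ v ∈ (Shg i a b).filter (fun v => Im (Mg D P i) v), gw w (rp i) v * ch f i v =
    cw P f * ∑ i, ∑ u ∈ Shg i (a / P.1) (b / P.1), gw (fun n => w (P.1 * n)) (rp i) u * ch f i u

/-- (M2) DEC -/
def StDecH : Prop := ∀ z : ℂ, ‖z‖ = 1 → ∀ r1 r2 : ℝ, 0 < r1 → r1 < r2 →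
  ∃ C N0 : ℝ, 0 < C ∧ 1 ≤ N0 ∧ ∀ (h u0 u1 : ℕ) (N : ℝ), 0 < h → 3 * h ≤ u0 → u0 < u1 →
  N0 ≤ N → (h : ℝ) ≤ N ^ (1 / 8 : ℝ) → Real.exp (u1 / h) ≤ N ^ (1 / 8 : ℝ) →
  1 ≤ LLg D (Real.exp (u0 / h)) (Real.exp (u1 / h)) → ∀ J : ℕ, (J : ℝ) ≤ N →
  ∀ w : ℕ → ℂ, Wy z (Real.exp (u1 / h)) w →
  ∑ f ∈ SJ D J, ‖Mph w r1 r2 N f -
    (1 / (LLg D (Real.exp (u0 / h)) (Real.exp (u1 / h)) : ℂ)) *
    ∑ u ∈ Finset.Ico u0 u1, Qsg z h u f * Mph w r1 r2 (N * Real.exp (-(u / h))) f‖ ^ 2 ≤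
  C * (1 / LLg D (Real.exp (u0 / h)) (Real.exp (u1 / h)) + 1 / h + h / u0)

/-- (M3) MOM; `MRH.StMom1G` has no weight and stays -/
def StMomH : Prop := ∀ z : ℂ, ‖z‖ = 1 → ∀ r1 r2 : ℝ, 0 < r1 → r1 < r2 →
  ∃ C : ℝ, 1 ≤ C ∧ ∀ (h u l J : ℕ) (N : ℝ), 0 < h → 3 * h ≤ u → 1 ≤ r1 * N →
  (J : ℝ) ≤ Real.exp (l * (u / h)) * (r1 * N) → ∀ w : ℕ → ℂ, B1 w →
  ∑ f ∈ SJ D J, ‖Qsg z h u f ^ l * Mph w r1 r2 N f‖ ^ 2 ≤ C ^ (l + 1) * (l.factorial : ℝ) ^ 2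

/-- (M4) LEV, uniform in the weight (from `StDecH`, `StMomH`, `MRH.StMom1G`, `MRH.StMerG`,
`PQ.StSchW`) -/
def StLevH : Prop := ∀ z : ℂ, ‖z‖ = 1 → ∀ c0 : ℝ, 0 < c0 → ∀ r1 r2 : ℝ, 0 < r1 → r1 < r2 →
  ∀ ε c : ℝ, 0 < ε → 0 < c → ∃ H0 : ℝ, 1 ≤ H0 ∧ ∀ H : ℝ, H0 ≤ H → ∃ N0 : ℝ, ∀ N : ℝ, N0 ≤ N →
  ∀ w : ℕ → ℂ, Wy z (N ^ c0) w →
  ∃ U ⊆ SJ D ⌊N / H⌋₊, (U.card : ℝ) ≤ N ^ c ∧
    ∑ f ∈ SJ D ⌊N / H⌋₊ \ U, ‖Mph w r1 r2 N f‖ ^ 2 ≤ ε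

/-- (M5) TKH, uniform in the weight -/
def StTkhH : Prop := ∀ z : ℂ, ‖z‖ = 1 → ∀ r1 r2 : ℝ, 0 ≤ r1 → r1 < r2 → ∃ c1 : ℝ, 0 < c1 ∧
  c1 ≤ 1 / 8 ∧ ∀ c : ℝ, 0 < c → c ≤ c1 → ∃ C N0 : ℝ, 0 < C ∧ 1 ≤ N0 ∧ ∀ N : ℝ, N0 ≤ N →
  ∀ w : ℕ → ℂ, Wy z (N ^ c) w → ∀ U : Finset (Fq D),
  (U.card : ℝ) ≤ N ^ c → (∀ f ∈ U, |(f.1 : ℝ)| ≤ N ^ 2) →
  ∑ f ∈ U, ∑ P ∈ slg D 3 (N ^ c), (1 / (P.1 : ℝ)) *
    ‖Mah w r1 r2 N f - z * cw P f * Mah w r1 r2 (N / P.1) f‖ ^ 2 ≤ C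

/-- (M6) UALL, uniform in the weight (from `StTkhH`, `MRH.StDjG`) -/
def StUallH : Prop := ∀ z : ℂ, ‖z‖ = 1 → ∀ c0 : ℝ, 0 < c0 → ∀ r1 r2 : ℝ, 0 ≤ r1 → r1 < r2 →
  ∃ c : ℝ, 0 < c ∧ c ≤ c0 ∧ ∀ ε : ℝ, 0 < ε → ∃ N0 : ℝ, ∀ N : ℝ, N0 ≤ N →
  ∀ w : ℕ → ℂ, Wy z (N ^ c) w → ∀ U : Finset (Fq D), (U.card : ℝ) ≤ N ^ c →
  (∀ f ∈ U, f.1 ≠ 0) → (∀ f ∈ U, |(f.1 : ℝ)| ≤ N ^ 2) → ∑ f ∈ U, ‖Mah w r1 r2 N f‖ ^ 2 ≤ ε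

/-- (M7) UPRIM, uniform in the weight (from `StUallH`, `MRH.StHmuG`, `StParH`; Moebius with the
weights `n ↦ w (e² n)`) -/
def StUpH : Prop := ∀ z : ℂ, ‖z‖ = 1 → ∀ c0 : ℝ, 0 < c0 → ∀ r1 r2 : ℝ, 0 ≤ r1 → r1 < r2 →
  ∃ c : ℝ, 0 < c ∧ c ≤ c0 ∧ ∀ ε : ℝ, 0 < ε → ∃ N0 : ℝ, ∀ N : ℝ, N0 ≤ N →
  ∀ w : ℕ → ℂ, Wy z (N ^ c) w → ∀ U : Finset (Fq D), (U.card : ℝ) ≤ N ^ c →
  (∀ f ∈ U, f.1 ≠ 0) → (∀ f ∈ U, |(f.1 : ℝ)| ≤ N) → ∑ f ∈ U, ‖Mph w r1 r2 N f‖ ^ 2 ≤ ε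

/-- (M8) CORE (from `StLevH`, `StUpH`): all frequencies but `0` -/
def StCoreH : Prop := ∀ z : ℂ, ‖z‖ = 1 → ∀ c0 : ℝ, 0 < c0 → ∀ r1 r2 : ℝ, 0 < r1 → r1 < r2 →
  ∀ ε : ℝ, 0 < ε → ∃ H0 : ℝ, 1 ≤ H0 ∧ ∀ H : ℝ, H0 ≤ H → ∃ N0 : ℝ, ∀ N : ℝ, N0 ≤ N →
  ∀ w : ℕ → ℂ, Wy z (N ^ c0) w →
  ∑ f ∈ SJ D ⌊N / H⌋₊, ‖Mph w r1 r2 N f‖ ^ 2 ≤
    ε + ∑ e : Fin (mm D 0), ‖Mph w r1 r2 N (⟨0, e⟩ : Fq D)‖ ^ 2

end props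

open Classical in
/-- the weight is equal to a weight multiplicative up to `N ^ c0` outside a small set of primitive
vectors of each shell; all periods -/
def ApxH (d : ℕ) (z : ℂ) (c0 : ℝ) (w : ℕ → ℂ) : Prop := ∀ D : Dat, D.d = d → ∀ r1 r2 : ℝ,
  0 < r1 → r1 < r2 → ∀ ε : ℝ, 0 < ε → ∃ N0 : ℝ, ∀ N : ℝ, N0 ≤ N → ∃ w' : ℕ → ℂ,
    Wy z (N ^ c0) w' ∧ ∀ i : Cx D,
    ((((Shg i (r1 * N) (r2 * N)).filter Prim).filter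
      (fun v => w ((rp i).q v).natAbs ≠ w' ((rp i).q v).natAbs)).card : ℝ) ≤ ε * N

/-- the frequencies `0` tend to zero -/
def Fr0H (d : ℕ) (w : ℕ → ℂ) : Prop := ∀ D : Dat, D.d = d → ∀ r1 r2 : ℝ, 0 < r1 → r1 < r2 →
  ∀ e : Fin (mm D 0), Tendsto (fun N : ℝ => Mph w r1 r2 N (⟨0, e⟩ : Fq D)) atTop (𝓝 0)

/-- (M9) the mean square for a weight (from `StCoreH`, `MRH.StLspG`) -/
def StSmallH (d : ℕ) : Prop := ∀ (z : ℂ), ‖z‖ = 1 → ∀ (c0 : ℝ), 0 < c0 → ∀ w : ℕ → ℂ, B1 w →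
  ApxH d z c0 w → Fr0H d w → ∀ D : Dat, D.d = d → ∀ r1 r2 : ℝ, 0 < r1 → r1 < r2 →
  ∀ ε : ℝ, 0 < ε → ∃ H0 : ℝ, 1 ≤ H0 ∧ ∀ H : ℝ, H0 ≤ H → ∃ N0 : ℝ, ∀ N : ℝ, N0 ≤ N →
  ∑ f ∈ SJ D ⌊N / H⌋₊, ‖Mph w r1 r2 N f‖ ^ 2 ≤ ε

/-- the interface: mean square of the shell sums over the frequencies `|j| ≤ A n / L` -/
def HMrsQw (Q : Form) (T : ℝ) (w : ℕ → ℂ) (K : ℕ) : Prop := ∀ α : ZMod K × ZMod K, ∀ r1 r2 : ℝ,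
  0 < r1 → r1 < r2 → ∀ A : ℝ, 0 < A → ∀ ε : ℝ, 0 < ε → ∃ L0 : ℝ, 1 ≤ L0 ∧ ∀ L : ℝ, L0 ≤ L →
  ∃ n0 : ℕ, ∀ n : ℕ, n0 ≤ n →
  ∑ j ∈ Finset.Icc (-(⌊A * n / L⌋₊ : ℤ)) ⌊A * n / L⌋₊, ‖MshH Q T (gcw w Q K α) r1 r2 n j‖ ^ 2 ≤ ε

/-- (M10) the interface for every form `Hyp` of discriminant `d` (from `StSmallH`, `StParH`;
fork of `MRH.MrsH90`) -/
def StMrsHw (d : ℕ) : Prop := ∀ (z : ℂ), ‖z‖ = 1 → ∀ (c0 : ℝ), 0 < c0 → ∀ w : ℕ → ℂ, B1 w →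
  ApxH d z c0 w → Fr0H d w → ∀ Q : Form, Hyp d Q → ∀ K : ℕ, 0 < K →
  ∀ a : Pell.Solution₁ (d : ℤ), PP a → PK K a → HMrsQw Q (per a) w K

/-! ### Part N: the weights of the theorem -/

/-- (N1) few vectors have a prime factor `≡ 1 mod 4 d` in a window of bounded ratio -/
def StNullH (d : ℕ) : Prop := ∀ Q : Form, Hyp d Q → ∀ T : ℝ, 0 < T → ∀ η C : ℝ, 0 < η → η < 1 →
  1 < C → ∀ ε : ℝ, 0 < ε → ∃ N0 : ℕ, ∀ N : ℕ, N0 ≤ N →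
  {v : V | Sec Q T v ∧ (Q.q v : ℝ) ≤ N ∧ ∃ p : ℕ, p.Prime ∧ p ≡ 1 [MOD 4 * d] ∧
    p ∣ (Q.q v).natAbs ∧ (N : ℝ) ^ η / C < p ∧ (p : ℝ) ≤ C * (N : ℝ) ^ η}.Finite ∧
  ({v : V | Sec Q T v ∧ (Q.q v : ℝ) ≤ N ∧ ∃ p : ℕ, p.Prime ∧ p ≡ 1 [MOD 4 * d] ∧
    p ∣ (Q.q v).natAbs ∧ (N : ℝ) ^ η / C < p ∧ (p : ℝ) ≤ C * (N : ℝ) ^ η}.ncard : ℝ) ≤ ε * N

/-- (N2) the weights are multiplicative up to small sets (from `StNullH`) -/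
def StApxH (d : ℕ) : Prop := ∀ δ : ℝ, 0 < δ → δ < 1 / 2 →
  (∀ z : ℂ, ‖z‖ = 1 → ApxH d z (1 / 4) (wz1 z (4 * d) δ)) ∧ ApxH d 1 (1 / 4) (wr (4 * d) δ)

open Classical in
/-- (F2) the primitive vectors in the classes modulo `K`: the same constant for all classes of
forms and all primitive classes -/
def StClaH (D : Dat) : Prop := ∃ κ : ℝ, 0 < κ ∧ ∀ (i : Cx D) (α : ZMod D.K × ZMod D.K),
  ((∃ v : V, Prim v ∧ cl D.K v = α) → ∀ r1 r2 : ℝ, 0 ≤ r1 → r1 < r2 →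
  Tendsto (fun N : ℝ => ((((Shg i (r1 * N) (r2 * N)).filter
    (fun v => Prim v ∧ cl D.K v = α)).card : ℝ)) / N) atTop (𝓝 (κ * (r2 - r1))))

/-- (F4) frequency `0` for `b - ρ` (from `StWinS`, `StClaH` or all frequencies, `StNullH`) -/
def StFrRH (d : ℕ) : Prop := ∀ δ : ℝ, 0 < δ → δ < 1 / 2 → Fr0H d (wr (4 * d) δ)

/-- (F5) frequency `0` for `z ^ Ω b`, `z ≠ 1` (from `MRH.StPw0G`, `StWinS`, `StNullH`, `StIdH`) -/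
def StFrZH (d : ℕ) : Prop := ∀ δ : ℝ, 0 < δ → δ < 1 / 2 → ∀ (z : ℂ) (k : ℕ), 0 < k → z ^ k = 1 →
  z ≠ 1 → Fr0H d (wz1 z (4 * d) δ)

/-! ### Part E: decoupling -/

/-- the kernel with two weights -/
noncomputable def kerHW {ι : Type} (S : HSystem ι) (w1 w2 : ℕ → ℂ) (om : ι → V → V → ℂ) (i : ι)
    (v v' : V) : ℂ := om i v v' * gw w1 (S.Q i) v * gw w2 (S.Q i) v'

/-- the conclusion of Theorem E for one system and one pair of weights -/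
def HEsForW {ι : Type} [Fintype ι] (S : HSystem ι) (w1 w2 : ℕ → ℂ) : Prop :=
  ∀ (M : LMean) (K : ℕ), 0 < K → 4 * S.d ∣ K → ∀ a : Pell.Solution₁ (S.d : ℤ), PP a → PK K a →
  ∀ om : ι → V → V → ℂ, HWt S K om → ∀ (δ : ℝ) (h : ℝ → ℝ → ℝ), 0 < δ → Test δ h →
  Tendsto (fun e : ℕ => M.E (fun n => ‖∑ i, (1 / (2 : ℂ) ^ e) * ∑ j ∈ NN K e,
    (K : ℂ) * Hk (S.Q i) (per a) h (kerHW S w1 w2 om i) (j : ℤ) n‖)) atTop (𝓝 0)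

/-- the bilinear function of the level for two weights -/
noncomputable def HPsW {ι : Type} [Fintype ι] (S : HSystem ι) (τ : ℝ) (w1 w2 : ℕ → ℂ) (K : ℕ)
    [NeZero K] (om : ι → V → V → ℂ) (G1 G2 : ℝ → ℝ → ℝ) (L x : ℝ) : ℂ :=
  ∑ i, ∑ α : ZMod K × ZMod K, ∑ β : ZMod K × ZMod K, if wz α β = 1 then
    om i (rz α) (rz β) * ((1 / (2 * Real.pi) : ℂ) * ∫ θ in (0 : ℝ)..(2 * Real.pi),
      hmm (S.Q i) τ (gcw w1 (S.Q i) K α) G1 L x θ *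
        hmm (S.Q i) τ (gcw w2 (S.Q i) K β) G2 L x θ) else 0

/-- (E1) the bilinear functions of the level tend to zero in mean (fork of the H version of
`psi_null90` in `MRH`) -/
def StPsiHW : Prop := ∀ (M : LMean) (ι : Type) [Fintype ι] (S : HSystem ι) (w1 w2 : ℕ → ℂ),
  B1 w1 → B1 w2 → ∀ (K : ℕ) [NeZero K] (a : Pell.Solution₁ (S.d : ℤ)), PP a → PK K a →
  ((∀ i, HMrsQw (S.Q i) (per a) w1 K) ∨ (∀ i, HMrsQw (S.Q i) (per a) w2 K)) →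
  ∀ om : ι → V → V → ℂ, HWt S K om → ∀ (B : ℝ) (G1 G2 : ℝ → ℝ → ℝ), GT B G1 → GT B G2 →
  Tendsto (fun L : ℝ => M.E (fun n => ‖HPsW S (tauH a) w1 w2 K om G1 G2 L n‖)) atTop (𝓝 0)

/-- (E2) Theorem E (from `StPsiHW`, `HY.StHRedS`) -/
def StEsHW : Prop := ∀ (ι : Type) [Fintype ι] (S : HSystem ι) (w1 w2 : ℕ → ℂ), B1 w1 → B1 w2 →
  ((∀ i, ∀ K : ℕ, 0 < K → ∀ a : Pell.Solution₁ (S.d : ℤ), PP a → PK K a →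
      HMrsQw (S.Q i) (per a) w1 K) ∨
    (∀ i, ∀ K : ℕ, 0 < K → ∀ a : Pell.Solution₁ (S.d : ℤ), PP a → PK K a →
      HMrsQw (S.Q i) (per a) w2 K)) →
  HEsForW S w1 w2

/-- the weight is multiplicative outside a set of density zero -/
def DilHW {ι : Type} [Fintype ι] (S : HSystem ι) (z : ℂ) (w : ℕ → ℂ) : Prop :=
  ∀ p : ℕ, p.Prime → p ≡ 1 [MOD 4 * S.d] → ∀ T : ℝ, 0 < T → ∀ ε : ℝ, 0 < ε → ∃ n0 : ℕ,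
  ∀ n : ℕ, n0 ≤ n → ∀ i,
  {v : V | Sec (S.Q i) T v ∧ ((S.Q i).q v : ℝ) ≤ n ∧ w (p * ((S.Q i).q v).natAbs) ≠
    z * w ((S.Q i).q v).natAbs}.Finite ∧
  ({v : V | Sec (S.Q i) T v ∧ ((S.Q i).q v : ℝ) ≤ n ∧ w (p * ((S.Q i).q v).natAbs) ≠
    z * w ((S.Q i).q v).natAbs}.ncard : ℝ) ≤ ε * n

/-- (N3) the weights satisfy `DilHW` (from `StNullH`) -/
def StDilNH : Prop := ∀ (ι : Type) [Fintype ι] (S : HSystem ι) (δ : ℝ), 0 < δ → δ < 1 / 2 →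
  (∀ z : ℂ, ‖z‖ = 1 → DilHW S z (wz1 z (4 * S.d) δ)) ∧ DilHW S 1 (wr (4 * S.d) δ) ∧
  DilHW S 1 (fun _ => 1)

/-- (E3) dilation for fixed large `n` (fork of `HY.Dils1`) -/
def StDilsHW : Prop := ∀ (ι : Type) [Fintype ι] (S : HSystem ι) (z1 z2 : ℂ) (w1 w2 : ℕ → ℂ),
  ‖z1‖ = 1 → ‖z2‖ = 1 → B1 w1 → B1 w2 → DilHW S z1 w1 → DilHW S z2 w2 →
  ∀ (K : ℕ), 0 < K → ∀ om : ι → V → V → ℂ, HWt S K om →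
  ∀ a : Pell.Solution₁ (S.d : ℤ), PP a →
  ∀ (δ : ℝ) (h : ℝ → ℝ → ℝ), 0 < δ → Test δ h → ∃ C : ℝ, ∀ p : ℕ, p.Prime →
  p ≡ 1 [MOD 4 * S.d] → p ≡ 1 [MOD K] → ∃ n0 : ℕ, ∀ n : ℕ, n0 ≤ n → ∀ i,
  ‖(p : ℂ) * Hk (S.Q i) (per a) h (res (Im (S.M p i)) (kerHW S w1 w2 om i)) (p : ℤ) n
    - z1 * z2 * Hk (S.Q (S.s p i)) (per a) h (kerHW S w1 w2 om (S.s p i)) 1 ((n : ℝ) / p)‖
      ≤ C / p

/-- (E4) Theorem A for two weights with finitely many values (fork of the proof of `HY.StHAm`) -/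
def StAmHW : Prop := ∀ (ι : Type) [Fintype ι] (S : HSystem ι) (z1 z2 : ℂ) (w1 w2 : ℕ → ℂ),
  ‖z1‖ = 1 → ‖z2‖ = 1 → B1 w1 → B1 w2 → (Set.range w1).Finite → (Set.range w2).Finite →
  DilHW S z1 w1 → DilHW S z2 w2 → HEsForW S w1 w2 → ∀ (K : ℕ), 0 < K → ∀ om : ι → V → V → ℂ,
  HWt S K om → ∀ a : Pell.Solution₁ (S.d : ℤ), PP a → ∀ M : LMean,
  HNullM M S.Q (per a) (kerHW S w1 w2 om)

/-! ### Part T: the polynomial -/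

/-- (T1) the twisted theorem (fork of `HY.TwM68`, `MRH` version of `twJ90`) -/
def StTwHW : Prop := ∀ a b c : ℤ, 0 < a → ∀ d : ℕ, b ^ 2 - 4 * a * c = d → ¬ IsSquare d →
  ∀ w1 w2 : ℕ → ℂ, B1 w1 → B1 w2 → ∀ M : LMean,
  (∀ (ι : Type) [Fintype ι] (S : HSystem ι), S.d = d → ∀ (K : ℕ), 0 < K →
    ∀ om : ι → V → V → ℂ, HWt S K om → ∀ e : Pell.Solution₁ (S.d : ℤ), PP e →
    HNullM M S.Q (per e) (kerHW S w1 w2 om)) →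
  ∀ (h : ℕ), 0 < h → ∀ (t0 : ℕ) (α β : ℝ), 0 < α → α < β →
  M.E (fun N : ℕ => ‖TwW a b c α β h t0 w1 w2 N‖ / N) = 0

/-- (T2) the twisted sums of the theorem vanish in mean -/
def StTwBH : Prop := ∀ a b c : ℤ, 0 < a → ∀ d : ℕ, b ^ 2 - 4 * a * c = d → ¬ IsSquare d →
  ∀ δ : ℝ, 0 < δ → δ < 1 / 2 → ∀ (h : ℕ), 0 < h → ∀ (t0 : ℕ) (α β : ℝ), 0 < α → α < β →
  ∀ M : LMean, (∀ (z1 z2 : ℂ) (k : ℕ), 0 < k → z1 ^ k = 1 → z2 ^ k = 1 → (z1 ≠ 1 ∨ z2 ≠ 1) →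
    M.E (fun N : ℕ => ‖TwW a b c α β h t0 (wz1 z1 (4 * d) δ) (wz1 z2 (4 * d) δ) N‖ / N) = 0) ∧
  M.E (fun N : ℕ => ‖TwW a b c α β h t0 (bb (4 * d) δ) (bb (4 * d) δ) N - (rho (4 * d) δ : ℂ) ^ 2 *
    TwW a b c α β h t0 (fun _ => 1) (fun _ => 1) N‖ / N) = 0

/-- (T3) the count (from `StTwBH`, `HY.StHMainS`, Fourier inversion) -/
def StFinHW : Prop := ∀ a b c : ℤ, 0 < a → ∀ d : ℕ, b ^ 2 - 4 * a * c = d → ¬ IsSquare d →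
  ∀ δ : ℝ, 0 < δ → δ < 1 / 2 → ∀ (h : ℕ), 0 < h → ∀ (t0 : ℕ) (α β : ℝ), 0 < α → α < β →
  ∀ κ : ℝ, 0 < κ →
  Tendsto (fun N : ℕ => (CST a b c α β h t0 1 0 0 N : ℝ) / N) atTop (𝓝 κ) →
  ∀ k : ℕ, 0 < k → ∀ r s : ℕ, ∀ M : LMean,
  M.E (fun N : ℕ => |(CW a b c α β h t0 (4 * d) δ k r s N : ℝ) / N -
    rho (4 * d) δ ^ 2 * κ / k ^ 2|) = 0

/-- (T4a) the pairs with both windows -/
def StEndAH : Prop := ∀ a b c : ℤ, 0 < a → ∀ d : ℕ, b ^ 2 - 4 * a * c = d → ¬ IsSquare d →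
  ∀ (h t₀ : ℕ), 0 < h → ∀ (α β : ℝ), 0 < α → α < β →
  ∃ κ : ℝ, 0 < κ ∧ Tendsto (fun N : ℕ => (pairCount a b c h t₀ α β (fun _ _ => True) N : ℝ) / N)
    atTop (𝓝 κ) ∧ ∀ δ : ℝ, 0 < δ → δ < 1 / 2 → ∀ k : ℕ, 0 < k → ∀ r s : ℕ,
    (∀ ε : ℝ, 0 < ε → LogNull {N | ε < |(pairCount a b c h t₀ α β (fun t e => Win (4 * d) δ e ∧
      Win (4 * d) δ (a.natAbs * ((fv a b c t).natAbs / e)) ∧ Omn e ≡ r [MOD k] ∧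
      Omn ((fv a b c t).natAbs / e) ≡ s [MOD k]) N : ℝ) / N - rho (4 * d) δ ^ 2 * κ / k ^ 2|}) ∧
    ∃ η : ℝ, 0 < η ∧ ∀ᶠ N : ℕ in atTop,
      η * N ≤ pairCount a b c h t₀ α β (fun t e => Win (4 * d) δ e ∧
        Win (4 * d) δ (a.natAbs * ((fv a b c t).natAbs / e)) ∧ Omn e ≡ r [MOD k] ∧
        Omn ((fv a b c t).natAbs / e) ≡ s [MOD k]) N

open Classical in
/-- (T4b) the arguments `t` (from `StEndAH` and `UW`) -/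
def StEndBH : Prop := ∀ a b c : ℤ, 0 < a → ∀ d : ℕ, b ^ 2 - 4 * a * c = d → ¬ IsSquare d →
  ∀ (h t₀ : ℕ), 0 < h → ∀ δ : ℝ, 0 < δ → ∀ k : ℕ, 0 < k → ∀ r : ℕ, ∀ ε : ℝ, 0 < ε →
  ∀ᶠ N : ℕ in atTop, (N : ℝ) / Real.log N ^ (Real.log 2 + ε) ≤
    (((Finset.Icc 1 N).filter (fun t : ℕ => t ≡ t₀ [MOD h] ∧ MPQ a b c δ k r t)).card : ℝ)

end Pool.Agent.Lib.MP_a17b09_nt.PQH
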