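import Pool.Agent.Lib.MP_a17b09_nt.PQH.Stmts99
import Pool.Agent.Lib.MP_a17b09_nt.MRH.Up70
import Pool.Agent.Lib.MP_a17b09_nt.PQ.F4_42

/-!
PQH (MP_a17b09_nt), row F4: the frequencies `0` of the weight `b - ρ` tend to zero, positive
discriminant.  helper42.  Fork of `PQ/F4_42`.
-/

set_option autoImplicit false

open Filter Topology Finset

namespace Pool.Agent.Lib.MP_a17b09_nt.PQH

open CH CH.PE HY HY.S68 MRH
open PQ (B1 Wy gw gcw Win WinN bb bN rho wz1 wr StSchW StWinS StRho TwW CW MPQ)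
open PQ.F42 (WN mem_WN win_diffN)

namespace F42

/-- the count of `StNullH` for the sector of the class `i` -/
theorem few {D : Dat} (hNull : StNullH D.d) (i : Cx D) {δ : ℝ} (h0 : 0 < δ) (h1 : δ < 1 / 2)
    {r1 r2 : ℝ} (hr1 : 0 < r1) (hr12 : r1 < r2) (ε : ℝ) (hε : 0 < ε) : ∃ N0 : ℝ, ∀ N : ℝ, N0 ≤ N →
    ∀ B : Finset V, (∀ v ∈ B, v ∈ Shg i (r1 * N) (r2 * N) ∧
      ¬ (Win (4 * D.d) δ ((rp i).q v).natAbs ↔ WinN (4 * D.d) δ N ((rp i).q v).natAbs)) →
    (B.card : ℝ) ≤ ε * N := by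
  classical
  have hr2 : 0 < r2 := hr1.trans hr12
  have hi : 0 < 1 / r1 := by positivity
  set C : ℝ := (1 + r2) * (1 + r2 + 1 / r1) with hC
  have hC1 : 1 < C := by
    rw [hC]
    nlinarith [mul_pos hr2 hi, mul_pos hr2 hr2]
  have hε' : 0 < ε / (2 * (1 + r2)) := by positivity
  obtain ⟨M1, hM1⟩ := hNull (rp i) (rp_hyp i) D.T D.T_pos (1 - δ) C (by linarith) (by linarith)
    hC1 (ε / (2 * (1 + r2))) hε'
  obtain ⟨M2, hM2⟩ := hNull (rp i) (rp_hyp i) D.T D.T_pos (1 - δ / 2) C (by linarith)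
    (by linarith) hC1 (ε / (2 * (1 + r2))) hε'
  refine ⟨max (max (M1 : ℝ) M2) (max (1 / r2) 1), fun N hN B hBm => ?_⟩
  have hN1 : (M1 : ℝ) ≤ N := (le_max_left _ _).trans ((le_max_left _ _).trans hN)
  have hN2 : (M2 : ℝ) ≤ N := (le_max_right _ _).trans ((le_max_left _ _).trans hN)
  have hN3 : 1 / r2 ≤ N := (le_max_left _ _).trans ((le_max_right _ _).trans hN)
  have hN4 : 1 ≤ N := (le_max_right _ _).trans ((le_max_right _ _).trans hN)
  have hNp : 0 < N := by linarith
  have hN5 : 1 ≤ r2 * N := by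
    rw [div_le_iff₀ hr2] at hN3
    linarith
  set n : ℕ := ⌊(1 + r2) * N⌋₊ with hn
  have hnu : (n : ℝ) ≤ (1 + r2) * N := Nat.floor_le (by positivity)
  have hnl : N ≤ n := by
    have h2 : (1 + r2) * N < n + 1 := Nat.lt_floor_add_one _
    have h3 : (1 + r2) * N = N + r2 * N := by ring
    linarith
  have hnp : (0 : ℝ) < n := lt_of_lt_of_le hNp hnl
  obtain ⟨hF1, hA1⟩ := hM1 n (by exact_mod_cast hN1.trans hnl)
  obtain ⟨hF2, hA2⟩ := hM2 n (by exact_mod_cast hN2.trans hnl)
  set A1 : Set V := {v : V | Sec (rp i) D.T v ∧ ((rp i).q v : ℝ) ≤ n ∧ ∃ p : ℕ, p.Prime ∧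
    p ≡ 1 [MOD 4 * D.d] ∧ p ∣ ((rp i).q v).natAbs ∧ (n : ℝ) ^ (1 - δ) / C < p ∧
    (p : ℝ) ≤ C * (n : ℝ) ^ (1 - δ)} with hA1d
  set A2 : Set V := {v : V | Sec (rp i) D.T v ∧ ((rp i).q v : ℝ) ≤ n ∧ ∃ p : ℕ, p.Prime ∧
    p ≡ 1 [MOD 4 * D.d] ∧ p ∣ ((rp i).q v).natAbs ∧ (n : ℝ) ^ (1 - δ / 2) / C < p ∧
    (p : ℝ) ≤ C * (n : ℝ) ^ (1 - δ / 2)} with hA2d
  have hsub : (B : Set V) ⊆ A1 ∪ A2 := by
    intro v hv
    obtain ⟨hvS, hvw⟩ := hBm v hv
    rw [mem_Shg] at hvS
    obtain ⟨hsec, hv1, hv2⟩ := hvS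
    have hqpos := hsec.1.q_pos (rp_hyp i)
    set m : ℕ := ((rp i).q v).natAbs with hm
    have hmq : (m : ℤ) = (rp i).q v := by
      rw [hm]; exact Int.natAbs_of_nonneg hqpos.le
    have hmr : (m : ℝ) = ((rp i).q v : ℝ) := by
      rw [← hmq]
      push_cast
      rfl
    have hmn : ((rp i).q v : ℝ) ≤ n := by
      have h3 : r2 * N < n := by
        have h2 : (1 + r2) * N < n + 1 := Nat.lt_floor_add_one _
        have h3 : (1 + r2) * N = N + r2 * N := by ring
        linarith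
      linarith
    rw [← hmr] at hv1 hv2
    obtain ⟨θ, hθ, r, hr, hr1', hrm, ha, hb⟩ := win_diffN h0 h1 hr1 hr12 hNp hv1 hv2 hvw
    have hθ0 : 0 < θ := by rcases hθ with h2 | h2 <;> rw [h2] <;> linarith
    have hθ1 : θ ≤ 1 := by rcases hθ with h2 | h2 <;> rw [h2] <;> linarith
    have hNθ : 0 < N ^ θ := Real.rpow_pos_of_pos hNp θ
    have e1 : N ^ θ ≤ (n : ℝ) ^ θ := Real.rpow_le_rpow hNp.le hnl hθ0.le
    have e2 : (n : ℝ) ^ θ ≤ (1 + r2) * N ^ θ := by
      calc (n : ℝ) ^ θ ≤ ((1 + r2) * N) ^ θ := Real.rpow_le_rpow hnp.le hnu hθ0.le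
        _ = (1 + r2) ^ θ * N ^ θ := Real.mul_rpow (by linarith) hNp.le
        _ ≤ (1 + r2) * N ^ θ := by
            refine mul_le_mul_of_nonneg_right ?_ hNθ.le
            have h4 : (1 + r2) ^ θ ≤ (1 + r2) ^ (1 : ℝ) :=
              Real.rpow_le_rpow_of_exponent_le (by linarith) hθ1
            rwa [Real.rpow_one] at h4
    have hlow : (n : ℝ) ^ θ / C < r := by
      refine lt_of_le_of_lt ?_ ha
      rw [hC, div_le_div_iff₀ (by positivity) (by positivity)]
      have h3 : 0 ≤ 1 + r2 + 1 / r1 := by positivity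
      calc (n : ℝ) ^ θ * (1 + r2 + 1 / r1) ≤ (1 + r2) * N ^ θ * (1 + r2 + 1 / r1) :=
            mul_le_mul_of_nonneg_right e2 h3
        _ = N ^ θ * ((1 + r2) * (1 + r2 + 1 / r1)) := by ring
    have hup : (r : ℝ) ≤ C * (n : ℝ) ^ θ := by
      refine hb.trans ?_
      have h3 : 0 ≤ 1 + r2 + 1 / r1 := by positivity
      have h4 : 1 + r2 + 1 / r1 ≤ C := by
        rw [hC]
        nlinarith [mul_nonneg hr2.le h3]
      calc (1 + r2 + 1 / r1) * N ^ θ ≤ C * N ^ θ := mul_le_mul_of_nonneg_right h4 hNθ.le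
        _ ≤ C * (n : ℝ) ^ θ := mul_le_mul_of_nonneg_left e1 (by linarith)
    rcases hθ with h2 | h2
    · left
      rw [h2] at hlow hup
      exact ⟨hsec, hmn, r, hr, hr1', hrm, hlow, hup⟩
    · right
      rw [h2] at hlow hup
      exact ⟨hsec, hmn, r, hr, hr1', hrm, hlow, hup⟩
  have hcard : B.card ≤ A1.ncard + A2.ncard := by
    rw [← Set.ncard_coe_finset]
    exact (Set.ncard_le_ncard hsub (hF1.union hF2)).trans (Set.ncard_union_le _ _)
  have hfin : (B.card : ℝ) ≤ (A1.ncard : ℝ) + A2.ncard := by exact_mod_cast hcard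
  calc (B.card : ℝ) ≤ (A1.ncard : ℝ) + A2.ncard := hfin
    _ ≤ ε / (2 * (1 + r2)) * n + ε / (2 * (1 + r2)) * n := add_le_add hA1 hA2
    _ = ε / (1 + r2) * n := by field_simp; ring
    _ ≤ ε / (1 + r2) * ((1 + r2) * N) := mul_le_mul_of_nonneg_left hnu (by positivity)
    _ = ε * N := by field_simp

/-- the primes of the window are split and prime to `K` -/
theorem adm {D : Dat} {p : ℕ} (b : Bool) (hp : p.Prime) (h4 : p ≡ 1 [MOD 4 * D.d])
    (hKp : D.K < p) : Adm D (p, b) := by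
  have hs := split_of_mod D.d_pos hp h4
  obtain ⟨r, -, hr⟩ := hs.2
  have c1 : Nat.Coprime p (4 * D.d) := by
    have := Nat.ModEq.gcd_eq h4
    rw [Nat.gcd_one_left] at this
    exact this
  have c3 : Nat.Coprime p (2 * D.d) := Nat.Coprime.coprime_dvd_right ⟨2, by ring⟩ c1
  refine ⟨hp, fun h => ?_, r, hr⟩
  rcases (Nat.Prime.dvd_mul hp).1 h with h5 | h5
  · exact (Nat.Prime.coprime_iff_not_dvd hp).mp c3 h5
  · exact absurd (Nat.le_of_dvd D.Kpos h5) (not_le.2 hKp)

open Classical in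
/-- the generic frequency `0` (helper12), as an interface -/
def FreqOne (D : Dat) : Prop := ∀ r1 r2 : ℝ, 0 ≤ r1 → r1 < r2 → ∀ f : Fq D, f.1 = 0 →
  ∀ ε : ℝ, 0 < ε → ∃ X0 : ℝ, 1 ≤ X0 ∧ ∀ N : ℝ, ∀ W : Finset ℕ, (∀ p ∈ W, ∀ b, Adm D (p, b)) →
    (∀ p ∈ W, X0 * p ≤ N) → (∀ p ∈ W, ∀ p' ∈ W, r2 * N < (p : ℝ) * p') →
    ‖(1 / (N : ℂ)) * ∑ i, ∑ v ∈ (Shg i (r1 * N) (r2 * N)).filter Prim,
      ((if ∃ p ∈ W, (p : ℤ) ∣ (rp i).q v then (1 : ℂ) else 0) -
        ((∑ p ∈ W, 2 / (p : ℝ) : ℝ) : ℂ)) * ch f i v‖ ≤ ε * ∑ p ∈ W, 2 / (p : ℝ)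

end F42

open F42 in
/-- **(F4)** -/
theorem stFrRH_of (d : ℕ) (hNull : StNullH d) (hF1 : ∀ D : Dat, D.d = d → FreqOne D) :
    StFrRH d := by
  classical
  intro δ h0 h1 D hD r1 r2 hr1 hr12 e
  have hFO := hF1 D hD
  subst hD
  have hd : 0 < D.d := D.d_pos
  have hr2 : 0 < r2 := hr1.trans hr12
  set q : ℕ := 4 * D.d with hq
  set f : Fq D := ⟨0, e⟩ with hf
  have hWin := PQ.stWinS_7 q (by omega) δ h0 h1
  set Rt : ℝ → ℝ := fun N => ∑ p ∈ WN q δ N, 2 / (p : ℝ) with hRt
  have hRtl : Tendsto Rt atTop (𝓝 (rho q δ)) := by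
    have h2 := hWin.const_mul 2
    have h3 : rho q δ = 2 * (1 / (Nat.totient q : ℝ) * Real.log ((1 - δ / 2) / (1 - δ))) := by
      unfold rho
      ring
    rw [h3]
    refine h2.congr fun N => ?_
    rw [hRt, Finset.mul_sum]
    simp only
    unfold WN
    have h4 : ∀ p : ℕ, (2 : ℝ) * (1 / (p : ℝ)) = 2 / (p : ℝ) := fun p => by ring
    simp only [h4]
  rw [Metric.tendsto_atTop]
  intro ε hε
  set T : ℝ := UpH70.CT D * r2 with hT
  have hT0 : 0 ≤ T := mul_nonneg (UpH70.CT_nonneg D) hr2.le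
  set c : ℝ := (Fintype.card (Cx D) : ℝ) with hc
  have hc0 : 0 ≤ c := by rw [hc]; positivity
  obtain ⟨X0, hX0, hfreq⟩ := hFO r1 r2 hr1.le hr12 f rfl
    (ε / (4 * (|rho q δ| + 1))) (by positivity)
  choose N1 hN1 using fun i : Cx D => few hNull i h0 h1 hr1 hr12 (ε / (4 * (c + 1)))
    (by positivity)
  have ev1 : ∀ᶠ N : ℝ in atTop, ∀ i : Cx D, N1 i ≤ N :=
    Filter.eventually_all.2 fun i => eventually_ge_atTop (N1 i)
  have ev2 : ∀ᶠ N : ℝ in atTop, |Rt N - rho q δ| < min 1 (ε / (4 * (T + 1))) := by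
    have := (Metric.tendsto_nhds.1 hRtl) (min 1 (ε / (4 * (T + 1)))) (by positivity)
    filter_upwards [this] with N hN
    rwa [Real.dist_eq] at hN
  have ev3 : ∀ᶠ N : ℝ in atTop, X0 ≤ N ^ (δ / 2) :=
    (tendsto_rpow_atTop (by linarith)).eventually (eventually_ge_atTop X0)
  have ev4 : ∀ᶠ N : ℝ in atTop, r2 ≤ N ^ (1 - 2 * δ) :=
    (tendsto_rpow_atTop (by linarith)).eventually (eventually_ge_atTop r2)
  have ev5 : ∀ᶠ N : ℝ in atTop, (D.K : ℝ) ≤ N ^ (1 - δ) :=
    (tendsto_rpow_atTop (by linarith)).eventually (eventually_ge_atTop (D.K : ℝ))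
  have evAll : ∀ᶠ N : ℝ in atTop, dist (Mph (wr q δ) r1 r2 N f) 0 < ε := by
    filter_upwards [ev1, ev2, ev3, ev4, ev5, eventually_ge_atTop 1] with N e1 e2 e3 e4 e5 e6
    have hNp : 0 < N := by linarith
    have hNC : (N : ℂ) ≠ 0 := by exact_mod_cast hNp.ne'
    have hF := hfreq N (WN q δ N) (fun p hp b => by
        rw [mem_WN hNp.le] at hp
        exact adm b hp.1 hp.2.1 (by exact_mod_cast lt_of_le_of_lt e5 hp.2.2.1))
      (fun p hp => by
        rw [mem_WN hNp.le] at hp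
        calc X0 * (p : ℝ) ≤ N ^ (δ / 2) * N ^ (1 - δ / 2) :=
              mul_le_mul e3 hp.2.2.2 (by positivity) (by positivity)
          _ = N := by
              rw [← Real.rpow_add hNp, show δ / 2 + (1 - δ / 2) = 1 by ring, Real.rpow_one])
      (fun p hp p' hp' => by
        rw [mem_WN hNp.le] at hp hp'
        have h5 : 0 < N ^ (1 - δ) := Real.rpow_pos_of_pos hNp _
        calc r2 * N ≤ N ^ (1 - 2 * δ) * N := mul_le_mul_of_nonneg_right e4 hNp.le
          _ = N ^ (1 - δ) * N ^ (1 - δ) := by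
              rw [← Real.rpow_add hNp]
              nth_rewrite 2 [← Real.rpow_one N]
              rw [← Real.rpow_add hNp]
              congr 1
              ring
          _ < (p : ℝ) * p' := by
              have h6 := hp.2.2.1
              have h7 := hp'.2.2.1
              nlinarith)
    have hRabs : |Rt N| ≤ |rho q δ| + 1 := by
      have h5 : |Rt N - rho q δ| < 1 := lt_of_lt_of_le e2 (min_le_left _ _)
      have h6 : |Rt N| ≤ |Rt N - rho q δ| + |rho q δ| := by
        have := abs_add_le (Rt N - rho q δ) (rho q δ)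
        rwa [sub_add_cancel] at this
      linarith
    set Z : ℂ := (1 / (N : ℂ)) * ∑ i : Cx D, ∑ v ∈ (Shg i (r1 * N) (r2 * N)).filter Prim,
      ((if ∃ p ∈ WN q δ N, (p : ℤ) ∣ (rp i).q v then (1 : ℂ) else 0) -
        ((Rt N : ℝ) : ℂ)) * ch f i v with hZ
    have hF' : ‖Z‖ ≤ ε / 4 := by
      refine (le_trans (le_of_eq ?_) hF).trans ?_
      · rw [hZ]
      · have h5 : ε / (4 * (|rho q δ| + 1)) * Rt N ≤
            ε / (4 * (|rho q δ| + 1)) * (|rho q δ| + 1) :=
          mul_le_mul_of_nonneg_left ((le_abs_self _).trans hRabs) (by positivity)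
        refine h5.trans (le_of_eq ?_)
        have : |rho q δ| + 1 ≠ 0 := by positivity
        field_simp
    -- the difference of the two sums
    have hdiff : ‖Mph (wr q δ) r1 r2 N f - Z‖ ≤ ε / 4 + ε / 4 := by
      rw [hZ]
      unfold Mph
      rw [← mul_sub, ← Finset.sum_sub_distrib, norm_mul, norm_div, norm_one, Complex.norm_real,
        Real.norm_of_nonneg hNp.le]
      have hterm : ∀ i : Cx D, ‖(∑ v ∈ (Shg i (r1 * N) (r2 * N)).filter Prim,
          gw (wr q δ) (rp i) v * ch f i v) - ∑ v ∈ (Shg i (r1 * N) (r2 * N)).filter Prim,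
          ((if ∃ p ∈ WN q δ N, (p : ℤ) ∣ (rp i).q v then (1 : ℂ) else 0) -
            ((Rt N : ℝ) : ℂ)) * ch f i v‖ ≤ ε / (4 * (c + 1)) * N +
          |Rt N - rho q δ| * ((UpH70.card_Shg i).choose * (r2 * N)) := by
        intro i
        rw [← Finset.sum_sub_distrib]
        set S := Shg i (r1 * N) (r2 * N) with hS
        set B := S.filter (fun v => ¬ (Win q δ ((rp i).q v).natAbs ↔
          WinN q δ N ((rp i).q v).natAbs)) with hB
        have hpt : ∀ v ∈ S.filter Prim, ‖gw (wr q δ) (rp i) v * ch f i v -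
            ((if ∃ p ∈ WN q δ N, (p : ℤ) ∣ (rp i).q v then (1 : ℂ) else 0) -
            ((Rt N : ℝ) : ℂ)) * ch f i v‖ ≤ (if v ∈ B then 1 else 0) + |Rt N - rho q δ| := by
          intro v hv
          rw [Finset.mem_filter] at hv
          have hvS := hv.1
          have hch : ‖ch f i v‖ ≤ 1 := norm_ch_le f i v
          rw [← sub_mul, norm_mul]
          have hab : ‖gw (wr q δ) (rp i) v - ((if ∃ p ∈ WN q δ N, (p : ℤ) ∣ (rp i).q v then
              (1 : ℂ) else 0) - ((Rt N : ℝ) : ℂ))‖ ≤ (if v ∈ B then 1 else 0) +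
              |Rt N - rho q δ| := by
            have hiff : (∃ p ∈ WN q δ N, (p : ℤ) ∣ (rp i).q v) ↔
                WinN q δ N ((rp i).q v).natAbs := by
              constructor
              · rintro ⟨p, hp, hpd⟩
                rw [mem_WN hNp.le] at hp
                exact ⟨p, hp.1, hp.2.1, Int.natCast_dvd.1 hpd, hp.2.2.1, hp.2.2.2⟩
              · rintro ⟨p, hp1, hp2, hp3, hp4, hp5⟩
                exact ⟨p, (mem_WN hNp.le).2 ⟨hp1, hp2, hp4, hp5⟩, Int.natCast_dvd.2 hp3⟩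
            have e7 : gw (wr q δ) (rp i) v - ((if ∃ p ∈ WN q δ N, (p : ℤ) ∣ (rp i).q v then
                (1 : ℂ) else 0) - ((Rt N : ℝ) : ℂ)) =
                ((if Win q δ ((rp i).q v).natAbs then (1 : ℂ) else 0) -
                  (if WinN q δ N ((rp i).q v).natAbs then (1 : ℂ) else 0)) +
                ((Rt N - rho q δ : ℝ) : ℂ) := by
              unfold gw wr bb
              rw [if_congr hiff rfl rfl]
              push_cast
              ring
            rw [e7]
            refine (norm_add_le _ _).trans (add_le_add ?_ ?_)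
            · by_cases hvB : v ∈ B
              · rw [if_pos hvB]
                split_ifs <;> simp
              · rw [if_neg hvB]
                have h8 : Win q δ ((rp i).q v).natAbs ↔ WinN q δ N ((rp i).q v).natAbs := by
                  by_contra h9
                  exact hvB (by rw [hB, Finset.mem_filter]; exact ⟨hvS, h9⟩)
                rw [if_congr h8 rfl rfl, sub_self, norm_zero]
            · rw [Complex.norm_real, Real.norm_eq_abs]
          calc _ ≤ ((if v ∈ B then 1 else 0) + |Rt N - rho q δ|) * 1 := by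
                refine mul_le_mul hab hch (norm_nonneg _) ?_
                exact (norm_nonneg _).trans hab
            _ = _ := mul_one _
        refine (norm_sum_le _ _).trans ((Finset.sum_le_sum hpt).trans ?_)
        rw [Finset.sum_add_distrib, Finset.sum_const, nsmul_eq_mul]
        have hcS : ((S.filter Prim).card : ℝ) ≤ (UpH70.card_Shg i).choose * (r2 * N) := by
          refine le_trans ?_ ((UpH70.card_Shg i).choose_spec.2 (r1 * N) (r2 * N) (by positivity))
          exact_mod_cast Finset.card_le_card (Finset.filter_subset _ _)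
        have hcB : ∑ v ∈ S.filter Prim, (if v ∈ B then (1 : ℝ) else 0) ≤
            ε / (4 * (c + 1)) * N := by
          have h8 : ∑ v ∈ S.filter Prim, (if v ∈ B then (1 : ℝ) else 0) =
              (((S.filter Prim).filter (fun v => v ∈ B)).card : ℝ) := by
            rw [Finset.sum_ite, Finset.sum_const_zero, add_zero, Finset.sum_const, nsmul_eq_mul,
              mul_one]
          rw [h8]
          refine hN1 i N (e1 i) _ fun v hv => ?_
          have h9 := (Finset.mem_filter.1 hv).2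
          rw [hB, Finset.mem_filter] at h9
          exact h9
        refine add_le_add hcB ?_
        rw [mul_comm]
        exact mul_le_mul_of_nonneg_left hcS (abs_nonneg _)
      calc 1 / N * ‖∑ i : Cx D, ((∑ v ∈ (Shg i (r1 * N) (r2 * N)).filter Prim,
          gw (wr q δ) (rp i) v * ch f i v) - ∑ v ∈ (Shg i (r1 * N) (r2 * N)).filter Prim,
          ((if ∃ p ∈ WN q δ N, (p : ℤ) ∣ (rp i).q v then (1 : ℂ) else 0) -
            ((Rt N : ℝ) : ℂ)) * ch f i v)‖
          ≤ 1 / N * ∑ i : Cx D, (ε / (4 * (c + 1)) * N +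
            |Rt N - rho q δ| * ((UpH70.card_Shg i).choose * (r2 * N))) := by
            refine mul_le_mul_of_nonneg_left ?_ (by positivity)
            exact (norm_sum_le _ _).trans (Finset.sum_le_sum fun i _ => hterm i)
        _ = c * (ε / (4 * (c + 1))) + |Rt N - rho q δ| * T := by
            rw [Finset.sum_add_distrib, Finset.sum_const, Finset.card_univ, nsmul_eq_mul, ← hc,
              ← Finset.mul_sum, ← Finset.sum_mul, hT]
            unfold UpH70.CT
            field_simp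
        _ ≤ ε / 4 + ε / 4 := by
            refine add_le_add ?_ ?_
            · rw [mul_div_assoc', div_le_div_iff₀ (by positivity) (by norm_num)]
              nlinarith
            · have h5 : |Rt N - rho q δ| ≤ ε / (4 * (T + 1)) := (lt_of_lt_of_le e2
                (min_le_right _ _)).le
              calc |Rt N - rho q δ| * T ≤ ε / (4 * (T + 1)) * T :=
                    mul_le_mul_of_nonneg_right h5 hT0
                _ ≤ ε / 4 := by
                    rw [div_mul_eq_mul_div, div_le_div_iff₀ (by positivity) (by norm_num)]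
                    nlinarith
    rw [dist_zero_right]
    have hfin : ‖Mph (wr q δ) r1 r2 N f‖ ≤ (ε / 4 + ε / 4) + ε / 4 := by
      have h5 := norm_add_le (Mph (wr q δ) r1 r2 N f - Z) Z
      rw [sub_add_cancel] at h5
      exact h5.trans (add_le_add hdiff hF')
    linarith
  exact Filter.eventually_atTop.1 evAll |>.imp fun N0 h N hN => h N hN

end Pool.Agent.Lib.MP_a17b09_nt.PQH
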