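import Pool.Agent.Lib.MP_a17b09_nt.PQH.Stmts99
import Pool.Agent.Lib.MP_a17b09_nt.PQ.Win22
import Pool.Agent.Lib.MP_a17b09_nt.MRH.CntH84
import Pool.Agent.Lib.MP_a17b09_nt.MRSG.StructC17

/-!
PQH, row N1 (helper22): few vectors of a sector have a prime factor `1 mod 4 d` in a window of
bounded ratio.  The vectors with `p ∣ Q v` lie in two lattices of index `p`; two vectors of one
lattice in a square of side `< √(p / K)` are equal, as `Q` does not represent zero.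
-/

set_option autoImplicit false

open Filter Topology Finset

namespace Pool.Agent.Lib.MP_a17b09_nt.PQH

open CH CH.PE HY HY.S68 MRH

namespace NH22

/-- an indefinite form of nonsquare discriminant does not represent zero -/
theorem q_zero {d : ℕ} {Q : Form} (hQ : Hyp d Q) {v : V} (h : Q.q v = 0) : v = 0 := by
  have ha : Q.a ≠ 0 := hQ.apos.ne'
  have hD := hQ.disc
  have h1 : (2 * Q.a * v.1 + Q.b * v.2) ^ 2 = (d : ℤ) * v.2 ^ 2 := by
    have h2 : 4 * Q.a * Q.q v = 0 := by rw [h, mul_zero]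
    have h3 : (d : ℤ) = Q.b ^ 2 - 4 * Q.a * Q.c := by
      unfold Form.D at hD
      linarith
    unfold Form.q at h2
    rw [h3]
    linarith
  have hv2 : v.2 = 0 := by
    by_contra hne
    apply hQ.nsq
    have h4 : v.2 ^ 2 ∣ (2 * Q.a * v.1 + Q.b * v.2) ^ 2 := ⟨d, by rw [h1]; ring⟩
    rw [Int.pow_dvd_pow_iff two_ne_zero] at h4
    obtain ⟨k, hk⟩ := h4
    rw [hk] at h1
    have h5 : k ^ 2 = d := by
      have h6 : v.2 ^ 2 * k ^ 2 = v.2 ^ 2 * d := by linarith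
      exact mul_left_cancel₀ (pow_ne_zero 2 hne) h6
    refine ⟨k.natAbs, ?_⟩
    have h7 : ((k.natAbs * k.natAbs : ℕ) : ℤ) = d := by
      rw [Int.natAbs_mul_self, ← h5]
      ring
    exact_mod_cast h7.symm
  have hv1 : v.1 = 0 := by
    rw [hv2] at h1
    have h8 : (2 * Q.a * v.1) ^ 2 = 0 := by
      have : (2 * Q.a * v.1 + Q.b * 0) ^ 2 = (d : ℤ) * 0 ^ 2 := h1
      linarith
    have h9 := pow_eq_zero_iff two_ne_zero |>.1 h8
    rcases mul_eq_zero.1 h9 with h | h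
    · rcases mul_eq_zero.1 h with h | h
      · norm_num at h
      · exact absurd h ha
    · exact h
  exact Prod.ext hv1 hv2

/-- eigenvectors: difference -/
theorem eig_sub {p r : ℤ} {Q : Form} {v w : V} (hv : Eig p r Q v) (hw : Eig p r Q w) :
    Eig p r Q (v - w) := by
  intro x
  have e : Q.B x (v - w) - r * wd x (v - w) =
      (Q.B x v - r * wd x v) - (Q.B x w - r * wd x w) := by
    unfold Form.B wd
    rw [Prod.fst_sub, Prod.snd_sub]
    ring
  rw [e]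
  exact dvd_sub (hv x) (hw x)

/-- the size of the coefficients -/
noncomputable def KQ (Q : Form) : ℝ := |(Q.a : ℝ)| + |(Q.b : ℝ)| + |(Q.c : ℝ)|

theorem q_small {Q : Form} {u : V} {s : ℝ} (h1 : |(u.1 : ℝ)| ≤ s) (h2 : |(u.2 : ℝ)| ≤ s) :
    |(Q.q u : ℝ)| ≤ KQ Q * s ^ 2 := by
  have hs : 0 ≤ s := (abs_nonneg _).trans h1
  have e : (Q.q u : ℝ) = Q.a * (u.1 * u.1) + Q.b * (u.1 * u.2) + Q.c * (u.2 * u.2) := by
    unfold Form.q
    push_cast
    ring
  have k1 : |(u.1 : ℝ) * u.1| ≤ s ^ 2 := by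
    rw [abs_mul, pow_two]
    exact mul_le_mul h1 h1 (abs_nonneg _) hs
  have k2 : |(u.1 : ℝ) * u.2| ≤ s ^ 2 := by
    rw [abs_mul, pow_two]
    exact mul_le_mul h1 h2 (abs_nonneg _) hs
  have k3 : |(u.2 : ℝ) * u.2| ≤ s ^ 2 := by
    rw [abs_mul, pow_two]
    exact mul_le_mul h2 h2 (abs_nonneg _) hs
  rw [e]
  calc |(Q.a : ℝ) * (u.1 * u.1) + Q.b * (u.1 * u.2) + Q.c * (u.2 * u.2)|
      ≤ |(Q.a : ℝ) * (u.1 * u.1)| + |(Q.b : ℝ) * (u.1 * u.2)| + |(Q.c : ℝ) * (u.2 * u.2)| :=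
        abs_add_three _ _ _
    _ = |(Q.a : ℝ)| * |(u.1 : ℝ) * u.1| + |(Q.b : ℝ)| * |(u.1 : ℝ) * u.2| +
        |(Q.c : ℝ)| * |(u.2 : ℝ) * u.2| := by
        rw [abs_mul (Q.a : ℝ), abs_mul (Q.b : ℝ), abs_mul (Q.c : ℝ)]
    _ ≤ |(Q.a : ℝ)| * s ^ 2 + |(Q.b : ℝ)| * s ^ 2 + |(Q.c : ℝ)| * s ^ 2 := by
        have := mul_le_mul_of_nonneg_left k1 (abs_nonneg (Q.a : ℝ))
        have := mul_le_mul_of_nonneg_left k2 (abs_nonneg (Q.b : ℝ))
        have := mul_le_mul_of_nonneg_left k3 (abs_nonneg (Q.c : ℝ))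
        linarith
    _ = _ := by
        unfold KQ
        ring

/-- **the vectors of one lattice in a box** -/
theorem eig_count {d : ℕ} {Q : Form} (hQ : Hyp d Q) {p r : ℤ} (hp : Prime p)
    (hr : ¬ p ∣ 2 * r) (hD : p ∣ r ^ 2 + Q.D) {R s : ℝ} (hs : 0 < s) (hR : 0 ≤ R)
    (hsp : KQ Q * s ^ 2 < p) (S : Finset V)
    (hS : ∀ v ∈ S, Eig p r Q v ∧ |(v.1 : ℝ)| ≤ R ∧ |(v.2 : ℝ)| ≤ R) :
    (S.card : ℝ) ≤ (2 * (R / s) + 5) ^ 2 := by
  classical
  set M : ℕ := ⌈R / s⌉₊ + 1 with hM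
  set f : V → ℤ × ℤ := fun v => (⌊(v.1 : ℝ) / s⌋, ⌊(v.2 : ℝ) / s⌋) with hf
  set T : Finset (ℤ × ℤ) := Finset.Icc (-(M : ℤ)) M ×ˢ Finset.Icc (-(M : ℤ)) M with hT
  have hMR : R / s ≤ (M : ℝ) - 1 := by
    rw [hM]
    push_cast
    have := Nat.le_ceil (R / s)
    linarith
  have hfl : ∀ x : ℝ, |x| ≤ R → ⌊x / s⌋ ∈ Finset.Icc (-(M : ℤ)) M := by
    intro x hx
    have h1 : |x / s| ≤ R / s := by
      rw [abs_div, abs_of_pos hs]
      exact div_le_div_of_nonneg_right hx hs.le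
    obtain ⟨h2, h3⟩ := abs_le.1 h1
    rw [Finset.mem_Icc]
    constructor
    · rw [Int.le_floor]
      push_cast
      linarith
    · have h4 : (⌊x / s⌋ : ℝ) ≤ M := (Int.floor_le _).trans (by linarith)
      exact_mod_cast h4
  have hmaps : ∀ v ∈ S, f v ∈ T := by
    intro v hv
    obtain ⟨-, h1, h2⟩ := hS v hv
    rw [hT, Finset.mem_product]
    exact ⟨hfl _ h1, hfl _ h2⟩
  have hinj : Set.InjOn f S := by
    intro v hv w hw hvw
    have hv' := (hS v hv).1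
    have hw' := (hS w hw).1
    have hE := eig_sub hv' hw'
    have hdv : p ∣ Q.q (v - w) := (MRSG.dvd_q_iff hp hr hD).2 (Or.inl hE)
    have hcell : ∀ x y : ℝ, ⌊x / s⌋ = ⌊y / s⌋ → |x - y| ≤ s := by
      intro x y hxy
      have h1 := Int.abs_sub_lt_one_of_floor_eq_floor hxy
      have h2 : |x - y| = s * |x / s - y / s| := by
        rw [← sub_div, abs_div, abs_of_pos hs]
        field_simp
      rw [h2]
      nlinarith
    rw [hf] at hvw
    simp only [Prod.mk.injEq] at hvw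
    have k1 : |((v - w).1 : ℝ)| ≤ s := by
      have := hcell _ _ hvw.1
      rw [Prod.fst_sub]
      push_cast
      exact this
    have k2 : |((v - w).2 : ℝ)| ≤ s := by
      have := hcell _ _ hvw.2
      rw [Prod.snd_sub]
      push_cast
      exact this
    have k3 := (q_small (Q := Q) k1 k2).trans_lt hsp
    have k4 : |Q.q (v - w)| < p := by exact_mod_cast k3
    have k5 : Q.q (v - w) = 0 := Int.eq_zero_of_abs_lt_dvd hdv k4
    exact sub_eq_zero.1 (q_zero hQ k5)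
  have hcard := Finset.card_le_card_of_injOn f hmaps hinj
  have hTc : (T.card : ℝ) = (2 * (M : ℝ) + 1) ^ 2 := by
    rw [hT, Finset.card_product, Int.card_Icc]
    have : ((M : ℤ) + 1 - -(M : ℤ)).toNat = 2 * M + 1 := by omega
    rw [this]
    push_cast
    ring
  have hM2 : (M : ℝ) ≤ R / s + 2 := by
    rw [hM]
    push_cast
    have := (Nat.ceil_lt_add_one (show 0 ≤ R / s by positivity)).le
    linarith
  calc (S.card : ℝ) ≤ (T.card : ℝ) := by exact_mod_cast hcard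
    _ = (2 * (M : ℝ) + 1) ^ 2 := hTc
    _ ≤ (2 * (R / s) + 5) ^ 2 := by
        apply pow_le_pow_left₀ (by positivity)
        linarith

/-- the box of the sector -/
theorem box {d : ℕ} {Q : Form} (hQ : Hyp d Q) {T : ℝ} (hT : 0 < T) : ∃ c : ℝ, 0 < c ∧
    ∀ n : ℝ, 0 ≤ n → ∀ v : V, Sec Q T v → (Q.q v : ℝ) ≤ n →
      |(v.1 : ℝ)| ≤ c * √n ∧ |(v.2 : ℝ)| ≤ c * √n := by
  have hsa := hQ.sa
  have hsd := hQ.sd
  have hsT : 0 < Real.sinh T := Real.sinh_pos_iff.2 hT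
  have hcT : 0 < Real.cosh T := Real.cosh_pos T
  set a : ℝ := √(Q.a : ℝ) with ha
  set e : ℝ := √(d : ℝ) with he
  set c2 : ℝ := 2 * a * Real.sinh T / e with hc2
  set c1 : ℝ := (Real.cosh T + |(Q.b : ℝ)| * c2 / (2 * a)) / a with hc1
  have hc20 : 0 < c2 := by positivity
  have hc10 : 0 < c1 := by positivity
  refine ⟨c1 + c2, by positivity, fun n hn v hv hq => ?_⟩
  have hsn := Real.sqrt_nonneg n
  obtain ⟨h0, h1, h2⟩ := (CntH84.sec_iff hQ hT n v).1 ⟨hv, hq⟩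
  have hX0 : 0 < hX Q v := by
    by_contra hc
    push Not at hc
    have : hX Q v * Real.sinh T ≤ 0 := mul_nonpos_of_nonpos_of_nonneg hc hsT.le
    nlinarith [mul_nonneg h0 hcT.le]
  -- `Y² ≤ n sinh² T`
  have hid := Real.cosh_sq T
  have hYb : HY.hY Q v ≤ √n * Real.sinh T := by
    apply le_of_sq_le_sq ?_ (by positivity)
    rw [mul_pow, Real.sq_sqrt hn]
    have h3 : (hY Q v * Real.cosh T) ^ 2 ≤ (hX Q v * Real.sinh T) ^ 2 :=
      pow_le_pow_left₀ (by positivity) h1.le 2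
    have h4 : hX Q v ^ 2 * Real.sinh T ^ 2 ≤ (n + hY Q v ^ 2) * Real.sinh T ^ 2 :=
      mul_le_mul_of_nonneg_right h2 (by positivity)
    rw [mul_pow, mul_pow, hid] at h3
    nlinarith
  have hXb : HY.hX Q v ≤ √n * Real.cosh T := by
    apply le_of_sq_le_sq ?_ (by positivity)
    rw [mul_pow, Real.sq_sqrt hn, hid]
    have h3 : hY Q v ^ 2 ≤ (√n * Real.sinh T) ^ 2 := pow_le_pow_left₀ h0 hYb 2
    rw [mul_pow, Real.sq_sqrt hn] at h3
    nlinarith
  have hv2 : |(v.2 : ℝ)| ≤ c2 * √n := by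
    have h3 := hQ.hY_eq v
    rw [← ha, ← he] at h3
    have h4 : (v.2 : ℝ) = HY.hY Q v * (2 * a) / e := by
      rw [h3]
      field_simp
    have h5 : 0 ≤ (v.2 : ℝ) := by
      rw [h4]
      positivity
    rw [abs_of_nonneg h5, h4, hc2]
    rw [div_le_iff₀ hsd]
    have h6 : 2 * a * Real.sinh T / e * √n * e = √n * Real.sinh T * (2 * a) := by
      field_simp
    rw [h6]
    exact mul_le_mul_of_nonneg_right hYb (by positivity)
  have hv1 : |(v.1 : ℝ)| ≤ c1 * √n := by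
    have h4 : (v.1 : ℝ) = (HY.hX Q v - Q.b * v.2 / (2 * a)) / a := by
      unfold HY.hX
      rw [← ha]
      field_simp
      ring
    rw [h4, abs_div, abs_of_pos hsa, hc1, div_mul_eq_mul_div]
    apply div_le_div_of_nonneg_right ?_ hsa.le
    calc |HY.hX Q v - Q.b * v.2 / (2 * a)| ≤ |HY.hX Q v| + |Q.b * v.2 / (2 * a)| := abs_sub _ _
      _ ≤ √n * Real.cosh T + |(Q.b : ℝ)| * (c2 * √n) / (2 * a) := by
          apply add_le_add
          · rw [abs_of_pos hX0]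
            exact hXb
          · rw [abs_div, abs_mul, abs_of_pos (show 0 < 2 * a by positivity)]
            exact div_le_div_of_nonneg_right (mul_le_mul_of_nonneg_left hv2 (abs_nonneg _))
              (by positivity)
      _ = _ := by ring
  exact ⟨hv1.trans (by nlinarith), hv2.trans (by nlinarith)⟩

/-- vectors of the sector whose value is divisible by the prime `p`, `1 mod 4 d` -/
theorem one_prime {d : ℕ} {Q : Form} (hQ : Hyp d Q) {T : ℝ} (hT : 0 < T) : ∃ C : ℝ, 0 < C ∧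
    ∀ p : ℕ, p.Prime → p ≡ 1 [MOD 4 * d] → ∀ N : ℕ, p ≤ N → ∀ S : Finset V,
    (∀ v ∈ S, Sec Q T v ∧ (Q.q v : ℝ) ≤ N ∧ p ∣ (Q.q v).natAbs) →
    (S.card : ℝ) ≤ C * (N * (1 / (p : ℝ))) := by
  classical
  obtain ⟨c, hc, hbox⟩ := box hQ hT
  set K : ℝ := KQ Q + 1 with hK
  have hKQ : 0 ≤ KQ Q := by unfold KQ; positivity
  have hK0 : 0 < K := by linarith
  set C0 : ℝ := 2 * (c * √K) + 5 with hC0
  have hC00 : 0 < C0 := by positivity
  refine ⟨2 * C0 ^ 2, by positivity, fun p hp h4 N hpN S hS => ?_⟩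
  obtain ⟨-, r, hr, hrd⟩ := split_of_mod hQ.d_pos hp h4
  have hpI : Prime (p : ℤ) := Nat.prime_iff_prime_int.1 hp
  have hp0 : (0 : ℝ) < p := by exact_mod_cast hp.pos
  have hD : (p : ℤ) ∣ r ^ 2 + Q.D := by
    rw [hQ.disc, ← sub_eq_add_neg]
    exact hrd
  have hD' : (p : ℤ) ∣ (-r) ^ 2 + Q.D := by
    rw [neg_sq]
    exact hD
  have hr' : ¬ (p : ℤ) ∣ 2 * (-r) := by
    intro h
    apply hr
    rw [mul_neg, dvd_neg] at h
    exact h
  have hN0 : (0 : ℝ) ≤ N := Nat.cast_nonneg N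
  have hNp : (1 : ℝ) ≤ (N : ℝ) / p := by
    rw [le_div_iff₀ hp0, one_mul]
    exact_mod_cast hpN
  set s : ℝ := √((p : ℝ) / K) with hs
  have hs0 : 0 < s := Real.sqrt_pos.2 (by positivity)
  have hsp : KQ Q * s ^ 2 < ((p : ℤ) : ℝ) := by
    rw [hs, Real.sq_sqrt (by positivity), Int.cast_natCast, mul_div_assoc', div_lt_iff₀ hK0, hK]
    nlinarith
  set R : ℝ := c * √(N : ℝ) with hR
  have hR0 : 0 ≤ R := by positivity
  have hRs : 2 * (R / s) + 5 ≤ C0 * √((N : ℝ) / p) := by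
    have h1 : R / s = c * √K * √((N : ℝ) / p) := by
      rw [hR, hs, Real.sqrt_div (by positivity), Real.sqrt_div (by positivity)]
      have := Real.sqrt_pos.2 hK0
      have := Real.sqrt_pos.2 hp0
      field_simp
    have h2 : (1 : ℝ) ≤ √((N : ℝ) / p) := by
      rw [Real.one_le_sqrt]
      exact hNp
    rw [h1, hC0]
    nlinarith
  have hone : ∀ ρ : ℤ, ¬ (p : ℤ) ∣ 2 * ρ → (p : ℤ) ∣ ρ ^ 2 + Q.D →
      ((S.filter (fun v => Eig p ρ Q v)).card : ℝ) ≤ C0 ^ 2 * (N * (1 / (p : ℝ))) := by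
    intro ρ h1 h2
    have h3 := eig_count hQ hpI h1 h2 hs0 hR0 hsp
      (S.filter (fun v => Eig p ρ Q v)) (by
        intro v hv
        rw [Finset.mem_filter] at hv
        obtain ⟨h5, h6, -⟩ := hS v hv.1
        exact ⟨hv.2, hbox N hN0 v h5 h6⟩)
    refine h3.trans ((pow_le_pow_left₀ (by positivity) hRs 2).trans (le_of_eq ?_))
    rw [mul_pow, Real.sq_sqrt (by positivity)]
    ring
  have hsub : S ⊆ S.filter (fun v => Eig p r Q v) ∪ S.filter (fun v => Eig p (-r) Q v) := by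
    intro v hv
    have h2 : (p : ℤ) ∣ Q.q v := Int.natCast_dvd.2 (hS v hv).2.2
    rw [Finset.mem_union, Finset.mem_filter, Finset.mem_filter]
    rcases (MRSG.dvd_q_iff hpI hr hD).1 h2 with h3 | h3
    · exact Or.inl ⟨hv, h3⟩
    · exact Or.inr ⟨hv, h3⟩
  calc (S.card : ℝ) ≤ ((S.filter (fun v => Eig p r Q v) ∪
        S.filter (fun v => Eig p (-r) Q v)).card : ℝ) := by
        exact_mod_cast Finset.card_le_card hsub
    _ ≤ ((S.filter (fun v => Eig p r Q v)).card : ℝ) +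
        ((S.filter (fun v => Eig p (-r) Q v)).card : ℝ) := by
        exact_mod_cast Finset.card_union_le _ _
    _ ≤ C0 ^ 2 * (N * (1 / (p : ℝ))) + C0 ^ 2 * (N * (1 / (p : ℝ))) :=
        add_le_add (hone _ hr hD) (hone _ hr' hD')
    _ = _ := by ring

theorem null_fin {d : ℕ} (hd : 0 < d) {Q : Form} (hQ : Hyp d Q) {T : ℝ} (hT : 0 < T)
    (η C : ℝ) (hη : 0 < η) (hη1 : η < 1)
    (hC : 1 < C) (ε : ℝ) (hε : 0 < ε) : ∃ N0 : ℕ, ∀ N : ℕ, N0 ≤ N → ∀ S : Finset V,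
    (∀ v ∈ S, Sec Q T v ∧ (Q.q v : ℝ) ≤ N ∧ ∃ p : ℕ, p.Prime ∧ p ≡ 1 [MOD 4 * d] ∧
      p ∣ (Q.q v).natAbs ∧ (N : ℝ) ^ η / C < p ∧ (p : ℝ) ≤ C * (N : ℝ) ^ η) →
    (S.card : ℝ) ≤ ε * N := by
  classical
  obtain ⟨B, hB0, hB⟩ := one_prime hQ hT
  set ε' : ℝ := min 1 (ε / (3 * B)) with hε'
  have he0 : 0 < ε' := lt_min one_pos (by positivity)
  have he1 : ε' ≤ 1 := min_le_left _ _
  have he2 : 3 * B * ε' ≤ ε := by
    have := min_le_right (1 : ℝ) (ε / (3 * B))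
    rw [← hε', le_div_iff₀ (by positivity)] at this
    linarith
  obtain ⟨X, hX2, hX⟩ := PQ.Win22.mer_small (4 * d) (by positivity) 1 (Nat.coprime_one_left _)
    ε' he0
  set A : ℝ := Real.log (2 * C) + Real.log C with hA
  have hlC : 0 < Real.log C := Real.log_pos hC
  have hl2C : 0 < Real.log (2 * C) := Real.log_pos (by linarith)
  have hA0 : 0 < A := by positivity
  have ht1 : Tendsto (fun N : ℕ => (N : ℝ) ^ η / C) atTop atTop :=
    ((tendsto_rpow_atTop hη).comp tendsto_natCast_atTop_atTop).atTop_div_const (by linarith)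
  have ht2 : Tendsto (fun N : ℕ => (N : ℝ) ^ (1 - η)) atTop atTop :=
    (tendsto_rpow_atTop (by linarith)).comp tendsto_natCast_atTop_atTop
  have hev := ((ht1.eventually_ge_atTop (max X (Real.exp (A / ε')))).and
    (ht2.eventually_ge_atTop C)).and (eventually_ge_atTop 1)
  obtain ⟨N0, hN0⟩ := eventually_atTop.1 hev
  refine ⟨N0, fun N hN S hS => ?_⟩
  obtain ⟨⟨e1, e2⟩, e3⟩ := hN0 N hN
  have hN1 : (1 : ℝ) ≤ N := by exact_mod_cast e3
  set x : ℝ := (N : ℝ) ^ η / C with hx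
  set y : ℝ := 2 * C * (N : ℝ) ^ η with hy
  have hxX : X ≤ x := (le_max_left _ _).trans e1
  have hxE : Real.exp (A / ε') ≤ x := (le_max_right _ _).trans e1
  have hNη : 0 < (N : ℝ) ^ η := by positivity
  have hx0 : 0 < x := by positivity
  have hxy : x ≤ y := by
    rw [hx, hy]
    have h1 : (N : ℝ) ^ η / C ≤ (N : ℝ) ^ η := div_le_self hNη.le hC.le
    nlinarith
  have hlx : A / ε' ≤ Real.log x := by
    rw [Real.le_log_iff_exp_le hx0]
    exact hxE
  have hlx0 : 0 < Real.log x := lt_of_lt_of_le (by positivity) hlx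
  have hly : Real.log y = Real.log x + A := by
    have h1 : y = 2 * C * (x * C) := by
      rw [hx, hy]
      field_simp
    rw [h1, Real.log_mul (by positivity) (by positivity), Real.log_mul hx0.ne' (by positivity), hA]
    ring
  set L : ℝ := Real.log (Real.log y / Real.log x) with hL
  have hL1 : L ≤ ε' := by
    have h1 : 0 < Real.log y / Real.log x := by
      rw [hly]
      positivity
    have h2 := Real.log_le_sub_one_of_pos h1
    refine h2.trans ?_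
    rw [hly, add_div, div_self hlx0.ne', add_sub_cancel_left, div_le_iff₀ hlx0]
    rw [div_le_iff₀ he0] at hlx
    linarith
  have hL0 : 0 ≤ L := Real.log_nonneg (by rw [hly, le_div_iff₀ hlx0]; linarith)
  have hmer := (abs_le.1 (hX x y hxX hxy)).2
  have hphi : 1 / (Nat.totient (4 * d) : ℝ) ≤ 1 := by
    have h1 : (1 : ℝ) ≤ Nat.totient (4 * d) := by
      have : 0 < Nat.totient (4 * d) := Nat.totient_pos.2 (by positivity)
      exact_mod_cast this
    rw [div_le_one (by linarith)]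
    exact h1
  have hsum : ∑ p ∈ MRSG.PA7 (4 * d) 1 x y, (1 : ℝ) / p ≤ 3 * ε' := by
    have h1 : 1 / (Nat.totient (4 * d) : ℝ) * L ≤ 1 * L := mul_le_mul_of_nonneg_right hphi hL0
    have h2 : ε' * (1 + L) ≤ ε' * 2 := mul_le_mul_of_nonneg_left (by linarith) he0.le
    linarith
  -- only the primes `p ≤ C N ^ η ≤ N` are needed
  set W : Finset ℕ := (MRSG.PA7 (4 * d) 1 x y).filter (fun p : ℕ => (p : ℝ) ≤ C * (N : ℝ) ^ η)
    with hW
  have hsub : S ⊆ W.biUnion (fun p => S.filter (fun v => p ∣ (Q.q v).natAbs)) := by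
    intro v hv
    obtain ⟨-, -, p, hp, hp4, hpd, hp1, hp2⟩ := hS v hv
    rw [Finset.mem_biUnion]
    refine ⟨p, ?_, ?_⟩
    · rw [hW, Finset.mem_filter, MRSG.mem_PA7]
      refine ⟨⟨hp, hp4, hp1.le, ?_⟩, hp2⟩
      rw [hy]
      nlinarith [mul_pos (show (0 : ℝ) < C by linarith) hNη]
    · rw [Finset.mem_filter]
      exact ⟨hv, hpd⟩
  have hCN : C * (N : ℝ) ^ η ≤ N := by
    calc C * (N : ℝ) ^ η ≤ (N : ℝ) ^ (1 - η) * (N : ℝ) ^ η :=
          mul_le_mul_of_nonneg_right e2 hNη.le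
      _ = N := by
          rw [← Real.rpow_add (by linarith), sub_add_cancel, Real.rpow_one]
  have hterm : ∀ p ∈ W, ((S.filter (fun v => p ∣ (Q.q v).natAbs)).card : ℝ) ≤
      B * (N * (1 / (p : ℝ))) := by
    intro p hp
    rw [hW, Finset.mem_filter, MRSG.mem_PA7] at hp
    refine hB p hp.1.1 hp.1.2.1 N ?_ _ ?_
    · exact_mod_cast hp.2.trans hCN
    · intro v hv
      rw [Finset.mem_filter] at hv
      obtain ⟨h1, h2, -⟩ := hS v hv.1
      exact ⟨h1, h2, hv.2⟩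
  have hWle : ∑ p ∈ W, (1 : ℝ) / p ≤ ∑ p ∈ MRSG.PA7 (4 * d) 1 x y, (1 : ℝ) / p :=
    Finset.sum_le_sum_of_subset_of_nonneg (Finset.filter_subset _ _) fun p _ _ => by positivity
  calc (S.card : ℝ) ≤ ((W.biUnion (fun p => S.filter (fun v => p ∣ (Q.q v).natAbs))).card : ℝ) := by
        exact_mod_cast Finset.card_le_card hsub
    _ ≤ ∑ p ∈ W, ((S.filter (fun v => p ∣ (Q.q v).natAbs)).card : ℝ) := by
        exact_mod_cast Finset.card_biUnion_le
    _ ≤ ∑ p ∈ W, B * (N * (1 / (p : ℝ))) := Finset.sum_le_sum hterm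
    _ = B * N * ∑ p ∈ W, (1 : ℝ) / p := by
        rw [Finset.mul_sum]
        exact Finset.sum_congr rfl fun p _ => by ring
    _ ≤ B * N * (3 * ε') := mul_le_mul_of_nonneg_left (hWle.trans hsum) (by positivity)
    _ = 3 * B * ε' * N := by ring
    _ ≤ ε * N := mul_le_mul_of_nonneg_right he2 (by linarith)

end NH22

open NH22 in
/-- **row N1** -/
theorem stNullH_22 (d : ℕ) : StNullH d := by
  classical
  intro Q hQ T hT η C hη hη1 hC ε hε
  obtain ⟨N0, hN0⟩ := null_fin hQ.d_pos hQ hT η C hη hη1 hC ε hε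
  obtain ⟨_, _, hcnt⟩ := CntH84.cnt hQ hT
  refine ⟨N0, fun N hN => ?_⟩
  have hfin := ((hcnt N (Nat.cast_nonneg N)).1).subset
    (show {v : V | Sec Q T v ∧ (Q.q v : ℝ) ≤ N ∧ ∃ p : ℕ, p.Prime ∧ p ≡ 1 [MOD 4 * d] ∧
      p ∣ (Q.q v).natAbs ∧ (N : ℝ) ^ η / C < p ∧ (p : ℝ) ≤ C * (N : ℝ) ^ η} ⊆
      CntH84.SS Q T N from fun v hv => ⟨hv.1, hv.2.1⟩)
  refine ⟨hfin, ?_⟩
  rw [Set.ncard_eq_toFinset_card _ hfin]
  refine hN0 N hN _ fun v hv => ?_
  rw [Set.Finite.mem_toFinset] at hv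
  exact hv

end Pool.Agent.Lib.MP_a17b09_nt.PQH
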