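import Pool.Agent.Lib.MP_a17b09_nt.PQH.Stmts99
import Pool.Agent.Lib.MP_a17b09_nt.PQ.StmtsX79

/-!
Project PX (MP_a17b09_nt), positive nonsquare discriminant: statements.  `PQ/StmtsX79` word by word
with `ApxH`, `Fr0H`, `DilHW`, `HSystem` of `PQH/Stmts99`; the definitions `GoodX`, `WinX`, `WinXN`,
`rhoX`, `bX`, `bXN`, `wzX`, `wrX`, `CWX`, `PairsX`, `ArgsX` and the rows `StWinI`, `StRhoX`, `StArgX`
are those of project PX.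
-/

set_option autoImplicit false

open Filter Topology Finset

namespace Pool.Agent.Lib.MP_a17b09_nt.PQH

open CH CH.PE HY HY.S68 MRH
open PQ (B1 Wy gw gcw TwW GoodX WinX WinXN rhoX bX bXN wzX wrX StWinI StRhoX CWX PairsX ArgsX)

/-- (XH3) the weights are multiplicative up to small sets (from `StNullH`, `StRhoX`) -/
def StApxXH (d : ℕ) : Prop := ∀ X : Finset (ℝ × ℝ), GoodX X → ∃ c0 : ℝ, 0 < c0 ∧
  (∀ z : ℂ, ‖z‖ = 1 → ApxH d z c0 (wzX z (4 * d) X)) ∧ ApxH d 1 c0 (wrX (4 * d) X)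

/-- (XH4) the weights satisfy `DilHW` (from `StNullH`) -/
def StDilNXH : Prop := ∀ (ι : Type) [Fintype ι] (S : HSystem ι) (X : Finset (ℝ × ℝ)), GoodX X →
  (∀ z : ℂ, ‖z‖ = 1 → DilHW S z (wzX z (4 * S.d) X)) ∧ DilHW S 1 (wrX (4 * S.d) X)

/-- (XH5) frequency `0` for `b - ρ` -/
def StFrRXH (d : ℕ) : Prop := ∀ X : Finset (ℝ × ℝ), GoodX X → Fr0H d (wrX (4 * d) X)

/-- (XH6) frequency `0` for `z ^ Ω b`, `z ≠ 1` -/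
def StFrZXH (d : ℕ) : Prop := ∀ X : Finset (ℝ × ℝ), GoodX X → ∀ (z : ℂ) (k : ℕ), 0 < k →
  z ^ k = 1 → z ≠ 1 → Fr0H d (wzX z (4 * d) X)

/-- (XH7) the twisted sums -/
def StTwBXH : Prop := ∀ a b c : ℤ, 0 < a → ∀ d : ℕ, b ^ 2 - 4 * a * c = d → ¬ IsSquare d →
  ∀ X Y : Finset (ℝ × ℝ), GoodX X → GoodX Y →
  ∀ (h : ℕ), 0 < h → ∀ (t0 : ℕ) (α β : ℝ), 0 < α → α < β → ∀ M : LMean,
  (∀ (z1 z2 : ℂ) (k : ℕ), 0 < k → z1 ^ k = 1 → z2 ^ k = 1 → (z1 ≠ 1 ∨ z2 ≠ 1) →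
    M.E (fun N : ℕ => ‖TwW a b c α β h t0 (wzX z1 (4 * d) X) (wzX z2 (4 * d) Y) N‖ / N) = 0) ∧
  M.E (fun N : ℕ => ‖TwW a b c α β h t0 (bX (4 * d) X) (bX (4 * d) Y) N -
    (rhoX (4 * d) X * rhoX (4 * d) Y : ℂ) *
    TwW a b c α β h t0 (fun _ => 1) (fun _ => 1) N‖ / N) = 0

/-- (XH8) the count (from `StTwBXH`, `HY.StHMainS`, Fourier inversion) -/
def StFinXH : Prop := ∀ a b c : ℤ, 0 < a → ∀ d : ℕ, b ^ 2 - 4 * a * c = d → ¬ IsSquare d →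
  ∀ X Y : Finset (ℝ × ℝ), GoodX X → GoodX Y →
  ∀ (h : ℕ), 0 < h → ∀ (t0 : ℕ) (α β : ℝ), 0 < α → α < β → ∀ κ : ℝ, 0 < κ →
  Tendsto (fun N : ℕ => (CST a b c α β h t0 1 0 0 N : ℝ) / N) atTop (𝓝 κ) →
  ∀ k : ℕ, 0 < k → ∀ r s : ℕ, ∀ M : LMean,
  M.E (fun N : ℕ => |(CWX a b c α β h t0 (4 * d) X Y k r s N : ℝ) / N -
    rhoX (4 * d) X * rhoX (4 * d) Y * κ / k ^ 2|) = 0

/-- (XH9) the pairs, positive nonsquare discriminant -/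
def StEndXH : Prop := ∀ a b c : ℤ, 0 < a → ∀ d : ℕ, b ^ 2 - 4 * a * c = d → ¬ IsSquare d →
  ∀ (h t₀ : ℕ), 0 < h → ∀ (α β : ℝ), 0 < α → α < β → PairsX a b c (4 * d) h t₀ α β

end Pool.Agent.Lib.MP_a17b09_nt.PQH
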