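import Pool.Agent.Lib.MP_a17b09_nt.PQH.T2_64
import Pool.Agent.Lib.MP_a17b09_nt.PQH.StmtsX99

/-!
Project PX, XH7 (helper98, fork of PQH/T2_64): the twisted sums with the windows `X`, `Y` vanish in
mean, positive nonsquare discriminant, from the rows XH3, XH4, XH5, XH6, X2, M10, E2, E4, T1 and the
count `StHMainS` (for the boundedness).
-/

set_option autoImplicit false

open Filter Topology Finset

namespace Pool.Agent.Lib.MP_a17b09_nt.PQH

open CH CH.PE HY HY.S68 MRH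
open PQ (B1 Wy gw gcw TwW GoodX WinX WinXN rhoX bX bXN wzX wrX StWinI StRhoX CWX PairsX ArgsX)
open PQ.T20 (b1_one fin_one TwW_le)

namespace XH98

theorem b1_bX (q : ℕ) (X : Finset (ℝ × ℝ)) : B1 (bX q X) := fun n => by
  unfold bX
  split_ifs
  · rw [norm_one]
  · rw [norm_zero]
    exact zero_le_one

theorem b1_wzX {z : ℂ} (hz : ‖z‖ = 1) (q : ℕ) (X : Finset (ℝ × ℝ)) : B1 (wzX z q X) := fun n => by
  unfold wzX
  rw [norm_mul, norm_pow, hz, one_pow, one_mul]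
  exact b1_bX q X n

theorem b1_wrX {q : ℕ} {X : Finset (ℝ × ℝ)} (h0 : 0 < rhoX q X) (h1 : rhoX q X ≤ 1) :
    B1 (wrX q X) := fun n => by
  unfold wrX bX
  split_ifs
  · have e : (1 : ℂ) - (rhoX q X : ℂ) = ((1 - rhoX q X : ℝ) : ℂ) := by
      push_cast
      ring
    rw [e, Complex.norm_real, Real.norm_eq_abs, abs_le]
    constructor <;> linarith
  · rw [zero_sub, norm_neg, Complex.norm_real, Real.norm_eq_abs, abs_of_pos h0]
    exact h1

theorem wzX_one (q : ℕ) (X : Finset (ℝ × ℝ)) : wzX 1 q X = bX q X := by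
  funext n
  unfold wzX
  rw [one_pow, one_mul]

theorem fin_wzX {z : ℂ} {k : ℕ} (hk : 0 < k) (hz : z ^ k = 1) (q : ℕ) (X : Finset (ℝ × ℝ)) :
    (Set.range (wzX z q X)).Finite := by
  have hf : (insert (0 : ℂ) ((fun j : ℕ => z ^ j) '' Set.Iio k)).Finite :=
    ((Set.finite_Iio k).image _).insert 0
  refine hf.subset ?_
  rintro x ⟨n, rfl⟩
  unfold wzX bX
  split_ifs
  · refine Set.mem_insert_of_mem _ ⟨Omn n % k, Nat.mod_lt _ hk, ?_⟩
    have e : z ^ Omn n = z ^ (Omn n % k) := by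
      conv_lhs => rw [← Nat.div_add_mod (Omn n) k]
      rw [pow_add, pow_mul, hz, one_pow, one_mul]
    show z ^ (Omn n % k) = z ^ Omn n * 1
    rw [mul_one, e]
  · rw [mul_zero]
    exact Set.mem_insert _ _

theorem fin_wrX (q : ℕ) (X : Finset (ℝ × ℝ)) : (Set.range (wrX q X)).Finite := by
  have hf : ({1 - (rhoX q X : ℂ), 0 - (rhoX q X : ℂ)} : Set ℂ).Finite := Set.toFinite _
  refine hf.subset ?_
  rintro x ⟨n, rfl⟩
  unfold wrX bX
  split_ifs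
  · exact Or.inl rfl
  · exact Or.inr rfl

/-- `b_X ⊗ b_Y - ρ_X ρ_Y = (b_X - ρ_X) ⊗ b_Y + ρ_X (1 ⊗ (b_Y - ρ_Y))` -/
theorem splitX (a b c : ℤ) (α β : ℝ) (h t0 q : ℕ) (X Y : Finset (ℝ × ℝ)) (N : ℕ) :
    TwW a b c α β h t0 (bX q X) (bX q Y) N - (rhoX q X * rhoX q Y : ℂ) *
      TwW a b c α β h t0 (fun _ => 1) (fun _ => 1) N =
    TwW a b c α β h t0 (wrX q X) (bX q Y) N + (rhoX q X : ℂ) *
      TwW a b c α β h t0 (fun _ => 1) (wrX q Y) N := by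
  unfold TwW
  rw [Finset.mul_sum, Finset.mul_sum, ← Finset.sum_sub_distrib, ← Finset.sum_add_distrib]
  refine Finset.sum_congr rfl fun t _ => ?_
  rw [Finset.mul_sum, Finset.mul_sum, ← Finset.sum_sub_distrib, ← Finset.sum_add_distrib]
  refine Finset.sum_congr rfl fun d _ => ?_
  unfold wrX
  ring

/-- the weight one -/
theorem dil_one {ι : Type} [Fintype ι] (S : HSystem ι) : DilHW S 1 (fun _ => 1) := by
  intro p _ _ T _ ε hε
  refine ⟨0, fun n _ i => ?_⟩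
  have e : {v : V | Sec (S.Q i) T v ∧ ((S.Q i).q v : ℝ) ≤ n ∧ (fun _ : ℕ => (1 : ℂ))
      (p * ((S.Q i).q v).natAbs) ≠ 1 * (fun _ : ℕ => (1 : ℂ)) ((S.Q i).q v).natAbs} = ∅ := by
    ext v
    simp
  rw [e]
  refine ⟨Set.finite_empty, ?_⟩
  rw [Set.ncard_empty]
  push_cast
  positivity

end XH98

open XH98 T2H64 in
/-- (XH7) -/
theorem stTwBXH_98 (hMrs : ∀ d : ℕ, ¬ IsSquare d → StMrsHw d)
    (hApx : ∀ d : ℕ, ¬ IsSquare d → StApxXH d) (hDil : StDilNXH)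
    (hFrR : ∀ d : ℕ, ¬ IsSquare d → StFrRXH d) (hFrZ : ∀ d : ℕ, ¬ IsSquare d → StFrZXH d)
    (hEs : StEsHW) (hAm : StAmHW) (hTw : StTwHW) (hRho : StRhoX) (hMain : StHMainS) :
    StTwBXH := by
  intro a b c ha d hd hns X Y hX hY h hh t0 α β hα hαβ M
  have hd0 : 0 < d := by
    rcases Nat.eq_zero_or_pos d with h0 | h0
    · exact absurd ⟨0, by rw [h0]⟩ hns
    · exact h0
  obtain ⟨q, hqd⟩ : ∃ q : ℕ, q = 4 * d := ⟨_, rfl⟩
  have hq3 : 3 ≤ q := by omega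
  rw [← hqd]
  have hSq : ∀ (ι : Type) [Fintype ι] (S : HSystem ι), S.d = d → 4 * S.d = q := by
    intro ι _ S hS
    rw [hS, hqd]
  -- one set of windows
  have hρ : ∀ Z : Finset (ℝ × ℝ), GoodX Z → 0 < rhoX q Z ∧ rhoX q Z ≤ 1 := fun Z hZ => hRho q hq3 Z hZ
  -- mean squares
  have hMz : ∀ Z : Finset (ℝ × ℝ), GoodX Z → ∀ (z : ℂ) (k : ℕ), 0 < k → z ^ k = 1 → z ≠ 1 →
      ∀ Q : Form, Hyp d Q → ∀ K : ℕ, 0 < K → ∀ e : Pell.Solution₁ (d : ℤ), PP e → PK K e →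
        HMrsQw Q (per e) (wzX z q Z) K := by
    intro Z hZ z k hk hz hz1 Q hQ K hK e he hke
    have hzn : ‖z‖ = 1 := Complex.norm_eq_one_of_pow_eq_one hz hk.ne'
    obtain ⟨c0, hc0, hA1, -⟩ := hApx d hns Z hZ
    rw [← hqd] at hA1
    have hFZ : Fr0H d (wzX z q Z) := by
      rw [hqd]
      exact hFrZ d hns Z hZ z k hk hz hz1
    exact hMrs d hns z hzn c0 hc0 (wzX z q Z) (b1_wzX hzn q Z) (hA1 z hzn) hFZ Q hQ
      K hK e he hke
  have hMr : ∀ Z : Finset (ℝ × ℝ), GoodX Z →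
      ∀ Q : Form, Hyp d Q → ∀ K : ℕ, 0 < K → ∀ e : Pell.Solution₁ (d : ℤ), PP e →
      PK K e → HMrsQw Q (per e) (wrX q Z) K := by
    intro Z hZ Q hQ K hK e he hke
    obtain ⟨c0, hc0, -, hA2⟩ := hApx d hns Z hZ
    rw [← hqd] at hA2
    have hFR : Fr0H d (wrX q Z) := by
      rw [hqd]
      exact hFrR d hns Z hZ
    exact hMrs d hns 1 norm_one c0 hc0 (wrX q Z) (b1_wrX (hρ Z hZ).1 (hρ Z hZ).2) hA2 hFR Q hQ
      K hK e he hke
  -- dilations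
  have hDz : ∀ Z : Finset (ℝ × ℝ), GoodX Z → ∀ z : ℂ, ‖z‖ = 1 →
      ∀ (ι : Type) [Fintype ι] (S : HSystem ι), S.d = d → DilHW S z (wzX z q Z) := by
    intro Z hZ z hz ι _ S hS
    have h1 := (hDil ι S Z hZ).1 z hz
    rwa [hSq ι S hS] at h1
  have hDr : ∀ Z : Finset (ℝ × ℝ), GoodX Z → ∀ (ι : Type) [Fintype ι] (S : HSystem ι),
      S.d = d → DilHW S 1 (wrX q Z) := by
    intro Z hZ ι _ S hS
    have h1 := (hDil ι S Z hZ).2
    rwa [hSq ι S hS] at h1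
  have hDb : ∀ Z : Finset (ℝ × ℝ), GoodX Z → ∀ (ι : Type) [Fintype ι] (S : HSystem ι),
      S.d = d → DilHW S 1 (bX q Z) := by
    intro Z hZ ι _ S hS
    have h1 := hDz Z hZ 1 norm_one ι S hS
    rwa [wzX_one] at h1
  refine ⟨?_, ?_⟩
  · intro z1 z2 k hk h1 h2 h12
    have hn1 : ‖z1‖ = 1 := Complex.norm_eq_one_of_pow_eq_one h1 hk.ne'
    have hn2 : ‖z2‖ = 1 := Complex.norm_eq_one_of_pow_eq_one h2 hk.ne'
    refine tw hEs hAm hTw ha hd hns hn1 hn2 (b1_wzX hn1 q X) (b1_wzX hn2 q Y) (fin_wzX hk h1 q X)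
      (fin_wzX hk h2 q Y) (hDz X hX z1 hn1) (hDz Y hY z2 hn2) ?_ hh t0 hα hαβ M
    rcases h12 with h12 | h12
    · exact Or.inl (hMz X hX z1 k hk h1 h12)
    · exact Or.inr (hMz Y hY z2 k hk h2 h12)
  · obtain ⟨hX0, hX1⟩ := hρ X hX
    obtain ⟨hY0, hY1⟩ := hρ Y hY
    have e1 : M.E (fun N : ℕ => ‖TwW a b c α β h t0 (wrX q X) (bX q Y) N‖ / N) = 0 :=
      tw hEs hAm hTw ha hd hns norm_one norm_one (b1_wrX hX0 hX1) (b1_bX q Y) (fin_wrX q X)
        (by rw [← wzX_one]; exact fin_wzX one_pos (one_pow 1) q Y) (hDr X hX) (hDb Y hY)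
        (Or.inl (hMr X hX)) hh t0 hα hαβ M
    have e2 : M.E (fun N : ℕ => ‖TwW a b c α β h t0 (fun _ => 1) (wrX q Y) N‖ / N) = 0 :=
      tw hEs hAm hTw ha hd hns norm_one norm_one b1_one (b1_wrX hY0 hY1) fin_one (fin_wrX q Y)
        (fun ι _ S _ => dil_one S) (hDr Y hY) (Or.inr (hMr Y hY)) hh t0 hα hαβ M
    obtain ⟨κ, -, hlim⟩ := hMain a b c ha d hd hns h hh t0 α β hα hαβ
    obtain ⟨C, hC0, hC⟩ := PQ.T64.lin_of_lim hlim
    have b1 : Bdd (fun N : ℕ => ‖TwW a b c α β h t0 (wrX q X) (bX q Y) N‖ / N) :=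
      PQ.T64.bdd_of_le hC0 (fun N => norm_nonneg _) fun N =>
        (TwW_le a b c α β h t0 (b1_wrX hX0 hX1) (b1_bX q Y) N).trans (hC N)
    have b2 : Bdd (fun N : ℕ => ‖TwW a b c α β h t0 (fun _ => 1) (wrX q Y) N‖ / N) :=
      PQ.T64.bdd_of_le hC0 (fun N => norm_nonneg _) fun N =>
        (TwW_le a b c α β h t0 b1_one (b1_wrX hY0 hY1) N).trans (hC N)
    have hle : ∀ N : ℕ, ‖TwW a b c α β h t0 (bX q X) (bX q Y) N -
        (rhoX q X * rhoX q Y : ℂ) *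
        TwW a b c α β h t0 (fun _ => 1) (fun _ => 1) N‖ / N ≤
        ‖TwW a b c α β h t0 (wrX q X) (bX q Y) N‖ / N + rhoX q X *
          (‖TwW a b c α β h t0 (fun _ => 1) (wrX q Y) N‖ / N) := by
      intro N
      rw [splitX, mul_div_assoc', ← add_div]
      refine div_le_div_of_nonneg_right ((norm_add_le _ _).trans ?_) (Nat.cast_nonneg N)
      rw [norm_mul, Complex.norm_real, Real.norm_eq_abs, abs_of_pos hX0]
    have b3 : Bdd (fun N : ℕ => ‖TwW a b c α β h t0 (bX q X) (bX q Y) N -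
        (rhoX q X * rhoX q Y : ℂ) *
        TwW a b c α β h t0 (fun _ => 1) (fun _ => 1) N‖ / N) := by
      obtain ⟨B, hB⟩ := b1.add (b2.smul (rhoX q X))
      refine ⟨B, fun N => ?_⟩
      rw [abs_of_nonneg (by positivity)]
      exact (hle N).trans ((le_abs_self _).trans (hB N))
    apply le_antisymm
    · refine (LMean.mono M b3 (b1.add (b2.smul (rhoX q X))) hle).trans ?_
      rw [M.add _ _ b1 (b2.smul (rhoX q X)), M.smul _ _ b2, e1, e2, mul_zero, add_zero]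
    · exact M.nonneg _ b3 fun N => by positivity

end Pool.Agent.Lib.MP_a17b09_nt.PQH
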