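import Pool.Agent.Lib.MP_a17b09_nt.PQH.StmtsX99
import Pool.Agent.Lib.MP_a17b09_nt.PQH.T4_64
import Pool.Agent.Lib.MP_a17b09_nt.PQ.X9_64

/-!
Project PX, positive nonsquare discriminant, modules XH8 and XH9 (helper64), and the pairs for every
nonsquare discriminant.
-/

set_option autoImplicit false

open Filter Topology Finset

namespace Pool.Agent.Lib.MP_a17b09_nt.PQH

open CH CH.PE HY HY.S68 MRH
open PQ (B1 Wy gw gcw TwW GoodX WinX WinXN rhoX bX bXN wzX wrX StWinI StRhoX CWX PairsX ArgsX)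

/-- (XH8) the count -/
theorem stFinXH_64 (hTw : StTwBXH) : StFinXH := by
  intro a b c ha d hd hns X Y hX hY h hh t0 α β hα hαβ κ _ hlim k hk r s M
  obtain ⟨hZ, hB⟩ := hTw a b c ha d hd hns X Y hX hY h hh t0 α β hα hαβ M
  exact PQ.finX_core ha hlim hk r s M (fun z1 z2 h1 h2 h3 => hZ z1 z2 k hk h1 h2 h3) hB

/-- (XH9) the pairs, positive nonsquare discriminant -/
theorem stEndXH_64 (hF : StFinXH) (hMain : StHMainS) (hU : StMeanU) (hMean : StMean)
    (hR : StRhoX) : StEndXH := by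
  intro a b c ha d hd hns h t₀ hh α β hα hαβ
  obtain ⟨κ, hκ, hlim⟩ := hMain a b c ha d hd hns h hh t₀ α β hα hαβ
  have hd0 : 0 < d := by
    rcases Nat.eq_zero_or_pos d with h0 | h0
    · exact absurd ⟨0, by rw [h0]⟩ hns
    · exact h0
  exact PQ.pairsX_core (T64.fv_ne hd hns) (4 * d) h t₀ α β hκ hlim
    (fun X hX => (hR (4 * d) (by omega) X hX).1) hU hMean (fun X Y hX hY k hk r s M =>
      hF a b c ha d hd hns X Y hX hY h hh t₀ α β hα hαβ κ hκ hlim k hk r s M)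

/-- the pairs, every nonsquare discriminant -/
theorem pairsX_all64 (hN : PQ.StEndX) (hP : StEndXH) (a b c : ℤ) (ha : 0 < a)
    (hns : ¬ IsSquare (b ^ 2 - 4 * a * c)) (q : ℕ) (hq : (q : ℤ) = 4 * |b ^ 2 - 4 * a * c|)
    (h t₀ : ℕ) (hh : 0 < h) (α β : ℝ) (hα : 0 < α) (hαβ : α < β) :
    PairsX a b c q h t₀ α β := by
  rcases lt_or_ge (b ^ 2 - 4 * a * c) 0 with hD | hD
  · exact hN a b c ha hD q (by rw [hq, abs_of_neg hD]; ring) h t₀ hh α β hα hαβ
  · obtain ⟨d, hd⟩ : ∃ d : ℕ, b ^ 2 - 4 * a * c = d := ⟨_, (Int.toNat_of_nonneg hD).symm⟩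
    have hq' : q = 4 * d := by
      rw [hd, Nat.abs_cast] at hq
      exact_mod_cast hq
    subst hq'
    refine hP a b c ha d hd ?_ h t₀ hh α β hα hαβ
    rintro ⟨s, hs⟩
    apply hns
    refine ⟨s, ?_⟩
    rw [hd, hs]
    push_cast
    ring

end Pool.Agent.Lib.MP_a17b09_nt.PQH
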