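import Pool.Agent.Lib.MP_a17b09_nt.PQH.StmtsX99
import Pool.Agent.Lib.MP_a17b09_nt.MRH.Up70
import Pool.Agent.Lib.MP_a17b09_nt.PQ.X56_42
import Pool.Agent.Lib.MP_a17b09_nt.PQ.X1_7
import Pool.Agent.Lib.MP_a17b09_nt.PQH.F4_42
import Pool.Agent.Lib.MP_a17b09_nt.PQH.FreqXH12

/-!
PX (MP_a17b09_nt), rows XH5 and XH6 (positive discriminant): the frequencies `0` of the weights
`b_X - ρ_X` and `z ^ Ω b_X` tend to zero.  helper42.  Fork of `PQ/X56_42`.
-/

set_option autoImplicit false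

open Filter Topology Finset

namespace Pool.Agent.Lib.MP_a17b09_nt.PQH

open CH CH.PE HY HY.S68 MRH
open PQ (B1 Wy gw gcw TwW GoodX WinX WinXN rhoX bX bXN wzX wrX StWinI StRhoX CWX PairsX ArgsX)
open PQ.F42X (WI mem_WI winXN_iff winX_diff cond prod_lim)
open PQ.FreqX12 (EvX)

namespace F42XH

/-! ### Few vectors -/

/-- few vectors have a prime near `N ^ θ` -/
theorem fewθ {D : Dat} (hNull : StNullH D.d) (i : Cx D) {θ : ℝ} (h0 : 0 < θ) (h1 : θ < 1)
    {r1 r2 : ℝ} (hr1 : 0 < r1) (hr12 : r1 < r2) (ε : ℝ) (hε : 0 < ε) : ∀ᶠ N : ℝ in atTop,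
    ∀ B : Finset V, (∀ v ∈ B, v ∈ Shg i (r1 * N) (r2 * N) ∧ ∃ r : ℕ, r.Prime ∧
      r ≡ 1 [MOD 4 * D.d] ∧ r ∣ ((rp i).q v).natAbs ∧ N ^ θ / (1 + r2 + 1 / r1) < r ∧
      (r : ℝ) ≤ (1 + r2 + 1 / r1) * N ^ θ) → (B.card : ℝ) ≤ ε * N := by
  classical
  have hr2 : 0 < r2 := hr1.trans hr12
  have hi : 0 < 1 / r1 := by positivity
  set C : ℝ := (1 + r2) * (1 + r2 + 1 / r1) with hC
  have hC1 : 1 < C := by
    rw [hC]
    nlinarith [mul_pos hr2 hi, mul_pos hr2 hr2]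
  have hε' : 0 < ε / (1 + r2) := by positivity
  obtain ⟨M1, hM1⟩ := hNull (rp i) (rp_hyp i) D.T D.T_pos θ C h0 h1 hC1 (ε / (1 + r2)) hε'
  filter_upwards [eventually_ge_atTop (M1 : ℝ), eventually_ge_atTop (1 / r2),
    eventually_ge_atTop 1] with N hN1 hN3 hN4 B hB
  have hNp : 0 < N := by linarith
  have hN5 : 1 ≤ r2 * N := by
    rw [div_le_iff₀ hr2] at hN3
    linarith
  set n : ℕ := ⌊(1 + r2) * N⌋₊ with hn
  have hnu : (n : ℝ) ≤ (1 + r2) * N := Nat.floor_le (by positivity)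
  have hnr : r2 * N ≤ n := by
    have h2 : (1 + r2) * N < n + 1 := Nat.lt_floor_add_one _
    have h3 : (1 + r2) * N = N + r2 * N := by ring
    linarith
  have hnl : N ≤ n := by
    have h2 : (1 + r2) * N < n + 1 := Nat.lt_floor_add_one _
    have h3 : (1 + r2) * N = N + r2 * N := by ring
    linarith
  have hnp : (0 : ℝ) < n := lt_of_lt_of_le hNp hnl
  obtain ⟨hF1, hA1⟩ := hM1 n (by exact_mod_cast hN1.trans hnl)
  set A1 : Set V := {v : V | Sec (rp i) D.T v ∧ ((rp i).q v : ℝ) ≤ n ∧ ∃ p : ℕ, p.Prime ∧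
    p ≡ 1 [MOD 4 * D.d] ∧ p ∣ ((rp i).q v).natAbs ∧ (n : ℝ) ^ θ / C < p ∧
    (p : ℝ) ≤ C * (n : ℝ) ^ θ} with hA1d
  have hsub : (B : Set V) ⊆ A1 := by
    intro v hv
    obtain ⟨hv0, r, hr, hr1', hrm, ha, hb⟩ := hB v hv
    rw [mem_Shg] at hv0
    obtain ⟨hsec, hv1, hv2⟩ := hv0
    have hNθ : 0 < N ^ θ := Real.rpow_pos_of_pos hNp θ
    have e1 : N ^ θ ≤ (n : ℝ) ^ θ := Real.rpow_le_rpow hNp.le hnl h0.le
    have e2 : (n : ℝ) ^ θ ≤ (1 + r2) * N ^ θ := by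
      calc (n : ℝ) ^ θ ≤ ((1 + r2) * N) ^ θ := Real.rpow_le_rpow hnp.le hnu h0.le
        _ = (1 + r2) ^ θ * N ^ θ := Real.mul_rpow (by linarith) hNp.le
        _ ≤ (1 + r2) * N ^ θ := by
            refine mul_le_mul_of_nonneg_right ?_ hNθ.le
            have h4 : (1 + r2) ^ θ ≤ (1 + r2) ^ (1 : ℝ) :=
              Real.rpow_le_rpow_of_exponent_le (by linarith) h1.le
            rwa [Real.rpow_one] at h4
    have h3 : 0 ≤ 1 + r2 + 1 / r1 := by positivity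
    have hlow : (n : ℝ) ^ θ / C < r := by
      refine lt_of_le_of_lt ?_ ha
      rw [hC, div_le_div_iff₀ (by positivity) (by positivity)]
      calc (n : ℝ) ^ θ * (1 + r2 + 1 / r1) ≤ (1 + r2) * N ^ θ * (1 + r2 + 1 / r1) :=
            mul_le_mul_of_nonneg_right e2 h3
        _ = N ^ θ * ((1 + r2) * (1 + r2 + 1 / r1)) := by ring
    have hup : (r : ℝ) ≤ C * (n : ℝ) ^ θ := by
      refine hb.trans ?_
      have h4 : 1 + r2 + 1 / r1 ≤ C := by
        rw [hC]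
        nlinarith [mul_nonneg hr2.le h3]
      calc (1 + r2 + 1 / r1) * N ^ θ ≤ C * N ^ θ := mul_le_mul_of_nonneg_right h4 hNθ.le
        _ ≤ C * (n : ℝ) ^ θ := mul_le_mul_of_nonneg_left e1 (by linarith)
    exact ⟨hsec, hv2.trans hnr, r, hr, hr1', hrm, hlow, hup⟩
  have hcard : (B.card : ℝ) ≤ A1.ncard := by
    have h2 := Set.ncard_le_ncard hsub hF1
    rw [Set.ncard_coe_finset] at h2
    exact_mod_cast h2
  calc (B.card : ℝ) ≤ A1.ncard := hcard
    _ ≤ ε / (1 + r2) * n := hA1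
    _ ≤ ε / (1 + r2) * ((1 + r2) * N) := mul_le_mul_of_nonneg_left hnu (by positivity)
    _ = ε * N := by field_simp

/-- few vectors of a shell see the difference between the windows of `Q v` and of `N` -/
theorem few {D : Dat} (hNull : StNullH D.d) (i : Cx D) {X : Finset (ℝ × ℝ)}
    (hX : ∀ J ∈ X, 0 < J.1 ∧ J.1 < J.2 ∧ J.2 < 1) {r1 r2 : ℝ} (hr1 : 0 < r1) (hr12 : r1 < r2)
    (ε : ℝ) (hε : 0 < ε) : ∀ᶠ N : ℝ in atTop,
    ∀ B : Finset V, (∀ v ∈ B, v ∈ Shg i (r1 * N) (r2 * N) ∧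
      ¬ (WinX (4 * D.d) X ((rp i).q v).natAbs ↔ WinXN (4 * D.d) X N ((rp i).q v).natAbs)) →
    (B.card : ℝ) ≤ ε * N := by
  classical
  set m : ℝ := (X.card : ℝ) with hm
  have hm0 : 0 ≤ m := Nat.cast_nonneg _
  have e1 : ∀ᶠ N : ℝ in atTop, ∀ J ∈ X, ∀ B : Finset V, (∀ v ∈ B, v ∈ Shg i (r1 * N) (r2 * N) ∧
      ∃ r : ℕ, r.Prime ∧ r ≡ 1 [MOD 4 * D.d] ∧ r ∣ ((rp i).q v).natAbs ∧
      N ^ J.1 / (1 + r2 + 1 / r1) < r ∧ (r : ℝ) ≤ (1 + r2 + 1 / r1) * N ^ J.1) →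
      (B.card : ℝ) ≤ ε / (2 * (m + 1)) * N :=
    (Filter.eventually_all_finset X).2 fun J hJ =>
      fewθ hNull i (hX J hJ).1 (by linarith [(hX J hJ).2.1, (hX J hJ).2.2]) hr1 hr12 _
        (by positivity)
  have e2 : ∀ᶠ N : ℝ in atTop, ∀ J ∈ X, ∀ B : Finset V, (∀ v ∈ B, v ∈ Shg i (r1 * N) (r2 * N) ∧
      ∃ r : ℕ, r.Prime ∧ r ≡ 1 [MOD 4 * D.d] ∧ r ∣ ((rp i).q v).natAbs ∧
      N ^ J.2 / (1 + r2 + 1 / r1) < r ∧ (r : ℝ) ≤ (1 + r2 + 1 / r1) * N ^ J.2) →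
      (B.card : ℝ) ≤ ε / (2 * (m + 1)) * N :=
    (Filter.eventually_all_finset X).2 fun J hJ =>
      fewθ hNull i (by linarith [(hX J hJ).1, (hX J hJ).2.1]) (hX J hJ).2.2 hr1 hr12 _
        (by positivity)
  filter_upwards [e1, e2, eventually_gt_atTop 0] with N k1 k2 hN B hB
  set P : ℝ → V → Prop := fun θ v => ∃ r : ℕ, r.Prime ∧ r ≡ 1 [MOD 4 * D.d] ∧
    r ∣ ((rp i).q v).natAbs ∧ N ^ θ / (1 + r2 + 1 / r1) < r ∧
    (r : ℝ) ≤ (1 + r2 + 1 / r1) * N ^ θ with hP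
  have hsub : B ⊆ X.biUnion fun J => B.filter (P J.1) ∪ B.filter (P J.2) := by
    intro v hv
    obtain ⟨hvS, hvw⟩ := hB v hv
    rw [mem_Shg] at hvS
    obtain ⟨hsec, hv1, hv2⟩ := hvS
    have hqpos := hsec.1.q_pos (rp_hyp i)
    set m' : ℕ := ((rp i).q v).natAbs with hm'
    have hmq : (m' : ℤ) = (rp i).q v := by
      rw [hm']; exact Int.natAbs_of_nonneg hqpos.le
    have hmr : (m' : ℝ) = ((rp i).q v : ℝ) := by
      rw [← hmq]
      push_cast
      rfl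
    rw [← hmr] at hv1 hv2
    obtain ⟨J, hJ, θ, hθ, hr⟩ := winX_diff hX hr1 hr12 hN hv1 hv2 hvw
    rw [Finset.mem_biUnion]
    refine ⟨J, hJ, ?_⟩
    rw [Finset.mem_union, Finset.mem_filter, Finset.mem_filter]
    rcases hθ with h | h
    · left
      rw [h] at hr
      exact ⟨hv, hr⟩
    · right
      rw [h] at hr
      exact ⟨hv, hr⟩
  have h1 : (B.card : ℝ) ≤ ∑ J ∈ X, (((B.filter (P J.1)).card : ℝ) + (B.filter (P J.2)).card) := by
    have h2 := (Finset.card_le_card hsub).trans Finset.card_biUnion_le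
    have h3 : ∑ J ∈ X, (B.filter (P J.1) ∪ B.filter (P J.2)).card ≤
        ∑ J ∈ X, ((B.filter (P J.1)).card + (B.filter (P J.2)).card) :=
      Finset.sum_le_sum fun J _ => Finset.card_union_le _ _
    exact_mod_cast h2.trans h3
  have h2 : ∑ J ∈ X, (((B.filter (P J.1)).card : ℝ) + (B.filter (P J.2)).card) ≤
      ∑ _J ∈ X, (ε / (2 * (m + 1)) * N + ε / (2 * (m + 1)) * N) := by
    refine Finset.sum_le_sum fun J hJ => add_le_add ?_ ?_
    · refine k1 J hJ _ fun v hv => ?_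
      rw [Finset.mem_filter] at hv
      exact ⟨(hB v hv.1).1, hv.2⟩
    · refine k2 J hJ _ fun v hv => ?_
      rw [Finset.mem_filter] at hv
      exact ⟨(hB v hv.1).1, hv.2⟩
  rw [Finset.sum_const, nsmul_eq_mul, ← hm] at h2
  refine (h1.trans h2).trans ?_
  have h3 : m * (ε / (2 * (m + 1)) * N + ε / (2 * (m + 1)) * N) = m / (m + 1) * (ε * N) := by
    field_simp
    ring
  rw [h3]
  have h4 : m / (m + 1) ≤ 1 := by
    rw [div_le_one (by positivity)]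
    linarith
  have h5 : 0 ≤ ε * N := by positivity
  nlinarith

/-- changing the weight on the exceptional vectors -/
theorem diff {D : Dat} {q : ℕ} {X : Finset (ℝ × ℝ)} {N r1 r2 e : ℝ} (hN : 0 < N)
    {w w' : ℕ → ℂ} (h1 : ∀ n, (WinX q X n ↔ WinXN q X N n) → w n = w' n)
    (h2 : ∀ n, ‖w n - w' n‖ ≤ 2)
    (hE : ∀ i : Cx D, ∀ B : Finset V, (∀ v ∈ B, v ∈ Shg i (r1 * N) (r2 * N) ∧
      ¬ (WinX q X ((rp i).q v).natAbs ↔ WinXN q X N ((rp i).q v).natAbs)) →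
      (B.card : ℝ) ≤ e * N)
    (f : Fq D) : ‖Mph w r1 r2 N f - Mph w' r1 r2 N f‖ ≤ 2 * Fintype.card (Cx D) * e := by
  classical
  unfold Mph
  rw [← mul_sub, ← sum_sub_distrib, norm_mul, norm_div, norm_one, Complex.norm_real,
    Real.norm_of_nonneg hN.le]
  have h3 : ∀ i : Cx D, ‖∑ v ∈ (Shg i (r1 * N) (r2 * N)).filter Prim, gw w (rp i) v * ch f i v -
      ∑ v ∈ (Shg i (r1 * N) (r2 * N)).filter Prim, gw w' (rp i) v * ch f i v‖ ≤ 2 * (e * N) := by
    intro i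
    rw [← sum_sub_distrib]
    refine (norm_sum_le _ _).trans ?_
    have h4 : ∀ v ∈ (Shg i (r1 * N) (r2 * N)).filter Prim,
        ‖gw w (rp i) v * ch f i v - gw w' (rp i) v * ch f i v‖ ≤
        if ¬ (WinX q X ((rp i).q v).natAbs ↔ WinXN q X N ((rp i).q v).natAbs) then 2 else 0 := by
      intro v hv
      unfold gw
      split_ifs with h
      · rw [h1 _ h, sub_self, norm_zero]
      · rw [← sub_mul, norm_mul]
        calc _ ≤ (2 : ℝ) * 1 := mul_le_mul (h2 _) (norm_ch_le f i v) (norm_nonneg _)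
              (by norm_num)
          _ = 2 := by norm_num
    refine (sum_le_sum h4).trans ?_
    rw [← sum_filter, sum_const, nsmul_eq_mul, mul_comm]
    refine mul_le_mul_of_nonneg_left (hE i _ fun v hv => ?_) (by norm_num)
    rw [mem_filter, mem_filter] at hv
    exact ⟨hv.1.1, hv.2⟩
  calc 1 / N * ‖∑ i, (∑ v ∈ (Shg i (r1 * N) (r2 * N)).filter Prim, gw w (rp i) v * ch f i v -
      ∑ v ∈ (Shg i (r1 * N) (r2 * N)).filter Prim, gw w' (rp i) v * ch f i v)‖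
      ≤ 1 / N * ∑ _i : Cx D, 2 * (e * N) := by
        refine mul_le_mul_of_nonneg_left ?_ (by positivity)
        exact (norm_sum_le _ _).trans (sum_le_sum fun i _ => h3 i)
    _ = 2 * Fintype.card (Cx D) * e := by
        rw [sum_const, card_univ, nsmul_eq_mul]
        field_simp

/-- the reduction to the fixed windows -/
theorem reduce {D : Dat} (hNull : StNullH D.d) {X : Finset (ℝ × ℝ)} (hX : GoodX X)
    {r1 r2 : ℝ} (hr1 : 0 < r1) (hr12 : r1 < r2) (w : ℕ → ℂ) (w' : ℝ → ℕ → ℂ)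
    (h1 : ∀ N n, (WinX (4 * D.d) X n ↔ WinXN (4 * D.d) X N n) → w n = w' N n)
    (h2 : ∀ N n, ‖w n - w' N n‖ ≤ 2) (f : Fq D)
    (h3 : Tendsto (fun N : ℝ => Mph (w' N) r1 r2 N f) atTop (𝓝 0)) :
    Tendsto (fun N : ℝ => Mph w r1 r2 N f) atTop (𝓝 0) := by
  have h4 : Tendsto (fun N : ℝ => Mph w r1 r2 N f - Mph (w' N) r1 r2 N f) atTop (𝓝 0) := by
    rw [Metric.tendsto_nhds]
    intro ε hε
    have h5 : ∀ᶠ N : ℝ in atTop, ∀ i : Cx D, ∀ B : Finset V,
        (∀ v ∈ B, v ∈ Shg i (r1 * N) (r2 * N) ∧ ¬ (WinX (4 * D.d) X ((rp i).q v).natAbs ↔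
          WinXN (4 * D.d) X N ((rp i).q v).natAbs)) →
        (B.card : ℝ) ≤ ε / (4 * (Fintype.card (Cx D) + 1)) * N :=
      Filter.eventually_all.2 fun i => few hNull i (PQ.F42X.GoodX.lt_one hX) hr1 hr12 _ (by positivity)
    filter_upwards [h5, eventually_gt_atTop 0] with N k1 hN
    rw [dist_zero_right]
    refine lt_of_le_of_lt (diff hN (h1 N) (h2 N) k1 f) ?_
    have h6 : (0 : ℝ) ≤ Fintype.card (Cx D) := Nat.cast_nonneg _
    rw [mul_div_assoc', div_lt_iff₀ (by positivity)]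
    nlinarith
  have h5 := h4.add h3
  simpa using h5

end F42XH

open F42XH in
/-- **(X5)** -/
theorem stFrRXH_42 (d : ℕ) (hNull : StNullH d) : StFrRXH d := by
  classical
  intro X hX D hD r1 r2 hr1 hr12 e
  subst hD
  have hd : 0 < D.d := D.d_pos
  have hW : StWinI := PQ.stWinI_7
  have hr2 : 0 < r2 := hr1.trans hr12
  set q : ℕ := 4 * D.d with hq
  set f : Fq D := ⟨0, e⟩ with hf
  refine reduce hNull hX hr1 hr12 _ (fun N n => bXN q X N n - (rhoX q X : ℂ)) (fun N n h => ?_)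
    (fun N n => ?_) f ?_
  · unfold wrX bX bXN
    rw [if_congr h rfl rfl]
  · unfold wrX bX bXN
    rw [sub_sub_sub_cancel_right]
    split_ifs <;> norm_num
  set R : ℝ → ℝ := fun N => ∏ J ∈ X, ∑ p ∈ WI q N J, 2 / (p : ℝ) with hR
  have hRl : Tendsto R atTop (𝓝 (rhoX q X)) := prod_lim hW (by omega) hX
  set T : ℝ := UpH70.CT D * r2 with hT
  have hT0 : 0 ≤ T := mul_nonneg (UpH70.CT_nonneg D) hr2.le
  set M : ℝ → ℂ := fun N => FreqH12.Mpa (fun i v => (if ∀ J ∈ X, ∃ p ∈ WI q N J,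
    (p : ℤ) ∣ (rp i).q v then (1 : ℂ) else 0) - ((R N : ℝ) : ℂ)) r1 r2 N f with hM
  -- the main part
  have hMl : Tendsto M atTop (𝓝 0) := by
    rw [Metric.tendsto_nhds]
    intro ε hε
    obtain ⟨X0, hX0, H⟩ := FreqXH12.freqX_one (D := D) r1 r2 hr1.le hr12 f rfl X
      (ε / (2 * (|rhoX q X| + 1))) (by positivity)
    have h1 : ∀ᶠ N : ℝ in atTop, R N < |rhoX q X| + 1 :=
      hRl.eventually (gt_mem_nhds (by linarith [le_abs_self (rhoX q X)]))
    filter_upwards [cond hX q D.K X0 r2, h1] with N hc hRN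
    obtain ⟨hN1, c1, c2, c3, c4, c5⟩ := hc
    have hN : 0 < N := by linarith
    have h2 := H N (WI q N) (fun J => N ^ J.1) (fun J => N ^ J.2)
      ⟨fun J hJ p hp => by
        obtain ⟨k1, k2, k3, -⟩ := c1 J hJ p hp
        exact F42.adm true k1 k2 k3,
      fun J hJ => ⟨Real.rpow_pos_of_pos hN _, fun p hp => (c1 J hJ p hp).2.2.2.1⟩,
      fun J hJ => ⟨(Real.rpow_pos_of_pos hN _).le, fun p hp => (c1 J hJ p hp).2.2.2.2⟩,
      c2⟩ c3 c4 c5
    rw [dist_zero_right]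
    have h3 : ‖M N‖ ≤ ε / (2 * (|rhoX q X| + 1)) * R N := by
      unfold EvX at h2
      rw [hM]
      convert h2
    have h4 : ε / (2 * (|rhoX q X| + 1)) * R N ≤ ε / (2 * (|rhoX q X| + 1)) * (|rhoX q X| + 1) :=
      mul_le_mul_of_nonneg_left hRN.le (by positivity)
    have h5 : ε / (2 * (|rhoX q X| + 1)) * (|rhoX q X| + 1) = ε / 2 := by
      have : |rhoX q X| + 1 ≠ 0 := by positivity
      field_simp
    linarith
  -- the difference
  have hD : ∀ N : ℝ, 0 < N → ‖Mph (fun n => bXN q X N n - (rhoX q X : ℂ)) r1 r2 N f - M N‖ ≤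
      |R N - rhoX q X| * T := by
    intro N hN
    rw [hM]
    unfold Mph FreqH12.Mpa
    rw [← mul_sub, ← sum_sub_distrib, norm_mul, norm_div, norm_one, Complex.norm_real,
      Real.norm_of_nonneg hN.le]
    have hterm : ∀ i : Cx D, ‖(∑ v ∈ (Shg i (r1 * N) (r2 * N)).filter Prim,
        gw (fun n => bXN q X N n - (rhoX q X : ℂ)) (rp i) v * ch f i v) -
        ∑ v ∈ (Shg i (r1 * N) (r2 * N)).filter Prim,
        ((if ∀ J ∈ X, ∃ p ∈ WI q N J, (p : ℤ) ∣ (rp i).q v then (1 : ℂ) else 0) -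
          ((R N : ℝ) : ℂ)) * ch f i v‖ ≤
        |R N - rhoX q X| * ((UpH70.card_Shg i).choose * (r2 * N)) := by
      intro i
      rw [← sum_sub_distrib]
      have hpt : ∀ v ∈ (Shg i (r1 * N) (r2 * N)).filter Prim,
          ‖gw (fun n => bXN q X N n - (rhoX q X : ℂ)) (rp i) v * ch f i v -
          ((if ∀ J ∈ X, ∃ p ∈ WI q N J, (p : ℤ) ∣ (rp i).q v then (1 : ℂ) else 0) -
          ((R N : ℝ) : ℂ)) * ch f i v‖ ≤ |R N - rhoX q X| := by
        intro v hv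
        have hch : ‖ch f i v‖ ≤ 1 := norm_ch_le f i v
        have e7 : gw (fun n => bXN q X N n - (rhoX q X : ℂ)) (rp i) v -
            ((if ∀ J ∈ X, ∃ p ∈ WI q N J, (p : ℤ) ∣ (rp i).q v then (1 : ℂ) else 0) -
            ((R N : ℝ) : ℂ)) = ((R N - rhoX q X : ℝ) : ℂ) := by
          unfold gw bXN
          dsimp only
          rw [if_congr (winXN_iff hN.le) rfl rfl]
          push_cast
          ring
        rw [← sub_mul, e7, norm_mul, Complex.norm_real, Real.norm_eq_abs]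
        calc |R N - rhoX q X| * ‖ch f i v‖ ≤ |R N - rhoX q X| * 1 :=
              mul_le_mul_of_nonneg_left hch (abs_nonneg _)
          _ = _ := mul_one _
      refine (norm_sum_le _ _).trans ((sum_le_sum hpt).trans ?_)
      rw [sum_const, nsmul_eq_mul, mul_comm]
      refine mul_le_mul_of_nonneg_left ?_ (abs_nonneg _)
      refine le_trans ?_ ((UpH70.card_Shg i).choose_spec.2 (r1 * N) (r2 * N) (by positivity))
      exact_mod_cast card_le_card (filter_subset _ _)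
    calc 1 / N * ‖∑ i : Cx D, ((∑ v ∈ (Shg i (r1 * N) (r2 * N)).filter Prim,
        gw (fun n => bXN q X N n - (rhoX q X : ℂ)) (rp i) v * ch f i v) -
        ∑ v ∈ (Shg i (r1 * N) (r2 * N)).filter Prim,
        ((if ∀ J ∈ X, ∃ p ∈ WI q N J, (p : ℤ) ∣ (rp i).q v then (1 : ℂ) else 0) -
          ((R N : ℝ) : ℂ)) * ch f i v)‖
        ≤ 1 / N * ∑ i : Cx D, |R N - rhoX q X| * ((UpH70.card_Shg i).choose * (r2 * N)) := by
          refine mul_le_mul_of_nonneg_left ?_ (by positivity)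
          exact (norm_sum_le _ _).trans (sum_le_sum fun i _ => hterm i)
      _ = |R N - rhoX q X| * T := by
          rw [← mul_sum, ← sum_mul, hT]
          unfold UpH70.CT
          field_simp
  have hDl : Tendsto (fun N : ℝ => Mph (fun n => bXN q X N n - (rhoX q X : ℂ)) r1 r2 N f - M N)
      atTop (𝓝 0) := by
    have h1 : Tendsto (fun N : ℝ => |R N - rhoX q X| * T) atTop (𝓝 0) := by
      have h2 := (hRl.sub_const (rhoX q X)).abs.mul_const T
      simpa using h2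
    refine squeeze_zero_norm' ?_ h1
    filter_upwards [eventually_gt_atTop 0] with N hN
    exact hD N hN
  have h5 := hDl.add hMl
  simpa using h5

open F42XH in
/-- **(X6)** -/
theorem stFrZXH_42 (d : ℕ) (hP : ∀ D : Dat, D.d = d → MRH.StPw0G D) (hNull : StNullH d) :
    StFrZXH d := by
  classical
  intro X hX z k hk hzk hz1 D hD r1 r2 hr1 hr12 e
  have hPD := hP D hD
  subst hD
  have hz : ‖z‖ = 1 := Complex.norm_eq_one_of_pow_eq_one hzk hk.ne'
  have hd : 0 < D.d := D.d_pos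
  have hW : StWinI := PQ.stWinI_7
  set q : ℕ := 4 * D.d with hq
  set f : Fq D := ⟨0, e⟩ with hf
  refine reduce hNull hX hr1 hr12 _ (fun N n => z ^ Omn n * bXN q X N n) (fun N n h => ?_)
    (fun N n => ?_) f ?_
  · unfold wzX bX bXN
    rw [if_congr h rfl rfl]
  · unfold wzX bX bXN
    rw [← mul_sub, norm_mul, norm_pow, hz, one_pow, one_mul]
    split_ifs <;> norm_num
  set R : ℝ → ℝ := fun N => ∏ J ∈ X, ∑ p ∈ WI q N J, 2 / (p : ℝ) with hR
  have hRl : Tendsto R atTop (𝓝 (rhoX q X)) := prod_lim hW (by omega) hX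
  rw [Metric.tendsto_nhds]
  intro ε hε
  obtain ⟨X0, hX0, H⟩ := FreqXH12.freqX_ne hPD z k hk hzk hz1 r1 r2 hr1.le hr12 f rfl X
    (ε / (2 * (|rhoX q X| + 1))) (by positivity)
  have h1 : ∀ᶠ N : ℝ in atTop, R N < |rhoX q X| + 1 :=
    hRl.eventually (gt_mem_nhds (by linarith [le_abs_self (rhoX q X)]))
  filter_upwards [cond hX q D.K X0 r2, h1] with N hc hRN
  obtain ⟨hN1, c1, c2, c3, c4, c5⟩ := hc
  have hN : 0 < N := by linarith
  have h2 := H N (WI q N) (fun J => N ^ J.1) (fun J => N ^ J.2)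
    ⟨fun J hJ p hp => by
      obtain ⟨k1, k2, k3, -⟩ := c1 J hJ p hp
      exact F42.adm true k1 k2 k3,
    fun J hJ => ⟨Real.rpow_pos_of_pos hN _, fun p hp => (c1 J hJ p hp).2.2.2.1⟩,
    fun J hJ => ⟨(Real.rpow_pos_of_pos hN _).le, fun p hp => (c1 J hJ p hp).2.2.2.2⟩,
    c2⟩ c3 c4
  rw [dist_zero_right]
  have h3 : ‖Mph (fun n => z ^ Omn n * bXN q X N n) r1 r2 N f‖ ≤
      ε / (2 * (|rhoX q X| + 1)) * R N := by
    refine le_trans (le_of_eq ?_) h2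
    unfold Mph FreqH12.Mpa EvX
    congr 2
    refine sum_congr rfl fun i _ => sum_congr rfl fun v _ => ?_
    congr 1
    unfold gw gz bXN
    dsimp only
    rw [if_congr (winXN_iff hN.le) rfl rfl]
    split_ifs <;> simp [Omn]
  have h4 : ε / (2 * (|rhoX q X| + 1)) * R N ≤ ε / (2 * (|rhoX q X| + 1)) * (|rhoX q X| + 1) :=
    mul_le_mul_of_nonneg_left hRN.le (by positivity)
  have h5 : ε / (2 * (|rhoX q X| + 1)) * (|rhoX q X| + 1) = ε / 2 := by
    have : |rhoX q X| + 1 ≠ 0 := by positivity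
    field_simp
  linarith

end Pool.Agent.Lib.MP_a17b09_nt.PQH
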