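import Pool.Agent.Lib.MP_a17b09_nt.PQH.All99
import Pool.Agent.Lib.MP_a17b09_nt.PQH.X3_11
import Pool.Agent.Lib.MP_a17b09_nt.PQH.X4_7
import Pool.Agent.Lib.MP_a17b09_nt.PQH.XH56_42
import Pool.Agent.Lib.MP_a17b09_nt.PQH.XH7_98
import Pool.Agent.Lib.MP_a17b09_nt.PQH.X89_64
import Pool.Agent.Lib.MP_a17b09_nt.PQ.X2_11
import Pool.Agent.Lib.MP_a17b09_nt.PQ.X10_96

/-!
Project PX, positive nonsquare discriminant: the final statements, without hypotheses.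
-/

set_option autoImplicit false

namespace Pool.Agent.Lib.MP_a17b09_nt.PQH

open CH CH.PE HY HY.S68 MRH
open PQ (PairsX ArgsX)

theorem stApxXH_99 (d : ℕ) : StApxXH d := stApxXH_11 d (stNullH_22 d) PQ.stRhoX_11

theorem stTwBXH_99 : StTwBXH :=
  stTwBXH_98 (fun d _ => stMrsHw_99 d) (fun d _ => stApxXH_99 d) (stDilNXH_7 stNullH_22)
    (fun d _ => stFrRXH_42 d (stNullH_22 d))
    (fun d _ => stFrZXH_42 d (fun D _ => stPw0G_all90 D) (stNullH_22 d))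
    stEsHW_99 stAmHW_all99 stTwHW_99 PQ.stRhoX_11 TopH20.hMainS

/-- the pairs with arbitrary windows, positive nonsquare discriminant -/
theorem stEndXH_99 : StEndXH :=
  stEndXH_64 (stFinXH_64 stTwBXH_99) TopH20.hMainS stMeanU_70 stMean_70 PQ.stRhoX_11

/-- the arguments, positive nonsquare discriminant -/
theorem argsXH_99 (a b c : ℤ) (ha : 0 < a) (d : ℕ) (hd : b ^ 2 - 4 * a * c = d)
    (hns : ¬ IsSquare d) (h t₀ : ℕ) (hh : 0 < h) : ArgsX a b c h t₀ := by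
  refine PQ.stArgX_96 a b c ha ?_ (4 * d) h t₀ hh
    (stEndXH_99 a b c ha d hd hns h t₀ hh 1 2 one_pos (by norm_num))
  rw [hd]
  rintro ⟨s, hs⟩
  refine hns ⟨s.natAbs, ?_⟩
  have h1 : (d : ℤ) = ((s.natAbs * s.natAbs : ℕ) : ℤ) := by
    rw [hs]
    push_cast
    rw [abs_mul_abs_self]
  exact_mod_cast h1

end Pool.Agent.Lib.MP_a17b09_nt.PQH
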