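import Pool.Agent.Lib.MP_a17b09_nt.PQH.Stmts99
import Pool.Agent.Lib.MP_a17b09_nt.PQ.E3_28
import Pool.Agent.Lib.MP_a17b09_nt.HY.Dils1
import Pool.Agent.Lib.MP_a17b09_nt.HY.C027
import Pool.Agent.Lib.MP_a17b09_nt.HY.Cnt84

/-!
Project PQH, helper28: (E3) dilation of the sector sums for fixed large `n` and two weights
(StDilsHW), from `HY.StHcnt`, `HY.StHC0`; fork of `HY/Dils1` and `PQ/E3_28`.
-/

set_option autoImplicit false

open Filter Topology Finset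

namespace Pool.Agent.Lib.MP_a17b09_nt.PQH

open CH CH.PE HY HY.S68 MRH
open PQ (B1 Wy gw gcw Win WinN bb bN rho wz1 wr StSchW StWinS StRho TwW CW MPQ)

namespace E3_28

open HY.Dils1
open PQ.E3_28 (gw_app gw_le ker_le)

/-- the kernels with two weights are invariant -/
theorem kerHW_inv {ι : Type} {S : HSystem ι} {w1 w2 : ℕ → ℂ} {K : ℕ} {om : ι → V → V → ℂ}
    (hom : HWt S K om) (i : ι) (a : Pell.Solution₁ (S.d : ℤ)) :
    AInv (S.Q i) a (kerHW S w1 w2 om i) := by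
  intro v v'
  unfold kerHW
  rw [hom.aut i a v v', gw_act (S.hyp i), gw_act (S.hyp i)]

/-- the terms in the sector before the similitude -/
theorem identW {ι : Type} (S : HSystem ι) (w1 w2 : ℕ → ℂ) {K : ℕ} {om : ι → V → V → ℂ}
    (hom : HWt S K om) (h : ℝ → ℝ → ℝ) {p : ℕ} (hp : p.Prime) (hp1 : p ≡ 1 [MOD 4 * S.d])
    (hp2 : p ≡ 1 [MOD K]) (i : ι) (T n : ℝ) [DecidablePred fun f : V × V =>
      Prim ((S.M p i).app f.1) ∧ Prim ((S.M p i).app f.2)] [DecidablePred fun f : V × V =>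
      0 ≤ ps (S.Q i) ((S.M p i).app f.1) ∧ ps (S.Q i) ((S.M p i).app f.1) < T] :
    ∑' f : V × V, hkk (S.Q i) T h (res (Im (S.M p i)) (kerHW S w1 w2 om i)) (p : ℤ) n f =
      ∑' f : V × V,
        if 0 ≤ ps (S.Q i) ((S.M p i).app f.1) ∧ ps (S.Q i) ((S.M p i).app f.1) < T then
          (if Prim ((S.M p i).app f.1) ∧ Prim ((S.M p i).app f.2) then
            P54.tt (S.Q (S.s p i)) h (kerHW S (fun n => w1 (p * n)) (fun n => w2 (p * n)) om
              (S.s p i)) 1 (n / p) f else 0) else 0 := by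
  set A := S.M p i with hAdef
  set j := S.s p i with hj
  have hdet : A.det = p := S.det p hp hp1 i
  have hsim : ∀ u, (S.Q i).q (A.app u) = p * (S.Q j).q u := S.sim p hp hp1 i
  have hcone : ∀ u, Cn (S.Q i) (A.app u) ↔ Cn (S.Q j) u := S.cone p hp hp1 i
  have hp0 : (p : ℤ) ≠ 0 := by exact_mod_cast hp.ne_zero
  have hinj : Function.Injective (fun f : V × V => (A.app f.1, A.app f.2)) := by
    intro f f' he
    rw [Prod.mk.injEq] at he
    have hd0 : A.det ≠ 0 := by rw [hdet]; exact hp0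
    exact Prod.ext (Dil70.app_inj hd0 he.1) (Dil70.app_inj hd0 he.2)
  have hsup : Function.support (hkk (S.Q i) T h (res (Im A) (kerHW S w1 w2 om i)) (p : ℤ) n) ⊆
      Set.range (fun f : V × V => (A.app f.1, A.app f.2)) := by
    intro f hf
    rw [Function.mem_support] at hf
    unfold hkk res at hf
    by_cases h1 : Im A f.1 ∧ Im A f.2
    · obtain ⟨⟨u, hu⟩, ⟨u', hu'⟩⟩ := h1
      exact ⟨(u, u'), Prod.ext hu hu'⟩
    · rw [if_neg h1, mul_zero, ite_self] at hf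
      exact absurd rfl hf
  rw [← hinj.tsum_eq hsup]
  refine tsum_congr fun f => ?_
  unfold hkk P54.tt Sec
  simp only
  by_cases h1 : 0 ≤ ps (S.Q i) (A.app f.1) ∧ ps (S.Q i) (A.app f.1) < T
  · rw [if_pos h1]
    by_cases h2 : Prim (A.app f.1) ∧ Prim (A.app f.2)
    · rw [if_pos h2]
      have hwd : wd (A.app f.1) (A.app f.2) = (p : ℤ) ↔ wd f.1 f.2 = 1 := by
        rw [Dil70.wd_app, hdet]
        constructor
        · intro h3
          exact mul_left_cancel₀ hp0 (h3.trans (mul_one _).symm)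
        · intro h3
          rw [h3, mul_one]
      by_cases h3 : Cn (S.Q j) f.1 ∧ Cn (S.Q j) f.2 ∧ wd f.1 f.2 = 1
      · have h4 : Prim (A.app f.1) ∧ Prim (A.app f.2) ∧ (Cn (S.Q i) (A.app f.1) ∧
            0 ≤ ps (S.Q i) (A.app f.1) ∧ ps (S.Q i) (A.app f.1) < T) ∧ Cn (S.Q i) (A.app f.2) ∧
            wd (A.app f.1) (A.app f.2) = (p : ℤ) :=
          ⟨h2.1, h2.2, ⟨(hcone _).2 h3.1, h1⟩, (hcone _).2 h3.2.1, hwd.2 h3.2.2⟩
        have h5 : Prim f.1 ∧ Prim f.2 ∧ Cn (S.Q j) f.1 ∧ Cn (S.Q j) f.2 ∧ wd f.1 f.2 = 1 :=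
          ⟨Dil70.prim_of_app h2.1, Dil70.prim_of_app h2.2, h3⟩
        have h6 : Im A (A.app f.1) ∧ Im A (A.app f.2) := ⟨⟨_, rfl⟩, ⟨_, rfl⟩⟩
        rw [if_pos h4, if_pos h5, Dil70.nr_app hp.pos hsim, Dil70.nr_app hp.pos hsim]
        unfold res kerHW
        rw [if_pos h6, hom.inv p hp hp1 hp2, gw_app w1 hsim, gw_app w2 hsim]
      · rw [if_neg, if_neg]
        · rintro ⟨-, -, h4⟩
          exact h3 h4
        · rintro ⟨-, -, ⟨h4, -⟩, h5, h6⟩
          exact h3 ⟨(hcone _).1 h4, (hcone _).1 h5, hwd.1 h6⟩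
    · rw [if_neg h2, if_neg]
      rintro ⟨h3, h4, -⟩
      exact h2 ⟨h3, h4⟩
  · rw [if_neg h1, if_neg]
    rintro ⟨-, -, ⟨-, h3⟩, -⟩
    exact h1 h3

end E3_28

open Classical in
open HY.Dils1 E3_28 in
open PQ.E3_28 (gw_app gw_le ker_le) in
theorem stDilsHW_28 (hcnt : StHcnt) (hC0 : StHC0) : StDilsHW := by
  intro ι _ S z1 z2 w1 w2 hz1n hz2n hw1 hw2 hD1 hD2 K hK om hom a ha δ h hδ hh
  obtain ⟨co, hco, hom1⟩ := HY.Dils1.om_bdd hK hom
  obtain ⟨ch, hch, hh1⟩ := Dil70.test_bdd hδ hh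
  have hT := per_pos ha
  set T := per a with hTd
  choose Cc hCc0 hCc1 hCc2 hCc3 using fun i => hcnt S.d (S.Q i) (S.hyp i) T hT δ hδ
  have hHC := fun i => (hC0 S.d (S.Q i) (S.hyp i) T hT δ h hδ hh).1
  refine ⟨∑ i, 4 * (ch * co * ((2 * Cc i + 2) * Cc i)) / T, fun p hp hp1 hp2 => ?_⟩
  have hp0 : (0 : ℝ) < p := by exact_mod_cast hp.pos
  have hp1' : (1 : ℝ) ≤ p := by exact_mod_cast hp.one_lt.le
  obtain ⟨n1, hn1⟩ := hD1 p hp hp1 T hT (1 / p) (by positivity)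
  obtain ⟨n2, hn2⟩ := hD2 p hp hp1 T hT (1 / p) (by positivity)
  refine ⟨max (4 * p ^ 3) (p * (n1 + n2)), fun n hn i => ?_⟩
  have hnA : 4 * p ^ 3 ≤ n := (le_max_left _ _).trans hn
  have hnB : p * (n1 + n2) ≤ n := (le_max_right _ _).trans hn
  set j := S.s p i with hj
  set A := S.M p i with hAd
  have hdet : A.det = p := S.det p hp hp1 i
  have hsim : ∀ u, (S.Q i).q (A.app u) = p * (S.Q j).q u := S.sim p hp hp1 i
  have hcone : ∀ u, Cn (S.Q i) (A.app u) ↔ Cn (S.Q j) u := S.cone p hp hp1 i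
  set v1 : ℕ → ℂ := fun n => w1 (p * n) with hv1
  set v2 : ℕ → ℂ := fun n => w2 (p * n) with hv2
  have hU : ∀ v v', ‖kerHW S w1 w2 om j v v'‖ ≤ co := fun v v' =>
    ker_le (hom1 j v v') (gw_le hw1 _ _) (gw_le hw2 _ _) hco.le
  have hUP : ∀ v v', ‖kerHW S v1 v2 om j v v'‖ ≤ co := fun v v' =>
    ker_le (hom1 j v v') (hw1 _) (hw2 _) hco.le
  obtain ⟨c, hc⟩ := sim_ps (S.hyp i) (S.hyp j) hp.pos hdet hsim hcone
  have hact := sim_act (S.hyp i) (S.hyp j) hp.pos hdet hsim hcone a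
  have hprim : ∀ u, Prim (A.app (act (S.Q j) a u)) ↔ Prim (A.app u) := by
    intro u
    rw [hact u, P54.prim_act (S.hyp i)]
  obtain ⟨P, hPd⟩ : ∃ P : V → Prop, ∀ v, P v ↔ (Prim (A.app v) ∧
    w1 (p * ((S.Q j).q v).natAbs) = z1 * w1 ((S.Q j).q v).natAbs ∧
    w2 (p * ((S.Q j).q v).natAbs) = z2 * w2 ((S.Q j).q v).natAbs) := ⟨_, fun v => Iff.rfl⟩
  have hPact : ∀ u, P (act (S.Q j) a u) ↔ P u := by
    intro u
    rw [hPd, hPd]
    simp only [hprim, q_act (S.hyp j)]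
  -- the size
  have hn1' : (4 : ℝ) * p ^ 3 ≤ n := by exact_mod_cast hnA
  have hn0 : (0 : ℝ) < n := lt_of_lt_of_le (by positivity) hn1'
  obtain ⟨x, hx⟩ : ∃ x : ℝ, x = (n : ℝ) / p := ⟨_, rfl⟩
  rw [← hx]
  have hx1 : 4 * (p : ℝ) ^ 2 ≤ x := by
    rw [hx, le_div_iff₀ hp0]
    calc 4 * (p : ℝ) ^ 2 * p = 4 * (p : ℝ) ^ 3 := by ring
      _ ≤ (n : ℝ) := hn1'
  have hx0 : 0 < x := lt_of_lt_of_le (by positivity) hx1
  have hx11 : 1 ≤ x := by nlinarith
  have hN : (⌊x⌋₊ : ℝ) ≤ x := Nat.floor_le hx0.le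
  have hNn : n1 + n2 ≤ ⌊x⌋₊ := by
    rw [hx, Nat.floor_div_eq_div, Nat.le_div_iff_mul_le hp.pos, mul_comm]
    exact hnB
  -- the folding
  set tt0 : V × V → ℂ := P54.tt (S.Q j) h (kerHW S w1 w2 om j) 1 x with htt0
  set ttP : V × V → ℂ := P54.tt (S.Q j) h (kerHW S v1 v2 om j) 1 x with httPd
  obtain ⟨σ, hσ⟩ : ∃ σ : Equiv.Perm (V × V), ∀ f, σ f = (act (S.Q j) a f.1, act (S.Q j) a f.2) :=
    ⟨Equiv.prodCongr (P54.actE (S.hyp j) a) (P54.actE (S.hyp j) a), fun f => rfl⟩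
  have hP : ∀ f, (Cn (S.Q j) (σ f).1 ∧ Cn (S.Q j) (σ f).2) ↔ (Cn (S.Q j) f.1 ∧ Cn (S.Q j) f.2) := by
    intro f
    rw [hσ]
    simp only [cn_act (S.hyp j) ha]
  have hr1 : ∀ f : V × V, (Cn (S.Q j) f.1 ∧ Cn (S.Q j) f.2) →
      ps (S.Q i) (A.app (σ f).1) = ps (S.Q i) (A.app f.1) + T := by
    intro f hf
    have h1 : Cn (S.Q j) (σ f).1 := ((hP f).2 hf).1
    rw [hc _ h1, hc _ hf.1, hσ]
    simp only [ps_act (S.hyp j) ha hf.1]
    ring
  have hr0 : ∀ f : V × V, (Cn (S.Q j) f.1 ∧ Cn (S.Q j) f.2) →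
      ps (S.Q j) (σ f).1 = ps (S.Q j) f.1 + T := by
    intro f hf
    rw [hσ]
    simp only [ps_act (S.hyp j) ha hf.1]
    rfl
  have hr2 : ∀ f : V × V, (Cn (S.Q j) f.1 ∧ Cn (S.Q j) f.2) →
      ps (S.Q j) (σ f).2 = ps (S.Q j) f.2 + T := by
    intro f hf
    rw [hσ]
    simp only [ps_act (S.hyp j) ha hf.2]
    rfl
  have htt : ∀ f, tt0 (σ f) = tt0 f := by
    intro f
    rw [hσ, htt0]
    exact P54.tt_act (S.hyp j) ha h (kerHW_inv hom j a) 1 x f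
  have httPa : ∀ f, ttP (σ f) = ttP f := by
    intro f
    rw [hσ, httPd]
    exact P54.tt_act (S.hyp j) ha h (kerHW_inv hom j a) 1 x f
  have httc : ∀ (U : V → V → ℂ) (f : V × V), P54.tt (S.Q j) h U 1 x f ≠ 0 →
      (Cn (S.Q j) f.1 ∧ Cn (S.Q j) f.2) ∧ Prim f.1 ∧ Prim f.2 := by
    intro U f hf
    unfold P54.tt at hf
    by_cases h1 : Prim f.1 ∧ Prim f.2 ∧ Cn (S.Q j) f.1 ∧ Cn (S.Q j) f.2 ∧ wd f.1 f.2 = 1
    · exact ⟨⟨h1.2.2.1, h1.2.2.2.1⟩, h1.1, h1.2.1⟩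
    · rw [if_neg h1] at hf
      exact absurd rfl hf
  have httz : ∀ f, P f.1 → P f.2 → ttP f = z1 * z2 * tt0 f := by
    intro f h1 h2
    rw [httPd, htt0]
    unfold P54.tt
    split_ifs
    · unfold kerHW gw
      rw [hv1, hv2]
      beta_reduce
      rw [((hPd _).1 h1).2.1, ((hPd _).1 h2).2.2]
      ring
    · rw [mul_zero]
  set F : V × V → ℂ := fun f => if Prim (A.app f.1) ∧ Prim (A.app f.2) then ttP f else 0 with hF
  have hFinv : ∀ f, F (σ f) = F f := by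
    intro f
    rw [hF]
    simp only [httPa]
    rw [hσ]
    simp only [hprim]
  have hFP : ∀ f, F f ≠ 0 → (Cn (S.Q j) f.1 ∧ Cn (S.Q j) f.2) := by
    intro f hf
    rw [hF] at hf
    by_cases h1 : Prim (A.app f.1) ∧ Prim (A.app f.2)
    · simp only [if_pos h1] at hf
      exact (httc _ f hf).1
    · simp only [if_neg h1] at hf
      exact absurd rfl hf
  have hfold1 := fold σ (P := fun f => Cn (S.Q j) f.1 ∧ Cn (S.Q j) f.2) hP hT
    (r := fun f => ps (S.Q i) (A.app f.1)) (s := fun f => ps (S.Q j) f.1) hr1 hr0 F hFinv hFP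
  -- folding of the second components
  have hfoldc : ∀ (t : V × V → ℂ), (∀ f, t (σ f) = t f) →
      (∀ f, t f ≠ 0 → (Cn (S.Q j) f.1 ∧ Cn (S.Q j) f.2)) →
      ∑' f : V × V, (if 0 ≤ ps (S.Q j) f.1 ∧ ps (S.Q j) f.1 < T then
        (if P f.2 then 0 else ‖t f‖) else 0) =
      ∑' f : V × V, (if 0 ≤ ps (S.Q j) f.2 ∧ ps (S.Q j) f.2 < T then
        (if P f.2 then 0 else ‖t f‖) else 0) := by
    intro t ht1 ht2
    refine fold σ (P := fun f => Cn (S.Q j) f.1 ∧ Cn (S.Q j) f.2) hP hT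
      (r := fun f => ps (S.Q j) f.1) (s := fun f => ps (S.Q j) f.2) hr0 hr2
      (fun f => if P f.2 then 0 else ‖t f‖) ?_ ?_
    · intro f
      simp only [ht1]
      rw [hσ]
      simp only [hPact]
    · intro f hf
      by_cases h1 : P f.2
      · simp only [if_pos h1] at hf
        exact absurd rfl hf
      · simp only [if_neg h1] at hf
        exact ht2 f (norm_ne_zero_iff.1 hf)
  have e1 := identW S w1 w2 hom h hp hp1 hp2 i T (n : ℝ)
  rw [← hAd, ← hj, ← hx] at e1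
  rw [hfold1] at e1
  -- finite supports
  have hfin : ∀ (U : V → V → ℂ) {E : Type} [Zero E] (g : V × V → E),
      (∀ f, P54.tt (S.Q j) h U 1 x f = 0 → g f = 0) →
      (Function.support fun f : V × V => if 0 ≤ ps (S.Q j) f.1 ∧ ps (S.Q j) f.1 < T then g f
        else 0).Finite := by
    intro U E _ g hg
    refine (hHC j U 1 x).subset fun f hf => ?_
    rw [Function.mem_support] at hf ⊢
    rw [P54.hkk_eq]
    unfold P54.ts
    by_cases h1 : 0 ≤ ps (S.Q j) f.1 ∧ ps (S.Q j) f.1 < T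
    · rw [if_pos h1] at hf
      rw [if_pos h1]
      exact fun h2 => hf (hg f h2)
    · rw [if_neg h1] at hf
      exact absurd rfl hf
  have sF : Summable fun f : V × V => if 0 ≤ ps (S.Q j) f.1 ∧ ps (S.Q j) f.1 < T then F f
      else 0 := summable_of_hasFiniteSupport (hfin (kerHW S v1 v2 om j) F fun f hf => by
        rw [hF]
        show (if _ then ttP f else 0) = 0
        rw [show ttP f = 0 from hf, ite_self])
  set R0 : V × V → ℂ := fun f => if 0 ≤ ps (S.Q j) f.1 ∧ ps (S.Q j) f.1 < T then tt0 f else 0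
    with hR0
  have hR0k : ∀ f, hkk (S.Q j) T h (kerHW S w1 w2 om j) 1 x f = R0 f := by
    intro f
    rw [P54.hkk_eq]
    rfl
  have sR : Summable R0 := summable_of_hasFiniteSupport
    (hfin (kerHW S w1 w2 om j) tt0 fun f hf => hf)
  have sB : ∀ (U : V → V → ℂ) (g : V × V → V), Summable fun f : V × V =>
      if 0 ≤ ps (S.Q j) f.1 ∧ ps (S.Q j) f.1 < T then
        (if P (g f) then 0 else ‖P54.tt (S.Q j) h U 1 x f‖) else 0 := by
    intro U g
    refine summable_of_hasFiniteSupport (hfin U _ fun f hf => ?_)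
    show (if P (g f) then (0 : ℝ) else ‖P54.tt (S.Q j) h U 1 x f‖) = 0
    rw [hf, norm_zero, ite_self]
  -- the bad vectors
  obtain ⟨L, hL1, hL2⟩ := Dil70.bad_lat hp hdet
  have hbad0 : ({v : V | Sec (S.Q j) T v ∧ L v ∧ (S.Q j).q v ≤ ⌊x⌋₊}.ncard : ℝ) ≤
      Cc j * (2 * x / p) := by
    refine (hCc2 j p ⌊x⌋₊ hp L hL1).trans (mul_le_mul_of_nonneg_left ?_ (hCc0 j).le)
    have c1 : (⌊x⌋₊ : ℝ) / p ≤ x / p := div_le_div_of_nonneg_right hN hp0.le
    have c2 : √(⌊x⌋₊ : ℝ) ≤ √x := Real.sqrt_le_sqrt hN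
    have c3 : 2 * (p : ℝ) ≤ √x := by
      apply Real.le_sqrt_of_sq_le
      calc (2 * (p : ℝ)) ^ 2 = 4 * p ^ 2 := by ring
        _ ≤ x := hx1
    have c4 : √x * √x = x := Real.mul_self_sqrt hx0.le
    have c5 : √x + 1 ≤ x / p := by
      rw [le_div_iff₀ hp0]
      nlinarith
    calc (⌊x⌋₊ : ℝ) / p + √(⌊x⌋₊ : ℝ) + 1 ≤ x / p + (√x + 1) := by linarith
      _ ≤ x / p + x / p := by linarith
      _ = 2 * x / p := by ring
  set L' : V → Prop := fun v => L v ∨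
    (w1 (p * ((S.Q j).q v).natAbs) ≠ z1 * w1 ((S.Q j).q v).natAbs ∨
    w2 (p * ((S.Q j).q v).natAbs) ≠ z2 * w2 ((S.Q j).q v).natAbs) with hL'
  have hL2' : ∀ v, Prim v → ¬ P v → L' v := by
    intro v hv1 hv2
    by_cases c1 : Prim (A.app v)
    · by_cases c2 : w1 (p * ((S.Q j).q v).natAbs) = z1 * w1 ((S.Q j).q v).natAbs
      · exact Or.inr (Or.inr fun c3 => hv2 ((hPd v).2 ⟨c1, c2, c3⟩))
      · exact Or.inr (Or.inl c2)
    · exact Or.inl (hL2 v hv1 c1)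
  obtain ⟨f1, b1⟩ := hn1 ⌊x⌋₊ ((Nat.le_add_right _ _).trans hNn) j
  obtain ⟨f2, b2⟩ := hn2 ⌊x⌋₊ ((Nat.le_add_left _ _).trans hNn) j
  have hNp : 1 / (p : ℝ) * (⌊x⌋₊ : ℝ) ≤ x / p := by
    rw [one_div, inv_mul_eq_div]
    exact div_le_div_of_nonneg_right hN hp0.le
  have hf0 : {v : V | Sec (S.Q j) T v ∧ L v ∧ (S.Q j).q v ≤ ⌊x⌋₊}.Finite := by
    refine (hCc1 j x hx11).1.subset fun v hv => ⟨hv.1, ?_⟩
    have h1 : ((S.Q j).q v : ℝ) ≤ (⌊x⌋₊ : ℝ) := by exact_mod_cast hv.2.2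
    exact h1.trans hN
  have hbad : ({v : V | Sec (S.Q j) T v ∧ L' v ∧ (S.Q j).q v ≤ ⌊x⌋₊}.ncard : ℝ) ≤
      (2 * Cc j + 2) * x / p := by
    have c1 : {v : V | Sec (S.Q j) T v ∧ L' v ∧ (S.Q j).q v ≤ ⌊x⌋₊} ⊆
        {v : V | Sec (S.Q j) T v ∧ L v ∧ (S.Q j).q v ≤ ⌊x⌋₊} ∪
        ({v : V | Sec (S.Q j) T v ∧ ((S.Q j).q v : ℝ) ≤ ⌊x⌋₊ ∧
          w1 (p * ((S.Q j).q v).natAbs) ≠ z1 * w1 ((S.Q j).q v).natAbs} ∪
        {v : V | Sec (S.Q j) T v ∧ ((S.Q j).q v : ℝ) ≤ ⌊x⌋₊ ∧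
          w2 (p * ((S.Q j).q v).natAbs) ≠ z2 * w2 ((S.Q j).q v).natAbs}) := by
      rintro v ⟨hv1, hv2, hv3⟩
      have h1 : ((S.Q j).q v : ℝ) ≤ (⌊x⌋₊ : ℝ) := by exact_mod_cast hv3
      rcases hv2 with hv2 | hv2 | hv2
      · exact Or.inl ⟨hv1, hv2, hv3⟩
      · exact Or.inr (Or.inl ⟨hv1, h1, hv2⟩)
      · exact Or.inr (Or.inr ⟨hv1, h1, hv2⟩)
    have c2 := (Set.ncard_le_ncard c1 (hf0.union (f1.union f2))).trans
      ((Set.ncard_union_le _ _).trans (Nat.add_le_add_left (Set.ncard_union_le _ _) _))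
    have c3 : ({v : V | Sec (S.Q j) T v ∧ L' v ∧ (S.Q j).q v ≤ ⌊x⌋₊}.ncard : ℝ) ≤
        Cc j * (2 * x / p) + (x / p + x / p) := by
      refine le_trans ?_ (add_le_add hbad0 (add_le_add (b1.trans hNp) (b2.trans hNp)))
      exact_mod_cast c2
    refine c3.trans (le_of_eq ?_)
    ring
  obtain ⟨-, m1, -, m2⟩ := half (U := kerHW S w1 w2 om j) hδ hh hh1 hU hch hco.le (hCc0 j).le
    (fun y hy => (hCc1 j y hy).1) (hCc3 j) hx11 L' hbad P hL2'
  obtain ⟨-, m3, -, m4⟩ := half (U := kerHW S v1 v2 om j) hδ hh hh1 hUP hch hco.le (hCc0 j).le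
    (fun y hy => (hCc1 j y hy).1) (hCc3 j) hx11 L' hbad P hL2'
  set bd : ℝ := ch * co * ((2 * Cc j + 2) * x / p * Cc j) with hbd
  have m2' : ∑' f : V × V, (if 0 ≤ ps (S.Q j) f.1 ∧ ps (S.Q j) f.1 < T then
      (if P f.2 then 0 else ‖tt0 f‖) else 0) ≤ bd := by
    rw [hfoldc tt0 htt fun f hf => (httc _ f hf).1]
    exact m2
  have m4' : ∑' f : V × V, (if 0 ≤ ps (S.Q j) f.1 ∧ ps (S.Q j) f.1 < T then
      (if P f.2 then 0 else ‖ttP f‖) else 0) ≤ bd := by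
    rw [hfoldc ttP httPa fun f hf => (httc _ f hf).1]
    exact m4
  -- the difference
  have e2 : ‖∑' f, (if 0 ≤ ps (S.Q j) f.1 ∧ ps (S.Q j) f.1 < T then F f else 0) -
      z1 * z2 * ∑' f, R0 f‖ ≤ 4 * bd := by
    rw [← tsum_mul_left, ← sF.tsum_sub (sR.mul_left _)]
    have hle : ∀ f : V × V, ‖(if 0 ≤ ps (S.Q j) f.1 ∧ ps (S.Q j) f.1 < T then F f else 0) -
        z1 * z2 * R0 f‖ ≤
        ((if 0 ≤ ps (S.Q j) f.1 ∧ ps (S.Q j) f.1 < T then
          (if P f.1 then 0 else ‖tt0 f‖) else 0) +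
        (if 0 ≤ ps (S.Q j) f.1 ∧ ps (S.Q j) f.1 < T then
          (if P f.2 then 0 else ‖tt0 f‖) else 0)) +
        ((if 0 ≤ ps (S.Q j) f.1 ∧ ps (S.Q j) f.1 < T then
          (if P f.1 then 0 else ‖ttP f‖) else 0) +
        (if 0 ≤ ps (S.Q j) f.1 ∧ ps (S.Q j) f.1 < T then
          (if P f.2 then 0 else ‖ttP f‖) else 0)) := by
      intro f
      rw [hR0]
      simp only
      by_cases h1 : 0 ≤ ps (S.Q j) f.1 ∧ ps (S.Q j) f.1 < T
      · simp only [if_pos h1]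
        have hFle : ‖F f‖ ≤ ‖ttP f‖ := by
          rw [hF]
          show ‖if _ then ttP f else 0‖ ≤ _
          split_ifs
          · exact le_rfl
          · rw [norm_zero]
            exact norm_nonneg _
        have hzz : ‖z1 * z2 * tt0 f‖ = ‖tt0 f‖ := by
          rw [norm_mul, norm_mul, hz1n, hz2n, one_mul, one_mul]
        have hb := (norm_sub_le (F f) (z1 * z2 * tt0 f)).trans
          (add_le_add hFle (le_of_eq hzz))
        have q0 := norm_nonneg (tt0 f)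
        have q1 := norm_nonneg (ttP f)
        by_cases h2 : P f.1
        · by_cases h3 : P f.2
          · have h4 : F f = z1 * z2 * tt0 f := by
              rw [hF]
              show (if _ then ttP f else 0) = _
              rw [if_pos ⟨((hPd _).1 h2).1, ((hPd _).1 h3).1⟩]
              exact httz f h2 h3
            rw [h4, sub_self, norm_zero, if_pos h2, if_pos h3, if_pos h2, if_pos h3]
            simp
          · rw [if_pos h2, if_neg h3, if_pos h2, if_neg h3]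
            linarith
        · by_cases h3 : P f.2
          · rw [if_neg h2, if_pos h3, if_neg h2, if_pos h3]
            linarith
          · rw [if_neg h2, if_neg h3, if_neg h2, if_neg h3]
            linarith
      · simp only [if_neg h1]
        simp
    have s1 := sB (kerHW S w1 w2 om j) (fun f => f.1)
    have s2 := sB (kerHW S w1 w2 om j) (fun f => f.2)
    have s3 := sB (kerHW S v1 v2 om j) (fun f => f.1)
    have s4 := sB (kerHW S v1 v2 om j) (fun f => f.2)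
    have sS := (s1.add s2).add (s3.add s4)
    have sN : Summable fun f : V × V =>
        ‖(if 0 ≤ ps (S.Q j) f.1 ∧ ps (S.Q j) f.1 < T then F f else 0) - z1 * z2 * R0 f‖ :=
      Summable.of_nonneg_of_le (fun f => norm_nonneg _) hle sS
    refine (norm_tsum_le_tsum_norm sN).trans ((sN.tsum_le_tsum hle sS).trans ?_)
    rw [(s1.add s2).tsum_add (s3.add s4), s1.tsum_add s2, s3.tsum_add s4]
    linarith [m1, m2', m3, m4']
  have e3 : (p : ℂ) * Hk (S.Q i) T h (res (Im A) (kerHW S w1 w2 om i)) (p : ℤ) n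
      - z1 * z2 * Hk (S.Q j) T h (kerHW S w1 w2 om j) 1 x = (1 / ((x * T : ℝ) : ℂ)) *
      (∑' f, (if 0 ≤ ps (S.Q j) f.1 ∧ ps (S.Q j) f.1 < T then F f else 0) -
        z1 * z2 * ∑' f, R0 f) := by
    unfold Hk
    rw [e1, tsum_congr hR0k]
    have h1 : (p : ℂ) * (1 / ((n * T : ℝ) : ℂ)) = 1 / ((x * T : ℝ) : ℂ) := by
      rw [hx]
      push_cast
      have h2 : (p : ℂ) ≠ 0 := by exact_mod_cast hp.ne_zero
      have h3 : (n : ℂ) ≠ 0 := by exact_mod_cast hn0.ne'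
      have h4 : ((T : ℝ) : ℂ) ≠ 0 := by exact_mod_cast hT.ne'
      field_simp
    rw [← mul_assoc, h1]
    ring
  rw [e3, norm_mul, norm_div, norm_one, Complex.norm_real, Real.norm_eq_abs,
    abs_of_pos (mul_pos hx0 hT)]
  have h5 : 4 * (ch * co * ((2 * Cc j + 2) * Cc j)) / T ≤
      ∑ i, 4 * (ch * co * ((2 * Cc i + 2) * Cc i)) / T :=
    Finset.single_le_sum (f := fun i => 4 * (ch * co * ((2 * Cc i + 2) * Cc i)) / T)
      (fun i _ => by have := (hCc0 i).le; positivity) (Finset.mem_univ j)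
  calc 1 / (x * T) * ‖∑' f, (if 0 ≤ ps (S.Q j) f.1 ∧ ps (S.Q j) f.1 < T then F f else 0) -
        z1 * z2 * ∑' f, R0 f‖ ≤ 1 / (x * T) * (4 * bd) :=
        mul_le_mul_of_nonneg_left e2 (by positivity)
    _ = 4 * (ch * co * ((2 * Cc j + 2) * Cc j)) / T / p := by
        rw [hbd]
        field_simp
    _ ≤ _ := div_le_div_of_nonneg_right h5 hp0.le

/-- the row, closed -/
theorem stDilsHW_all28 : StDilsHW := stDilsHW_28 stHcnt_84 (stHC0_27 stHcnt_84)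

end Pool.Agent.Lib.MP_a17b09_nt.PQH
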