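import Pool.Agent.Lib.MP_a17b09_nt.PQH.Asm99
import Pool.Agent.Lib.MP_a17b09_nt.PQH.E3_28

/-!
Project PQH: the two final statements, without hypotheses.
-/

set_option autoImplicit false

namespace Pool.Agent.Lib.MP_a17b09_nt.PQH

theorem stAmHW_all99 : StAmHW := stAmHW_98 stDilsHW_all28

theorem stTwBH_all99 : StTwBH := stTwBH_99 stDilsHW_all28

/-- the pairs with both windows, positive nonsquare discriminant -/
theorem stEndAH_99 : StEndAH := stEndAH_of stDilsHW_all28

/-- the arguments, positive nonsquare discriminant -/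
theorem stEndBH_99 : StEndBH := stEndBH_64 stEndAH_99

end Pool.Agent.Lib.MP_a17b09_nt.PQH
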