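import Pool.Agent.Lib.MP_a17b09_nt.PQH.E2_64

/-!
Project PQH, E1 (helper64, fork of HY/GlueH20): from the interface `HMrsQw` for one of two weights:
the bilinear functions of the level tend to zero in mean.
-/

set_option autoImplicit false

open Filter Topology Finset

namespace Pool.Agent.Lib.MP_a17b09_nt.PQH

open CH CH.PE HY HY.S68 MRH MRS
open PQ (B1 gw gcw)

/-- the class functions are invariant under the automorphs congruent to `1` -/
theorem gcw_AI64 {d : ℕ} {Q : Form} (hQ : Hyp d Q) {K : ℕ} {a : Pell.Solution₁ (d : ℤ)}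
    (h : PK K a) (w : ℕ → ℂ) (α : ZMod K × ZMod K) : AI Q a (gcw w Q K α) := by
  intro v
  unfold gcw
  rw [Inv7.cl_act h, gw_act hQ]
  by_cases hp : Prim v
  · have := (Inv7.prim_act hQ a v).2 hp
    simp only [this, hp, true_and]
  · have := mt (Inv7.prim_act hQ a v).1 hp
    simp only [this, hp, false_and, if_false]

/-- the mean square of the local sums tends to zero -/
theorem hmmw_null64 {d : ℕ} {Q : Form} (hQ : Hyp d Q) {a : Pell.Solution₁ (d : ℤ)} (ha : PP a)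
    {w : ℕ → ℂ} (hw : B1 w) {K : ℕ} (haK : PK K a) (hM : HMrsQw Q (per a) w K)
    {B : ℝ} {G : ℝ → ℝ → ℝ} (hG : GT B G) (α : ZMod K × ZMod K) {ε : ℝ} (hε : 0 < ε) :
    ∃ L0 : ℝ, 1 ≤ L0 ∧ ∀ L : ℝ, L0 ≤ L → ∃ n0 : ℕ, ∀ n : ℕ, n0 ≤ n →
    1 / (2 * Real.pi) * ∫ θ in (0 : ℝ)..(2 * Real.pi), ‖hmm Q (tauH a) (gcw w Q K α) G L n θ‖ ^ 2 ≤ ε := by
  classical
  have hB := hG.1
  have hB0 : 0 < B := by linarith
  obtain ⟨C, hC, hloc⟩ := locH20 hQ ha hG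
  -- the number of shells
  obtain ⟨R, hR⟩ := exists_nat_ge (max (6 * B ^ 2) (max 1 (3 * C / ε)))
  have hR1 : 6 * B ^ 2 ≤ R := (le_max_left _ _).trans hR
  have hR2 : (1 : ℝ) ≤ R := (le_max_left _ _).trans ((le_max_right _ _).trans hR)
  have hR3 : 3 * C / ε ≤ R := (le_max_right _ _).trans ((le_max_right _ _).trans hR)
  have hR0 : (0 : ℝ) < R := by linarith
  have hCR : C / (R : ℝ) ^ 2 ≤ ε / 3 := by
    rw [div_le_iff₀ (by positivity)]
    rw [div_le_iff₀ hε] at hR3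
    nlinarith [mul_le_mul_of_nonneg_left hR2 (by positivity : (0 : ℝ) ≤ ε * R)]
  set A : ℝ := max 1 (3 * C / ε) with hA
  have hA1 : 1 ≤ A := le_max_left _ _
  have hA0 : 0 < A := by linarith
  have hCA : C / A ^ 2 ≤ ε / 3 := by
    have hA3 : 3 * C / ε ≤ A := le_max_right _ _
    rw [div_le_iff₀ (by positivity)]
    rw [div_le_iff₀ hε] at hA3
    nlinarith [mul_le_mul_of_nonneg_left hA1 (by positivity : (0 : ℝ) ≤ ε * A)]
  set ε' : ℝ := ε / (3 * C * (R : ℝ) ^ 2) with hε'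
  have hε'0 : 0 < ε' := by positivity
  -- the shells
  have hsh : ∀ i : ℕ, ∃ L0 : ℝ, 1 ≤ L0 ∧ ∀ L : ℝ, L0 ≤ L → ∃ n0 : ℕ, ∀ n : ℕ, n0 ≤ n → 1 ≤ i →
      ∑ j ∈ Finset.Icc (-(⌊A * n / L⌋₊ : ℤ)) ⌊A * n / L⌋₊,
        ‖MshH Q (per a) (gcw w Q K α) (((i : ℝ) * (3 * B / R)) ^ 2) ((((i : ℝ) + 1) * (3 * B / R)) ^ 2)
          n j‖ ^ 2 ≤ ε' := by
    intro i
    rcases Nat.eq_zero_or_pos i with hi | hi
    · exact ⟨1, le_rfl, fun L _ => ⟨0, fun n _ h => by omega⟩⟩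
    · have hi' : (0 : ℝ) < i := by exact_mod_cast hi
      have hκ : 0 < 3 * B / R := by positivity
      obtain ⟨L0, hL0, h⟩ := hM α (((i : ℝ) * (3 * B / R)) ^ 2)
        ((((i : ℝ) + 1) * (3 * B / R)) ^ 2) (by positivity)
        (pow_lt_pow_left₀ (mul_lt_mul_of_pos_right (by linarith) hκ) (by positivity) two_ne_zero)
        A hA0 ε' hε'0
      exact ⟨L0, hL0, fun L hL => by
        obtain ⟨n0, hn0⟩ := h L hL
        exact ⟨n0, fun n hn _ => hn0 n hn⟩⟩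
  choose L0 hL0 hsh' using hsh
  have hne : (Finset.range (R + 1)).Nonempty := ⟨0, by simp⟩
  refine ⟨(Finset.range (R + 1)).sup' hne L0, ?_, fun L hL => ?_⟩
  · exact (hL0 0).trans (Finset.le_sup' L0 (by simp))
  have hLi : ∀ i ∈ Finset.range (R + 1), L0 i ≤ L := fun i hi => (Finset.le_sup' L0 hi).trans hL
  have hL1 : 1 ≤ L := (hL0 0).trans (hLi 0 (by simp))
  have hsh2 : ∀ i : ℕ, ∃ n0 : ℕ, ∀ n : ℕ, n0 ≤ n → i ∈ Finset.range (R + 1) → 1 ≤ i →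
      ∑ j ∈ Finset.Icc (-(⌊A * n / L⌋₊ : ℤ)) ⌊A * n / L⌋₊,
        ‖MshH Q (per a) (gcw w Q K α) (((i : ℝ) * (3 * B / R)) ^ 2) ((((i : ℝ) + 1) * (3 * B / R)) ^ 2)
          n j‖ ^ 2 ≤ ε' := by
    intro i
    by_cases hi : i ∈ Finset.range (R + 1)
    · obtain ⟨n0, hn0⟩ := hsh' i L (hLi i hi)
      exact ⟨n0, fun n hn _ h1 => hn0 n hn h1⟩
    · exact ⟨0, fun n _ h => absurd h hi⟩
  choose n1 hn1 using hsh2
  obtain ⟨n2, hn2⟩ := hloc R hR1 A hA0 L hL1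
  refine ⟨max n2 ((Finset.range (R + 1)).sup n1), fun n hn => ?_⟩
  have hn2' : n2 ≤ n := (le_max_left _ _).trans hn
  have hn1' : ∀ i ∈ Finset.range (R + 1), n1 i ≤ n := fun i hi =>
    (Finset.le_sup (f := n1) hi).trans ((le_max_right _ _).trans hn)
  refine (hn2 n hn2' (gcw w Q K α) (gcw_ug64 hw Q K α)
    (gcw_AI64 hQ haK w α)).trans ?_
  have hsum : ∑ i ∈ Finset.Ico 1 R, ∑ j ∈ Finset.Icc (-(⌊A * n / L⌋₊ : ℤ)) ⌊A * n / L⌋₊,
      ‖MshH Q (per a) (gcw w Q K α) (((i : ℝ) * (3 * B / R)) ^ 2) ((((i : ℝ) + 1) * (3 * B / R)) ^ 2)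
        n j‖ ^ 2 ≤ R * ε' := by
    refine (Finset.sum_le_sum (g := fun _ => ε') fun i hi => ?_).trans ?_
    · rw [Finset.mem_Ico] at hi
      have hi' : i ∈ Finset.range (R + 1) := Finset.mem_range.2 (by omega)
      exact hn1 i n (hn1' i hi') hi' hi.1
    · rw [Finset.sum_const, nsmul_eq_mul, Nat.card_Ico]
      apply mul_le_mul_of_nonneg_right _ hε'0.le
      exact_mod_cast Nat.sub_le R 1
  have h6 : C * R * (R * ε') = ε / 3 := by
    rw [hε']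
    field_simp
  have h7 := mul_le_mul_of_nonneg_left hsum (by positivity : (0 : ℝ) ≤ C * R)
  rw [h6] at h7
  linarith

/-- the bilinear function of the level is eventually small -/
theorem hpsw_null64 {ι : Type} [Fintype ι] (S : HSystem ι) {w1 w2 : ℕ → ℂ} (hw1 : B1 w1)
    (hw2 : B1 w2) (K : ℕ) [NeZero K] {a : Pell.Solution₁ (S.d : ℤ)} (ha : PP a)
    (haK : PK K a)
    (hM : (∀ i, HMrsQw (S.Q i) (per a) w1 K) ∨ (∀ i, HMrsQw (S.Q i) (per a) w2 K)) (om : ι → V → V → ℂ)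
    {B : ℝ} {G1 G2 : ℝ → ℝ → ℝ} (hG1 : GT B G1) (hG2 : GT B G2) {ε : ℝ} (hε : 0 < ε) :
    ∃ L0 : ℝ, 1 ≤ L0 ∧ ∀ L : ℝ, L0 ≤ L → ∃ n0 : ℕ, ∀ n : ℕ, n0 ≤ n →
      ‖HPsW S (tauH a) w1 w2 K om G1 G2 L n‖ ≤ ε := by
  classical
  -- bounds
  choose C1 hC10 hC1 using fun i => LocH20.hmm_bd (S.hyp i) hG1
  choose C2 hC20 hC2 using fun i => LocH20.hmm_bd (S.hyp i) hG2
  set Cb : ℝ := ∑ i, (C1 i + C2 i) with hCb
  have hCb0 : 0 ≤ Cb := Finset.sum_nonneg fun i _ => add_nonneg (hC10 i) (hC20 i)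
  have hCbi : ∀ i, C1 i ≤ Cb ∧ C2 i ≤ Cb := by
    intro i
    have h1 : C1 i + C2 i ≤ Cb := Finset.single_le_sum (f := fun i => C1 i + C2 i)
      (fun i _ => add_nonneg (hC10 i) (hC20 i)) (Finset.mem_univ i)
    have h2 := hC10 i
    have h3 := hC20 i
    constructor <;> linarith
  set c : ℝ := ∑ i, ∑ α : ZMod K × ZMod K, ∑ β : ZMod K × ZMod K, ‖om i (rz α) (rz β)‖ with hc
  have hc0 : 0 ≤ c := Finset.sum_nonneg fun i _ => Finset.sum_nonneg fun α _ =>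
    Finset.sum_nonneg fun β _ => norm_nonneg _
  set P : ℝ := (c + 1) * (Cb + 1) with hP
  have hP0 : 0 < P := by positivity
  set η : ℝ := ε / (2 * P) with hη
  have hη0 : 0 < η := by positivity
  -- reduction to a uniform bound of the averages
  have hred : ∀ (L : ℝ) (n : ℕ), (∀ (i : ι) (α β : ZMod K × ZMod K),
      ‖(1 / (2 * Real.pi) : ℂ) * ∫ θ in (0 : ℝ)..(2 * Real.pi),
        hmm (S.Q i) (tauH a) (gcw w1 (S.Q i) K α) G1 L n θ * hmm (S.Q i) (tauH a) (gcw w2 (S.Q i) K β) G2 L n θ‖ ≤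
        Cb * (η + η ^ 2 / η)) → ‖HPsW S (tauH a) w1 w2 K om G1 G2 L n‖ ≤ ε := by
    intro L n h
    have h1 : ‖HPsW S (tauH a) w1 w2 K om G1 G2 L n‖ ≤ c * (Cb * (η + η ^ 2 / η)) := by
      unfold HPsW
      rw [hc, Finset.sum_mul]
      refine (norm_sum_le _ _).trans (Finset.sum_le_sum fun i _ => ?_)
      rw [Finset.sum_mul]
      refine (norm_sum_le _ _).trans (Finset.sum_le_sum fun α _ => ?_)
      rw [Finset.sum_mul]
      refine (norm_sum_le _ _).trans (Finset.sum_le_sum fun β _ => ?_)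
      split_ifs with h2
      · rw [norm_mul]
        exact mul_le_mul_of_nonneg_left (h i α β) (norm_nonneg _)
      · rw [norm_zero]
        positivity
    have h2 : η + η ^ 2 / η = ε / P := by
      have : η ^ 2 / η = η := by field_simp
      rw [this, hη]
      field_simp
      norm_num
    rw [h2] at h1
    refine h1.trans ?_
    have h3 : c * Cb ≤ P := by rw [hP]; nlinarith
    calc c * (Cb * (ε / P)) = (c * Cb) * (ε / P) := by ring
      _ ≤ P * (ε / P) := mul_le_mul_of_nonneg_right h3 (by positivity)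
      _ = ε := by field_simp
  -- the mean square
  have key : ∀ (w : ℕ → ℂ) (G : ℝ → ℝ → ℝ), B1 w → GT B G → (∀ i, HMrsQw (S.Q i) (per a) w K) →
      ∃ L0 : ℝ, 1 ≤ L0 ∧ ∀ L : ℝ, L0 ≤ L → ∃ n0 : ℕ, 1 ≤ n0 ∧ ∀ n : ℕ, n0 ≤ n → ∀ (i : ι)
      (α : ZMod K × ZMod K), 1 / (2 * Real.pi) * ∫ θ in (0 : ℝ)..(2 * Real.pi),
        ‖hmm (S.Q i) (tauH a) (gcw w (S.Q i) K α) G L n θ‖ ^ 2 ≤ η ^ 2 := by
    intro w G hw hG hMz
    have h1 := fun (p : ι × (ZMod K × ZMod K)) =>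
      hmmw_null64 (S.hyp p.1) ha hw haK (hMz p.1) hG p.2 (by positivity : 0 < η ^ 2)
    choose L0 hL0 h2 using h1
    refine ⟨1 + ∑ p, L0 p, ?_, fun L hL => ?_⟩
    · have : 0 ≤ ∑ p, L0 p := Finset.sum_nonneg fun p _ => by linarith [hL0 p]
      linarith
    have hLp : ∀ p, L0 p ≤ L := by
      intro p
      have h3 : L0 p ≤ ∑ p, L0 p := Finset.single_le_sum (f := L0)
        (fun p _ => by linarith [hL0 p]) (Finset.mem_univ p)
      linarith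
    choose n0 hn0 using fun p => h2 p L (hLp p)
    refine ⟨max 1 (Finset.univ.sup n0), le_max_left _ _, fun n hn i α => ?_⟩
    exact hn0 (i, α) n ((Finset.le_sup (Finset.mem_univ (i, α))).trans
      ((le_max_right _ _).trans hn))
  rcases hM with hM | hM
  · obtain ⟨L0, hL0, h1⟩ := key w1 G1 hw1 hG1 hM
    refine ⟨L0, hL0, fun L hL => ?_⟩
    obtain ⟨n0, hn00, hn0⟩ := h1 L hL
    refine ⟨n0, fun n hn => hred L n fun i α β => ?_⟩
    have hL1 : 1 ≤ L := hL0.trans hL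
    have hn1 : (1 : ℝ) ≤ n := by exact_mod_cast hn00.trans hn
    have h3 := Glue90.av_mul_le (f := fun θ => hmm (S.Q i) (tauH a) (gcw w1 (S.Q i) K α) G1 L n θ)
      (g := fun θ => hmm (S.Q i) (tauH a) (gcw w2 (S.Q i) K β) G2 L n θ)
      (Mg46.cont_hmm stHCnt_26 (S.hyp i) (tauH a) B G1 hG1 _ (gcw_ug64 hw1 _ K α) L hL1 n hn1) hη0
      (fun θ => (hC2 i _ (gcw_ug64 hw2 _ K β) (tauH a) L n θ hL1).trans (hCbi i).2)
    refine h3.trans (mul_le_mul_of_nonneg_left ?_ hCb0)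
    have h4 := div_le_div_of_nonneg_right (hn0 n hn i α) hη0.le
    linarith
  · obtain ⟨L0, hL0, h1⟩ := key w2 G2 hw2 hG2 hM
    refine ⟨L0, hL0, fun L hL => ?_⟩
    obtain ⟨n0, hn00, hn0⟩ := h1 L hL
    refine ⟨n0, fun n hn => hred L n fun i α β => ?_⟩
    have hL1 : 1 ≤ L := hL0.trans hL
    have hn1 : (1 : ℝ) ≤ n := by exact_mod_cast hn00.trans hn
    have h3 := Glue90.av_mul_le (f := fun θ => hmm (S.Q i) (tauH a) (gcw w2 (S.Q i) K β) G2 L n θ)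
      (g := fun θ => hmm (S.Q i) (tauH a) (gcw w1 (S.Q i) K α) G1 L n θ)
      (Mg46.cont_hmm stHCnt_26 (S.hyp i) (tauH a) B G2 hG2 _ (gcw_ug64 hw2 _ K β) L hL1 n hn1) hη0
      (fun θ => (hC1 i _ (gcw_ug64 hw1 _ K α) (tauH a) L n θ hL1).trans (hCbi i).1)
    have h5 : (fun θ : ℝ => hmm (S.Q i) (tauH a) (gcw w1 (S.Q i) K α) G1 L n θ *
        hmm (S.Q i) (tauH a) (gcw w2 (S.Q i) K β) G2 L n θ) = fun θ : ℝ =>
        hmm (S.Q i) (tauH a) (gcw w2 (S.Q i) K β) G2 L n θ * hmm (S.Q i) (tauH a) (gcw w1 (S.Q i) K α) G1 L n θ := by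
      funext θ
      exact mul_comm _ _
    rw [h5]
    refine h3.trans (mul_le_mul_of_nonneg_left ?_ hCb0)
    have h4 := div_le_div_of_nonneg_right (hn0 n hn i β) hη0.le
    linarith

/-- E1: the bilinear functions of the level tend to zero in mean -/
theorem stPsiHW_64 : StPsiHW := by
  intro M ι _ S w1 w2 hw1 hw2 K _ a ha haK hM om _ B G1 G2 hG1 hG2
  obtain ⟨C, hC⟩ := hpsw_bd64 S (tauH a) hw1 hw2 K om hG1 hG2
  rw [Metric.tendsto_atTop]
  intro ε hε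
  obtain ⟨L0, hL0, h⟩ := hpsw_null64 S hw1 hw2 K ha haK hM om hG1 hG2 (half_pos hε)
  refine ⟨L0, fun L hL => ?_⟩
  obtain ⟨n0, hn0⟩ := h L hL
  have hL1 : 1 ≤ L := hL0.trans hL
  have hb : Bdd (fun n : ℕ => ‖HPsW S (tauH a) w1 w2 K om G1 G2 L n‖) :=
    ⟨C, fun n => by rw [abs_norm]; exact hC L hL1 n⟩
  have h1 := M.abs_le_of_ev hb (C := ε / 2) (by
    filter_upwards [eventually_ge_atTop n0] with n hn
    rw [abs_norm]
    exact hn0 n hn)
  rw [Real.dist_eq, sub_zero]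
  linarith

end Pool.Agent.Lib.MP_a17b09_nt.PQH
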