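import Pool.Agent.Lib.MP_a17b09_nt.PQH.Stmts99
import Pool.Agent.Lib.MP_a17b09_nt.PQ.N2_12

/-!
Project PQH (MP_a17b09_nt), row N2: the weights are multiplicative up to small sets (helper11,
fork of helper12's PQ/N2_12).
-/

set_option autoImplicit false

open Filter Topology Finset

namespace Pool.Agent.Lib.MP_a17b09_nt.PQH.N2x11

open CH CH.PE HY HY.S68 MRH
open PQ (B1 Wy gw gcw Win WinN bb bN rho wz1 wr StSchW StWinS StRho TwW CW MPQ)
open PQ.N2x12 (wy_z wy_r win_ne)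

open Classical in
/-- the exceptional vectors of a shell -/
theorem exc (d : ℕ) (hN : StNullH d) (D : Dat) (hD : D.d = d) {δ : ℝ} (h0 : 0 < δ)
    (hδ : δ < 1 / 2) (r1 r2 : ℝ)
    (hr1 : 0 < r1) (hr12 : r1 < r2) (ε : ℝ) (hε : 0 < ε) : ∃ N0 : ℝ, 1 ≤ N0 ∧ ∀ N : ℝ, N0 ≤ N →
    ∀ i : Cx D, ((((Shg i (r1 * N) (r2 * N)).filter Prim).filter
      (fun v => bb (4 * d) δ ((rp i).q v).natAbs ≠
        bN (4 * d) δ N ((rp i).q v).natAbs)).card : ℝ) ≤ ε * N := by
  have hr2 : 0 < r2 := hr1.trans hr12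
  have hr1' : 0 < 1 / r1 := by positivity
  have hr2' : 0 < 1 / r2 := by positivity
  set C : ℝ := r2 + 1 / r1 + 1 with hC
  have hC1 : 1 ≤ C := by linarith
  have hC0 : 0 < C := by linarith
  set C' : ℝ := C * (r2 + 1) * (1 + 1 / r2) with hC'
  have hC'1 : 1 < C' := by
    have k1 : 1 < C := by linarith
    have k2 : 1 < r2 + 1 := by linarith
    have k3 : 1 < 1 + 1 / r2 := by linarith
    have k4 : 1 < C * (r2 + 1) := by nlinarith
    rw [hC']
    nlinarith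
  set e : ℝ := ε / (2 * (r2 + 1)) with he
  have he0 : 0 < e := by positivity
  choose n1 hn1 using fun i : Cx D => hN (rp i) (hD ▸ rp_hyp i) D.T D.T_pos (1 - δ) C'
    (by linarith) (by linarith) hC'1 e he0
  choose n2 hn2 using fun i : Cx D => hN (rp i) (hD ▸ rp_hyp i) D.T D.T_pos (1 - δ / 2) C'
    (by linarith) (by linarith) hC'1 e he0
  set m : ℕ := ∑ i, (n1 i + n2 i) with hm
  refine ⟨max 1 (m / r2), le_max_left _ _, fun N hNN i => ?_⟩
  have hN1 : 1 ≤ N := (le_max_left _ _).trans hNN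
  have hN0 : 0 < N := by linarith
  have hmN : (m : ℝ) ≤ r2 * N := by
    have := (le_max_right _ _).trans hNN
    rw [div_le_iff₀ hr2] at this
    linarith
  set M : ℕ := ⌈r2 * N⌉₊ with hM
  have hM1 : r2 * N ≤ M := Nat.le_ceil _
  have hM2 : (M : ℝ) ≤ (r2 + 1) * N := by
    have := (Nat.ceil_lt_add_one (show 0 ≤ r2 * N by positivity)).le
    linarith
  have hmM : m ≤ M := by exact_mod_cast hmN.trans hM1
  have hi1 : n1 i ≤ M := by
    have h1 : n1 i + n2 i ≤ m := single_le_sum (f := fun i => n1 i + n2 i)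
      (fun _ _ => Nat.zero_le _) (mem_univ i)
    omega
  have hi2 : n2 i ≤ M := by
    have h1 : n1 i + n2 i ≤ m := single_le_sum (f := fun i => n1 i + n2 i)
      (fun _ _ => Nat.zero_le _) (mem_univ i)
    omega
  have hcmp : ∀ η : ℝ, 0 < η → η < 1 → (M : ℝ) ^ η / C' ≤ N ^ η / C ∧
      C * N ^ η ≤ C' * (M : ℝ) ^ η := by
    intro η hη hη1
    have hM0 : (0 : ℝ) < M := lt_of_lt_of_le (by positivity) hM1
    have k1 : (M : ℝ) ^ η ≤ (r2 + 1) * N ^ η := by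
      calc (M : ℝ) ^ η ≤ ((r2 + 1) * N) ^ η := Real.rpow_le_rpow hM0.le hM2 hη.le
        _ = (r2 + 1) ^ η * N ^ η := Real.mul_rpow (by linarith) hN0.le
        _ ≤ (r2 + 1) * N ^ η := by
            apply mul_le_mul_of_nonneg_right _ (Real.rpow_nonneg hN0.le _)
            calc (r2 + 1) ^ η ≤ (r2 + 1) ^ (1 : ℝ) :=
                  Real.rpow_le_rpow_of_exponent_le (by linarith) hη1.le
              _ = r2 + 1 := Real.rpow_one _
    have k2 : N ^ η ≤ (1 + 1 / r2) * (M : ℝ) ^ η := by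
      have k3 : N ≤ (1 + 1 / r2) * M := by
        have : r2 * N * (1 / r2) = N := by field_simp
        have k4 : N ≤ (1 / r2) * M := by nlinarith
        nlinarith
      calc N ^ η ≤ ((1 + 1 / r2) * M) ^ η := Real.rpow_le_rpow hN0.le k3 hη.le
        _ = (1 + 1 / r2) ^ η * (M : ℝ) ^ η := Real.mul_rpow (by linarith) hM0.le
        _ ≤ (1 + 1 / r2) * (M : ℝ) ^ η := by
            apply mul_le_mul_of_nonneg_right _ (Real.rpow_nonneg hM0.le _)
            calc (1 + 1 / r2) ^ η ≤ (1 + 1 / r2) ^ (1 : ℝ) :=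
                  Real.rpow_le_rpow_of_exponent_le (by linarith) hη1.le
              _ = 1 + 1 / r2 := Real.rpow_one _
    have hNp : 0 < N ^ η := Real.rpow_pos_of_pos hN0 _
    have hMp : 0 < (M : ℝ) ^ η := Real.rpow_pos_of_pos hM0 _
    constructor
    · rw [div_le_div_iff₀ (by linarith) hC0, hC']
      have k5 : (r2 + 1) * N ^ η ≤ (r2 + 1) * N ^ η * (1 + 1 / r2) := by
        have : 0 ≤ (r2 + 1) * N ^ η * (1 / r2) := by positivity
        linarith
      calc (M : ℝ) ^ η * C ≤ (r2 + 1) * N ^ η * (1 + 1 / r2) * C :=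
            mul_le_mul_of_nonneg_right (k1.trans k5) hC0.le
        _ = _ := by ring
    · rw [hC']
      have k5 : (1 + 1 / r2) * (M : ℝ) ^ η ≤ (r2 + 1) * (1 + 1 / r2) * (M : ℝ) ^ η := by
        have : 0 ≤ r2 * ((1 + 1 / r2) * (M : ℝ) ^ η) := by positivity
        linarith
      calc C * N ^ η ≤ C * ((r2 + 1) * (1 + 1 / r2) * (M : ℝ) ^ η) :=
            mul_le_mul_of_nonneg_left (k2.trans k5) hC0.le
        _ = _ := by ring
  obtain ⟨f1, h1⟩ := hn1 i M hi1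
  obtain ⟨f2, h2⟩ := hn2 i M hi2
  set S1 := {v : V | Sec (rp i) D.T v ∧ ((rp i).q v : ℝ) ≤ M ∧ ∃ p : ℕ, p.Prime ∧
    p ≡ 1 [MOD 4 * d] ∧ p ∣ ((rp i).q v).natAbs ∧ (M : ℝ) ^ (1 - δ) / C' < p ∧
    (p : ℝ) ≤ C' * (M : ℝ) ^ (1 - δ)} with hS1
  set S2 := {v : V | Sec (rp i) D.T v ∧ ((rp i).q v : ℝ) ≤ M ∧ ∃ p : ℕ, p.Prime ∧
    p ≡ 1 [MOD 4 * d] ∧ p ∣ ((rp i).q v).natAbs ∧ (M : ℝ) ^ (1 - δ / 2) / C' < p ∧
    (p : ℝ) ≤ C' * (M : ℝ) ^ (1 - δ / 2)} with hS2
  have hsub : (((((Shg i (r1 * N) (r2 * N)).filter Prim).filter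
      (fun v => bb (4 * d) δ ((rp i).q v).natAbs ≠
        bN (4 * d) δ N ((rp i).q v).natAbs)) : Finset V) : Set V) ⊆ S1 ∪ S2 := by
    intro v hv
    rw [Finset.mem_coe, mem_filter, mem_filter, mem_Shg] at hv
    obtain ⟨⟨⟨hv0, hv1, hv2⟩, -⟩, hv3⟩ := hv
    have hq : 0 < (rp i).q v := by
      have : (0 : ℝ) < ((rp i).q v : ℝ) := lt_trans (by positivity) hv1
      exact_mod_cast this
    have hcast : ((((rp i).q v).natAbs : ℕ) : ℝ) = (((rp i).q v : ℤ) : ℝ) := by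
      rw [Nat.cast_natAbs, abs_of_pos hq]
    obtain ⟨η, hη, p, hp, hpq, hpd, k1, k2⟩ := win_ne h0 hδ hr1 hr2 hN1
      (by rw [hcast]; exact hv1) (by rw [hcast]; exact hv2) hv3
    have hqM : ((rp i).q v : ℝ) ≤ M := hv2.trans hM1
    rcases hη with h | h
    · left
      subst h
      obtain ⟨c1, c2⟩ := hcmp (1 - δ) (by linarith) (by linarith)
      exact ⟨hv0, hqM, p, hp, hpq, hpd, c1.trans_lt k1, k2.trans c2⟩
    · right
      have h' : η = 1 - δ / 2 := h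
      subst h'
      obtain ⟨c1, c2⟩ := hcmp (1 - δ / 2) (by linarith) (by linarith)
      exact ⟨hv0, hqM, p, hp, hpq, hpd, c1.trans_lt k1, k2.trans c2⟩
  have h3 := (Set.ncard_le_ncard hsub (f1.union f2)).trans (Set.ncard_union_le S1 S2)
  rw [Set.ncard_coe_finset] at h3
  have h4 : ((((Shg i (r1 * N) (r2 * N)).filter Prim).filter
      (fun v => bb (4 * d) δ ((rp i).q v).natAbs ≠
        bN (4 * d) δ N ((rp i).q v).natAbs)).card : ℝ) ≤ (S1.ncard : ℝ) + S2.ncard := by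
    exact_mod_cast h3
  calc _ ≤ (S1.ncard : ℝ) + S2.ncard := h4
    _ ≤ e * M + e * M := add_le_add h1 h2
    _ = 2 * e * M := by ring
    _ ≤ 2 * e * ((r2 + 1) * N) := mul_le_mul_of_nonneg_left hM2 (by positivity)
    _ = ε * N := by
        rw [he]
        field_simp

end Pool.Agent.Lib.MP_a17b09_nt.PQH.N2x11

namespace Pool.Agent.Lib.MP_a17b09_nt.PQH

open CH CH.PE HY HY.S68 MRH N2x11
open PQ (B1 Wy gw gcw Win WinN bb bN rho wz1 wr StSchW StWinS StRho TwW CW MPQ)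
open PQ.N2x12 (wy_z wy_r win_ne)

/-- row N2 -/
theorem stApxH_11 (d : ℕ) (hN : StNullH d) (hR : StRho) : StApxH d := by
  classical
  intro δ h0 hδ
  refine ⟨fun z hz D hD r1 r2 hr1 hr12 ε hε => ?_, fun D hD r1 r2 hr1 hr12 ε hε => ?_⟩
  · obtain ⟨N0, hN0, H⟩ := exc d hN D hD h0 hδ r1 r2 hr1 hr12 ε hε
    refine ⟨N0, fun N hNN => ⟨_, wy_z (q := 4 * d) hz hδ (hN0.trans hNN), fun i => ?_⟩⟩
    refine le_trans ?_ (H N hNN i)
    have hsub : ((Shg i (r1 * N) (r2 * N)).filter Prim).filter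
        (fun v => wz1 z (4 * d) δ ((rp i).q v).natAbs ≠
          z ^ Omn ((rp i).q v).natAbs * bN (4 * d) δ N ((rp i).q v).natAbs) ⊆
        ((Shg i (r1 * N) (r2 * N)).filter Prim).filter
        (fun v => bb (4 * d) δ ((rp i).q v).natAbs ≠
          bN (4 * d) δ N ((rp i).q v).natAbs) := by
      intro v hv
      rw [mem_filter] at hv ⊢
      refine ⟨hv.1, fun h => hv.2 ?_⟩
      unfold wz1
      rw [h]
    exact_mod_cast card_le_card hsub
  · obtain ⟨N0, hN0, H⟩ := exc d hN D hD h0 hδ r1 r2 hr1 hr12 ε hε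
    refine ⟨N0, fun N hNN => ⟨_, wy_r hR (d := d) h0 hδ (hN0.trans hNN), fun i => ?_⟩⟩
    refine le_trans ?_ (H N hNN i)
    have hsub : ((Shg i (r1 * N) (r2 * N)).filter Prim).filter
        (fun v => wr (4 * d) δ ((rp i).q v).natAbs ≠
          bN (4 * d) δ N ((rp i).q v).natAbs - (rho (4 * d) δ : ℂ)) ⊆
        ((Shg i (r1 * N) (r2 * N)).filter Prim).filter
        (fun v => bb (4 * d) δ ((rp i).q v).natAbs ≠
          bN (4 * d) δ N ((rp i).q v).natAbs) := by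
      intro v hv
      rw [mem_filter] at hv ⊢
      refine ⟨hv.1, fun h => hv.2 ?_⟩
      unfold wr
      rw [h]
    exact_mod_cast card_le_card hsub

end Pool.Agent.Lib.MP_a17b09_nt.PQH
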