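import Pool.Agent.Lib.MP_a17b09_nt.PQH.FreqH12
import Pool.Agent.Lib.MP_a17b09_nt.PQH.N2_11
import Pool.Agent.Lib.MP_a17b09_nt.PQ.F5_12

/-! PQH (MP_a17b09_nt), row F5: frequency `0` for `z ^ Ω b`, `z ≠ 1`, positive discriminant.
helper12. -/

set_option autoImplicit false

open Filter Topology Finset

namespace Pool.Agent.Lib.MP_a17b09_nt.PQH.F5x12

open CH CH.PE HY MRH FreqH12
open PQ (Wy gw Win WinN bb bN rho wz1 wr StWinS)
open PQ.F5x12 (Wn mem_Wn winN_iff win_cond)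
open PQ.N2x12 (wy_z)

/-- large primes `1 mod 4 d` are in use -/
theorem spl_large {D : Dat} {p : ℕ} (hp : p.Prime) (h4 : p ≡ 1 [MOD 4 * D.d]) (hKp : D.K < p) :
    Spw D p := by
  have hd : 0 < D.d := D.d_pos
  have h1 : MRSG.Adm D.d 1 (p, true) := MRSG.adm_of_one true hp hd one_pos h4 Nat.modEq_one
  obtain ⟨-, h2, -⟩ := h1
  obtain ⟨r, -, hr⟩ := (S68.split_of_mod hd hp h4).2
  refine ⟨hp, fun h => ?_, r, hr⟩
  rcases hp.dvd_mul.1 h with h5 | h5
  · exact h2 (by rw [mul_one]; exact h5)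
  · exact absurd (Nat.le_of_dvd D.Kpos h5) (by omega)

open Classical in
/-- changing the weight on the exceptional vectors -/
theorem mpw_diff {D : Dat} {q : ℕ} {δ N r1 r2 e : ℝ} (hN : 0 < N) {w w' : ℕ → ℂ}
    (h1 : ∀ n, bb q δ n = bN q δ N n → w n = w' n) (h2 : ∀ n, ‖w n - w' n‖ ≤ 2)
    (hE : ∀ i : Cx D, ((((Shg i (r1 * N) (r2 * N)).filter Prim).filter
      (fun v => bb q δ ((rp i).q v).natAbs ≠ bN q δ N ((rp i).q v).natAbs)).card : ℝ) ≤ e * N)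
    (f : Fq D) : ‖Mph w r1 r2 N f - Mph w' r1 r2 N f‖ ≤ 2 * Fintype.card (Cx D) * e := by
  unfold Mph
  rw [← mul_sub, ← sum_sub_distrib, norm_mul, norm_div, norm_one, Complex.norm_real,
    Real.norm_of_nonneg hN.le]
  have h3 : ∀ i : Cx D, ‖∑ v ∈ (Shg i (r1 * N) (r2 * N)).filter Prim, gw w (rp i) v * ch f i v -
      ∑ v ∈ (Shg i (r1 * N) (r2 * N)).filter Prim, gw w' (rp i) v * ch f i v‖ ≤ 2 * (e * N) := by
    intro i
    rw [← sum_sub_distrib]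
    refine (norm_sum_le _ _).trans ?_
    have h4 : ∀ v ∈ (Shg i (r1 * N) (r2 * N)).filter Prim,
        ‖gw w (rp i) v * ch f i v - gw w' (rp i) v * ch f i v‖ ≤
        if bb q δ ((rp i).q v).natAbs ≠ bN q δ N ((rp i).q v).natAbs then 2 else 0 := by
      intro v hv
      unfold gw
      split_ifs with h
      · rw [← sub_mul, norm_mul]
        calc _ ≤ (2 : ℝ) * 1 := mul_le_mul (h2 _) (norm_ch_le f i v) (norm_nonneg _)
              (by norm_num)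
          _ = 2 := by norm_num
      · rw [h1 _ (not_not.1 h), sub_self, norm_zero]
    refine (sum_le_sum h4).trans ?_
    rw [← sum_filter, sum_const, nsmul_eq_mul, mul_comm]
    exact mul_le_mul_of_nonneg_left (hE i) (by norm_num)
  calc 1 / N * ‖∑ i, (∑ v ∈ (Shg i (r1 * N) (r2 * N)).filter Prim, gw w (rp i) v * ch f i v -
      ∑ v ∈ (Shg i (r1 * N) (r2 * N)).filter Prim, gw w' (rp i) v * ch f i v)‖
      ≤ 1 / N * ∑ _i : Cx D, 2 * (e * N) := by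
        refine mul_le_mul_of_nonneg_left ?_ (by positivity)
        exact (norm_sum_le _ _).trans (sum_le_sum fun i _ => h3 i)
    _ = 2 * Fintype.card (Cx D) * e := by
        rw [sum_const, card_univ, nsmul_eq_mul]
        field_simp

end Pool.Agent.Lib.MP_a17b09_nt.PQH.F5x12

namespace Pool.Agent.Lib.MP_a17b09_nt.PQH

open CH CH.PE HY MRH FreqH12 F5x12 N2x11
open PQ (Wy gw Win WinN bb bN rho wz1 wr StWinS)
open PQ.F5x12 (Wn mem_Wn winN_iff win_cond)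
open PQ.N2x12 (wy_z)

/-- row F5 -/
theorem stFrZH_12 (d : ℕ) (hP : ∀ D : Dat, D.d = d → MRH.StPw0G D) (hS : StWinS)
    (hN : StNullH d) : StFrZH d := by
  classical
  intro δ h0 hδ z k hk hzk hz1 D hDd r1 r2 hr1 hr12 e
  have hz : ‖z‖ = 1 := Complex.norm_eq_one_of_pow_eq_one hzk hk.ne'
  have hd : 0 < d := hDd ▸ D.d_pos
  rw [Metric.tendsto_atTop]
  intro ε hε
  set B : ℝ := 2 * (1 / (Nat.totient (4 * d) : ℝ) * Real.log ((1 - δ / 2) / (1 - δ)) + 1) with hB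
  have hlim := hS (4 * d) (by omega) δ h0 hδ
  have hBd : ∀ᶠ N : ℝ in atTop, ∑ p ∈ Wn d δ N, 2 / (p : ℝ) ≤ B := by
    have h1 := hlim.eventually (gt_mem_nhds (lt_add_one _))
    filter_upwards [h1] with N h2
    have h3 : ∑ p ∈ Wn d δ N, 2 / (p : ℝ) = 2 * ∑ p ∈ Wn d δ N, 1 / (p : ℝ) := by
      rw [mul_sum]
      exact sum_congr rfl fun p _ => by ring
    rw [h3, hB]
    unfold Wn
    linarith
  have hB0 : 0 ≤ B := by
    obtain ⟨N, hN⟩ := hBd.exists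
    exact (sum_nonneg fun p _ => by positivity).trans hN
  set e1 : ℝ := ε / (4 * (Fintype.card (Cx D) + 1)) with he1
  have he10 : 0 < e1 := by positivity
  obtain ⟨N1, hN1, H1⟩ := exc d hN D hDd h0 hδ r1 r2 hr1 hr12 e1 he10
  obtain ⟨X0, hX0, H2⟩ := freq_ne (hP D hDd) z k hk hzk hz1 r1 r2 hr1.le hr12 (⟨0, e⟩ : Fq D) rfl
    (ε / (4 * (B + 1))) (by positivity)
  obtain ⟨N2, hN2⟩ := eventually_atTop.1 (hBd.and (win_cond d δ h0 hδ X0 r2 D.K))
  refine ⟨max N1 N2, fun N hNN => ?_⟩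
  have hNa : N1 ≤ N := (le_max_left _ _).trans hNN
  have hN1' : 1 ≤ N := hN1.trans hNa
  have hN0 : 0 < N := by linarith
  obtain ⟨hb, hc⟩ := hN2 N ((le_max_right _ _).trans hNN)
  have k1 := mpw_diff (D := D) (w := wz1 z (4 * d) δ)
    (w' := fun n => z ^ Omn n * bN (4 * d) δ N n) hN0
    (fun n h => by unfold wz1; rw [h])
    (fun n => by
      have h3 : ‖wz1 z (4 * d) δ n‖ ≤ 1 := by
        unfold wz1 bb
        rw [norm_mul, norm_pow, hz, one_pow, one_mul]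
        split_ifs <;> simp
      have h4 := (wy_z (q := 4 * d) hz hδ hN1').le n
      calc _ ≤ ‖wz1 z (4 * d) δ n‖ + ‖z ^ Omn n * bN (4 * d) δ N n‖ := norm_sub_le _ _
        _ ≤ 2 := by linarith)
    (H1 N hNa) (⟨0, e⟩ : Fq D)
  have k2 : Mph (fun n => z ^ Omn n * bN (4 * d) δ N n) r1 r2 N (⟨0, e⟩ : Fq D) =
      Mpa (fun i v => if ∃ p ∈ Wn d δ N, (p : ℤ) ∣ (rp i).q v then gz z (rp i) v else 0)
        r1 r2 N (⟨0, e⟩ : Fq D) := by
    unfold Mph Mpa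
    congr 1
    refine sum_congr rfl fun i _ => sum_congr rfl fun v _ => ?_
    congr 1
    unfold gw gz bN
    simp only [winN_iff hN0.le]
    split_ifs <;> simp [Omn]
  have k3 := H2 N (Wn d δ N)
    (fun p hp => spl_large ((mem_Wn hN0.le).1 hp).1
      (by rw [hDd]; exact ((mem_Wn hN0.le).1 hp).2.1) (hc p hp).1)
    (fun p hp => (hc p hp).2.1) (fun p hp => (hc p hp).2.2)
  rw [← k2] at k3
  rw [dist_zero_right]
  have k4 : 2 * Fintype.card (Cx D) * e1 ≤ ε / 2 := by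
    rw [he1]
    have h5 : (0 : ℝ) ≤ Fintype.card (Cx D) := Nat.cast_nonneg _
    rw [mul_div_assoc', div_le_div_iff₀ (by positivity) (by norm_num)]
    nlinarith
  have k5 : ε / (4 * (B + 1)) * ∑ p ∈ Wn d δ N, 2 / (p : ℝ) ≤ ε / 4 := by
    calc _ ≤ ε / (4 * (B + 1)) * (B + 1) :=
          mul_le_mul_of_nonneg_left (by linarith) (by positivity)
      _ = ε / 4 := by field_simp
  calc ‖Mph (wz1 z (4 * d) δ) r1 r2 N (⟨0, e⟩ : Fq D)‖
      ≤ ‖Mph (wz1 z (4 * d) δ) r1 r2 N (⟨0, e⟩ : Fq D) -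
        Mph (fun n => z ^ Omn n * bN (4 * d) δ N n) r1 r2 N (⟨0, e⟩ : Fq D)‖ +
        ‖Mph (fun n => z ^ Omn n * bN (4 * d) δ N n) r1 r2 N (⟨0, e⟩ : Fq D)‖ := by
        have := norm_add_le (Mph (wz1 z (4 * d) δ) r1 r2 N (⟨0, e⟩ : Fq D) -
          Mph (fun n => z ^ Omn n * bN (4 * d) δ N n) r1 r2 N (⟨0, e⟩ : Fq D))
          (Mph (fun n => z ^ Omn n * bN (4 * d) δ N n) r1 r2 N (⟨0, e⟩ : Fq D))
        rwa [sub_add_cancel] at this
    _ < ε := by linarith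

end Pool.Agent.Lib.MP_a17b09_nt.PQH
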