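import Pool.Agent.Lib.MP_a17b09_nt.MRH.Pw0H29
import Pool.Agent.Lib.MP_a17b09_nt.MRH.ExpH67

/-!
PQH (MP_a17b09_nt), frequency `0`: the vectors with a value divisible by a prime of a window `W` of
large split primes.  helper12.
-/

set_option autoImplicit false

open Filter Topology Finset

namespace Pool.Agent.Lib.MP_a17b09_nt.PQH.FreqH12

open CH CH.PE HY MRH
open MRSG (eig_both sc ai_sc)

variable {D : Dat}

/-- shell sum over the primitive vectors, arbitrary coefficients -/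
noncomputable def Mpa (a : Cx D → V → ℂ) (r1 r2 N : ℝ) (w : Fq D) : ℂ :=
  (1 / (N : ℂ)) * ∑ i, ∑ v ∈ (Shg i (r1 * N) (r2 * N)).filter Prim, a i v * ch w i v

/-- split primes -/
def Spw (D : Dat) (p : ℕ) : Prop := Adm D (p, true)

theorem Spw.adm {D : Dat} {p : ℕ} (h : Spw D p) (b : Bool) : Adm D (p, b) := h

theorem rg_neg (p : ℕ) (b : Bool) : rg D (p, !b) = -rg D (p, b) := by
  unfold rg
  cases b <;> simp

open Classical in
/-- the vectors of the window are in exactly one of the images -/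
theorem one_img {W : Finset ℕ} (hW : ∀ p ∈ W, Spw D p) {b : ℝ}
    (hb : ∀ p ∈ W, ∀ p' ∈ W, b < (p : ℝ) * p') (i : Cx D) {v : V} (hv0 : Cn (rp i) v)
    (hv : ((rp i).q v : ℝ) ≤ b) :
    (if ∃ p ∈ W, (p : ℤ) ∣ (rp i).q v then (1 : ℂ) else 0) =
      ∑ P ∈ W ×ˢ (univ : Finset Bool), if Im (Mg D P i) v then (1 : ℂ) else 0 := by
  have hq := hv0.q_pos (rp_hyp i)
  have hdvd : ∀ p ∈ W, ∀ b : Bool, Im (Mg D (p, b) i) v → (p : ℤ) ∣ (rp i).q v := by
    intro p hp b h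
    have h1 : Adm D (p, b) := hW p hp
    rw [im_iff h1 i v] at h
    exact (adm_dvd_iff h1 i).2 (Or.inl h)
  have hlt : ∀ p ∈ W, ∀ p' ∈ W, (rp i).q v < (p : ℤ) * p' := by
    intro p hp p' hp'
    have := hv.trans_lt (hb p hp p' hp')
    exact_mod_cast this
  rw [sum_product]
  by_cases hex : ∃ p ∈ W, (p : ℤ) ∣ (rp i).q v
  · rw [if_pos hex]
    obtain ⟨p, hp, hpd⟩ := hex
    have hpp := (hW p hp).1
    have huniq : ∀ p' ∈ W, p' ≠ p → ∑ y : Bool, (if Im (Mg D (p', y) i) v then (1 : ℂ) else 0) = 0 := by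
      intro p' hp' hne
      refine sum_eq_zero fun y _ => if_neg fun h => ?_
      have h1 := hdvd p' hp' y h
      have hc : IsCoprime (p : ℤ) (p' : ℤ) :=
        Nat.isCoprime_iff_coprime.2 ((Nat.coprime_primes hpp (hW p' hp').1).2 (Ne.symm hne))
      have h2 := Int.le_of_dvd hq (hc.mul_dvd hpd h1)
      have h3 := hlt p hp p' hp'
      omega
    rw [sum_eq_single_of_mem p hp huniq, Fintype.sum_bool]
    have h1 : Adm D (p, true) := hW p hp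
    have h1' : Adm D (p, false) := hW p hp
    have e1 := im_iff h1 i v
    have e2 := im_iff h1' i v
    have hr : rg D (p, false) = -rg D (p, true) := rg_neg p true
    rw [hr] at e2
    simp only at e1 e2
    have hor := (adm_dvd_iff h1 i).1 hpd
    simp only at hor
    have hnb : ¬ (Eig (p : ℤ) (rg D (p, true)) (rp i) v ∧
        Eig (p : ℤ) (-rg D (p, true)) (rp i) v) := by
      intro h
      have h2 := (eig_both (Nat.prime_iff_prime_int.1 hpp) (rel_g h1 i).1).1 h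
      obtain ⟨⟨x, hx⟩, ⟨y, hy⟩⟩ := h2
      have h3 : v = (p : ℤ) • ((x, y) : V) := by
        apply Prod.ext
        · simp [hx]
        · simp [hy]
      have h4 : (rp i).q v = (p : ℤ) ^ 2 * (rp i).q (x, y) := by
        rw [h3, Form.q_smul]
      have h5 : (p : ℤ) * p ∣ (rp i).q v := ⟨(rp i).q (x, y), by rw [h4]; ring⟩
      have h6 := Int.le_of_dvd hq h5
      have h7 := hlt p hp p hp
      omega
    rcases hor with h | h
    · have h2 : ¬ Im (Mg D (p, false) i) v := fun h3 => hnb ⟨h, e2.1 h3⟩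
      rw [if_pos (e1.2 h), if_neg h2]
      norm_num
    · have h2 : ¬ Im (Mg D (p, true) i) v := fun h3 => hnb ⟨e1.1 h3, h⟩
      rw [if_neg h2, if_pos (e2.2 h)]
      norm_num
  · rw [if_neg hex]
    symm
    refine sum_eq_zero fun p hp => sum_eq_zero fun y _ => if_neg fun h => hex ⟨p, hp, hdvd p hp y h⟩

open Classical in
/-- **the window identity** -/
theorem win_id {W : Finset ℕ} (hW : ∀ p ∈ W, Spw D p) (r1 r2 N : ℝ)
    (hb : ∀ p ∈ W, ∀ p' ∈ W, r2 * N < (p : ℝ) * p') (w : Fq D) (z : ℂ) (a a' : Cx D → V → ℂ)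
    (hinv : FInv D a)
    (ha : ∀ P ∈ W ×ˢ (univ : Finset Bool), ∀ i, ∀ u : V, Cn (rp (sg D P i)) u →
      a i ((Mg D P i).app u) = z * a' (sg D P i) u) :
    Mpa (fun i v => if ∃ p ∈ W, (p : ℤ) ∣ (rp i).q v then a i v else 0) r1 r2 N w =
      ∑ P ∈ W ×ˢ (univ : Finset Bool), z * cw P w / (P.1 : ℂ) * Mpa a' r1 r2 (N / P.1) w := by
  have hadm : ∀ P ∈ W ×ˢ (univ : Finset Bool), Adm D P := fun P hP =>
    hW P.1 (mem_product.1 hP).1
  have e1 : ∀ i : Cx D, ∑ v ∈ (Shg i (r1 * N) (r2 * N)).filter Prim,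
      (if ∃ p ∈ W, (p : ℤ) ∣ (rp i).q v then a i v else 0) * ch w i v =
      ∑ P ∈ W ×ˢ (univ : Finset Bool), ∑ u ∈ (Shg (sg D P i) (r1 * N / P.1) (r2 * N / P.1)).filter
        Prim, z * cw P w * (a' (sg D P i) u * ch w (sg D P i) u) := by
    intro i
    have e2 : ∀ v ∈ (Shg i (r1 * N) (r2 * N)).filter Prim,
        (if ∃ p ∈ W, (p : ℤ) ∣ (rp i).q v then a i v else 0) * ch w i v =
        ∑ P ∈ W ×ˢ (univ : Finset Bool), if Im (Mg D P i) v then a i v * ch w i v else 0 := by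
      intro v hv
      have hv1 := mem_Shg.1 (mem_filter.1 hv).1
      have h1 := one_img hW hb i hv1.1.1 hv1.2.2
      have h2 : (if ∃ p ∈ W, (p : ℤ) ∣ (rp i).q v then a i v else 0) =
          (if ∃ p ∈ W, (p : ℤ) ∣ (rp i).q v then (1 : ℂ) else 0) * a i v := by
        split_ifs <;> simp
      rw [h2, h1, mul_assoc, sum_mul]
      refine sum_congr rfl fun P _ => ?_
      split_ifs <;> simp
    rw [sum_congr rfl e2, sum_comm]
    refine sum_congr rfl fun P hP => ?_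
    have hA := hadm P hP
    have hp0 : (0 : ℝ) < P.1 := by exact_mod_cast hA.1.pos
    rw [sum_filter, sum_filter]
    have e3 : ∑ v ∈ Shg i (r1 * N) (r2 * N),
        (if Prim v then if Im (Mg D P i) v then a i v * ch w i v else 0 else 0) =
        ∑ v ∈ (Shg i (r1 * N) (r2 * N)).filter (fun v => Im (Mg D P i) v),
          (if Prim v then a i v * ch w i v else 0) := by
      rw [sum_filter]
      refine sum_congr rfl fun v _ => ?_
      split_ifs <;> simp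
    rw [e3, sum_im hA i _ _ (fun v hv => by simp only [hinv i v hv, ch_act w i hv, prim_act])]
    refine sum_congr rfl fun u hu => ?_
    have hu1 := mem_Shg.1 hu
    have hne : ¬ Eig P.1 (-rg D P) (rp (sg D P i)) u := by
      intro h
      have h2 : (P.1 : ℤ) ∣ (rp (sg D P i)).q u := (adm_dvd_iff hA (sg D P i)).2 (Or.inr h)
      have hq := hu1.1.1.q_pos (rp_hyp (sg D P i))
      have h3 := Int.le_of_dvd hq h2
      have h4 : (P.1 : ℝ) ≤ r2 * N / P.1 := by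
        refine le_trans ?_ hu1.2.2
        exact_mod_cast h3
      rw [le_div_iff₀ hp0] at h4
      have h5 := hb P.1 (mem_product.1 hP).1 P.1 (mem_product.1 hP).1
      linarith
    have hpr : Prim ((Mg D P i).app u) ↔ Prim u := by
      rw [prim_app_iff hA i]
      exact ⟨fun h => h.1, fun h => ⟨h, hne⟩⟩
    by_cases hpu : Prim u
    · rw [if_pos (hpr.2 hpu), if_pos hpu, ha P hP i u hu1.1.1, ch_M hA w i hu1.1.1]
      ring
    · rw [if_neg (fun h => hpu (hpr.1 h)), if_neg hpu]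
  unfold Mpa
  rw [sum_congr rfl fun i _ => e1 i, sum_comm, mul_sum]
  refine sum_congr rfl fun P hP => ?_
  have hA := hadm P hP
  have hp0 : (P.1 : ℂ) ≠ 0 := by exact_mod_cast hA.1.ne_zero
  have e4 : ∑ i, ∑ u ∈ (Shg (sg D P i) (r1 * N / P.1) (r2 * N / P.1)).filter Prim,
      z * cw P w * (a' (sg D P i) u * ch w (sg D P i) u) = z * cw P w *
      ∑ i, ∑ u ∈ (Shg i (r1 * N / P.1) (r2 * N / P.1)).filter Prim, a' i u * ch w i u := by
    rw [← Equiv.sum_comp (sg D P) (fun i => ∑ u ∈ (Shg i (r1 * N / P.1) (r2 * N / P.1)).filter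
      Prim, a' i u * ch w i u), mul_sum]
    refine sum_congr rfl fun i _ => ?_
    rw [mul_sum]
  rw [e4, ← mul_div_assoc, ← mul_div_assoc]
  push_cast
  by_cases hN : (N : ℂ) = 0
  · rw [hN]; simp
  · field_simp

open Classical in
/-- **frequency `0`, `z ≠ 1`** -/
theorem freq_ne (hP : StPw0G D) (z : ℂ) (k : ℕ) (hk : 0 < k) (hzk : z ^ k = 1) (hz1 : z ≠ 1)
    (r1 r2 : ℝ) (hr1 : 0 ≤ r1) (hr12 : r1 < r2) (w : Fq D) (hw : w.1 = 0) (ε : ℝ) (hε : 0 < ε) :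
    ∃ X0 : ℝ, 1 ≤ X0 ∧ ∀ N : ℝ, ∀ W : Finset ℕ, (∀ p ∈ W, Spw D p) →
    (∀ p ∈ W, X0 * p ≤ N) → (∀ p ∈ W, ∀ p' ∈ W, r2 * N < (p : ℝ) * p') →
    ‖Mpa (fun i v => if ∃ p ∈ W, (p : ℤ) ∣ (rp i).q v then gz z (rp i) v else 0) r1 r2 N w‖ ≤
      ε * ∑ p ∈ W, 2 / (p : ℝ) := by
  have hz : ‖z‖ = 1 := Complex.norm_eq_one_of_pow_eq_one hzk hk.ne'
  obtain ⟨X0, hX0⟩ := eventually_atTop.1
    ((tendsto_zero_iff_norm_tendsto_zero.1 (hP z k hk hzk hz1 r1 r2 hr1 hr12 w hw)).eventually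
      (gt_mem_nhds hε))
  refine ⟨max X0 1, le_max_right _ _, fun N W hW hX hb => ?_⟩
  rw [win_id hW r1 r2 N hb w z (fun i v => gz z (rp i) v) (fun i v => gz z (rp i) v)
    (fun i v _ => gz_act z i v) (fun P hP i u hu => gz_app (show Adm D P from hW P.1 (mem_product.1 hP).1) z i hu)]
  refine (norm_sum_le _ _).trans ?_
  rw [sum_product, mul_sum]
  refine sum_le_sum fun p hp => ?_
  have hp0 : (0 : ℝ) < p := by exact_mod_cast (hW p hp).1.pos
  have key : ∀ b : Bool, ‖z * cw (p, b) w / (((p, b) : ℕ × Bool).1 : ℂ) *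
      Mpa (fun i v => gz z (rp i) v) r1 r2 (N / ((p, b) : ℕ × Bool).1) w‖ ≤ ε * (1 / (p : ℝ)) := by
    intro b
    have hA : Adm D (p, b) := hW p hp
    have h1 : max X0 1 ≤ N / p := by
      rw [le_div_iff₀ hp0]
      exact hX p hp
    have h2 := (hX0 (N / p) ((le_max_left _ _).trans h1)).le
    have h3 : Mpa (fun i v => gz z (rp i) v) r1 r2 (N / p) w = Mpg z r1 r2 (N / p) w := rfl
    simp only
    rw [norm_mul, norm_div, norm_mul, hz, norm_cw hA, Complex.norm_natCast, h3]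
    calc 1 * 1 / (p : ℝ) * ‖Mpg z r1 r2 (N / p) w‖ ≤ 1 * 1 / (p : ℝ) * ε :=
          mul_le_mul_of_nonneg_left h2 (by positivity)
      _ = ε * (1 / (p : ℝ)) := by ring
  rw [Fintype.sum_bool]
  calc _ ≤ ε * (1 / (p : ℝ)) + ε * (1 / (p : ℝ)) := add_le_add (key true) (key false)
    _ = ε * (2 / (p : ℝ)) := by ring

/-! ### `z = 1` -/

/-- the sum of the components -/
noncomputable def Sd (e : ℕ) (k : Fin (mm D 0)) : ℂ :=
  ∑ ia : Cx D × (ZMod D.K × ZMod D.K),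
    (starRingEnd ℂ) ((bv D 0 k : Hs D) (ia.1, sc (e : ZMod D.K) ia.2))

theorem Sd_inv (e : ℕ) (k : Fin (mm D 0)) {P : ℕ × Bool} (h : Adm D P) :
    cw P (⟨0, k⟩ : Fq D) * Sd e k = Sd e k := by
  have h1 := (bv_spec h 0 k).2
  have h2 : ∀ ia : Cx D × (ZMod D.K × ZMod D.K), (bv D 0 k : Hs D)
      ((jE h ia).1, sc (e : ZMod D.K) (jE h ia).2) =
      cw P (⟨0, k⟩ : Fq D) * (bv D 0 k : Hs D) (ia.1, sc (e : ZMod D.K) ia.2) := by
    rintro ⟨i, α⟩
    have h3 : Ug D P 0 (bv D 0 k : Hs D) (i, sc (e : ZMod D.K) α) =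
        cw P (⟨0, k⟩ : Fq D) * (bv D 0 k : Hs D) (i, sc (e : ZMod D.K) α) := by
      rw [h1]; rfl
    rw [Ug_apply, zpow_zero, one_mul, ai_sc] at h3
    exact h3
  have h3 : Sd e k = (starRingEnd ℂ) (cw P (⟨0, k⟩ : Fq D)) * Sd e k := by
    conv_lhs => unfold Sd
    rw [← Equiv.sum_comp (jE h) (fun ia => (starRingEnd ℂ)
      ((bv D 0 k : Hs D) (ia.1, sc (e : ZMod D.K) ia.2)))]
    unfold Sd
    rw [mul_sum]
    refine sum_congr rfl fun ia _ => ?_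
    rw [h2 ia, map_mul]
  have hcc : cw P (⟨0, k⟩ : Fq D) * (starRingEnd ℂ) (cw P (⟨0, k⟩ : Fq D)) = 1 := by
    rw [Complex.mul_conj, Complex.normSq_eq_norm_sq, norm_cw h]
    norm_num
  calc cw P (⟨0, k⟩ : Fq D) * Sd e k = cw P (⟨0, k⟩ : Fq D) *
        ((starRingEnd ℂ) (cw P (⟨0, k⟩ : Fq D)) * Sd e k) := by rw [← h3]
    _ = Sd e k := by rw [← mul_assoc, hcc, one_mul]

theorem ch0 (k : Fin (mm D 0)) (i : Cx D) (v : V) : ch (⟨0, k⟩ : Fq D) i v =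
    (starRingEnd ℂ) ((bv D 0 k : Hs D) (i, cl D.K v)) := by
  unfold ch
  rw [zpow_zero, mul_one]

/-- the constant of the discriminant -/
noncomputable def kd (D : Dat) : ℝ := D.T / √(D.d : ℝ)

theorem kd_nonneg : 0 ≤ kd D := by
  have := D.T_pos
  unfold kd
  positivity

/-- the sums over the multiples -/
noncomputable def GD (e : ℕ) (k : Fin (mm D 0)) (r1 r2 Y : ℝ) : ℂ :=
  (1 / (Y : ℂ)) * ∑ i, ∑ u ∈ Shg i (r1 * Y) (r2 * Y), ch (⟨0, k⟩ : Fq D) i ((e : ℤ) • u)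

/-- the limit -/
noncomputable def lD (e : ℕ) (k : Fin (mm D 0)) (r1 r2 : ℝ) : ℂ :=
  ((kd D * (r2 - r1) : ℝ) : ℂ) / (D.K : ℂ) ^ 2 * Sd e k

open Classical in
/-- the vectors of the classes modulo `K` -/
theorem approx (D : Dat) (r1 r2 : ℝ) (hr1 : 0 ≤ r1) (hr12 : r1 < r2) :
    ∃ c C Y0 : ℝ, 0 < c ∧ 0 ≤ C ∧ 0 < Y0 ∧ ∀ (k : Fin (mm D 0)) (e : ℕ) (Y : ℝ), Y0 ≤ Y →
    ‖GD e k r1 r2 Y - lD e k r1 r2‖ ≤ C * Y ^ (-c) := by
  have hr2 : 0 < r2 := lt_of_le_of_lt hr1 hr12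
  obtain ⟨c, C, hc, hc2, hC, H⟩ := expS67 D 1 one_pos
  have hK : (0 : ℝ) < D.K := by exact_mod_cast D.Kpos
  have hKC : (D.K : ℂ) ≠ 0 := by exact_mod_cast hK.ne'
  set m : ℝ := (Fintype.card (Cx D × (ZMod D.K × ZMod D.K)) : ℝ) with hm
  set M : ℝ := C * (r2 / (D.K : ℝ) ^ 2) ^ (1 - c) with hM
  refine ⟨c, m * M, max 1 ((D.K : ℝ) ^ 2 / r2), hc, by positivity, by positivity,
    fun k e Y hY => ?_⟩
  have hY1 : 1 ≤ Y := (le_max_left _ _).trans hY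
  have hY0 : 0 < Y := by linarith
  have hYC : (Y : ℂ) ≠ 0 := by exact_mod_cast hY0.ne'
  have hYK : (D.K : ℝ) ^ 2 ≤ r2 * Y := by
    have := (le_max_right _ _).trans hY
    rw [div_le_iff₀ hr2] at this
    linarith
  -- one class
  have key : ∀ ia : Cx D × (ZMod D.K × ZMod D.K),
      ‖((((Shg ia.1 (r1 * Y) (r2 * Y)).filter (fun v => cl D.K v = ia.2)).card : ℕ) : ℂ) -
        ((kd D * (r2 - r1) * Y : ℝ) : ℂ) / (D.K : ℂ) ^ 2‖ ≤ M * Y ^ (1 - c) := by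
    rintro ⟨i, α⟩
    have h1 := H i 1 0 D.K ((α.1.val : ℤ), (α.2.val : ℤ)) (r2 * Y) (r1 * Y) (r2 * Y)
      ((Shg i (r1 * Y) (r2 * Y)).filter (fun v => cl D.K v = α)) le_rfl (by simp) D.Kpos
      (by rw [Real.one_rpow, mul_one]; exact hYK) (by positivity)
      (mul_le_mul_of_nonneg_right hr12.le hY0.le) le_rfl (by
        intro v
        rw [mem_filter, mem_Shg]
        have h2 : cl D.K v = α ↔ (D.K : ℤ) ∣ v.1 - (α.1.val : ℤ) ∧
            (D.K : ℤ) ∣ v.2 - (α.2.val : ℤ) := by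
          have : NeZero D.K := ⟨D.Kpos.ne'⟩
          have h3 : ∀ (x : ℤ) (y : ZMod D.K), (x : ZMod D.K) = y ↔ (D.K : ℤ) ∣ x - (y.val : ℤ) := by
            intro x y
            rw [← ZMod.intCast_zmod_eq_zero_iff_dvd, Int.cast_sub, Int.cast_natCast,
              ZMod.natCast_zmod_val, sub_eq_zero]
          unfold cl
          rw [← h3, ← h3]
          constructor
          · rintro rfl
            exact ⟨rfl, rfl⟩
          · rintro ⟨h4, h5⟩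
            exact Prod.ext h4 h5
        rw [h2]
        tauto)
    rw [if_pos rfl] at h1
    simp only [zpow_zero, sum_const, nsmul_eq_mul, mul_one] at h1
    have e1 : (((r2 * Y - r1 * Y) * D.T / (√(D.d : ℝ) * (D.K : ℝ) ^ 2) : ℝ) : ℂ) =
        ((kd D * (r2 - r1) * Y : ℝ) : ℂ) / (D.K : ℂ) ^ 2 := by
      unfold kd
      push_cast
      rw [mul_comm (((√(D.d : ℝ) : ℝ) : ℂ)), ← div_div]
      ring
    rw [e1] at h1
    refine h1.trans (le_of_eq ?_)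
    rw [hM, show r2 * Y / (D.K : ℝ) ^ 2 = r2 / (D.K : ℝ) ^ 2 * Y by ring,
      Real.mul_rpow (by positivity) hY0.le]
    ring
  have e1 : GD e k r1 r2 Y - lD e k r1 r2 = (1 / (Y : ℂ)) *
      ∑ ia : Cx D × (ZMod D.K × ZMod D.K),
      (((((Shg ia.1 (r1 * Y) (r2 * Y)).filter (fun v => cl D.K v = ia.2)).card : ℕ) : ℂ) -
        ((kd D * (r2 - r1) * Y : ℝ) : ℂ) / (D.K : ℂ) ^ 2) *
        (starRingEnd ℂ) ((bv D 0 k : Hs D) (ia.1, sc (e : ZMod D.K) ia.2)) := by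
    have e2 : ∀ i : Cx D, ∑ u ∈ Shg i (r1 * Y) (r2 * Y), ch (⟨0, k⟩ : Fq D) i ((e : ℤ) • u) =
        ∑ α : ZMod D.K × ZMod D.K,
        ((((Shg i (r1 * Y) (r2 * Y)).filter (fun v => cl D.K v = α)).card : ℕ) : ℂ) *
        (starRingEnd ℂ) ((bv D 0 k : Hs D) (i, sc (e : ZMod D.K) α)) := by
      intro i
      rw [← sum_fiberwise (Shg i (r1 * Y) (r2 * Y)) (fun v => cl D.K v)]
      refine sum_congr rfl fun α _ => ?_
      rw [← nsmul_eq_mul, ← sum_const]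
      refine sum_congr rfl fun v hv => ?_
      rw [ch0, MRSG.cl_smul', (mem_filter.1 hv).2]
      push_cast
      rfl
    unfold GD lD Sd
    rw [sum_congr rfl fun i _ => e2 i, ← Fintype.sum_prod_type (fun ia : Cx D × (ZMod D.K × ZMod D.K) =>
      ((((Shg ia.1 (r1 * Y) (r2 * Y)).filter (fun v => cl D.K v = ia.2)).card : ℕ) : ℂ) *
        (starRingEnd ℂ) ((bv D 0 k : Hs D) (ia.1, sc (e : ZMod D.K) ia.2)))]
    rw [mul_sum, mul_sum, mul_sum, ← sum_sub_distrib]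
    refine sum_congr rfl fun ia _ => ?_
    push_cast
    field_simp
  rw [e1, norm_mul, norm_div, norm_one, Complex.norm_real, Real.norm_of_nonneg hY0.le]
  have h5 : ‖∑ ia : Cx D × (ZMod D.K × ZMod D.K),
      (((((Shg ia.1 (r1 * Y) (r2 * Y)).filter (fun v => cl D.K v = ia.2)).card : ℕ) : ℂ) -
        ((kd D * (r2 - r1) * Y : ℝ) : ℂ) / (D.K : ℂ) ^ 2) *
        (starRingEnd ℂ) ((bv D 0 k : Hs D) (ia.1, sc (e : ZMod D.K) ia.2))‖ ≤
      m * (M * Y ^ (1 - c)) := by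
    refine (norm_sum_le _ _).trans ((sum_le_sum (g := fun _ => M * Y ^ (1 - c))
      fun ia _ => ?_).trans (le_of_eq ?_))
    · rw [norm_mul, RCLike.norm_conj]
      calc _ ≤ M * Y ^ (1 - c) * 1 := mul_le_mul (key ia) (bv_le (⟨0, k⟩ : Fq D) _)
            (norm_nonneg _) (by positivity)
        _ = _ := mul_one _
    · rw [sum_const, card_univ, nsmul_eq_mul]
  calc _ ≤ 1 / Y * (m * (M * Y ^ (1 - c))) := mul_le_mul_of_nonneg_left h5 (by positivity)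
    _ = m * M * (Y ^ (1 - c) / Y) := by ring
    _ = m * M * Y ^ (-c) := by
        congr 1
        nth_rewrite 2 [← Real.rpow_one Y]
        rw [← Real.rpow_sub hY0]
        ring_nf

theorem GD_le (r1 r2 : ℝ) (hr2 : 0 ≤ r2) (k : Fin (mm D 0)) (e : ℕ) (Y : ℝ) (hY : 0 < Y) :
    ‖GD e k r1 r2 Y‖ ≤ UpH70.CT D * r2 := by
  unfold GD
  rw [norm_mul, norm_div, norm_one, Complex.norm_real, Real.norm_eq_abs, abs_of_pos hY]
  have h1 : ‖∑ i, ∑ u ∈ Shg i (r1 * Y) (r2 * Y), ch (⟨0, k⟩ : Fq D) i ((e : ℤ) • u)‖ ≤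
      UpH70.CT D * (r2 * Y) := by
    refine (norm_sum_le _ _).trans ?_
    unfold UpH70.CT
    rw [sum_mul]
    refine sum_le_sum fun i _ => ?_
    refine (norm_sum_le _ _).trans ?_
    refine (sum_le_sum (g := fun _ => (1 : ℝ)) fun v hv => ?_).trans ?_
    · exact norm_ch_le _ _ _
    · rw [sum_const, nsmul_eq_mul, mul_one]
      exact (UpH70.card_Shg i).choose_spec.2 _ _ (by positivity)
  calc 1 / Y * ‖∑ i, ∑ u ∈ Shg i (r1 * Y) (r2 * Y), ch (⟨0, k⟩ : Fq D) i ((e : ℤ) • u)‖ ≤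
        1 / Y * (UpH70.CT D * (r2 * Y)) := mul_le_mul_of_nonneg_left h1 (by positivity)
    _ = UpH70.CT D * r2 := by field_simp

theorem lD_le (r1 r2 : ℝ) (hr12 : r1 < r2) (k : Fin (mm D 0)) (e : ℕ) :
    ‖lD e k r1 r2‖ ≤ kd D * (r2 - r1) * Fintype.card (Cx D) := by
  have hK : (0 : ℝ) < D.K := by exact_mod_cast D.Kpos
  have hkd : 0 ≤ kd D := kd_nonneg
  have h0 : 0 ≤ r2 - r1 := by linarith
  have hS : ‖Sd e k‖ ≤ Fintype.card (Cx D) * (D.K : ℝ) ^ 2 := by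
    unfold Sd
    refine (norm_sum_le _ _).trans ((sum_le_sum (g := fun _ => (1 : ℝ)) fun ia _ => ?_).trans
      (le_of_eq ?_))
    · rw [RCLike.norm_conj]
      exact bv_le (⟨0, k⟩ : Fq D) _
    · rw [sum_const, card_univ, Fintype.card_prod, Fintype.card_prod, ZMod.card, nsmul_eq_mul,
        mul_one]
      push_cast
      ring
  unfold lD
  rw [norm_mul, norm_div, norm_pow, Complex.norm_natCast, Complex.norm_real, Real.norm_of_nonneg
    (by positivity)]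
  calc kd D * (r2 - r1) / (D.K : ℝ) ^ 2 * ‖Sd e k‖ ≤
      kd D * (r2 - r1) / (D.K : ℝ) ^ 2 * (Fintype.card (Cx D) * (D.K : ℝ) ^ 2) := by gcongr
    _ = kd D * (r2 - r1) * Fintype.card (Cx D) := by field_simp

/-- the limit for the primitive vectors, cut at `E` -/
noncomputable def LE (k : Fin (mm D 0)) (r1 r2 : ℝ) (E : ℕ) : ℂ :=
  ∑ e ∈ Finset.Icc 1 E, (ArithmeticFunction.moebius e : ℂ) / (e : ℂ) ^ 2 * lD e k r1 r2

theorem LE_inv (k : Fin (mm D 0)) (r1 r2 : ℝ) (E : ℕ) {P : ℕ × Bool} (h : Adm D P) :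
    cw P (⟨0, k⟩ : Fq D) * LE k r1 r2 E = LE k r1 r2 E := by
  unfold LE
  rw [mul_sum]
  refine sum_congr rfl fun e _ => ?_
  unfold lD
  conv_rhs => rw [← Sd_inv e k h]
  ring

theorem prim_approx (r1 r2 : ℝ) (hr1 : 0 ≤ r1) (hr12 : r1 < r2) (k : Fin (mm D 0)) (ε : ℝ)
    (hε : 0 < ε) : ∃ N0 : ℝ, 0 < N0 ∧ ∀ N : ℝ, N0 ≤ N → ∀ E : ℕ, r2 * N ≤ E →
    ‖Mpa (fun _ _ => 1) r1 r2 N (⟨0, k⟩ : Fq D) - LE k r1 r2 E‖ ≤ ε := by
  classical
  have hr2 : 0 < r2 := lt_of_le_of_lt hr1 hr12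
  obtain ⟨c, C, Y0, hc, hC, hY00, H⟩ := approx D r1 r2 hr1 hr12
  set T : ℝ := UpH70.CT D * r2 + kd D * (r2 - r1) * Fintype.card (Cx D) with hT
  have hkd : 0 ≤ kd D := kd_nonneg
  have hT0 : 0 ≤ T := by
    have h1 := UpH70.CT_nonneg D
    have h2 : 0 ≤ r2 - r1 := by linarith
    positivity
  set A : ℝ → ℝ := fun Y => if Y0 ≤ Y then min T |C * Y ^ (-c)| else T with hA
  have hA0 : ∀ N, 0 ≤ A N := fun N => by
    rw [hA]
    simp only
    split_ifs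
    · exact le_min hT0 (abs_nonneg _)
    · exact hT0
  have hAT : ∀ N, 0 < N → A N ≤ T := fun N _ => by
    rw [hA]
    simp only
    split_ifs
    · exact min_le_left _ _
    · exact le_rfl
  have hlim : Tendsto (fun Y : ℝ => |C * Y ^ (-c)|) atTop (𝓝 0) := by
    have h4 := (tendsto_rpow_neg_atTop hc).const_mul C
    rw [mul_zero] at h4
    have h8 := h4.abs
    rwa [abs_zero] at h8
  have hA1 : Tendsto A atTop (𝓝 0) := by
    have h1 : Tendsto (fun Y : ℝ => min T |C * Y ^ (-c)|) atTop (𝓝 (min T 0)) :=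
      tendsto_const_nhds.min hlim
    rw [min_eq_right hT0] at h1
    refine h1.congr' ?_
    filter_upwards [eventually_ge_atTop Y0] with Y hY
    rw [hA]
    simp only
    rw [if_pos hY]
  obtain ⟨N0, hN0, hc'⟩ := Pw0H29.conv A T hA0 hAT hA1 ε hε
  refine ⟨N0, hN0, fun N hN E hE => ?_⟩
  have hNp : 0 < N := lt_of_lt_of_le hN0 hN
  have hNC : (N : ℂ) ≠ 0 := by exact_mod_cast hNp.ne'
  have e1 : Mpa (fun _ _ => 1) r1 r2 N (⟨0, k⟩ : Fq D) =
      ∑ e ∈ Finset.Icc 1 E, (ArithmeticFunction.moebius e : ℂ) / (e : ℂ) ^ 2 *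
        GD e k r1 r2 (N / (e : ℝ) ^ 2) := by
    unfold Mpa GD
    have e2 : ∀ i : Cx D, ∑ v ∈ (Shg i (r1 * N) (r2 * N)).filter Prim,
        (1 : ℂ) * ch (⟨0, k⟩ : Fq D) i v = ∑ e ∈ Finset.Icc 1 E,
        (ArithmeticFunction.moebius e : ℂ) * ∑ u ∈ Shg i (r1 * (N / (e : ℝ) ^ 2))
          (r2 * (N / (e : ℝ) ^ 2)), ch (⟨0, k⟩ : Fq D) i ((e : ℤ) • u) := by
      intro i
      have h1 := UpH70.prim_sum i (r1 * N) (r2 * N) E hE (fun v => ch (⟨0, k⟩ : Fq D) i v)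
      simp only [one_mul]
      rw [h1]
      refine sum_congr rfl fun e _ => ?_
      rw [mul_div_assoc, mul_div_assoc]
    rw [sum_congr rfl fun i _ => e2 i, sum_comm, mul_sum]
    refine sum_congr rfl fun e he => ?_
    have hD1 : 0 < e := (Finset.mem_Icc.1 he).1
    have hD0 : (e : ℂ) ≠ 0 := by exact_mod_cast hD1.ne'
    rw [← mul_sum]
    push_cast
    field_simp
  rw [e1]
  unfold LE
  rw [← sum_sub_distrib]
  refine (norm_sum_le _ _).trans (le_trans (sum_le_sum fun e he => ?_) (hc' N hN E))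
  have hD1 : 0 < e := (Finset.mem_Icc.1 he).1
  have hD0 : (0 : ℝ) < e := by exact_mod_cast hD1
  have hY : 0 < N / (e : ℝ) ^ 2 := by positivity
  rw [← mul_sub, norm_mul, norm_div, norm_pow, Complex.norm_natCast]
  have hmu : ‖(ArithmeticFunction.moebius e : ℂ)‖ ≤ 1 := by
    rw [Complex.norm_intCast]
    exact_mod_cast ArithmeticFunction.abs_moebius_le_one
  have h2 : ‖GD e k r1 r2 (N / (e : ℝ) ^ 2) - lD e k r1 r2‖ ≤ A (N / (e : ℝ) ^ 2) := by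
    have h3 : ‖GD e k r1 r2 (N / (e : ℝ) ^ 2) - lD e k r1 r2‖ ≤ T := by
      calc _ ≤ ‖GD e k r1 r2 (N / (e : ℝ) ^ 2)‖ + ‖lD e k r1 r2‖ := norm_sub_le _ _
        _ ≤ T := add_le_add (GD_le r1 r2 hr2.le k e _ hY) (lD_le r1 r2 hr12 k e)
    rw [hA]
    simp only
    split_ifs with h4
    · exact le_min h3 ((H k e _ h4).trans (le_abs_self _))
    · exact h3
  calc ‖(ArithmeticFunction.moebius e : ℂ)‖ / (e : ℝ) ^ 2 *
      ‖GD e k r1 r2 (N / (e : ℝ) ^ 2) - lD e k r1 r2‖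
      ≤ 1 / (e : ℝ) ^ 2 * A (N / (e : ℝ) ^ 2) := by gcongr
    _ = _ := rfl

open Classical in
/-- **frequency `0`, `z = 1`** -/
theorem freq_one (r1 r2 : ℝ) (hr1 : 0 ≤ r1) (hr12 : r1 < r2) (w : Fq D) (hw : w.1 = 0) (ε : ℝ)
    (hε : 0 < ε) : ∃ X0 : ℝ, 1 ≤ X0 ∧ ∀ N : ℝ, ∀ W : Finset ℕ, (∀ p ∈ W, Spw D p) →
    (∀ p ∈ W, X0 * p ≤ N) → (∀ p ∈ W, ∀ p' ∈ W, r2 * N < (p : ℝ) * p') →
    ‖Mpa (fun i v => (if ∃ p ∈ W, (p : ℤ) ∣ (rp i).q v then (1 : ℂ) else 0) -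
      ((∑ p ∈ W, 2 / (p : ℝ) : ℝ) : ℂ)) r1 r2 N w‖ ≤ ε * ∑ p ∈ W, 2 / (p : ℝ) := by
  have hr2 : 0 < r2 := lt_of_le_of_lt hr1 hr12
  obtain ⟨j, k⟩ := w
  have hj : j = 0 := hw
  subst hj
  obtain ⟨N0, hN0, H⟩ := prim_approx (D := D) r1 r2 hr1 hr12 k (ε / 2) (by positivity)
  refine ⟨max N0 1, le_max_right _ _, fun N W hW hX hb => ?_⟩
  set M1 : ℝ → ℂ := fun N => Mpa (fun _ _ => (1 : ℂ)) r1 r2 N (⟨0, k⟩ : Fq D) with hM1
  have e1 : Mpa (fun i v => (if ∃ p ∈ W, (p : ℤ) ∣ (rp i).q v then (1 : ℂ) else 0) -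
      ((∑ p ∈ W, 2 / (p : ℝ) : ℝ) : ℂ)) r1 r2 N (⟨0, k⟩ : Fq D) =
      Mpa (fun i v => if ∃ p ∈ W, (p : ℤ) ∣ (rp i).q v then (1 : ℂ) else 0) r1 r2 N
        (⟨0, k⟩ : Fq D) - ((∑ p ∈ W, 2 / (p : ℝ) : ℝ) : ℂ) * M1 N := by
    rw [hM1]
    unfold Mpa
    rw [← mul_assoc, mul_comm (((∑ p ∈ W, 2 / (p : ℝ) : ℝ) : ℂ)) (1 / (N : ℂ)), mul_assoc,
      ← mul_sub]
    congr 1
    rw [mul_sum, ← sum_sub_distrib]
    refine sum_congr rfl fun i _ => ?_
    rw [mul_sum, ← sum_sub_distrib]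
    refine sum_congr rfl fun v _ => ?_
    ring
  rw [e1, win_id hW r1 r2 N hb (⟨0, k⟩ : Fq D) 1 (fun _ _ => 1) (fun _ _ => 1)
    (fun i v _ => rfl) (fun P hP i u hu => by simp), sum_product, mul_sum]
  push_cast
  rw [sum_mul, ← sum_sub_distrib]
  refine (norm_sum_le _ _).trans (sum_le_sum fun p hp => ?_)
  have hp1 : 1 ≤ (p : ℝ) := by exact_mod_cast (hW p hp).1.one_lt.le
  have hp0 : (0 : ℝ) < p := by linarith
  have hpC : (p : ℂ) ≠ 0 := by exact_mod_cast hp0.ne'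
  have hXp := hX p hp
  have hm1 : 1 ≤ max N0 1 := le_max_right _ _
  have hN1 : max N0 1 ≤ N := by nlinarith
  have hN2 : max N0 1 ≤ N / p := by rwa [le_div_iff₀ hp0]
  have hNpos : 0 < N := by linarith
  set E : ℕ := ⌈r2 * N⌉₊ with hE
  have hE1 : r2 * N ≤ E := Nat.le_ceil _
  have hE2 : r2 * (N / p) ≤ E := by
    refine le_trans ?_ hE1
    apply mul_le_mul_of_nonneg_left _ hr2.le
    exact div_le_self hNpos.le hp1
  have h1 := H N ((le_max_left _ _).trans hN1) E hE1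
  have h2 := H (N / p) ((le_max_left _ _).trans hN2) E hE2
  have key : ∀ b : Bool, ‖cw (p, b) (⟨0, k⟩ : Fq D) * M1 (N / p) - M1 N‖ ≤ ε := by
    intro b
    have hA : Adm D (p, b) := hW p hp
    have e2 : cw (p, b) (⟨0, k⟩ : Fq D) * M1 (N / p) - M1 N =
        cw (p, b) (⟨0, k⟩ : Fq D) * (M1 (N / p) - LE k r1 r2 E) - (M1 N - LE k r1 r2 E) := by
      rw [mul_sub, LE_inv k r1 r2 E hA]
      ring
    rw [e2]
    refine (norm_sub_le _ _).trans ?_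
    rw [norm_mul, norm_cw hA, one_mul]
    linarith
  have e3 : ∑ y : Bool, 1 * cw (p, y) (⟨0, k⟩ : Fq D) / (p : ℂ) * Mpa (fun _ _ => (1 : ℂ)) r1 r2
      (N / (p : ℝ)) (⟨0, k⟩ : Fq D) - 2 / (p : ℂ) * M1 N = 1 / (p : ℂ) *
      ((cw (p, true) (⟨0, k⟩ : Fq D) * M1 (N / p) - M1 N) +
      (cw (p, false) (⟨0, k⟩ : Fq D) * M1 (N / p) - M1 N)) := by
    rw [Fintype.sum_bool, hM1]
    simp only
    ring
  rw [e3, norm_mul, norm_div, norm_one, Complex.norm_natCast]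
  calc 1 / (p : ℝ) * ‖(cw (p, true) (⟨0, k⟩ : Fq D) * M1 (N / p) - M1 N) +
      (cw (p, false) (⟨0, k⟩ : Fq D) * M1 (N / p) - M1 N)‖
      ≤ 1 / (p : ℝ) * (ε + ε) := by
        refine mul_le_mul_of_nonneg_left ?_ (by positivity)
        exact (norm_add_le _ _).trans (add_le_add (key true) (key false))
    _ = ε * (2 / (p : ℝ)) := by ring

end Pool.Agent.Lib.MP_a17b09_nt.PQH.FreqH12
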