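import Pool.Agent.Lib.MP_a17b09_nt.PQH.Stmts99
import Pool.Agent.Lib.MP_a17b09_nt.MRH.StrD17

/-!
PQH, row M1 (helper22): structure statements `StParH`, `StIdH` for arbitrary weights, positive
discriminant.
-/

set_option autoImplicit false

open Filter Topology Finset

namespace Pool.Agent.Lib.MP_a17b09_nt.PQH

open CH CH.PE HY HY.S68 MRH
open PQ (B1 Wy gw gcw Win WinN bb bN rho wz1 wr StSchW StWinS StRho TwW CW MPQ)

namespace M22

variable {D : Dat}

/-- the function `w (Q v) (direction)^j` -/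
noncomputable def wj (w : ℕ → ℂ) (j : ℤ) (i : Cx D) (v : V) : ℂ := gw w (rp i) v * uu i v ^ j

theorem wj_act (w : ℕ → ℂ) (j : ℤ) (i : Cx D) {v : V} (hv : Cn (rp i) v) :
    wj w j i (act (rp i) D.a v) = wj w j i v := by
  unfold wj
  rw [gw_act (rp_hyp i), uu_act i hv]

theorem wj_auto (w : ℕ → ℂ) (j : ℤ) {i : Cx D} {γ : Mat} (h1 : γ.det = 1)
    (h : (rp i).comp γ = rp i) (hc : Cn (rp i) (γ.app (1, 0))) {v : V} (hv : Cn (rp i) v) :
    wj w j i (γ.app v) = uu i (γ.app (1, 0)) ^ j * wj w j i v := by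
  unfold wj gw
  have h2 : (rp i).q (γ.app v) = (rp i).q v := by rw [← Form.comp_q, h]
  rw [uu_auto h1 h hc hv, mul_zpow, h2]
  ring

theorem gw_app {P : ℕ × Bool} (h : Adm D P) (w : ℕ → ℂ) (i : Cx D) (u : V) :
    gw w (rp i) ((Mg D P i).app u) = gw (fun n => w (P.1 * n)) (rp (sg D P i)) u := by
  obtain ⟨-, R⟩ := rel_g h i
  unfold gw
  rw [R.sim, Int.natAbs_mul, Int.natAbs_natCast]

theorem VS_mem (w : ℕ → ℂ) (j : ℤ) (a b : ℝ) : VW D (wj w j) a b ∈ Ej D j :=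
  VW_mem (fun i _ hv => wj_act w j i hv) (fun _ _ h1 h2 h3 _ hv => wj_auto w j h1 h2 h3 hv) a b

open Classical in
theorem VP_mem (w : ℕ → ℂ) (j : ℤ) (a b : ℝ) :
    VW D (fun i v => if Prim v then wj w j i v else 0) a b ∈ Ej D j := by
  refine VW_mem (fun i v hv => ?_) (fun i γ h1 h2 h3 v hv => ?_) a b
  · simp only [prim_act i v, wj_act w j i hv]
  · simp only [MRSG.prim_auto h1 v]
    split_ifs
    · exact wj_auto w j h1 h2 h3 hv
    · rw [mul_zero]

theorem VAh_eq (w : ℕ → ℂ) (r1 r2 N : ℝ) (j : ℤ) :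
    VAh D w r1 r2 N j = (1 / (N : ℂ)) • VW D (wj w j) (r1 * N) (r2 * N) := by
  ext ia
  obtain ⟨i, α⟩ := ia
  rw [PiLp.smul_apply]
  unfold VAh
  rw [vec_apply, VW_apply, Shg_eq, smul_eq_mul, Finset.mul_sum]
  refine Finset.sum_congr rfl fun v _ => ?_
  unfold wj
  ring

open Classical in
theorem VPh_eq (w : ℕ → ℂ) (r1 r2 N : ℝ) (j : ℤ) :
    VPh D w r1 r2 N j = (1 / (N : ℂ)) •
      VW D (fun i v => if Prim v then wj w j i v else 0) (r1 * N) (r2 * N) := by
  ext ia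
  obtain ⟨i, α⟩ := ia
  rw [PiLp.smul_apply]
  unfold VPh
  rw [vec_apply, VW_apply, Shg_eq, smul_eq_mul, Finset.mul_sum, Finset.filter_filter,
    Finset.sum_filter, Finset.sum_filter]
  refine Finset.sum_congr rfl fun v _ => ?_
  unfold wj
  by_cases h1 : Prim v
  · by_cases h2 : cl D.K v = α
    · simp only [h1, h2, and_self, if_true]; ring
    · simp only [h1, h2, and_false, if_false]
  · simp [h1]

theorem VAh_mem (w : ℕ → ℂ) (r1 r2 N : ℝ) (j : ℤ) : VAh D w r1 r2 N j ∈ Ej D j := by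
  rw [VAh_eq]
  exact Submodule.smul_mem _ _ (VS_mem w j _ _)

theorem VPh_mem (w : ℕ → ℂ) (r1 r2 N : ℝ) (j : ℤ) : VPh D w r1 r2 N j ∈ Ej D j := by
  rw [VPh_eq]
  exact Submodule.smul_mem _ _ (VP_mem w j _ _)

end M22

/-- **row M1** -/
theorem stParH_22 (D : Dat) : StParH D := by
  intro w r1 r2 N j
  refine ⟨M22.VAh_mem w r1 r2 N j, M22.VPh_mem w r1 r2 N j, ?_, ?_⟩
  · rw [← co_parseval j (M22.VAh_mem w r1 r2 N j)]
    exact Finset.sum_congr rfl fun k _ => by rw [co_VAh]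
  · rw [← co_parseval j (M22.VPh_mem w r1 r2 N j)]
    exact Finset.sum_congr rfl fun k _ => by rw [co_VPh]

/-- **row M1b** -/
theorem stIdH_22 (D : Dat) : StIdH D := by
  classical
  intro w a b P f h
  have h1 : ∀ i : Cx D, ∑ v ∈ (Shg i a b).filter (fun v => Im (Mg D P i) v),
      gw w (rp i) v * ch f i v = ∑ u ∈ Shg (sg D P i) (a / P.1) (b / P.1),
      gw w (rp i) ((Mg D P i).app u) * ch f i ((Mg D P i).app u) := fun i =>
    sum_im h i a b (f := fun v => gw w (rp i) v * ch f i v)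
      (fun v hv => by simp only [gw_act (rp_hyp i), ch_act f i hv])
  rw [Finset.sum_congr rfl fun i _ => h1 i]
  rw [← Equiv.sum_comp (sg D P) (fun i => ∑ u ∈ Shg i (a / P.1) (b / P.1),
    gw (fun n => w (P.1 * n)) (rp i) u * ch f i u), Finset.mul_sum]
  refine Finset.sum_congr rfl fun i _ => ?_
  rw [Finset.mul_sum]
  refine Finset.sum_congr rfl fun u hu => ?_
  have hu0 := (mem_Shg.1 hu).1.1
  rw [M22.gw_app h w i u, ch_M h f i hu0]
  ring

end Pool.Agent.Lib.MP_a17b09_nt.PQH
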