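import Pool.Agent.Lib.MP_a17b09_nt.PQH.Stmts99
import Pool.Agent.Lib.MP_a17b09_nt.PQ.M4_38

/-!
PQH, row M4 (helper38): the levels for `D > 0`, uniform in the weight.
-/

set_option autoImplicit false

open Filter Topology Finset

namespace Pool.Agent.Lib.MP_a17b09_nt.PQH

open CH MRH PQ

theorem stLevH_38 (hSch : PQ.StSchW) (D : Dat) (hDec : StDecH D) (hMom : StMomH D)
    (hMom1 : MRH.StMom1G D) (hMer : MRH.StMerG D) : StLevH D := by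
  intro z hz c0 hc0 r1 r2 h1 h2 ε c hε hc
  obtain ⟨κ, C, hκ, hC, hM⟩ := hMer
  obtain ⟨CD, ND, hCD, hND, hD⟩ := hDec z hz r1 r2 h1 h2
  obtain ⟨C1, hC1, hMo⟩ := hMom z hz r1 r2 h1 h2
  obtain ⟨H0, hH0, hh⟩ := PQ.LevW38.lev_absW hSch (SJ D) (fun h u w => Qsg z h u w) (LLg D) r1 κ
    c0 h1 hκ hc0 CD ND C1 hCD hND hC1 (hMom1 z hz) ⟨C, hC, hM⟩ ε c hε hc
  refine ⟨H0, hH0, fun H hH => ?_⟩
  obtain ⟨N0, h3⟩ := hh H hH
  refine ⟨N0, fun N hN w hw => ?_⟩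
  obtain ⟨U, hU1, hU2, hU3⟩ := h3 N hN (fun N f => Mph w r1 r2 N f)
    (fun h u0 u1 a1 a2 a3 a4 a5 a6 a7 a8 J a9 =>
      hD h u0 u1 N a1 a2 a3 a4 a5 a6 a8 J a9 w (PQ.wy_mono hw a7))
    (fun h u l J N b1 b2 b3 b4 => hMo h u l J N b1 b2 b3 b4 w hw.le)
  refine ⟨U, hU1, hU2, le_trans (le_of_eq ?_) hU3⟩
  refine Finset.sum_congr ?_ fun _ _ => rfl
  ext w
  simp only [Finset.mem_sdiff]

end Pool.Agent.Lib.MP_a17b09_nt.PQH
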