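import Pool.Agent.Lib.MP_a17b09_nt.MRH.TkhHa12

/-!
PQH (MP_a17b09_nt), positive discriminants, module TKHW, general form: Turan - Kubilius and
Halasz - Montgomery together for arbitrary invariant coefficients `a` with
`a i (M_P u) = z a (s_P i) u` for the small primes. helper12.
-/

set_option autoImplicit false

open Finset

namespace Pool.Agent.Lib.MP_a17b09_nt.PQH.TkhGenH12

open CH CH.PE HY MRH MRH.HmuH96 MRH.TkhH12

variable {D : Dat}

/-- shell sum with arbitrary coefficients -/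
noncomputable def Maa (a : Cx D → V → ℂ) (r1 r2 N : ℝ) (w : Fq D) : ℂ :=
  (1 / (N : ℂ)) * ∑ i, ∑ v ∈ Shg i (r1 * N) (r2 * N), a i v * ch w i v

/-- the basic identity -/
theorem maa_id (z : ℂ) (a : Cx D → V → ℂ) (hinv : FInv D a) (r1 r2 N : ℝ) (hN : 0 < N) (w : Fq D)
    {P : ℕ × Bool} (h : Adm D P)
    (ha : ∀ i, ∀ u : V, Cn (rp (sg D P i)) u → a i ((Mg D P i).app u) = z * a (sg D P i) u) :
    (1 / (P.1 : ℝ)) * ‖Maa a r1 r2 N w - z * cw P w * Maa a r1 r2 (N / P.1) w‖ ^ 2 =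
      (1 / N ^ 2) * ‖∑ x ∈ Sx D (r1 * N) (r2 * N),
        ((1 : ℝ) : ℂ) * a x.1 x.2 * ph (w, P) x‖ ^ 2 := by
  classical
  have hp0 : (0 : ℝ) < P.1 := by exact_mod_cast h.1.pos
  have hpC : (P.1 : ℂ) ≠ 0 := by exact_mod_cast hp0.ne'
  have hNC : (N : ℂ) ≠ 0 := by exact_mod_cast hN.ne'
  have h0 := (stIdG_17 D z (r1 * N) (r2 * N) P w h).1 (fun i v => a i v * ch w i v)
    (fun i v hv => by simp only [hinv i v hv, ch_act w i hv])
  set S1 : ℂ := ∑ i, ∑ v ∈ Shg i (r1 * N) (r2 * N), a i v * ch w i v with hS1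
  set S2 : ℂ := ∑ i, ∑ u ∈ Shg i (r1 * N / P.1) (r2 * N / P.1), a i u * ch w i u
    with hS2
  have h1 : ∑ i, ∑ v ∈ (Shg i (r1 * N) (r2 * N)).filter (fun v => Im (Mg D P i) v),
      a i v * ch w i v = z * cw P w * S2 := by
    rw [sum_congr rfl fun i _ => h0 i, hS2,
      ← Equiv.sum_comp (sg D P) (fun i => ∑ u ∈ Shg i (r1 * N / P.1) (r2 * N / P.1),
      a i u * ch w i u), mul_sum]
    refine sum_congr rfl fun i _ => ?_
    rw [mul_sum]
    refine sum_congr rfl fun u hu => ?_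
    have hu0 := (mem_Shg.1 hu).1.1
    rw [ha i u hu0, ch_M h w i hu0]
    ring
  have e1 : ∑ x ∈ Sx D (r1 * N) (r2 * N), ((1 : ℝ) : ℂ) * a x.1 x.2 * ph (w, P) x =
      ((√(P.1 : ℝ) : ℝ) : ℂ) * (z * cw P w * S2 - (1 / (P.1 : ℂ)) * S1) := by
    rw [← h1, sum_Sx, hS1, mul_sum (s := univ) (a := (1 / (P.1 : ℂ))), ← sum_sub_distrib, mul_sum]
    refine sum_congr rfl (fun i _ => ?_)
    rw [sum_filter, mul_sum, ← sum_sub_distrib, mul_sum]
    refine sum_congr rfl (fun v _ => ?_)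
    unfold ph Dp
    simp only
    by_cases h2 : Eig P.1 (rg D P) (rp i) v
    · rw [if_pos h2, if_pos ((im_iff h i v).2 h2)]
      push_cast
      ring
    · rw [if_neg h2, if_neg (fun h3 => h2 ((im_iff h i v).1 h3))]
      push_cast
      ring
  have e2 : Maa a r1 r2 N w - z * cw P w * Maa a r1 r2 (N / P.1) w =
      -((P.1 : ℂ) / N) * (z * cw P w * S2 - (1 / (P.1 : ℂ)) * S1) := by
    unfold Maa
    rw [← mul_div_assoc, ← mul_div_assoc, ← hS1, ← hS2]
    push_cast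
    field_simp
    ring
  rw [e1, e2, norm_mul, norm_mul, norm_neg, norm_div, Complex.norm_natCast, Complex.norm_real,
    Complex.norm_real, Real.norm_of_nonneg hN.le, Real.norm_of_nonneg (Real.sqrt_nonneg _),
    mul_pow, mul_pow, Real.sq_sqrt hp0.le]
  field_simp

/-- **TKH for arbitrary coefficients** -/
theorem tkh_gen (D : Dat) (r1 r2 : ℝ) (hr1 : 0 ≤ r1) (hr12 : r1 < r2) :
    ∃ c C N0 : ℝ, 0 < c ∧ c ≤ 1 / 8 ∧ 0 < C ∧ 1 ≤ N0 ∧ ∀ N : ℝ, N0 ≤ N → ∀ z : ℂ,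
    ∀ a : Cx D → V → ℂ, FInv D a → (∀ i v, ‖a i v‖ ≤ 1) → ∀ PP ⊆ slg D 3 (N ^ c),
    (∀ P ∈ PP, ∀ i, ∀ u : V, Cn (rp (sg D P i)) u →
      a i ((Mg D P i).app u) = z * a (sg D P i) u) →
    ∀ U : Finset (Fq D), (U.card : ℝ) ≤ N ^ c → (∀ w ∈ U, |(w.1 : ℝ)| ≤ N ^ 2) →
    ∑ w ∈ U, ∑ P ∈ PP, (1 / (P.1 : ℝ)) *
      ‖Maa a r1 r2 N w - z * cw P w * Maa a r1 r2 (N / P.1) w‖ ^ 2 ≤ C := by
  classical
  have hr2 : 0 < r2 := lt_of_le_of_lt hr1 hr12
  have hK1 : (1 : ℝ) ≤ D.K := by exact_mod_cast D.Kpos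
  obtain ⟨c0, C, hc0, hc02, hC, H⟩ := expS67 D (1 / 16) (by norm_num)
  obtain ⟨C0, hC0, HC⟩ := card_Shg96 D
  set c : ℝ := c0 / 8 with hc
  have hcp : 0 < c := by positivity
  set hcl : ℝ := (Fintype.card (Cx D) : ℝ) with hhcl
  have hhcl0 : 0 ≤ hcl := Nat.cast_nonneg _
  set m : ℝ := hcl * ((D.K : ℝ) * D.K) with hm
  have hm0 : 0 ≤ m := by positivity
  set B : ℝ := r2 + (D.K : ℝ) ^ 2 with hB
  have hB1 : 1 ≤ B := by
    have h1 : (1 : ℝ) ≤ (D.K : ℝ) ^ 2 := one_le_pow₀ hK1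
    rw [hB]
    linarith
  set CG : ℝ := m * (hcl * (2 * C0 * r2)) + 4 * (hcl * ((D.K : ℝ) ^ 2 * (C * B))) with hCG
  have hCG0 : 0 ≤ CG := by positivity
  refine ⟨c, hcl * (C0 * r2) * CG + 1, max 2 ((1 / r2) ^ 2), hcp, by linarith, by positivity,
    le_trans (by norm_num) (le_max_left _ _), ?_⟩
  intro N hN z a hinv ha PP hPPs hM U hU hUj
  have hN2 : 2 ≤ N := (le_max_left _ _).trans hN
  have hNr : (1 / r2) ^ 2 ≤ N := (le_max_right _ _).trans hN
  have hN0 : 0 < N := by linarith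
  have hN1 : 1 ≤ N := by linarith
  set s : ℝ := √N with hs
  have hs1 : 1 ≤ s := Real.one_le_sqrt.2 hN1
  have hss : s * s = N := Real.mul_self_sqrt hN0.le
  have hrs : 1 / r2 ≤ s := Real.le_sqrt_of_sq_le hNr
  have hsN : s ≤ r2 * N := by
    have h1 : 1 ≤ r2 * s := by
      rw [div_le_iff₀ hr2] at hrs
      linarith
    calc s = 1 * s := (one_mul s).symm
      _ ≤ (r2 * s) * s := mul_le_mul_of_nonneg_right h1 (by linarith)
      _ = r2 * N := by rw [mul_assoc, hss]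
  set n : ℝ := N ^ c with hn
  have hn1 : 1 ≤ n := Real.one_le_rpow hN1 hcp.le
  have hn0 : 0 < n := by linarith
  have hns : n ≤ s := by
    rw [hn, hs, Real.sqrt_eq_rpow]
    exact Real.rpow_le_rpow_of_exponent_le hN1 (by linarith)
  have hb1 : 1 ≤ r2 * N := hs1.trans hsN
  have ha0 : 0 ≤ r1 * N := by positivity
  have hab : r1 * N ≤ r2 * N := mul_le_mul_of_nonneg_right hr12.le hN0.le
  -- the primes
  have hadm : ∀ P ∈ PP, Adm D P := fun P hP => (mem_slg.1 (hPPs hP)).1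
  have hPn : ∀ P ∈ PP, (P.1 : ℝ) ≤ n := fun P hP => (mem_slg.1 (hPPs hP)).2.2.le
  have hcard : (PP.card : ℝ) ≤ 4 * n := by
    have h1 : PP.card ≤ ((range ⌈n⌉₊) ×ˢ (univ : Finset Bool)).card := by
      apply card_le_card
      intro P hP
      rw [mem_product, mem_range]
      refine ⟨?_, mem_univ _⟩
      have h2 := (mem_slg.1 (hPPs hP)).2.2
      exact_mod_cast h2.trans_le (Nat.le_ceil n)
    rw [card_product, card_range, card_univ, Fintype.card_bool] at h1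
    have h2 : (PP.card : ℝ) ≤ (⌈n⌉₊ : ℝ) * 2 := by exact_mod_cast h1
    have h3 := Nat.ceil_lt_add_one hn0.le
    linarith
  -- the exponential sums
  set Y : ℝ := B * N with hY
  have hY1 : 1 ≤ Y := by
    rw [hY]
    exact one_le_mul_of_one_le_of_one_le hB1 hN1
  have hY0 : 0 < Y := by linarith
  have hrY : r2 * N ≤ Y := by
    rw [hY, hB]
    have h1 : 0 ≤ (D.K : ℝ) ^ 2 * N := by positivity
    linarith
  set E : ℝ := C * Y ^ (1 - c0) with hE
  have hE0 : 0 ≤ E := by positivity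
  have hT1 : 1 ≤ N ^ (3 : ℝ) := Real.one_le_rpow hN1 (by norm_num)
  have hG1' : 0 ≤ hcl * (2 * C0 * (r2 * N)) := by positivity
  have hG2' : 0 ≤ n * (hcl * ((D.K * n ^ 2) ^ 2 * E)) := by positivity
  have hmain := tkh_sys (D := D) (r1 * N) (r2 * N) U PP
    (hcl * (2 * C0 * (r2 * N))) (n * (hcl * ((D.K * n ^ 2) ^ 2 * E))) hG1' hG2'
    (fun w _ w' _ hj P hP => entry_diag (r1 * N) (r2 * N) C0 w w' hj (hadm P hP)
      ((hPn P hP).trans (hns.trans hsN)) HC)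
    (fun w hw w' hw' P hP P' hP' hne => by
      set q : ℕ := D.K * (P.1 * P'.1) with hq
      have hq0 : 0 < q := Nat.mul_pos D.Kpos (Nat.mul_pos (hadm P hP).1.pos (hadm P' hP').1.pos)
      have hq1 : (1 : ℝ) ≤ q := by exact_mod_cast hq0
      have hqn : (q : ℝ) ≤ D.K * n ^ 2 := by
        rw [hq]
        push_cast
        apply mul_le_mul_of_nonneg_left _ (Nat.cast_nonneg _)
        rw [sq]
        exact mul_le_mul (hPn P hP) (hPn P' hP') (Nat.cast_nonneg _) hn0.le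
      apply entry_off (r1 * N) (r2 * N) E
        ((r2 * N - r1 * N) * D.T / (√(D.d : ℝ) * (q : ℝ) ^ 2)) w w'
        (hadm P hP) (hadm P' hP') hne n (hPn P hP) (hPn P' hP') _ hE0
      intro i α S hS
      have hqY : (q : ℝ) ^ 2 * (N ^ (3 : ℝ)) ^ (1 / 16 : ℝ) ≤ Y := by
        calc (q : ℝ) ^ 2 * (N ^ (3 : ℝ)) ^ (1 / 16 : ℝ)
            ≤ (D.K * n ^ 2) ^ 2 * (N ^ (3 : ℝ)) ^ (1 / 16 : ℝ) :=
              mul_le_mul_of_nonneg_right (pow_le_pow_left₀ (by linarith) hqn 2) (by positivity)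
          _ = (D.K : ℝ) ^ 2 * (n ^ 4 * (N ^ (3 : ℝ)) ^ (1 / 16 : ℝ)) := by ring
          _ ≤ (D.K : ℝ) ^ 2 * N := by
              apply mul_le_mul_of_nonneg_left _ (by positivity)
              rw [hn, ← Real.rpow_natCast, ← Real.rpow_mul hN0.le, ← Real.rpow_mul hN0.le,
                ← Real.rpow_add hN0]
              calc N ^ (c * ((4 : ℕ) : ℝ) + 3 * (1 / 16)) ≤ N ^ (1 : ℝ) := by
                    apply Real.rpow_le_rpow_of_exponent_le hN1
                    push_cast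
                    linarith
                _ = N := Real.rpow_one _
          _ ≤ Y := by
              rw [hY, hB]
              have h1 : 0 ≤ r2 * N := by positivity
              linarith
      have h1 := H i (N ^ (3 : ℝ)) (w.1 - w'.1) q α Y (r1 * N) (r2 * N) S hT1 (by
        have h1 := hUj w hw
        have h2 := hUj w' hw'
        have h3 : |((w.1 - w'.1 : ℤ) : ℝ)| ≤ 2 * N ^ 2 := by
          push_cast
          refine (abs_sub _ _).trans ?_
          linarith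
        have e1 : N ^ (3 : ℝ) = N ^ 3 := by
          rw [← Real.rpow_natCast]
          norm_num
        rw [e1]
        calc |((w.1 - w'.1 : ℤ) : ℝ)| ≤ 2 * N ^ 2 := h3
          _ ≤ N * N ^ 2 := mul_le_mul_of_nonneg_right hN2 (by positivity)
          _ = N ^ 3 := by ring) hq0 hqY ha0 hab hrY hS
      refine h1.trans ?_
      rw [hE]
      apply mul_le_mul_of_nonneg_left _ hC.le
      apply Real.rpow_le_rpow (by positivity) _ (by linarith)
      exact div_le_self hY0.le (one_le_pow₀ hq1))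
    (fun x => a x.1 x.2) (fun x => ha x.1 x.2)
  -- the number of vectors
  have hSx : ((Sx D (r1 * N) (r2 * N)).card : ℝ) ≤ hcl * (C0 * (r2 * N)) := by
    unfold Sx
    rw [card_sigma]
    push_cast
    calc ∑ i : Cx D, ((Shg i (r1 * N) (r2 * N)).card : ℝ)
        ≤ ∑ _i : Cx D, C0 * (r2 * N) := sum_le_sum (fun i _ => HC i _ _ _ le_rfl hb1)
      _ = hcl * (C0 * (r2 * N)) := by rw [sum_const, card_univ, nsmul_eq_mul]
  -- the terms
  have hterm : ∑ w ∈ U, ∑ P ∈ PP, (1 / (P.1 : ℝ)) *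
      ‖Maa a r1 r2 N w - z * cw P w * Maa a r1 r2 (N / P.1) w‖ ^ 2 =
      (1 / N ^ 2) * ∑ w ∈ U, ∑ P ∈ PP, ‖∑ x ∈ Sx D (r1 * N) (r2 * N),
        ((1 : ℝ) : ℂ) * a x.1 x.2 * ph (w, P) x‖ ^ 2 := by
    rw [mul_sum]
    refine sum_congr rfl (fun w _ => ?_)
    rw [mul_sum]
    exact sum_congr rfl (fun P hP => maa_id z a hinv r1 r2 N hN0 w (hadm P hP) (hM P hP))
  rw [hterm]
  -- numerical bounds
  have b2 : (U.card : ℝ) * ((PP.card : ℝ) * (n * (hcl * ((D.K * n ^ 2) ^ 2 * E)))) ≤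
      4 * (hcl * ((D.K : ℝ) ^ 2 * (C * B))) * N := by
    have e1 : Y ^ (1 - c0) ≤ B * N ^ (1 - c0) := by
      rw [hY, Real.mul_rpow (by linarith) hN0.le]
      apply mul_le_mul_of_nonneg_right _ (by positivity)
      calc B ^ (1 - c0) ≤ B ^ (1 : ℝ) :=
            Real.rpow_le_rpow_of_exponent_le hB1 (by linarith)
        _ = B := Real.rpow_one _
    have e2 : E ≤ C * (B * N ^ (1 - c0)) := mul_le_mul_of_nonneg_left e1 hC.le
    calc (U.card : ℝ) * ((PP.card : ℝ) * (n * (hcl * ((D.K * n ^ 2) ^ 2 * E))))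
        ≤ n * ((4 * n) * (n * (hcl * ((D.K * n ^ 2) ^ 2 * E)))) := by
          apply mul_le_mul hU _ (by positivity) hn0.le
          exact mul_le_mul_of_nonneg_right hcard hG2'
      _ ≤ n * ((4 * n) * (n * (hcl * ((D.K * n ^ 2) ^ 2 * (C * (B * N ^ (1 - c0))))))) := by
          gcongr
      _ = 4 * (hcl * ((D.K : ℝ) ^ 2 * (C * B))) * (n ^ 7 * N ^ (1 - c0)) := by ring
      _ ≤ 4 * (hcl * ((D.K : ℝ) ^ 2 * (C * B))) * N := by
          apply mul_le_mul_of_nonneg_left _ (by positivity)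
          rw [hn, ← Real.rpow_natCast, ← Real.rpow_mul hN0.le, ← Real.rpow_add hN0]
          calc N ^ (c * ((7 : ℕ) : ℝ) + (1 - c0)) ≤ N ^ (1 : ℝ) := by
                apply Real.rpow_le_rpow_of_exponent_le hN1
                push_cast
                linarith
            _ = N := Real.rpow_one _
  have b3 : m * (hcl * (2 * C0 * (r2 * N))) +
      U.card * (PP.card * (n * (hcl * ((D.K * n ^ 2) ^ 2 * E)))) ≤ CG * N := by
    calc _ ≤ m * (hcl * (2 * C0 * (r2 * N))) +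
          4 * (hcl * ((D.K : ℝ) ^ 2 * (C * B))) * N := add_le_add le_rfl b2
      _ = CG * N := by rw [hCG]; ring
  have b3' : 0 ≤ m * (hcl * (2 * C0 * (r2 * N))) +
      U.card * (PP.card * (n * (hcl * ((D.K * n ^ 2) ^ 2 * E)))) := by positivity
  have b4 := hmain.trans (mul_le_mul hSx b3 b3' (by positivity))
  calc (1 / N ^ 2) * ∑ w ∈ U, ∑ P ∈ PP, ‖∑ x ∈ Sx D (r1 * N) (r2 * N),
        ((1 : ℝ) : ℂ) * a x.1 x.2 * ph (w, P) x‖ ^ 2
      ≤ (1 / N ^ 2) * (hcl * (C0 * (r2 * N)) * (CG * N)) :=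
        mul_le_mul_of_nonneg_left b4 (by positivity)
    _ = hcl * (C0 * r2) * CG := by
        field_simp
    _ ≤ hcl * (C0 * r2) * CG + 1 := by linarith

end Pool.Agent.Lib.MP_a17b09_nt.PQH.TkhGenH12
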