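import Pool.Agent.Lib.MP_a17b09_nt.PQH.Stmts99
import Pool.Agent.Lib.MP_a17b09_nt.PQH.TkhGenH12

/-!
PQH (MP_a17b09_nt), row M5: TKH, uniform in the weight, positive discriminant.  helper12.
-/

set_option autoImplicit false

open Finset

namespace Pool.Agent.Lib.MP_a17b09_nt.PQH

open CH CH.PE HY MRH TkhGenH12
open PQ (Wy gw)

/-- the weight of the image of a vector -/
theorem gw_app {D : Dat} {P : ℕ × Bool} (h : Adm D P) {z : ℂ} {y : ℝ} {w : ℕ → ℂ}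
    (hw : Wy z y w) (hP : (P.1 : ℝ) ≤ y) (i : Cx D) {u : V} (hu : Cn (rp (sg D P i)) u) :
    gw w (rp i) ((Mg D P i).app u) = z * gw w (rp (sg D P i)) u := by
  obtain ⟨-, R⟩ := rel_g h i
  unfold gw
  have hq : 0 < (rp (sg D P i)).q u := hu.q_pos (rp_hyp _)
  rw [R.sim, Int.natAbs_mul, Int.natAbs_natCast]
  exact hw.mul P.1 _ h.1 hP (Int.natAbs_pos.2 hq.ne')

/-- row M5 -/
theorem stTkhH_12 (D : Dat) : StTkhH D := by
  intro z hz r1 r2 hr1 hr12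
  obtain ⟨c1, C, N0, hc1, hc18, hC, hN0, H⟩ := tkh_gen D r1 r2 hr1 hr12
  refine ⟨c1, hc1, hc18, fun c hc hcc => ⟨C, N0, hC, hN0, fun N hN w hw U hU hUj => ?_⟩⟩
  have hN1 : 1 ≤ N := hN0.trans hN
  have hle : N ^ c ≤ N ^ c1 := Real.rpow_le_rpow_of_exponent_le hN1 hcc
  have hsub : slg D 3 (N ^ c) ⊆ slg D 3 (N ^ c1) := by
    intro P hP
    rw [mem_slg] at hP ⊢
    exact ⟨hP.1, hP.2.1, hP.2.2.trans_le hle⟩
  exact H N hN z (fun i v => gw w (rp i) v) (fun i v _ => gw_act (rp_hyp i) w D.a v)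
    (fun i v => hw.le _) (slg D 3 (N ^ c)) hsub
    (fun P hP i u hu => gw_app (mem_slg.1 hP).1 hw (mem_slg.1 hP).2.2.le i hu) U (hU.trans hle) hUj

end Pool.Agent.Lib.MP_a17b09_nt.PQH
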