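import Pool.Agent.Lib.MP_a17b09_nt.PQH.Stmts99
import Pool.Agent.Lib.MP_a17b09_nt.MRH.Uall39

/-!
PQH, M6 (StUallH): the mean values on a small set of nonzero frequencies, uniform in the weight, by
comparison of the two primes above `p`.
-/

set_option autoImplicit false

open Filter Topology Finset

namespace Pool.Agent.Lib.MP_a17b09_nt.PQH

open CH CH.PE MRH
open PQ (Wy)

open UallH39 in
/-- (M6) -/
theorem stUallH_39 (D : Dat) (hT : StTkhH D) (hD : StDjG D) : StUallH D := by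
  classical
  intro z hz c0 hc0 r1 r2 hr1 hr12
  obtain ⟨c1, hc1, hc1', hT1⟩ := hT z hz r1 r2 hr1 hr12
  obtain ⟨c, hcd⟩ : ∃ c : ℝ, c = min c1 c0 := ⟨_, rfl⟩
  have hc : 0 < c := by rw [hcd]; exact lt_min hc1 hc0
  obtain ⟨C, N1, hC0, hN1, hT2⟩ := hT1 c hc (hcd ▸ min_le_left _ _)
  refine ⟨c, hc, hcd ▸ min_le_right _ _, fun ε hε => ?_⟩
  obtain ⟨N2, hN2, hD2⟩ := hD c (4 * C / ε) hc
  refine ⟨max N1 N2, fun N hN wt hwt U hU h0 hj => ?_⟩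
  have hNN1 : N1 ≤ N := (le_max_left _ _).trans hN
  have hNN2 : N2 ≤ N := (le_max_right _ _).trans hN
  have key := hT2 N hNN1 wt hwt U hU hj
  have hB0 : 0 < 4 * C / ε := by positivity
  have main : ∀ w ∈ U, (4 * C / ε) * ‖Mah wt r1 r2 N w‖ ^ 2 ≤
      4 * ∑ P ∈ slg D 3 (N ^ c), (1 / (P.1 : ℝ)) *
        ‖Mah wt r1 r2 N w - z * cw P w * Mah wt r1 r2 (N / P.1) w‖ ^ 2 := by
    intro w hw
    have hDj := hD2 N hNN2 w (h0 w hw) (hj w hw)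
    obtain ⟨M, hM⟩ : ∃ M : ℂ, M = Mah wt r1 r2 N w := ⟨_, rfl⟩
    obtain ⟨X, hX⟩ : ∃ X : ℝ, X = N ^ c := ⟨_, rfl⟩
    rw [← hM]
    rw [← hX] at hDj ⊢
    obtain ⟨e, he⟩ : ∃ e : ℕ × Bool → ℝ, e = fun P => (1 / (P.1 : ℝ)) *
      ‖M - z * cw P w * Mah wt r1 r2 (N / P.1) w‖ ^ 2 := ⟨_, rfl⟩
    have hed : ∀ P, e P = (1 / (P.1 : ℝ)) *
      ‖M - z * cw P w * Mah wt r1 r2 (N / P.1) w‖ ^ 2 := fun P => by rw [he]
    have s1 : (4 * C / ε) * ‖M‖ ^ 2 ≤ ∑ P ∈ slg D 3 X, (2 * e P + 2 * e (fl P)) := by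
      calc (4 * C / ε) * ‖M‖ ^ 2
          ≤ (∑ P ∈ slg D 3 X, (1 / (P.1 : ℝ)) *
              ‖cw P w - cw (P.1, !P.2) w‖ ^ 2) * ‖M‖ ^ 2 :=
            mul_le_mul_of_nonneg_right hDj (sq_nonneg _)
        _ = ∑ P ∈ slg D 3 X, (1 / (P.1 : ℝ)) *
              ‖cw P w - cw (P.1, !P.2) w‖ ^ 2 * ‖M‖ ^ 2 := by rw [Finset.sum_mul]
        _ ≤ _ := by
            refine Finset.sum_le_sum fun P hP => ?_
            have hA : Adm D P := (mem_slg.1 hP).1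
            have hA' : Adm D (P.1, !P.2) := (mem_slg.1 (fl_mem hP)).1
            have g1 : ‖z * cw P w‖ = 1 := by rw [norm_mul, hz, norm_cw hA, one_mul]
            have g2 : ‖z * cw (P.1, !P.2) w‖ = 1 := by rw [norm_mul, hz, norm_cw hA', one_mul]
            have g3 : ‖z * cw P w - z * cw (P.1, !P.2) w‖ = ‖cw P w - cw (P.1, !P.2) w‖ := by
              rw [← mul_sub, norm_mul, hz, one_mul]
            have g4 := one_prime (M := M) (M' := Mah wt r1 r2 (N / P.1) w) g1 g2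
            rw [g3] at g4
            rw [hed, hed]
            have g5 : (0 : ℝ) ≤ 1 / (P.1 : ℝ) := by positivity
            have g6 := mul_le_mul_of_nonneg_left g4 g5
            show _ ≤ 2 * ((1 / (P.1 : ℝ)) * _) + 2 * ((1 / (P.1 : ℝ)) *
              ‖M - z * cw (P.1, !P.2) w * Mah wt r1 r2 (N / P.1) w‖ ^ 2)
            linarith
    have s3 : ∑ P ∈ slg D 3 X, e (fl P) = ∑ P ∈ slg D 3 X, e P :=
      Finset.sum_nbij' fl fl (fun P h => fl_mem h) (fun P h => fl_mem h)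
        (fun P _ => fl_fl P) (fun P _ => fl_fl P) (fun P _ => rfl)
    have s4 : ∑ P ∈ slg D 3 X, (2 * e P + 2 * e (fl P)) = 4 * ∑ P ∈ slg D 3 X, e P := by
      rw [Finset.sum_add_distrib, ← Finset.mul_sum, ← Finset.mul_sum, s3]
      ring
    have s5 : ∑ P ∈ slg D 3 X, e P = ∑ P ∈ slg D 3 X, (1 / (P.1 : ℝ)) *
        ‖M - z * cw P w * Mah wt r1 r2 (N / P.1) w‖ ^ 2 :=
      Finset.sum_congr rfl fun P _ => hed P
    rw [← s5, ← s4]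
    exact s1
  have h6 : (4 * C / ε) * ∑ w ∈ U, ‖Mah wt r1 r2 N w‖ ^ 2 ≤ 4 * C := by
    rw [Finset.mul_sum]
    calc ∑ w ∈ U, (4 * C / ε) * ‖Mah wt r1 r2 N w‖ ^ 2
        ≤ ∑ w ∈ U, 4 * ∑ P ∈ slg D 3 (N ^ c), (1 / (P.1 : ℝ)) *
          ‖Mah wt r1 r2 N w - z * cw P w * Mah wt r1 r2 (N / P.1) w‖ ^ 2 :=
          Finset.sum_le_sum main
      _ = 4 * ∑ w ∈ U, ∑ P ∈ slg D 3 (N ^ c), (1 / (P.1 : ℝ)) *
          ‖Mah wt r1 r2 N w - z * cw P w * Mah wt r1 r2 (N / P.1) w‖ ^ 2 := by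
          rw [Finset.mul_sum]
      _ ≤ 4 * C := mul_le_mul_of_nonneg_left key (by norm_num)
  have h7 : (4 * C / ε) * ∑ w ∈ U, ‖Mah wt r1 r2 N w‖ ^ 2 ≤ (4 * C / ε) * ε := by
    refine h6.trans (le_of_eq ?_)
    field_simp
  exact le_of_mul_le_mul_left h7 hB0

end Pool.Agent.Lib.MP_a17b09_nt.PQH
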