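import Pool.Agent.Lib.MP_a17b09_nt.PQH.Stmts99
import Pool.Agent.Lib.MP_a17b09_nt.MRH.Up70

/-!
PQH (MP_a17b09_nt), row M7 (helper9): from all vectors to primitive vectors on the set `U`, uniform
in the weight, positive discriminant.  Fork of `PQ/M7_9` and `MRH/Up70`.
-/

set_option autoImplicit false

open Filter Topology Finset

namespace Pool.Agent.Lib.MP_a17b09_nt.PQH

open CH CH.PE HY HY.S68 MRH
open PQ (B1 Wy gw)

namespace Up9

variable {Δ : Dat}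

/-- the weight on the multiples of `D` -/
def wD (w : ℕ → ℂ) (D : ℕ) (n : ℕ) : ℂ := w (D ^ 2 * n)

theorem wD_b1 {w : ℕ → ℂ} (hw : B1 w) (D : ℕ) : B1 (wD w D) := fun _ => hw _

theorem wD_wy {z : ℂ} {y x : ℝ} {w : ℕ → ℂ} (hw : Wy z y w) {D : ℕ} (hD : 0 < D) (hxy : x ≤ y) :
    Wy z x (wD w D) := by
  refine ⟨fun n => hw.le _, fun p n hp hpx hn => ?_⟩
  unfold wD
  have h := hw.mul p (D ^ 2 * n) hp (hpx.trans hxy) (by positivity)
  rw [← h]
  congr 1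
  ring

theorem gw_smul (w : ℕ → ℂ) (i : Cx Δ) {D : ℕ} (v : V) :
    gw w (rp i) ((D : ℤ) • v) = gw (wD w D) (rp i) v := by
  unfold gw wD
  rw [Form.q_smul, Int.natAbs_mul, Int.natAbs_pow, Int.natAbs_natCast]

theorem norm_gw {w : ℕ → ℂ} (hw : B1 w) (Q : Form) (v : V) : ‖gw w Q v‖ ≤ 1 := hw _

section


/-- the coordinates of the vector of the primitive sums -/
theorem vp_le (w : ℕ → ℂ) (r1 r2 N : ℝ) (j : ℤ) (hN : 0 < N) (E : ℕ)
    (hE : r2 * N ≤ E) (ia : Cx Δ × (ZMod Δ.K × ZMod Δ.K)) :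
    ‖VPh Δ w r1 r2 N j ia‖ ≤ ∑ D ∈ Finset.Icc 1 E, (1 / (D : ℝ) ^ 2) *
      ∑ ib, ‖VAh Δ (wD w D) r1 r2 (N / (D : ℝ) ^ 2) j ib‖ := by
  classical
  obtain ⟨i, α⟩ := ia
  have h0 : VPh Δ w r1 r2 N j (i, α) = ∑ v ∈ (Shg i (r1 * N) (r2 * N)).filter Prim,
      if cl Δ.K v = α then (1 / (N : ℂ)) * gw w (rp i) v * uu i v ^ j else 0 := by
    unfold VPh
    rw [vec_apply, Finset.sum_filter]
  rw [h0, UpH70.prim_sum i _ _ E hE]
  refine (norm_sum_le _ _).trans (Finset.sum_le_sum fun D hD => ?_)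
  have hd1 : 0 < D := (Finset.mem_Icc.1 hD).1
  have hd0 : (0 : ℝ) < D := by exact_mod_cast hd1
  have h1 : ‖(ArithmeticFunction.moebius D : ℂ)‖ ≤ 1 := by
    rcases ArithmeticFunction.moebius_eq_or D with h | h | h
    · rw [h]; simp
    · rw [h]; simp
    · rw [h]; simp
  rw [norm_mul]
  refine (mul_le_of_le_one_left (norm_nonneg _) h1).trans ?_
  have hN0 : (N : ℂ) ≠ 0 := by exact_mod_cast hN.ne'
  have hdc : (D : ℂ) ≠ 0 := by exact_mod_cast hd1.ne'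
  -- the sum by the classes
  have h2 : ∀ v ∈ Shg i (r1 * N / (D : ℝ) ^ 2) (r2 * N / (D : ℝ) ^ 2),
      (if cl Δ.K ((D : ℤ) • v) = α then
        (1 / (N : ℂ)) * gw w (rp i) ((D : ℤ) • v) * uu i ((D : ℤ) • v) ^ j else 0) =
      (1 / (D : ℂ) ^ 2) *
        ∑ β : ZMod Δ.K × ZMod Δ.K, if MRSG.sc (D : ZMod Δ.K) β = α then
        (if cl Δ.K v = β then (1 / ((N / (D : ℝ) ^ 2 : ℝ) : ℂ)) * gw (wD w D) (rp i) v *
          uu i v ^ j else 0) else 0 := by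
    intro v hv
    rw [mem_Shg] at hv
    rw [Finset.sum_eq_single (cl Δ.K v)]
    · rw [if_pos rfl, MRSG.cl_smul', gw_smul w i, uu_smul _ (by exact_mod_cast hd1)]
      push_cast
      split_ifs
      · field_simp
      · rw [mul_zero]
    · intro β _ hβ
      rw [if_neg (Ne.symm hβ)]
      split_ifs <;> rfl
    · intro h
      exact absurd (Finset.mem_univ _) h
  rw [Finset.sum_congr rfl h2, ← Finset.mul_sum, norm_mul, norm_div, norm_one, norm_pow,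
    Complex.norm_natCast]
  refine mul_le_mul_of_nonneg_left ?_ (by positivity)
  rw [Finset.sum_comm]
  have h3 : ∀ β : ZMod Δ.K × ZMod Δ.K,
      ‖∑ v ∈ Shg i (r1 * N / (D : ℝ) ^ 2) (r2 * N / (D : ℝ) ^ 2),
        (if MRSG.sc (D : ZMod Δ.K) β = α then
        (if cl Δ.K v = β then (1 / ((N / (D : ℝ) ^ 2 : ℝ) : ℂ)) * gw (wD w D) (rp i) v *
          uu i v ^ j else 0) else 0)‖ ≤
      ‖VAh Δ (wD w D) r1 r2 (N / (D : ℝ) ^ 2) j (i, β)‖ := by
    intro β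
    by_cases h : MRSG.sc (D : ZMod Δ.K) β = α
    · refine le_of_eq ?_
      congr 1
      unfold VAh
      rw [vec_apply, Finset.sum_filter, mul_div_assoc, mul_div_assoc]
      refine Finset.sum_congr rfl fun v _ => ?_
      rw [if_pos h]
    · rw [Finset.sum_eq_zero]
      · rw [norm_zero]
        exact norm_nonneg _
      · intro v _
        rw [if_neg h]
  refine (norm_sum_le _ _).trans ((Finset.sum_le_sum fun β _ => h3 β).trans ?_)
  rw [Fintype.sum_prod_type (fun ib : Cx Δ × (ZMod Δ.K × ZMod Δ.K) =>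
    ‖VAh Δ (wD w D) r1 r2 (N / (D : ℝ) ^ 2) j ib‖)]
  exact Finset.single_le_sum
    (f := fun i => ∑ β, ‖VAh Δ (wD w D) r1 r2 (N / (D : ℝ) ^ 2) j (i, β)‖)
    (fun _ _ => Finset.sum_nonneg fun _ _ => norm_nonneg _) (Finset.mem_univ i)

end

theorem ma_le {w : ℕ → ℂ} (hw : B1 w) (r1 r2 N : ℝ) (f : Fq Δ) (hN : 0 < N)
    (hr : 0 ≤ r2) : ‖Mah w r1 r2 N f‖ ≤ UpH70.CT Δ * r2 := by
  unfold Mah
  rw [norm_mul, norm_div, norm_one, Complex.norm_real, Real.norm_eq_abs, abs_of_pos hN]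
  have h1 : ‖∑ i, ∑ v ∈ Shg i (r1 * N) (r2 * N), gw w (rp i) v * ch f i v‖ ≤
      UpH70.CT Δ * (r2 * N) := by
    refine (norm_sum_le _ _).trans ?_
    unfold UpH70.CT
    rw [Finset.sum_mul]
    refine Finset.sum_le_sum fun i _ => ?_
    refine (norm_sum_le _ _).trans ?_
    refine (Finset.sum_le_sum (g := fun _ => (1 : ℝ)) fun v hv => ?_).trans ?_
    · rw [norm_mul]
      exact mul_le_one₀ (norm_gw hw _ _) (norm_nonneg _) (norm_ch_le f i v)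
    · rw [Finset.sum_const, nsmul_eq_mul, mul_one]
      exact (UpH70.card_Shg i).choose_spec.2 _ _ (by positivity)
  calc 1 / N * ‖∑ i, ∑ v ∈ Shg i (r1 * N) (r2 * N), gw w (rp i) v * ch f i v‖ ≤
        1 / N * (UpH70.CT Δ * (r2 * N)) := mul_le_mul_of_nonneg_left h1 (by positivity)
    _ = UpH70.CT Δ * r2 := by field_simp

open UpH70 in
/-- one frequency -/
theorem one_freq (w : ℕ → ℂ) (r1 r2 N : ℝ) (j : ℤ) (hN : 0 < N) (E : ℕ)
    (hE : r2 * N ≤ E) : ∑ ia, ‖VPh Δ w r1 r2 N j ia‖ ^ 2 ≤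
      2 * nI Δ ^ 2 * ∑ D ∈ Finset.Icc 1 E, (1 / (D : ℝ) ^ 2) *
        ∑ ib, ‖VAh Δ (wD w D) r1 r2 (N / (D : ℝ) ^ 2) j ib‖ ^ 2 := by
  set A : ℕ → ℝ := fun D => ∑ ib, ‖VAh Δ (wD w D) r1 r2 (N / (D : ℝ) ^ 2) j ib‖ ^ 2 with hA
  have hA0 : ∀ D, 0 ≤ A D := fun D => Finset.sum_nonneg fun _ _ => by positivity
  have hn0 := nI_pos Δ
  have h1 : ∀ ia, ‖VPh Δ w r1 r2 N j ia‖ ^ 2 ≤
      2 * nI Δ * ∑ D ∈ Finset.Icc 1 E, (1 / (D : ℝ) ^ 2) * A D := by
    intro ia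
    have h2 := MRS.Exc70.cs (Finset.Icc 1 E) (fun D : ℕ => 1 / (D : ℝ) ^ 2)
      (fun D : ℕ => ∑ ib, ‖VAh Δ (wD w D) r1 r2 (N / (D : ℝ) ^ 2) j ib‖)
      (fun D _ => by positivity)
    have h3 : ∀ D : ℕ, (∑ ib, ‖VAh Δ (wD w D) r1 r2 (N / (D : ℝ) ^ 2) j ib‖) ^ 2 ≤
        nI Δ * A D := by
      intro D
      have h4 := sq_sum_le_card_mul_sum_sq
        (s := (Finset.univ : Finset (Cx Δ × (ZMod Δ.K × ZMod Δ.K))))
        (f := fun ib => ‖VAh Δ (wD w D) r1 r2 (N / (D : ℝ) ^ 2) j ib‖)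
      refine h4.trans (mul_le_mul_of_nonneg_right ?_ (hA0 D))
      unfold nI
      rw [Finset.card_univ]
      linarith
    calc ‖VPh Δ w r1 r2 N j ia‖ ^ 2 ≤ (∑ D ∈ Finset.Icc 1 E, (1 / (D : ℝ) ^ 2) *
          ∑ ib, ‖VAh Δ (wD w D) r1 r2 (N / (D : ℝ) ^ 2) j ib‖) ^ 2 :=
          pow_le_pow_left₀ (norm_nonneg _) (vp_le w r1 r2 N j hN E hE ia) 2
      _ ≤ (∑ D ∈ Finset.Icc 1 E, 1 / (D : ℝ) ^ 2) * ∑ D ∈ Finset.Icc 1 E, (1 / (D : ℝ) ^ 2) *
          (∑ ib, ‖VAh Δ (wD w D) r1 r2 (N / (D : ℝ) ^ 2) j ib‖) ^ 2 := h2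
      _ ≤ 2 * ∑ D ∈ Finset.Icc 1 E, (1 / (D : ℝ) ^ 2) * (nI Δ * A D) := by
          refine mul_le_mul (total E) ?_ (Finset.sum_nonneg fun _ _ => by positivity)
            (by norm_num)
          exact Finset.sum_le_sum fun D _ => mul_le_mul_of_nonneg_left (h3 D) (by positivity)
      _ = _ := by
          rw [mul_assoc, Finset.mul_sum]
          rw [Finset.mul_sum, Finset.mul_sum]
          refine Finset.sum_congr rfl fun D _ => by ring
  have hS0 : 0 ≤ ∑ D ∈ Finset.Icc 1 E, (1 / (D : ℝ) ^ 2) * A D :=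
    Finset.sum_nonneg fun D _ => mul_nonneg (by positivity) (hA0 D)
  calc ∑ ia, ‖VPh Δ w r1 r2 N j ia‖ ^ 2 ≤
        ∑ ia : Cx Δ × (ZMod Δ.K × ZMod Δ.K), 2 * nI Δ * ∑ D ∈ Finset.Icc 1 E,
          (1 / (D : ℝ) ^ 2) * A D := Finset.sum_le_sum fun ia _ => h1 ia
    _ = (Fintype.card (Cx Δ × (ZMod Δ.K × ZMod Δ.K)) : ℝ) * (2 * nI Δ * ∑ D ∈ Finset.Icc 1 E,
          (1 / (D : ℝ) ^ 2) * A D) := by
        rw [Finset.sum_const, nsmul_eq_mul, Finset.card_univ]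
    _ ≤ nI Δ * (2 * nI Δ * ∑ D ∈ Finset.Icc 1 E, (1 / (D : ℝ) ^ 2) * A D) := by
        refine mul_le_mul_of_nonneg_right ?_ (by positivity)
        unfold nI
        linarith
    _ = _ := by ring

end Up9

open UpH70 Up9 in
theorem stUpH_9 (Δ : Dat) (hU : StUallH Δ) (hH : StHmuG Δ) (hPar : StParH Δ) : StUpH Δ := by
  classical
  intro z hz c0 hc0 r1 r2 hr1 hr2
  have hr20 : 0 < r2 := lt_of_le_of_lt hr1 hr2
  obtain ⟨ch', C, N1, hch, hC, hN1, hHm⟩ := hH r1 r2 hr1 hr2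
  obtain ⟨cu, hcu, hcu0, hUa⟩ := hU z hz (min c0 (min (ch' / 4) (1 / 16))) (by positivity)
    r1 r2 hr1 hr2
  have hcc0 : cu ≤ c0 := hcu0.trans (min_le_left _ _)
  have hcch : cu ≤ ch' / 4 := hcu0.trans ((min_le_right _ _).trans (min_le_left _ _))
  have hc16 : cu ≤ 1 / 16 := hcu0.trans ((min_le_right _ _).trans (min_le_right _ _))
  refine ⟨cu, hcu, hcc0, fun ε0 hε0 => ?_⟩
  have hn1 := nI_pos Δ
  set n := nI Δ with hn
  -- work with `ε`
  set ε := ε0 / n ^ 2 with hεd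
  have hε : 0 < ε := by positivity
  obtain ⟨D0, hD0⟩ := exists_nat_gt (16 * C / ε)
  have hD00 : (0 : ℝ) < D0 := lt_trans (by positivity) hD0
  have hD0n : 0 < D0 := by exact_mod_cast hD00
  have hCD : C / D0 ≤ ε / 16 := by
    rw [div_lt_iff₀ hε] at hD0
    rw [div_le_iff₀ hD00]
    linarith
  -- the number of parts
  obtain ⟨M, hM⟩ := exists_nat_gt (2 * n * ((D0 : ℝ) ^ 2) ^ cu)
  have hM0 : (0 : ℝ) < M := lt_trans (by positivity) hM
  obtain ⟨N2, hN2⟩ := hUa (ε / 16 / M) (by positivity)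
  set T := (CT Δ * r2) ^ 2 with hT
  have hT0 : 0 ≤ T := by positivity
  have hev : ∀ᶠ N : ℝ in atTop, max N1 N2 ≤ N ^ (1 / 2 : ℝ) ∧ (D0 : ℝ) ≤ N ^ (1 / 4 : ℝ) ∧
      1 ≤ N ∧ 2 * T * 16 / ε ≤ N ^ (1 / 8 : ℝ) ∧ n ≤ N ^ cu := by
    have t1 := (tendsto_rpow_atTop (show (0 : ℝ) < 1 / 2 by norm_num)).eventually_ge_atTop
      (max N1 N2)
    have t2 := (tendsto_rpow_atTop (show (0 : ℝ) < 1 / 4 by norm_num)).eventually_ge_atTop
      (D0 : ℝ)
    have t3 := (tendsto_rpow_atTop (show (0 : ℝ) < 1 / 8 by norm_num)).eventually_ge_atTop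
      (2 * T * 16 / ε)
    have t4 := (tendsto_rpow_atTop hcu).eventually_ge_atTop n
    filter_upwards [t1, t2, t3, t4, eventually_ge_atTop (1 : ℝ)] with N a1 a2 a3 a4 a5
    exact ⟨a1, a2, a5, a3, a4⟩
  obtain ⟨N0, hN0⟩ := eventually_atTop.1 hev
  refine ⟨N0, fun N hN w hw U0 hU0c h00 hU0j => ?_⟩
  obtain ⟨g1, g2, g3, g4, g5⟩ := hN0 N hN
  have hNp : 0 < N := by linarith
  have hwb : B1 w := hw.le
  -- full fibres
  set J : Finset ℤ := U0.image Sigma.fst with hJ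
  set U : Finset (Fq Δ) := J.sigma (fun _ => Finset.univ) with hUd
  have hUsub : U0 ⊆ U := by
    intro f hf
    rw [hUd, Finset.mem_sigma]
    exact ⟨Finset.mem_image_of_mem _ hf, Finset.mem_univ _⟩
  have hUfst : ∀ f ∈ U, ∃ f' ∈ U0, f'.1 = f.1 := by
    intro f hf
    rw [hUd, Finset.mem_sigma] at hf
    exact Finset.mem_image.1 hf.1
  have h0 : ∀ f ∈ U, f.1 ≠ 0 := by
    intro f hf
    obtain ⟨f', h1, h2⟩ := hUfst f hf
    rw [← h2]
    exact h00 f' h1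
  have hUj : ∀ f ∈ U, |(f.1 : ℝ)| ≤ N := by
    intro f hf
    obtain ⟨f', h1, h2⟩ := hUfst f hf
    rw [← h2]
    exact hU0j f' h1
  have hUcn : (U.card : ℝ) ≤ N ^ cu * n := by
    have h1 : U.card ≤ J.card * Fintype.card (Cx Δ × (ZMod Δ.K × ZMod Δ.K)) := by
      rw [hUd, Finset.card_sigma]
      refine (Finset.sum_le_card_nsmul J _ (Fintype.card (Cx Δ × (ZMod Δ.K × ZMod Δ.K)))
        fun j _ => ?_).trans (le_of_eq (smul_eq_mul _ _))
      rw [Finset.card_univ, Fintype.card_fin]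
      have := mm_le (D := Δ) j
      rw [Fintype.card_prod, Fintype.card_prod, ZMod.card]
      exact this
    have h2 : J.card ≤ U0.card := Finset.card_image_le
    have h4 : U.card ≤ U0.card * Fintype.card (Cx Δ × (ZMod Δ.K × ZMod Δ.K)) :=
      h1.trans (Nat.mul_le_mul_right _ h2)
    have h5 : (U.card : ℝ) ≤ U0.card * (Fintype.card (Cx Δ × (ZMod Δ.K × ZMod Δ.K)) : ℝ) := by
      exact_mod_cast h4
    have h6 : (Fintype.card (Cx Δ × (ZMod Δ.K × ZMod Δ.K)) : ℝ) ≤ n := by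
      rw [hn]
      unfold nI
      linarith
    exact h5.trans (mul_le_mul hU0c h6 (by positivity) (by positivity))
  have hUc : (U.card : ℝ) ≤ N ^ (2 * cu) := by
    calc (U.card : ℝ) ≤ N ^ cu * n := hUcn
      _ ≤ N ^ cu * N ^ cu := mul_le_mul_of_nonneg_left g5 (by positivity)
      _ = N ^ (2 * cu) := by
          rw [← Real.rpow_add hNp]
          congr 1
          ring
  set E := ⌊N ^ (1 / 4 : ℝ)⌋₊ with hE
  have hE1 : (E : ℝ) ≤ N ^ (1 / 4 : ℝ) := Nat.floor_le (by positivity)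
  have h14 : 1 ≤ N ^ (1 / 4 : ℝ) := Real.one_le_rpow g3 (by norm_num)
  have hE2 : N ^ (1 / 4 : ℝ) / 2 ≤ E := by
    have h1 : N ^ (1 / 4 : ℝ) < E + 1 := Nat.lt_floor_add_one _
    have h2 : (1 : ℝ) ≤ E := by
      have : 1 ≤ E := Nat.le_floor (by exact_mod_cast h14)
      exact_mod_cast this
    linarith
  have hE0 : (0 : ℝ) < E := lt_of_lt_of_le (by positivity) hE2
  have hEn : 0 < E := by exact_mod_cast hE0
  -- small `D`
  have hsq : N ^ (1 / 4 : ℝ) * N ^ (1 / 4 : ℝ) = N ^ (1 / 2 : ℝ) := by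
    rw [← Real.rpow_add hNp]
    norm_num
  have hsq2 : N ^ (1 / 2 : ℝ) * N ^ (1 / 2 : ℝ) = N := by
    rw [← Real.rpow_add hNp]
    norm_num
  have hsmall : ∀ D : ℕ, 1 ≤ D → D ≤ E → N ^ (1 / 2 : ℝ) ≤ N / (D : ℝ) ^ 2 := by
    intro D hd1 hd2
    have hd0 : (0 : ℝ) < D := by exact_mod_cast hd1
    have h1 : (D : ℝ) ≤ N ^ (1 / 4 : ℝ) := le_trans (by exact_mod_cast hd2) hE1
    rw [le_div_iff₀ (by positivity)]
    calc N ^ (1 / 2 : ℝ) * (D : ℝ) ^ 2 ≤ N ^ (1 / 2 : ℝ) * N ^ (1 / 2 : ℝ) := by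
          refine mul_le_mul_of_nonneg_left ?_ (by positivity)
          rw [sq, ← hsq]
          exact mul_le_mul h1 h1 hd0.le (by positivity)
      _ = N := hsq2
  have h12 : 1 ≤ N ^ (1 / 2 : ℝ) := Real.one_le_rpow g3 (by norm_num)
  have hpow : ∀ x : ℝ, N ^ (1 / 2 : ℝ) ≤ x → ∀ e : ℝ, 0 < e → 2 * cu ≤ e / 2 →
      (U.card : ℝ) ≤ x ^ e := by
    intro x hx e he hce
    calc (U.card : ℝ) ≤ N ^ (2 * cu) := hUc
      _ ≤ N ^ (e / 2) := Real.rpow_le_rpow_of_exponent_le g3 hce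
      _ = (N ^ (1 / 2 : ℝ)) ^ e := by
          rw [← Real.rpow_mul hNp.le]
          congr 1
          ring
      _ ≤ x ^ e := Real.rpow_le_rpow (by positivity) hx he.le
  set S : ℕ → ℝ := fun D => ∑ f ∈ U, ‖Mah (wD w D) r1 r2 (N / (D : ℝ) ^ 2) f‖ ^ 2 with hS
  have hS0 : ∀ D, 0 ≤ S D := fun D => Finset.sum_nonneg fun _ _ => by positivity
  -- the three ranges
  have hS1 : ∀ D : ℕ, 1 ≤ D → D ≤ D0 → S D ≤ ε / 16 := by
    intro D hd1 hd2
    have hdE : D ≤ E := hd2.trans (Nat.le_floor g2)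
    have h1 := hsmall D hd1 hdE
    have hd0 : (0 : ℝ) < D := by exact_mod_cast hd1
    set x := N / (D : ℝ) ^ 2 with hx
    have hx1 : 1 ≤ x := h12.trans h1
    have hx0 : 0 < x := by linarith
    have hd1' : (1 : ℝ) ≤ D := by exact_mod_cast hd1
    have hxN : x ≤ N := by
      rw [hx, div_le_iff₀ (by positivity)]
      nlinarith [one_le_pow₀ (n := 2) hd1']
    have hb : x ^ cu / 2 ≤ (⌊x ^ cu⌋₊ : ℝ) := by
      have k1 : x ^ cu < ⌊x ^ cu⌋₊ + 1 := Nat.lt_floor_add_one _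
      have k2 : 1 ≤ x ^ cu := Real.one_le_rpow hx1 hcu.le
      have k3 : (1 : ℝ) ≤ ⌊x ^ cu⌋₊ := by
        have : 1 ≤ ⌊x ^ cu⌋₊ := Nat.le_floor (by exact_mod_cast k2)
        exact_mod_cast this
      linarith
    have hNx : N ^ cu ≤ ((D0 : ℝ) ^ 2) ^ cu * x ^ cu := by
      rw [← Real.mul_rpow (by positivity) hx0.le]
      refine Real.rpow_le_rpow hNp.le ?_ hcu.le
      rw [hx, mul_div_assoc', le_div_iff₀ (by positivity), mul_comm]
      refine mul_le_mul_of_nonneg_right ?_ hNp.le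
      have : (D : ℝ) ≤ D0 := by exact_mod_cast hd2
      exact pow_le_pow_left₀ hd0.le this 2
    have hcard : U.card ≤ M * ⌊x ^ cu⌋₊ := by
      have k1 : (U.card : ℝ) ≤ M * (⌊x ^ cu⌋₊ : ℝ) := by
        calc (U.card : ℝ) ≤ N ^ cu * n := hUcn
          _ ≤ ((D0 : ℝ) ^ 2) ^ cu * x ^ cu * n := mul_le_mul_of_nonneg_right hNx (by positivity)
          _ = (2 * n * ((D0 : ℝ) ^ 2) ^ cu) * (x ^ cu / 2) := by ring
          _ ≤ M * (⌊x ^ cu⌋₊ : ℝ) := mul_le_mul hM.le hb (by positivity) hM0.le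
      exact_mod_cast k1
    have key : ∀ V' : Finset (Fq Δ), V' ⊆ U → (V'.card ≤ ⌊x ^ cu⌋₊) →
        ∑ f ∈ V', ‖Mah (wD w D) r1 r2 x f‖ ^ 2 ≤ ε / 16 / M := by
      intro V' hV hVc
      refine hN2 x (((le_max_right _ _).trans g1).trans h1) (wD w D)
        (wD_wy hw (by omega) (Real.rpow_le_rpow hx0.le hxN hcu.le)) V' ?_ ?_ ?_
      · exact (Nat.cast_le.2 hVc).trans (Nat.floor_le (by positivity))
      · exact fun f hf => h0 f (hV hf)
      · intro f hf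
        refine (hUj f (hV hf)).trans ?_
        calc N = N ^ (1 / 2 : ℝ) * N ^ (1 / 2 : ℝ) := hsq2.symm
          _ ≤ x * x := mul_le_mul h1 h1 (by positivity) (by positivity)
          _ = x ^ 2 := by ring
    have key2 : ∀ (m : ℕ) (V' : Finset (Fq Δ)), V' ⊆ U → V'.card ≤ m * ⌊x ^ cu⌋₊ →
        ∑ f ∈ V', ‖Mah (wD w D) r1 r2 x f‖ ^ 2 ≤ m * (ε / 16 / M) := by
      intro m
      induction m with
      | zero =>
        intro V' _ hV
        have : V' = ∅ := Finset.card_eq_zero.1 (by omega)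
        rw [this]
        simp
      | succ m ih =>
        intro V' hV1 hV2
        rcases Nat.lt_or_ge (⌊x ^ cu⌋₊) V'.card with k1 | k1
        · obtain ⟨T', hT1, hT2⟩ := Finset.exists_subset_card_eq k1.le
          have k2 : (V' \ T').card ≤ m * ⌊x ^ cu⌋₊ := by
            rw [Finset.card_sdiff_of_subset hT1, hT2]
            have : (m + 1) * ⌊x ^ cu⌋₊ = m * ⌊x ^ cu⌋₊ + ⌊x ^ cu⌋₊ := by ring
            omega
          have k3 := ih (V' \ T') (Finset.sdiff_subset.trans hV1) k2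
          have k4 := key T' (hT1.trans hV1) hT2.le
          rw [← Finset.sum_sdiff hT1]
          push_cast
          linarith
        · have k4 := key V' hV1 k1
          have k5 : (0 : ℝ) ≤ m * (ε / 16 / M) := by positivity
          push_cast
          linarith
    have k6 := key2 M U (Finset.Subset.refl _) hcard
    calc S D ≤ M * (ε / 16 / M) := k6
      _ = ε / 16 := by field_simp
  have hS2 : ∀ D : ℕ, 1 ≤ D → D ≤ E → S D ≤ C := by
    intro D hd1 hdE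
    have h1 := hsmall D hd1 hdE
    have h2 : 1 ≤ N / (D : ℝ) ^ 2 := h12.trans h1
    exact hHm _ (((le_max_left _ _).trans g1).trans h1) U (hpow _ h1 ch' hch (by linarith))
      (fun j hj => by
        refine (hUj j hj).trans ?_
        calc N = N ^ (1 / 2 : ℝ) * N ^ (1 / 2 : ℝ) := hsq2.symm
          _ ≤ (N / (D : ℝ) ^ 2) * (N / (D : ℝ) ^ 2) := mul_le_mul h1 h1 (by positivity)
              (by positivity)
          _ = (N / (D : ℝ) ^ 2) ^ 2 := by ring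
          _ ≤ (N / (D : ℝ) ^ 2) ^ 4 := pow_le_pow_right₀ h2 (by norm_num))
      (fun i v => gw (wD w D) (rp i) v) (fun i v => norm_gw (wD_b1 hwb D) _ _)
  have hS3 : ∀ D : ℕ, 1 ≤ D → S D ≤ N ^ (1 / 8 : ℝ) * T := by
    intro D hd1
    have hd0 : (0 : ℝ) < D := by exact_mod_cast hd1
    calc S D ≤ ∑ f ∈ U, T := Finset.sum_le_sum fun f _ =>
          pow_le_pow_left₀ (norm_nonneg _) (ma_le (wD_b1 hwb D) r1 r2 _ f (by positivity)
            hr20.le) 2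
      _ = (U.card : ℝ) * T := by
          rw [Finset.sum_const, nsmul_eq_mul]
      _ ≤ N ^ (1 / 8 : ℝ) * T := by
          refine mul_le_mul_of_nonneg_right ?_ hT0
          exact hUc.trans (Real.rpow_le_rpow_of_exponent_le g3 (by linarith))
  -- the sum
  set Dm := ⌈r2 * N⌉₊ with hDd
  have hDle : r2 * N ≤ Dm := Nat.le_ceil _
  have hterm : ∀ D ∈ Finset.Icc 1 Dm, (1 / (D : ℝ) ^ 2) * S D ≤ (1 / (D : ℝ) ^ 2) * (ε / 16) +
      (if D0 < D then 1 / (D : ℝ) ^ 2 else 0) * C +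
      (if E < D then 1 / (D : ℝ) ^ 2 else 0) * (N ^ (1 / 8 : ℝ) * T) := by
    intro D hd
    have hd1 := (Finset.mem_Icc.1 hd).1
    have hd0 : (0 : ℝ) < D := by exact_mod_cast hd1
    have p1 : 0 ≤ (1 / (D : ℝ) ^ 2) * (ε / 16) := by positivity
    have p2 : 0 ≤ (if D0 < D then 1 / (D : ℝ) ^ 2 else 0) * C := by
      split_ifs
      · positivity
      · rw [zero_mul]
    have p3 : 0 ≤ (if E < D then 1 / (D : ℝ) ^ 2 else 0) * (N ^ (1 / 8 : ℝ) * T) := by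
      split_ifs
      · positivity
      · rw [zero_mul]
    rcases Nat.lt_or_ge D0 D with h1 | h1
    · rcases Nat.lt_or_ge E D with h2 | h2
      · rw [if_pos h2] at p3 ⊢
        have := mul_le_mul_of_nonneg_left (hS3 D hd1) (show 0 ≤ 1 / (D : ℝ) ^ 2 by positivity)
        linarith
      · rw [if_pos h1] at p2 ⊢
        have := mul_le_mul_of_nonneg_left (hS2 D hd1 h2) (show 0 ≤ 1 / (D : ℝ) ^ 2 by positivity)
        linarith
    · have := mul_le_mul_of_nonneg_left (hS1 D hd1 h1) (show 0 ≤ 1 / (D : ℝ) ^ 2 by positivity)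
      linarith
  have hsum : ∑ D ∈ Finset.Icc 1 Dm, (1 / (D : ℝ) ^ 2) * S D ≤ ε / 2 := by
    refine (Finset.sum_le_sum hterm).trans ?_
    rw [Finset.sum_add_distrib, Finset.sum_add_distrib, ← Finset.sum_mul, ← Finset.sum_mul,
      ← Finset.sum_mul]
    have q1 := mul_le_mul_of_nonneg_right (total Dm) (show 0 ≤ ε / 16 by positivity)
    have q2 : (∑ D ∈ Finset.Icc 1 Dm, if D0 < D then 1 / (D : ℝ) ^ 2 else 0) * C ≤ ε / 16 := by
      have := mul_le_mul_of_nonneg_right (tail D0 Dm hD0n) hC.le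
      refine this.trans (le_trans (le_of_eq ?_) hCD)
      ring
    have q3 : (∑ D ∈ Finset.Icc 1 Dm, if E < D then 1 / (D : ℝ) ^ 2 else 0) *
        (N ^ (1 / 8 : ℝ) * T) ≤ ε / 16 := by
      have := mul_le_mul_of_nonneg_right (tail E Dm hEn)
        (show 0 ≤ N ^ (1 / 8 : ℝ) * T by positivity)
      refine this.trans ?_
      have h1 : (1 : ℝ) / E ≤ 2 / N ^ (1 / 4 : ℝ) := by
        rw [div_le_div_iff₀ hE0 (by positivity)]
        linarith
      have h2 : N ^ (1 / 8 : ℝ) * N ^ (1 / 8 : ℝ) = N ^ (1 / 4 : ℝ) := by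
        rw [← Real.rpow_add hNp]
        norm_num
      have h3 : (0 : ℝ) < N ^ (1 / 8 : ℝ) := by positivity
      calc 1 / (E : ℝ) * (N ^ (1 / 8 : ℝ) * T) ≤
            2 / N ^ (1 / 4 : ℝ) * (N ^ (1 / 8 : ℝ) * T) :=
            mul_le_mul_of_nonneg_right h1 (by positivity)
        _ = 2 * T / N ^ (1 / 8 : ℝ) := by
            rw [← h2]
            field_simp
        _ ≤ ε / 16 := by
            rw [div_le_div_iff₀ h3 (by norm_num)]
            rw [div_le_iff₀ hε] at g4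
            linarith
    linarith
  -- all together
  have e1 : ∀ (F : Fq Δ → ℝ), ∑ f ∈ U, F f = ∑ j ∈ J, ∑ k, F ⟨j, k⟩ := by
    intro F
    rw [hUd, Finset.sum_sigma]
  have e2 : ∀ D : ℕ, S D = ∑ j ∈ J, ∑ ib,
      ‖VAh Δ (wD w D) r1 r2 (N / (D : ℝ) ^ 2) j ib‖ ^ 2 := by
    intro D
    rw [hS]
    simp only []
    rw [e1]
    exact Finset.sum_congr rfl fun j _ => (hPar (wD w D) r1 r2 (N / (D : ℝ) ^ 2) j).2.2.1
  calc ∑ f ∈ U0, ‖Mph w r1 r2 N f‖ ^ 2 ≤ ∑ f ∈ U, ‖Mph w r1 r2 N f‖ ^ 2 :=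
        Finset.sum_le_sum_of_subset_of_nonneg hUsub fun _ _ _ => by positivity
    _ = ∑ j ∈ J, ∑ ia, ‖VPh Δ w r1 r2 N j ia‖ ^ 2 := by
        rw [e1]
        exact Finset.sum_congr rfl fun j _ => (hPar w r1 r2 N j).2.2.2
    _ ≤ ∑ j ∈ J, 2 * n ^ 2 * ∑ D ∈ Finset.Icc 1 Dm, (1 / (D : ℝ) ^ 2) *
        ∑ ib, ‖VAh Δ (wD w D) r1 r2 (N / (D : ℝ) ^ 2) j ib‖ ^ 2 :=
        Finset.sum_le_sum fun j _ => one_freq w r1 r2 N j hNp Dm hDle
    _ = 2 * n ^ 2 * ∑ D ∈ Finset.Icc 1 Dm, (1 / (D : ℝ) ^ 2) * S D := by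
        rw [← Finset.mul_sum, Finset.sum_comm]
        congr 1
        refine Finset.sum_congr rfl fun D _ => ?_
        rw [e2, Finset.mul_sum]
    _ ≤ 2 * n ^ 2 * (ε / 2) := mul_le_mul_of_nonneg_left hsum (by positivity)
    _ = ε0 := by
        rw [hεd]
        field_simp

end Pool.Agent.Lib.MP_a17b09_nt.PQH
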