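import Pool.Agent.Lib.MP_a17b09_nt.PQH.Stmts99
import Pool.Agent.Lib.MP_a17b09_nt.PQ.N3_11
import Pool.Agent.Lib.MP_a17b09_nt.HY.Cnt84

/-!
Project PQH, (N3): the weights are multiplicative outside sets of density zero (helper7, fork of
PQ/N3_11).
-/

set_option autoImplicit false

open Filter Topology Finset

namespace Pool.Agent.Lib.MP_a17b09_nt.PQH

open CH CH.PE HY HY.S68 MRH
open PQ (B1 Wy gw gcw Win WinN bb bN rho wz1 wr StSchW StWinS StRho TwW CW MPQ)

namespace N3h7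

theorem main (hN : ∀ d, StNullH d) {ι : Type} [Fintype ι] (S : HSystem ι) {δ : ℝ} (h0 : 0 < δ)
    (h1 : δ < 1 / 2) (z : ℂ) (w : ℕ → ℂ)
    (hw : ∀ p m : ℕ, p.Prime → 0 < m → (Win (4 * S.d) δ (p * m) ↔ Win (4 * S.d) δ m) →
      w (p * m) = z * w m) : DilHW S z w := by
  classical
  intro p hp _ T hT ε hε
  have key : ∀ i : ι, ∀ᶠ n : ℕ in atTop,
      {v : V | Sec (S.Q i) T v ∧ ((S.Q i).q v : ℝ) ≤ n ∧ w (p * ((S.Q i).q v).natAbs) ≠
        z * w ((S.Q i).q v).natAbs}.Finite ∧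
      ({v : V | Sec (S.Q i) T v ∧ ((S.Q i).q v : ℝ) ≤ n ∧ w (p * ((S.Q i).q v).natAbs) ≠
        z * w ((S.Q i).q v).natAbs}.ncard : ℝ) ≤ ε * n := by
    intro i
    have hQ := S.hyp i
    obtain ⟨C0, hC0, hC, -, -⟩ := stHcnt_84 S.d (S.Q i) hQ T hT 1 one_pos
    have hp1 : (1 : ℝ) ≤ p := by exact_mod_cast hp.one_lt.le
    have hC0' : 0 ≤ C0 := hC0.le
    set η : ℝ := min 1 (ε / (2 * (C0 + 1))) with hη
    have hη0 : 0 < η := lt_min one_pos (by positivity)
    have hη1 : η ≤ 1 := min_le_left _ _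
    have hη2 : C0 * η ≤ ε / 2 := by
      have h2 : η ≤ ε / (2 * (C0 + 1)) := min_le_right _ _
      have h3 : C0 * η ≤ (C0 + 1) * (ε / (2 * (C0 + 1))) := by
        refine mul_le_mul (by linarith) h2 hη0.le (by linarith)
      have h4 : (C0 + 1) * (ε / (2 * (C0 + 1))) = ε / 2 := by
        field_simp
      linarith
    set C : ℝ := 1 / η + p + 1 with hCdef
    have hηi : 0 < 1 / η := by positivity
    have hC1 : 1 < C := by rw [hCdef]; linarith
    have hθ1 : 0 < 1 - δ := by linarith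
    obtain ⟨N1, hN1⟩ := hN S.d (S.Q i) hQ T hT (1 - δ) C hθ1 (by linarith) hC1 (ε / 4)
      (by positivity)
    obtain ⟨N2, hN2⟩ := hN S.d (S.Q i) hQ T hT (1 - δ / 2) C (by linarith) (by linarith) hC1
      (ε / 4) (by positivity)
    filter_upwards [eventually_ge_atTop N1, eventually_ge_atTop N2,
      eventually_ge_atTop (⌈(p : ℝ) / η⌉₊ + 1)] with n hn1 hn2 hn3
    have hA1 := hN1 n hn1
    have hA2 := hN2 n hn2
    have hn0' : 0 < n := by omega
    have hn0 : (0 : ℝ) < n := by exact_mod_cast hn0'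
    have hn1' : (1 : ℝ) ≤ n := by exact_mod_cast hn0'
    have hnp : (p : ℝ) ≤ η * n := by
      have h2 : (p : ℝ) / η ≤ n := by
        refine (Nat.le_ceil _).trans ?_
        exact_mod_cast (by omega : ⌈(p : ℝ) / η⌉₊ ≤ n)
      rw [div_le_iff₀ hη0] at h2
      linarith
    set A1 := {v : V | Sec (S.Q i) T v ∧ ((S.Q i).q v : ℝ) ≤ n ∧ ∃ p : ℕ, p.Prime ∧
      p ≡ 1 [MOD 4 * S.d] ∧ p ∣ ((S.Q i).q v).natAbs ∧ (n : ℝ) ^ (1 - δ) / C < p ∧
      (p : ℝ) ≤ C * (n : ℝ) ^ (1 - δ)} with hA1d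
    set A2 := {v : V | Sec (S.Q i) T v ∧ ((S.Q i).q v : ℝ) ≤ n ∧ ∃ p : ℕ, p.Prime ∧
      p ≡ 1 [MOD 4 * S.d] ∧ p ∣ ((S.Q i).q v).natAbs ∧ (n : ℝ) ^ (1 - δ / 2) / C < p ∧
      (p : ℝ) ≤ C * (n : ℝ) ^ (1 - δ / 2)} with hA2d
    set A0 := {v : V | Sec (S.Q i) T v ∧ ((S.Q i).q v : ℝ) ≤ η * n} with hA0d
    have hA0 := hC (η * n) (by linarith)
    have hsub : {v : V | Sec (S.Q i) T v ∧ ((S.Q i).q v : ℝ) ≤ n ∧
        w (p * ((S.Q i).q v).natAbs) ≠ z * w ((S.Q i).q v).natAbs} ⊆ A0 ∪ (A1 ∪ A2) := by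
      rintro v ⟨hsec, hqn, hvw⟩
      have hqpos := hsec.1.q_pos hQ
      set m : ℕ := ((S.Q i).q v).natAbs with hm
      have hmq : (m : ℤ) = (S.Q i).q v := by
        rw [hm]; exact Int.natAbs_of_nonneg hqpos.le
      have hmqr : (m : ℝ) = ((S.Q i).q v : ℝ) := by exact_mod_cast hmq
      have hm0 : 0 < m := by omega
      rw [Set.mem_union, Set.mem_union]
      by_cases hsm : (m : ℝ) ≤ η * n
      · left
        exact ⟨hsec, by rw [← hmqr]; exact hsm⟩
      · right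
        push Not at hsm
        have hpm : p ≤ m := by
          have : (p : ℝ) ≤ m := by linarith
          exact_mod_cast this
        have hiff : ¬ (Win (4 * S.d) δ (p * m) ↔ Win (4 * S.d) δ m) := fun h2 =>
          hvw (hw p m hp hm0 h2)
        obtain ⟨θ, hθ, r, hr, hr1, hrm, ha, hb⟩ := PQ.N3.win_diff h0 h1 hp hpm hiff
        have hθ0 : 0 < θ := by rcases hθ with h2 | h2 <;> rw [h2] <;> linarith
        have hθ1 : θ ≤ 1 := by rcases hθ with h2 | h2 <;> rw [h2] <;> linarith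
        have hnθ : 0 < (n : ℝ) ^ θ := Real.rpow_pos_of_pos hn0 θ
        have hlow : (n : ℝ) ^ θ / C < r := by
          have h2 : (η * n) ^ θ ≤ (m : ℝ) ^ θ :=
            Real.rpow_le_rpow (by positivity) hsm.le hθ0.le
          rw [Real.mul_rpow hη0.le hn0.le] at h2
          have h3 : η ≤ η ^ θ := by
            calc η = η ^ (1 : ℝ) := (Real.rpow_one η).symm
              _ ≤ η ^ θ := Real.rpow_le_rpow_of_exponent_ge hη0 hη1 hθ1
          have h4 : 1 / C ≤ η := by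
            rw [div_le_iff₀ (by linarith)]
            have h5 : η * (1 / η) = 1 := by field_simp
            have h6 : 0 ≤ η * (p + 1) := by positivity
            rw [hCdef]
            nlinarith
          calc (n : ℝ) ^ θ / C = (1 / C) * (n : ℝ) ^ θ := by ring
            _ ≤ η ^ θ * (n : ℝ) ^ θ := mul_le_mul_of_nonneg_right (h4.trans h3) hnθ.le
            _ ≤ (m : ℝ) ^ θ := h2
            _ < r := ha
        have hup : (r : ℝ) ≤ C * (n : ℝ) ^ θ := by
          have hmr : (m : ℝ) ≤ n := by rw [hmqr]; exact hqn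
          calc (r : ℝ) ≤ ((p : ℝ) * m) ^ θ := hb
            _ ≤ ((p : ℝ) * n) ^ θ := by
                refine Real.rpow_le_rpow (by positivity) ?_ hθ0.le
                exact mul_le_mul_of_nonneg_left hmr (by positivity)
            _ = (p : ℝ) ^ θ * (n : ℝ) ^ θ := Real.mul_rpow (by positivity) hn0.le
            _ ≤ C * (n : ℝ) ^ θ := by
                refine mul_le_mul_of_nonneg_right ?_ hnθ.le
                have h2 : (p : ℝ) ^ θ ≤ p := by
                  calc (p : ℝ) ^ θ ≤ (p : ℝ) ^ (1 : ℝ) :=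
                        Real.rpow_le_rpow_of_exponent_le hp1 hθ1
                    _ = p := Real.rpow_one _
                rw [hCdef]
                linarith
        rcases hθ with h2 | h2
        · left
          rw [h2] at hlow hup
          exact ⟨hsec, hqn, r, hr, hr1, hrm, hlow, hup⟩
        · right
          rw [h2] at hlow hup
          exact ⟨hsec, hqn, r, hr, hr1, hrm, hlow, hup⟩
    have hfinU : (A0 ∪ (A1 ∪ A2)).Finite := hA0.1.union (hA1.1.union hA2.1)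
    refine ⟨hfinU.subset hsub, ?_⟩
    have hcard := Set.ncard_le_ncard hsub hfinU
    have hu1 := Set.ncard_union_le A0 (A1 ∪ A2)
    have hu2 := Set.ncard_union_le A1 A2
    have hfin : ({v : V | Sec (S.Q i) T v ∧ ((S.Q i).q v : ℝ) ≤ n ∧
        w (p * ((S.Q i).q v).natAbs) ≠ z * w ((S.Q i).q v).natAbs}.ncard : ℝ) ≤
        (A0.ncard : ℝ) + ((A1.ncard : ℝ) + A2.ncard) := by
      exact_mod_cast hcard.trans (hu1.trans (by omega))
    have hB : (A0.ncard : ℝ) ≤ ε / 2 * n := by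
      calc (A0.ncard : ℝ) ≤ C0 * (η * n) := hA0.2
        _ = C0 * η * n := by ring
        _ ≤ ε / 2 * n := mul_le_mul_of_nonneg_right hη2 hn0.le
    linarith [hA1.2, hA2.2]
  obtain ⟨n0, hn0⟩ := Filter.eventually_atTop.1 (Filter.eventually_all.2 key)
  exact ⟨n0, fun n hn i => hn0 n hn i⟩

end N3h7

theorem stDilNH_7 (hN : ∀ d, StNullH d) : StDilNH := by
  intro ι _ S δ h0 h1
  refine ⟨fun z _ => ?_, ?_, ?_⟩
  · refine N3h7.main hN S h0 h1 z _ fun p m hp hm h => ?_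
    unfold wz1 Omn
    rw [PQ.N3.bb_eq h, ArithmeticFunction.cardFactors_mul hp.ne_zero hm.ne',
      ArithmeticFunction.cardFactors_apply_prime hp]
    ring
  · refine N3h7.main hN S h0 h1 1 _ fun p m hp hm h => ?_
    unfold wr
    rw [PQ.N3.bb_eq h, one_mul]
  · exact N3h7.main hN S h0 h1 1 _ fun p m hp hm h => by simp

end Pool.Agent.Lib.MP_a17b09_nt.PQH
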