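import Pool.Agent.Lib.MP_a17b09_nt.PQH.T3_64
import Pool.Agent.Lib.MP_a17b09_nt.PQ.T2_20

/-!
Project PQH, T2 (helper64, fork of PQ/T2_20): the twisted sums with the two windows vanish in mean,
positive nonsquare discriminant, from the rows M10, N2, N3, F4, F5, F6, E2, E4, T1 and the count
`StHMainS` (for the boundedness).
-/

set_option autoImplicit false

open Filter Topology Finset

namespace Pool.Agent.Lib.MP_a17b09_nt.PQH

open CH CH.PE HY HY.S68 MRH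
open PQ (B1 Wy gw gcw Win WinN bb bN rho wz1 wr StSchW StWinS StRho TwW CW MPQ)
open PQ.T20 (b1_one b1_bb b1_wz1 b1_wr wz1_one fin_wz1 fin_wr fin_one TwW_le split)

namespace T2H64

/-- the twisted sums of two weights, one of them with small mean squares -/
theorem tw (hEs : StEsHW) (hAm : StAmHW) (hTw : StTwHW) {a b c : ℤ} (ha : 0 < a) {d : ℕ}
    (hd : b ^ 2 - 4 * a * c = d) (hns : ¬ IsSquare d) {z1 z2 : ℂ} (hz1 : ‖z1‖ = 1) (hz2 : ‖z2‖ = 1) {w1 w2 : ℕ → ℂ}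
    (h1 : B1 w1) (h2 : B1 w2) (f1 : (Set.range w1).Finite) (f2 : (Set.range w2).Finite)
    (hd1 : ∀ (ι : Type) [Fintype ι] (S : HSystem ι), S.d = d → DilHW S z1 w1)
    (hd2 : ∀ (ι : Type) [Fintype ι] (S : HSystem ι), S.d = d → DilHW S z2 w2)
    (hM : (∀ Q : Form, Hyp d Q → ∀ K : ℕ, 0 < K → ∀ e : Pell.Solution₁ (d : ℤ), PP e → PK K e →
        HMrsQw Q (per e) w1 K) ∨
      (∀ Q : Form, Hyp d Q → ∀ K : ℕ, 0 < K → ∀ e : Pell.Solution₁ (d : ℤ), PP e → PK K e →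
        HMrsQw Q (per e) w2 K))
    {h : ℕ} (hh : 0 < h) (t0 : ℕ) {α β : ℝ} (hα : 0 < α) (hαβ : α < β) (M : LMean) :
    M.E (fun N : ℕ => ‖TwW a b c α β h t0 w1 w2 N‖ / N) = 0 := by
  refine hTw a b c ha d hd hns w1 w2 h1 h2 M ?_ h hh t0 α β hα hαβ
  intro ι _ S hSd K hK om hom e he
  subst hSd
  refine hAm ι S z1 z2 w1 w2 hz1 hz2 h1 h2 f1 f2 (hd1 ι S rfl) (hd2 ι S rfl) ?_ K hK om hom e he
    M
  refine hEs ι S w1 w2 h1 h2 ?_
  rcases hM with hM | hM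
  · exact Or.inl fun i K hK e he hk => hM (S.Q i) (S.hyp i) K hK e he hk
  · exact Or.inr fun i K hK e he hk => hM (S.Q i) (S.hyp i) K hK e he hk

end T2H64

open T2H64 in
/-- (T2) -/
theorem stTwBH_64 (hMrs : ∀ d : ℕ, ¬ IsSquare d → StMrsHw d)
    (hApx : ∀ d : ℕ, ¬ IsSquare d → StApxH d) (hDil : StDilNH)
    (hFrR : ∀ d : ℕ, ¬ IsSquare d → StFrRH d) (hFrZ : ∀ d : ℕ, ¬ IsSquare d → StFrZH d)
    (hEs : StEsHW) (hAm : StAmHW) (hTw : StTwHW) (hRho : StRho) (hMain : StHMainS) :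
    StTwBH := by
  intro a b c ha d hd hns δ hδ0 hδ1 h hh t0 α β hα hαβ M
  have hd0 : 0 < d := by
    rcases Nat.eq_zero_or_pos d with h0 | h0
    · exact absurd ⟨0, by rw [h0]⟩ hns
    · exact h0
  obtain ⟨q, hqd⟩ : ∃ q : ℕ, q = 4 * d := ⟨_, rfl⟩
  have hq0 : 0 < q := by omega
  rw [← hqd]
  have hSq : ∀ (ι : Type) [Fintype ι] (S : HSystem ι), S.d = d → 4 * S.d = q := by
    intro ι _ S hS
    rw [hS, hqd]
  obtain ⟨hρ0, hρ1⟩ := hRho q hq0 δ hδ0 hδ1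
  obtain ⟨hA1, hA2⟩ := hApx d hns δ hδ0 hδ1
  rw [← hqd] at hA1 hA2
  have hFR : Fr0H d (wr q δ) := by
    rw [hqd]
    exact hFrR d hns δ hδ0 hδ1
  -- mean squares
  have hMz : ∀ (z : ℂ) (k : ℕ), 0 < k → z ^ k = 1 → z ≠ 1 →
      ∀ Q : Form, Hyp d Q → ∀ K : ℕ, 0 < K → ∀ e : Pell.Solution₁ (d : ℤ), PP e → PK K e →
        HMrsQw Q (per e) (wz1 z q δ) K := by
    intro z k hk hz hz1 Q hQ K hK e he hke
    have hzn : ‖z‖ = 1 := Complex.norm_eq_one_of_pow_eq_one hz hk.ne'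
    have hFZ : Fr0H d (wz1 z q δ) := by
      rw [hqd]
      exact hFrZ d hns δ hδ0 hδ1 z k hk hz hz1
    exact hMrs d hns z hzn (1 / 4) (by norm_num) (wz1 z q δ) (b1_wz1 hzn q δ) (hA1 z hzn) hFZ Q hQ
      K hK e he hke
  have hMr : ∀ Q : Form, Hyp d Q → ∀ K : ℕ, 0 < K → ∀ e : Pell.Solution₁ (d : ℤ), PP e →
      PK K e → HMrsQw Q (per e) (wr q δ) K := by
    intro Q hQ K hK e he hke
    exact hMrs d hns 1 norm_one (1 / 4) (by norm_num) (wr q δ) (b1_wr hρ0 hρ1) hA2 hFR Q hQ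
      K hK e he hke
  -- dilations
  have hDz : ∀ z : ℂ, ‖z‖ = 1 → ∀ (ι : Type) [Fintype ι] (S : HSystem ι),
      S.d = d → DilHW S z (wz1 z q δ) := by
    intro z hz ι _ S hS
    have h1 := (hDil ι S δ hδ0 hδ1).1 z hz
    rwa [hSq ι S hS] at h1
  have hDr : ∀ (ι : Type) [Fintype ι] (S : HSystem ι),
      S.d = d → DilHW S 1 (wr q δ) := by
    intro ι _ S hS
    have h1 := (hDil ι S δ hδ0 hδ1).2.1
    rwa [hSq ι S hS] at h1
  have hDb : ∀ (ι : Type) [Fintype ι] (S : HSystem ι),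
      S.d = d → DilHW S 1 (bb q δ) := by
    intro ι _ S hS
    have h1 := hDz 1 norm_one ι S hS
    rwa [wz1_one] at h1
  refine ⟨?_, ?_⟩
  · intro z1 z2 k hk h1 h2 h12
    have hn1 : ‖z1‖ = 1 := Complex.norm_eq_one_of_pow_eq_one h1 hk.ne'
    have hn2 : ‖z2‖ = 1 := Complex.norm_eq_one_of_pow_eq_one h2 hk.ne'
    refine tw hEs hAm hTw ha hd hns hn1 hn2 (b1_wz1 hn1 q δ) (b1_wz1 hn2 q δ) (fin_wz1 hk h1 q δ)
      (fin_wz1 hk h2 q δ) (hDz z1 hn1) (hDz z2 hn2) ?_ hh t0 hα hαβ M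
    rcases h12 with h12 | h12
    · exact Or.inl (hMz z1 k hk h1 h12)
    · exact Or.inr (hMz z2 k hk h2 h12)
  · have e1 : M.E (fun N : ℕ => ‖TwW a b c α β h t0 (wr q δ) (bb q δ) N‖ / N) = 0 :=
      tw hEs hAm hTw ha hd hns norm_one norm_one (b1_wr hρ0 hρ1) (b1_bb q δ) (fin_wr q δ)
        (by rw [← wz1_one]; exact fin_wz1 one_pos (one_pow 1) q δ) hDr hDb (Or.inl hMr) hh t0 hα
        hαβ M
    have e2 : M.E (fun N : ℕ => ‖TwW a b c α β h t0 (fun _ => 1) (wr q δ) N‖ / N) = 0 :=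
      tw hEs hAm hTw ha hd hns norm_one norm_one b1_one (b1_wr hρ0 hρ1) fin_one (fin_wr q δ)
        (fun ι _ S _ => (hDil ι S δ hδ0 hδ1).2.2) hDr (Or.inr hMr) hh t0 hα hαβ M
    obtain ⟨κ, -, hlim⟩ := hMain a b c ha d hd hns h hh t0 α β hα hαβ
    obtain ⟨C, hC0, hC⟩ := PQ.T64.lin_of_lim hlim
    have b1 : Bdd (fun N : ℕ => ‖TwW a b c α β h t0 (wr q δ) (bb q δ) N‖ / N) :=
      PQ.T64.bdd_of_le hC0 (fun N => norm_nonneg _) fun N =>
        (TwW_le a b c α β h t0 (b1_wr hρ0 hρ1) (b1_bb q δ) N).trans (hC N)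
    have b2 : Bdd (fun N : ℕ => ‖TwW a b c α β h t0 (fun _ => 1) (wr q δ) N‖ / N) :=
      PQ.T64.bdd_of_le hC0 (fun N => norm_nonneg _) fun N =>
        (TwW_le a b c α β h t0 b1_one (b1_wr hρ0 hρ1) N).trans (hC N)
    have hle : ∀ N : ℕ, ‖TwW a b c α β h t0 (bb q δ) (bb q δ) N - (rho q δ : ℂ) ^ 2 *
        TwW a b c α β h t0 (fun _ => 1) (fun _ => 1) N‖ / N ≤
        ‖TwW a b c α β h t0 (wr q δ) (bb q δ) N‖ / N + rho q δ *
          (‖TwW a b c α β h t0 (fun _ => 1) (wr q δ) N‖ / N) := by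
      intro N
      rw [split, mul_div_assoc', ← add_div]
      refine div_le_div_of_nonneg_right ((norm_add_le _ _).trans ?_) (Nat.cast_nonneg N)
      rw [norm_mul, Complex.norm_real, Real.norm_eq_abs, abs_of_pos hρ0]
    have b3 : Bdd (fun N : ℕ => ‖TwW a b c α β h t0 (bb q δ) (bb q δ) N - (rho q δ : ℂ) ^ 2 *
        TwW a b c α β h t0 (fun _ => 1) (fun _ => 1) N‖ / N) := by
      obtain ⟨B, hB⟩ := b1.add (b2.smul (rho q δ))
      refine ⟨B, fun N => ?_⟩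
      rw [abs_of_nonneg (by positivity)]
      exact (hle N).trans ((le_abs_self _).trans (hB N))
    apply le_antisymm
    · refine (LMean.mono M b3 (b1.add (b2.smul (rho q δ))) hle).trans ?_
      rw [M.add _ _ b1 (b2.smul (rho q δ)), M.smul _ _ b2, e1, e2, mul_zero, add_zero]
    · exact M.nonneg _ b3 fun N => by positivity

end Pool.Agent.Lib.MP_a17b09_nt.PQH
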