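import Pool.Agent.Lib.MP_a17b09_nt.PQH.Stmts99
import Pool.Agent.Lib.MP_a17b09_nt.PQ.T3_64

/-!
Project PQH, module T3 (helper64): the count of the pairs with both windows and prescribed classes,
from the twisted sums (Fourier inversion), positive nonsquare discriminant.
-/

set_option autoImplicit false

open Filter Topology Finset

namespace Pool.Agent.Lib.MP_a17b09_nt.PQH

open CH CH.PE HY
open PQ (B1 Wy gw gcw Win WinN bb bN rho wz1 wr TwW CW)

open PQ.T64 in
/-- (T3) the count -/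
theorem stFinHW_64 (hTw : StTwBH) : StFinHW := by
  intro a b c ha d hd hns δ hδ0 hδ1 h hh t0 α β hα hαβ κ hκ hlim k hk r s M
  obtain ⟨hZ, hB⟩ := hTw a b c ha d hd hns δ hδ0 hδ1 h hh t0 α β hα hαβ M
  generalize hqd : 4 * d = q at hZ hB ⊢
  obtain ⟨C, hC0, hC⟩ := lin_of_lim hlim
  set T : ℕ → Finset ℕ := fun N => (Finset.Icc 1 N).filter (fun t => t ≡ t0 [MOD h]) with hT
  set tot : ℕ → ℕ := fun N => ∑ t ∈ T N, (NW a b c α β q δ t).card with htot
  have htotC : ∀ N : ℕ, (tot N : ℝ) ≤ C * N := fun N =>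
    le_trans (by exact_mod_cast NW_le a b c α β h t0 q δ N) (hC N)
  have hle : ∀ r s N : ℕ, CW a b c α β h t0 q δ k r s N ≤ tot N := by
    intro r s N
    rw [CW_eq]
    exact Finset.sum_le_sum fun t _ => Finset.card_filter_le _ _
  have hbC : ∀ r s : ℕ, Bdd (fun N : ℕ => (CW a b c α β h t0 q δ k r s N : ℝ) / N) := by
    intro r s
    refine bdd_of_le hC0 (fun N => Nat.cast_nonneg _) fun N => ?_
    exact le_trans (by exact_mod_cast hle r s N) (htotC N)
  have hbT : Bdd (fun N : ℕ => (tot N : ℝ) / N) :=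
    bdd_of_le hC0 (fun N => Nat.cast_nonneg _) htotC
  have hbS : Bdd (fun N : ℕ => (CST a b c α β h t0 1 0 0 N : ℝ) / N) :=
    bdd_of_le hC0 (fun N => Nat.cast_nonneg _) hC
  -- the total
  have hT0 : M.E (fun N : ℕ => |(tot N : ℝ) / N - rho q δ ^ 2 * κ|) = 0 := by
    have b1 : Bdd (fun N : ℕ => |(tot N : ℝ) / N - rho q δ ^ 2 *
        ((CST a b c α β h t0 1 0 0 N : ℝ) / N)|) := (hbT.sub (hbS.smul _)).abs
    have b2 : Bdd (fun N : ℕ => |(CST a b c α β h t0 1 0 0 N : ℝ) / N - κ|) :=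
      (hbS.sub (Bdd.const κ)).abs
    have e1 : M.E (fun N : ℕ => |(tot N : ℝ) / N - rho q δ ^ 2 *
        ((CST a b c α β h t0 1 0 0 N : ℝ) / N)|) = 0 := by
      refine Eq.trans ?_ hB
      congr 1
      funext N
      rw [TwW_bb, TwW_one]
      have e2 : ((((∑ t ∈ (Finset.Icc 1 N).filter (fun t => t ≡ t0 [MOD h]),
          (NW a b c α β q δ t).card : ℕ) : ℝ) : ℂ) - (rho q δ : ℂ) ^ 2 *
          ((CST a b c α β h t0 1 0 0 N : ℝ) : ℂ)) =
          (((tot N : ℝ) - rho q δ ^ 2 * (CST a b c α β h t0 1 0 0 N : ℝ) : ℝ) : ℂ) := by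
        simp only [htot, hT]
        push_cast
        ring
      rw [e2, Complex.norm_real, Real.norm_eq_abs, mul_div_assoc', ← sub_div, abs_div,
        Nat.abs_cast]
    have e3 : M.E (fun N : ℕ => |(CST a b c α β h t0 1 0 0 N : ℝ) / N - κ|) = 0 := by
      apply M.null _ b2
      have h1 := (hlim.sub_const κ).abs
      simpa using h1
    refine le_antisymm ?_ (M.nonneg _ (hbT.sub (Bdd.const _)).abs fun N => abs_nonneg _)
    calc M.E (fun N : ℕ => |(tot N : ℝ) / N - rho q δ ^ 2 * κ|) ≤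
        M.E (fun N : ℕ => |(tot N : ℝ) / N - rho q δ ^ 2 *
          ((CST a b c α β h t0 1 0 0 N : ℝ) / N)| + rho q δ ^ 2 *
          |(CST a b c α β h t0 1 0 0 N : ℝ) / N - κ|) := by
          refine M.mono (hbT.sub (Bdd.const _)).abs (b1.add (b2.smul _)) fun N => ?_
          have e4 : (tot N : ℝ) / N - rho q δ ^ 2 * κ = ((tot N : ℝ) / N - rho q δ ^ 2 *
              ((CST a b c α β h t0 1 0 0 N : ℝ) / N)) + rho q δ ^ 2 *
              ((CST a b c α β h t0 1 0 0 N : ℝ) / N - κ) := by ring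
          rw [e4]
          refine (abs_add_le _ _).trans (add_le_add le_rfl ?_)
          rw [abs_mul, abs_of_nonneg (sq_nonneg (rho q δ))]
      _ = 0 := by
          rw [M.add _ _ b1 (b2.smul _), M.smul _ _ b2, e1, e3, mul_zero, add_zero]
  -- the shares
  have hsh := shareM M (range k ×ˢ range k)
    (fun p N => (CW a b c α β h t0 q δ k p.1 p.2 N : ℝ)) (fun p _ => hbC p.1 p.2)
    (fun p _ p' _ => by
      have h1 := TopJ90.inv2 M k hk T (NW a b c α β q δ) (fun _ d => Omn d)
        (fun t d => Omn ((fv a b c t).natAbs / d)) ⟨C, htotC⟩ (fun z1 z2 h1 h2 h3 => by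
          have hn2 : ‖z2‖ = 1 := Complex.norm_eq_one_of_pow_eq_one h2 hk.ne'
          refine Eq.trans ?_ (hZ z1 z2 k hk h1 h2 h3)
          congr 1
          funext N
          rw [TwW_eq ha, norm_mul, norm_pow, hn2, one_pow, one_mul]) p.1 p.2 p'.1 p'.2
      refine Eq.trans ?_ h1
      congr 1
      funext N
      rw [CW_eq, CW_eq])
    (κ := rho q δ ^ 2 * κ) (by
      refine Eq.trans ?_ hT0
      congr 1
      funext N
      have h1 := NW_sum a b c α β h t0 q δ hk N
      have h2 : (∑ p ∈ range k ×ˢ range k, (CW a b c α β h t0 q δ k p.1 p.2 N : ℝ)) =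
          (tot N : ℝ) := by
        rw [htot]
        beta_reduce
        rw [← h1]
        push_cast
        rfl
      rw [h2]) (r % k, s % k) (by
      rw [Finset.mem_product, Finset.mem_range, Finset.mem_range]
      exact ⟨Nat.mod_lt _ hk, Nat.mod_lt _ hk⟩)
  have hcard : ((range k ×ˢ range k).card : ℝ) = (k : ℝ) ^ 2 := by
    rw [Finset.card_product, Finset.card_range]
    push_cast
    ring
  rw [hcard] at hsh
  refine Eq.trans ?_ hsh
  congr 1
  funext N
  have h3 : CW a b c α β h t0 q δ k r s N = CW a b c α β h t0 q δ k (r % k) (s % k) N := by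
    rw [CW_eq, CW_eq]
    refine Finset.sum_congr rfl fun t _ => ?_
    congr 1
    apply Finset.filter_congr
    intro d _
    unfold Nat.ModEq
    rw [Nat.mod_mod, Nat.mod_mod]
  rw [h3]

end Pool.Agent.Lib.MP_a17b09_nt.PQH
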