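import Pool.Agent.Lib.MP_a17b09_nt.PQH.AmH98
import Pool.Agent.Lib.MP_a17b09_nt.PQH.F5_12
import Pool.Agent.Lib.MP_a17b09_nt.PQH.N1_22
import Pool.Agent.Lib.MP_a17b09_nt.PQH.E1_64
import Pool.Agent.Lib.MP_a17b09_nt.PQH.E2_64
import Pool.Agent.Lib.MP_a17b09_nt.PQH.F4_42
import Pool.Agent.Lib.MP_a17b09_nt.PQH.FreqH12
import Pool.Agent.Lib.MP_a17b09_nt.PQH.M10_7
import Pool.Agent.Lib.MP_a17b09_nt.PQH.M1_22
import Pool.Agent.Lib.MP_a17b09_nt.PQH.M2_21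
import Pool.Agent.Lib.MP_a17b09_nt.PQH.M3_21
import Pool.Agent.Lib.MP_a17b09_nt.PQH.M4_38
import Pool.Agent.Lib.MP_a17b09_nt.PQH.M5_12
import Pool.Agent.Lib.MP_a17b09_nt.PQH.M6_39
import Pool.Agent.Lib.MP_a17b09_nt.PQH.M7_9
import Pool.Agent.Lib.MP_a17b09_nt.PQH.M8_12
import Pool.Agent.Lib.MP_a17b09_nt.PQH.M9_39
import Pool.Agent.Lib.MP_a17b09_nt.PQH.N2_11
import Pool.Agent.Lib.MP_a17b09_nt.PQH.N3_7
import Pool.Agent.Lib.MP_a17b09_nt.PQH.T1_99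
import Pool.Agent.Lib.MP_a17b09_nt.PQH.T2_64
import Pool.Agent.Lib.MP_a17b09_nt.PQH.T3_64
import Pool.Agent.Lib.MP_a17b09_nt.PQH.T4_64
import Pool.Agent.Lib.MP_a17b09_nt.PQ.M3b_11
import Pool.Agent.Lib.MP_a17b09_nt.PQ.F6_11
import Pool.Agent.Lib.MP_a17b09_nt.PQ.F1_7
import Pool.Agent.Lib.MP_a17b09_nt.MRH.All90
import Pool.Agent.Lib.MP_a17b09_nt.HY.TopH20

/-!
Project PQH: assembly; the only hypothesis is the row `StDilsHW`.
-/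

set_option autoImplicit false

open Filter Topology

namespace Pool.Agent.Lib.MP_a17b09_nt.PQH

open CH CH.PE HY HY.S68 MRH

theorem stLevH_99 (D : Dat) : StLevH D :=
  stLevH_38 PQ.stSchW_11 D (DecH21.stDecH_21 D) (stMomH_21 D (stLsG_22 D))
    (stMom1G_16 D (stLsG_22 D)) (stMerG_7 D)

theorem stUpH_99 (D : Dat) : StUpH D :=
  stUpH_9 D (stUallH_39 D (stTkhH_12 D) (stDjG_40 D)) (stHmuG_96 D) (stParH_22 D)

theorem stCoreH_99 (D : Dat) : StCoreH D := stCoreH_12 D (stLevH_99 D) (stUpH_99 D)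

theorem stSmallH_99 (d : ℕ) : StSmallH d :=
  stSmallH_39 d (fun D _ => stCoreH_99 D) (fun D _ => stLspG_22 D)

theorem stMrsHw_99 (d : ℕ) : StMrsHw d := stMrsHw_7 (stSmallH_99 d) stParH_22

theorem stEsHW_99 : StEsHW := stEsHW_64 stPsiHW_64 TopH20.hRedS TopH20.hC0

theorem stFrRH_99 (d : ℕ) : StFrRH d := by
  refine stFrRH_of d (stNullH_22 d) fun D _ => ?_
  intro r1 r2 hr1 hr12 f hf ε hε
  obtain ⟨X0, hX0, H⟩ := FreqH12.freq_one (D := D) r1 r2 hr1 hr12 f hf ε hε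
  exact ⟨X0, hX0, fun N W hW h1 h2 => H N W (fun p hp => hW p hp true) h1 h2⟩

theorem stFrZH_99 (d : ℕ) : StFrZH d :=
  stFrZH_12 d (fun D _ => stPw0G_all90 D) PQ.stWinS_7 (stNullH_22 d)

theorem stTwBH_99 (hDils : StDilsHW) : StTwBH :=
  stTwBH_64 (fun d _ => stMrsHw_99 d) (fun d _ => stApxH_11 d (stNullH_22 d) PQ.stRho_11)
    (stDilNH_7 stNullH_22) (fun d _ => stFrRH_99 d) (fun d _ => stFrZH_99 d) stEsHW_99
    (stAmHW_98 hDils) stTwHW_99 PQ.stRho_11 TopH20.hMainS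

theorem stEndAH_of (hDils : StDilsHW) : StEndAH :=
  stEndAH_64 (stFinHW_64 (stTwBH_99 hDils)) TopH20.hMainS stMeanU_70 stMean_70 PQ.stRho_11

end Pool.Agent.Lib.MP_a17b09_nt.PQH
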