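import Pool.Agent.Lib.MP_a17b09_nt.PQH.F4_42
import Pool.Agent.Lib.MP_a17b09_nt.PQH.FreqH12

/-!
PQH (MP_a17b09_nt), row F4, closed with the generic frequency `0` of helper12.  helper42.
-/

set_option autoImplicit false

namespace Pool.Agent.Lib.MP_a17b09_nt.PQH

open MRH

theorem freqOne_42 (D : Dat) : F42.FreqOne D := by
  intro r1 r2 hr1 hr12 f hf ε hε
  obtain ⟨X0, h1, h2⟩ := FreqH12.freq_one r1 r2 hr1 hr12 f hf ε hε
  exact ⟨X0, h1, fun N W hW hX hb => h2 N W (fun p hp => hW p hp true) hX hb⟩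

/-- **(F4)** -/
theorem stFrRH_42 (d : ℕ) (hNull : StNullH d) : StFrRH d :=
  stFrRH_of d hNull fun D _ => freqOne_42 D

end Pool.Agent.Lib.MP_a17b09_nt.PQH
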