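import Pool.Agent.Lib.MP_a17b09_nt.PQH.T4_64
import Pool.Agent.Lib.MP_a17b09_nt.PQ.Fin64

/-!
Project PQH: the interfaces `PQ.PairsA` and `PQ.ArgsB` of the text `PQ.finPQ` for positive nonsquare
discriminant and for every nonsquare discriminant (helper64).
-/

set_option autoImplicit false

open Filter Topology

namespace Pool.Agent.Lib.MP_a17b09_nt.PQH

open Pool.Agent.Lib.MP_a17b09_nt.PQ (PairsA ArgsB)

namespace F64H

theorem nat_of {a b c : ℤ} (hD : 0 ≤ b ^ 2 - 4 * a * c) (hns : ¬ IsSquare (b ^ 2 - 4 * a * c)) :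
    ∃ d : ℕ, b ^ 2 - 4 * a * c = d ∧ ¬ IsSquare d := by
  obtain ⟨d, hd⟩ : ∃ d : ℕ, b ^ 2 - 4 * a * c = d := ⟨_, (Int.toNat_of_nonneg hD).symm⟩
  refine ⟨d, hd, ?_⟩
  rintro ⟨s, hs⟩
  apply hns
  refine ⟨s, ?_⟩
  rw [hd, hs]
  push_cast
  ring

/-- positive nonsquare discriminant -/
theorem pairsA_pos (hA : StEndAH) (a b c : ℤ) (ha : 0 < a) (hD : 0 ≤ b ^ 2 - 4 * a * c)
    (hns : ¬ IsSquare (b ^ 2 - 4 * a * c)) (q : ℕ) (hq : (q : ℤ) = 4 * |b ^ 2 - 4 * a * c|)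
    (h t₀ : ℕ) (hh : 0 < h) (α β : ℝ) (hα : 0 < α) (hαβ : α < β) :
    PairsA a b c q h t₀ α β := by
  obtain ⟨d, hd, hnd⟩ := nat_of hD hns
  have hq' : q = 4 * d := by
    rw [hd, Nat.abs_cast] at hq
    exact_mod_cast hq
  subst hq'
  exact hA a b c ha d hd hnd h t₀ hh α β hα hαβ

theorem argsB_pos (hB : StEndBH) (a b c : ℤ) (ha : 0 < a) (hD : 0 ≤ b ^ 2 - 4 * a * c)
    (hns : ¬ IsSquare (b ^ 2 - 4 * a * c)) (h t₀ : ℕ) (hh : 0 < h) : ArgsB a b c h t₀ := by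
  obtain ⟨d, hd, hnd⟩ := nat_of hD hns
  exact hB a b c ha d hd hnd h t₀ hh

/-- every nonsquare discriminant -/
theorem pairsA_all (hN : PQ.StEndA) (hP : StEndAH) (a b c : ℤ) (ha : 0 < a)
    (hns : ¬ IsSquare (b ^ 2 - 4 * a * c)) (q : ℕ) (hq : (q : ℤ) = 4 * |b ^ 2 - 4 * a * c|)
    (h t₀ : ℕ) (hh : 0 < h) (α β : ℝ) (hα : 0 < α) (hαβ : α < β) :
    PairsA a b c q h t₀ α β := by
  rcases lt_or_ge (b ^ 2 - 4 * a * c) 0 with hD | hD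
  · exact PQ.pairsA_of hN a b c ha hD q hq h t₀ hh α β hα hαβ
  · exact pairsA_pos hP a b c ha hD hns q hq h t₀ hh α β hα hαβ

theorem argsB_all (hN : PQ.StEndB) (hP : StEndBH) (a b c : ℤ) (ha : 0 < a)
    (hns : ¬ IsSquare (b ^ 2 - 4 * a * c)) (h t₀ : ℕ) (hh : 0 < h) : ArgsB a b c h t₀ := by
  rcases lt_or_ge (b ^ 2 - 4 * a * c) 0 with hD | hD
  · exact PQ.argsB_of hN a b c ha hD h t₀ hh
  · exact argsB_pos hP a b c ha hD hns h t₀ hh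

end F64H

end Pool.Agent.Lib.MP_a17b09_nt.PQH
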