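import Pool.Agent.Lib.MP_a17b09_nt.MRH.DecJ21
import Pool.Agent.Lib.MP_a17b09_nt.PQH.Stmts99

/-!
PQH (MP_a17b09_nt), row M2: the decomposition by slices, uniform in the weight.  helper21.
-/

set_option autoImplicit false

open Finset

namespace Pool.Agent.Lib.MP_a17b09_nt.PQH.DecH21

open CH CH.PE HY HY.S68 MRH
open MRH.Dec21 (sum_slices q_one counts thin tk lsn p_le pN_le bet dec_abs)
open MRSG.Dec21 (uslN exp_le_iffN bwN wtN bwN_bd bwN_nm ThinG rpow_le_sqrt sqrt_le_div prim_of_app)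
open PQ (Wy gw)

variable {D : Dat}

/-- the weight of the image of a vector -/
theorem gw_appH21 {P : ℕ × Bool} (h : Adm D P) {z : ℂ} {y : ℝ} {w : ℕ → ℂ} (hw : Wy z y w)
    (hPy : (P.1 : ℝ) ≤ y) (i : Cx D) {m : V} (hm : Cn (rp (sg D P i)) m) :
    gw w (rp i) ((Mg D P i).app m) = z * gw w (rp (sg D P i)) m := by
  obtain ⟨-, R⟩ := rel_g h i
  unfold gw
  have hq : (rp (sg D P i)).q m ≠ 0 := (hm.q_pos (rp_hyp _)).ne'
  rw [R.sim, Int.natAbs_mul, Int.natAbs_natCast]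
  exact hw.mul P.1 _ h.1 hPy (Int.natAbs_pos.2 hq)

/-! ### the functions on the vectors -/

open Classical in
/-- the coefficient of a vector -/
noncomputable def fcw (w : ℕ → ℂ) (i : Cx D) (α : ZMod D.K × ZMod D.K) (v : V) : ℂ :=
  if cl D.K v = α then gw w (rp i) v else 0

theorem norm_fcw {w : ℕ → ℂ} (hw : ∀ n, ‖w n‖ ≤ 1) (i : Cx D) (α : ZMod D.K × ZMod D.K) (v : V) :
    ‖fcw w i α v‖ ≤ 1 := by
  unfold fcw
  split_ifs
  · exact hw _
  · rw [norm_zero]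
    exact zero_le_one

theorem fcw_act (w : ℕ → ℂ) (i : Cx D) (α : ZMod D.K × ZMod D.K) (v : V) :
    fcw w i α (act (rp i) D.a v) = fcw w i α v := by
  unfold fcw
  rw [cl_act, gw_act (rp_hyp i)]

/-- the function of the sums -/
noncomputable def Gw (w : ℕ → ℂ) (j : ℤ) (i : Cx D) (α : ZMod D.K × ZMod D.K) (v : V) : ℂ :=
  fcw w i α v * uu i v ^ j

theorem Gw_act (w : ℕ → ℂ) (j : ℤ) (i : Cx D) (α : ZMod D.K × ZMod D.K) {v : V}
    (hv : Cn (rp i) v) : Gw w j i α (act (rp i) D.a v) = Gw w j i α v := by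
  unfold Gw
  rw [fcw_act, uu_act i hv]

theorem VPh_comp (w : ℕ → ℂ) (r1 r2 N : ℝ) (j : ℤ) (i : Cx D) (α : ZMod D.K × ZMod D.K) :
    VPh D w r1 r2 N j (i, α) = (1 / (N : ℂ)) *
      ∑ v ∈ (Shg i (r1 * N) (r2 * N)).filter Prim, Gw w j i α v := by
  classical
  unfold VPh
  rw [vec_apply, Finset.sum_filter, Finset.mul_sum]
  refine Finset.sum_congr rfl fun v _ => ?_
  unfold Gw fcw
  split_ifs <;> ring

/-- the function at the image of a vector -/
theorem Gw_M {P : ℕ × Bool} (hP : Adm D P) {z : ℂ} {y : ℝ} {w : ℕ → ℂ} (hw : Wy z y w)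
    (hPy : (P.1 : ℝ) ≤ y) (j : ℤ) (i : Cx D)
    (α : ZMod D.K × ZMod D.K) {m : V} (hm : Cn (rp (sg D P i)) m) :
    Gw w j i α ((Mg D P i).app m) = z * (uu i ((Mg D P i).app (1, 0)) ^ j *
      Gw w j (sg D P i) (MRSG.ai (Mg D P i) α) m) := by
  unfold Gw fcw
  have h1 : cl D.K ((Mg D P i).app m) = α ↔ cl D.K m = MRSG.ai (Mg D P i) α := by
    rw [MRSG.cl_app']
    constructor
    · intro h2
      rw [← h2, MRSG.ai_az (unit_M hP i)]
    · intro h2
      rw [h2, MRSG.az_ai (unit_M hP i)]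
  rw [uu_M hP i hm, mul_zpow]
  by_cases h2 : cl D.K m = MRSG.ai (Mg D P i) α
  · rw [if_pos h2, if_pos (h1.2 h2), gw_appH21 hP hw hPy i hm]
    ring
  · rw [if_neg h2, if_neg (fun h3 => h2 (h1.1 h3))]
    ring

/-! ### the two kinds of pairs -/

open Classical in
/-- the coefficient of the pairs with `M m` not primitive -/
noncomputable def eW (w : ℕ → ℂ) (h : ℕ) (r1 r2 N : ℝ) (P : ℕ × Bool) (i : Cx D)
    (α : ZMod D.K × ZMod D.K) (v : V) : ℂ :=
  if Prim ((Mg D (P.1, !P.2) (sg D P i)).app v) ∧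
    (r1 * (N * Real.exp (-(uslN h P.1 / h))) / P.1 < ((rp i).q v : ℝ) ∧
      ((rp i).q v : ℝ) ≤ r2 * (N * Real.exp (-(uslN h P.1 / h))) / P.1) then
    ((Real.exp (uslN h P.1 / h) / P.1 : ℝ) : ℂ) * fcw w i α ((P.1 : ℤ) • v) else 0

theorem norm_eW {w : ℕ → ℂ} (hw : ∀ n, ‖w n‖ ≤ 1) {h : ℕ} (hh : 0 < h) {r1 r2 N B : ℝ} (hr2 : 0 < r2)
    (hN : 0 < N) (hB : Real.exp (1 / h) * r2 ≤ B) {P : ℕ × Bool} (hP : Adm D P) (i : Cx D)
    (α : ZMod D.K × ZMod D.K) (v : V) : ‖eW w h r1 r2 N P i α v‖ ≤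
      if (P.1 : ℝ) ^ 2 * ((rp i).q v : ℝ) ≤ B * N then 1 else 0 := by
  have hp0 : (0 : ℝ) < P.1 := by exact_mod_cast hP.1.pos
  unfold eW
  split_ifs with h1 h2 h2
  · rw [norm_mul, Complex.norm_real, Real.norm_of_nonneg (by positivity)]
    calc Real.exp (uslN h P.1 / h) / P.1 * ‖fcw w i α ((P.1 : ℤ) • v)‖ ≤ 1 * 1 :=
          mul_le_mul (wtN hh hP.1.pos).2 (norm_fcw hw _ _ _) (norm_nonneg _) zero_le_one
      _ = 1 := one_mul 1
  · exfalso
    apply h2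
    have h3 := h1.2.2
    rw [le_div_iff₀ hp0] at h3
    calc (P.1 : ℝ) ^ 2 * ((rp i).q v : ℝ) = P.1 * (((rp i).q v : ℝ) * P.1) := by ring
      _ ≤ P.1 * (r2 * (N * Real.exp (-(uslN h P.1 / h)))) :=
          mul_le_mul_of_nonneg_left h3 hp0.le
      _ = r2 * (P.1 * (N * Real.exp (-(uslN h P.1 / h)))) := by ring
      _ ≤ r2 * (Real.exp (1 / h) * N) :=
          mul_le_mul_of_nonneg_left (pN_le hh hP.1.pos hN) hr2.le
      _ = (Real.exp (1 / h) * r2) * N := by ring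
      _ ≤ B * N := mul_le_mul_of_nonneg_right hB hN.le
  · rw [norm_zero]
    exact zero_le_one
  · rw [norm_zero]

open Classical in
/-- the sum over the primitive vectors of the class `sg P i` -/
theorem sum_primW {P : ℕ × Bool} (hP : Adm D P) (w : ℕ → ℂ) (j : ℤ) (i : Cx D)
    (α : ZMod D.K × ZMod D.K) (a b : ℝ) :
    ∑ m ∈ (Shg (sg D P i) a b).filter Prim, Gw w j i α ((Mg D P i).app m) =
      ∑ v ∈ Shg i (P.1 * a) (P.1 * b),
        (if Eig P.1 (rg D P) (rp i) v ∧ Prim v then Gw w j i α v else 0) +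
      ∑ v ∈ Shg i (a / P.1) (b / P.1),
        (if Prim ((Mg D (P.1, !P.2) (sg D P i)).app v) then
          Gw w j i α ((P.1 : ℤ) • v) else 0) := by
  obtain ⟨p, b'⟩ := P
  have hp0 : (0 : ℝ) < (p : ℝ) := by exact_mod_cast hP.1.pos
  have hP' : Adm D (p, !b') := hP
  obtain ⟨-, R⟩ := rel_g hP i
  -- the split
  have hsplit : ∑ m ∈ (Shg (sg D (p, b') i) a b).filter Prim,
      Gw w j i α ((Mg D (p, b') i).app m) =
      ∑ m ∈ Shg (sg D (p, b') i) a b, (if Prim ((Mg D (p, b') i).app m) then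
        Gw w j i α ((Mg D (p, b') i).app m) else 0) +
      ∑ m ∈ (Shg (sg D (p, b') i) a b).filter
        (fun m => Eig p (-rg D (p, b')) (rp (sg D (p, b') i)) m),
        (if Prim m then Gw w j i α ((Mg D (p, b') i).app m) else 0) := by
    rw [Finset.sum_filter, Finset.sum_filter, ← Finset.sum_add_distrib]
    refine Finset.sum_congr rfl fun m _ => ?_
    have h1 := prim_app_iff hP i (w := m)
    simp only at h1
    by_cases h2 : Prim m
    · by_cases h3 : Eig p (-rg D (p, b')) (rp (sg D (p, b') i)) m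
      · have h4 : ¬ Prim ((Mg D (p, b') i).app m) := fun h5 => (h1.1 h5).2 h3
        rw [if_pos h2, if_neg h4, if_pos h3, zero_add]
      · have h4 : Prim ((Mg D (p, b') i).app m) := h1.2 ⟨h2, h3⟩
        rw [if_pos h2, if_pos h4, if_neg h3, add_zero]
    · have h4 : ¬ Prim ((Mg D (p, b') i).app m) := fun h5 => h2 (h1.1 h5).1
      rw [if_neg h2, if_neg h4]
      split_ifs <;> simp
  rw [hsplit]
  congr 1
  · -- primitive images
    have hinv : ∀ v, Cn (rp i) v → (fun v => if Prim v then Gw w j i α v else 0)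
        (act (rp i) D.a v) = (fun v => if Prim v then Gw w j i α v else 0) v := by
      intro v hv
      simp only
      rw [Gw_act w j i α hv]
      simp only [prim_act i v]
    have h1 := sum_eig hP i (p * a) (p * b) (f := fun v => if Prim v then Gw w j i α v else 0)
      hinv
    simp only at h1
    rw [mul_div_cancel_left₀ _ hp0.ne', mul_div_cancel_left₀ _ hp0.ne'] at h1
    rw [Shg_eq, Shg_eq, ← h1, Finset.sum_filter]
    refine Finset.sum_congr rfl fun v _ => ?_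
    by_cases h2 : Eig p (rg D (p, b')) (rp i) v
    · simp only [h2, true_and, if_true]
    · simp only [h2, false_and, if_false]
  · -- the conjugate prime
    have hrg : rg D (p, !b') = -rg D (p, b') := by
      unfold rg
      cases b' <;> simp
    have hinv : ∀ m, Cn (rp (sg D (p, b') i)) m →
        (fun m => if Prim m then Gw w j i α ((Mg D (p, b') i).app m) else 0)
          (act (rp (sg D (p, b') i)) D.a m) =
        (fun m => if Prim m then Gw w j i α ((Mg D (p, b') i).app m) else 0) m := by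
      intro m hm
      simp only
      have h2 := Dils1.sim_act (rp_hyp i) (rp_hyp (sg D (p, b') i)) hP.1.pos R.det R.sim
        (cn_M hP i) D.a m
      rw [h2, Gw_act w j i α ((cn_M hP i m).2 hm)]
      simp only [prim_act (sg D (p, b') i) m]
    have h1 := sum_eig hP' (sg D (p, b') i) a b
      (f := fun m => if Prim m then Gw w j i α ((Mg D (p, b') i).app m) else 0) hinv
    simp only at h1
    rw [hrg] at h1
    rw [Shg_eq, h1]
    have h3 := fun v => Mg_conj hP i v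
    have h4 : sg D (p, !b') (sg D (p, b') i) = i := (h3 0).1
    rw [h4, Shg_eq]
    refine Finset.sum_congr rfl fun v _ => ?_
    rw [(h3 v).2]

open Classical in
/-- the component of the image under `U_P` -/
theorem Ug_compw {P : ℕ × Bool} (hP : Adm D P) {z : ℂ} {y : ℝ} {w : ℕ → ℂ} (hw : Wy z y w)
    (hPy : (P.1 : ℝ) ≤ y) {h : ℕ} (hh : 0 < h) {r1 r2 N B : ℝ}
    (hr2 : 0 < r2) (hN : 0 < N) (hB : Real.exp (1 / h) * r2 ≤ B) (j : ℤ) (i : Cx D)
    (α : ZMod D.K × ZMod D.K) (W : Finset V)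
    (hW : ∀ v, v ∈ W ↔ Sec (rp i) D.T v ∧ Prim v ∧ ((rp i).q v : ℝ) ≤ B * N)
    (hr1 : 0 < r1) :
    (z / (P.1 : ℂ)) * Ug D P j (VPh D w r1 r2 (N * Real.exp (-(uslN h P.1 / h))) j) (i, α) =
      (1 / (N : ℂ)) * (∑ v ∈ W, ((if Eig P.1 (rg D P) (rp i) v then
        bwN h r1 r2 N P.1 (((rp i).q v : ℝ) / P.1) else 0 : ℝ) : ℂ) * (fcw w i α v * uu i v ^ j) +
        ∑ v ∈ W, eW w h r1 r2 N P i α v * uu i v ^ j) := by
  set Nu : ℝ := N * Real.exp (-(uslN h P.1 / h)) with hNu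
  set E : ℝ := Real.exp (uslN h P.1 / h) with hE
  have hNu0 : 0 < Nu := by positivity
  have hp0 : (0 : ℝ) < P.1 := by exact_mod_cast hP.1.pos
  have hpc : (P.1 : ℂ) ≠ 0 := by exact_mod_cast hP.1.ne_zero
  have hpN := pN_le hh hP.1.pos hN
  rw [← hNu] at hpN
  have hpr : P.1 * (r2 * Nu) ≤ B * N := by
    calc P.1 * (r2 * Nu) = r2 * (P.1 * Nu) := by ring
      _ ≤ r2 * (Real.exp (1 / h) * N) := mul_le_mul_of_nonneg_left hpN hr2.le
      _ = (Real.exp (1 / h) * r2) * N := by ring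
      _ ≤ B * N := mul_le_mul_of_nonneg_right hB hN.le
  -- the sum over the primitive vectors
  have e0 : (z / (P.1 : ℂ)) * Ug D P j (VPh D w r1 r2 Nu j) (i, α) =
      (1 / (N : ℂ)) * (((E / P.1 : ℝ) : ℂ) *
        ∑ m ∈ (Shg (sg D P i) (r1 * Nu) (r2 * Nu)).filter Prim,
          Gw w j i α ((Mg D P i).app m)) := by
    have h5 : Real.exp (-(uslN h P.1 / h : ℝ)) * E = 1 := by
      rw [hE, ← Real.exp_add, neg_add_cancel, Real.exp_zero]
    have hN1 : (1 : ℂ) / (Nu : ℂ) = (1 / (N : ℂ)) * (E : ℂ) := by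
      have h6 : (Nu : ℂ) ≠ 0 := by exact_mod_cast hNu0.ne'
      have h7 : (N : ℂ) ≠ 0 := by exact_mod_cast hN.ne'
      have h8 : (N : ℂ) = (Nu : ℂ) * (E : ℂ) := by
        rw [← Complex.ofReal_mul, hNu, mul_assoc, h5, mul_one]
      rw [div_eq_iff h6]
      have h9 : (1 / (N : ℂ)) * (E : ℂ) * (Nu : ℂ) = (1 / (N : ℂ)) * ((Nu : ℂ) * (E : ℂ)) := by
        ring
      rw [h9, ← h8, one_div_mul_cancel h7]
    rw [Ug_apply, VPh_comp, hN1, Complex.ofReal_div, Complex.ofReal_natCast]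
    have h6 : ∀ m ∈ (Shg (sg D P i) (r1 * Nu) (r2 * Nu)).filter Prim,
        Gw w j i α ((Mg D P i).app m) = z * uu i ((Mg D P i).app (1, 0)) ^ j *
          Gw w j (sg D P i) (MRSG.ai (Mg D P i) α) m := by
      intro m hm
      have h7 := (mem_Shg.1 (Finset.mem_filter.1 hm).1).1.1
      rw [Gw_M hP hw hPy j i α h7]
      ring
    rw [Finset.sum_congr rfl h6, ← Finset.mul_sum]
    ring
  rw [e0, sum_primW hP w j i α (r1 * Nu) (r2 * Nu)]
  congr 1
  rw [mul_add]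
  congr 1
  · -- primitive images
    rw [← Finset.sum_filter, Finset.mul_sum]
    have h1 : ∀ v ∈ W, ((if Eig P.1 (rg D P) (rp i) v then
        bwN h r1 r2 N P.1 (((rp i).q v : ℝ) / P.1) else 0 : ℝ) : ℂ) * (fcw w i α v * uu i v ^ j) =
        if Eig P.1 (rg D P) (rp i) v ∧ (r1 * Nu < ((rp i).q v : ℝ) / P.1 ∧
          ((rp i).q v : ℝ) / P.1 ≤ r2 * Nu) then
          ((E / P.1 : ℝ) : ℂ) * Gw w j i α v else 0 := by
      intro v _
      unfold bwN Gw
      by_cases h2 : Eig P.1 (rg D P) (rp i) v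
      · by_cases h3 : r1 * Nu < ((rp i).q v : ℝ) / P.1 ∧ ((rp i).q v : ℝ) / P.1 ≤ r2 * Nu
        · rw [if_pos h2, if_pos h3, if_pos ⟨h2, h3⟩]
        · rw [if_pos h2, if_neg h3, if_neg (fun h4 => h3 h4.2), Complex.ofReal_zero, zero_mul]
      · rw [if_neg h2, if_neg (fun h4 => h2 h4.1), Complex.ofReal_zero, zero_mul]
    rw [Finset.sum_congr rfl h1, ← Finset.sum_filter]
    refine Finset.sum_congr ?_ fun _ _ => rfl
    ext v
    rw [Finset.mem_filter, Finset.mem_filter, mem_Shg, hW, lt_div_iff₀ hp0, div_le_iff₀ hp0]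
    constructor
    · rintro ⟨⟨h2, h3, h4⟩, h5, h6⟩
      exact ⟨⟨h2, h6, h4.trans hpr⟩, h5, by linarith, by linarith⟩
    · rintro ⟨⟨h2, h3, h4⟩, h5, h6, h7⟩
      exact ⟨⟨h2, by linarith, by linarith⟩, h5, h3⟩
  · -- the others
    rw [← Finset.sum_filter, Finset.mul_sum]
    have h1 : ∀ v ∈ W, eW w h r1 r2 N P i α v * uu i v ^ j =
        if Prim ((Mg D (P.1, !P.2) (sg D P i)).app v) ∧ (r1 * Nu / P.1 < ((rp i).q v : ℝ) ∧
          ((rp i).q v : ℝ) ≤ r2 * Nu / P.1) then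
          ((E / P.1 : ℝ) : ℂ) * Gw w j i α ((P.1 : ℤ) • v) else 0 := by
      intro v _
      unfold eW Gw
      rw [uu_smul i (by exact_mod_cast hP.1.pos)]
      split_ifs
      · ring
      · rw [zero_mul]
    rw [Finset.sum_congr rfl h1, ← Finset.sum_filter]
    refine Finset.sum_congr ?_ fun _ _ => rfl
    ext v
    rw [Finset.mem_filter, Finset.mem_filter, mem_Shg, hW]
    constructor
    · rintro ⟨⟨h2, h3, h4⟩, h5⟩
      refine ⟨⟨h2, prim_of_app h5, h4.trans ?_⟩, h5, h3, h4⟩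
      have hp1 : (1 : ℝ) ≤ P.1 := by exact_mod_cast hP.1.pos
      have h6 : r2 * Nu / P.1 ≤ r2 * Nu := div_le_self (by positivity) hp1
      have h7 : r2 * Nu ≤ P.1 * (r2 * Nu) := le_mul_of_one_le_left (by positivity) hp1
      linarith
    · rintro ⟨⟨h2, h3, h4⟩, h5, h6, h7⟩
      exact ⟨⟨h2, h6, h7⟩, h5⟩

/-- the vector of the differences -/
noncomputable def yw (D : Dat) (z : ℂ) (w : ℕ → ℂ) (h : ℕ) (r1 r2 N L : ℝ)
    (PP : Finset (ℕ × Bool)) (j : ℤ) : Hs D :=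
  VPh D w r1 r2 N j - (1 / (L : ℂ)) • ∑ P ∈ PP, (z / (P.1 : ℂ)) •
    Ug D P j (VPh D w r1 r2 (N * Real.exp (-(uslN h P.1 / h))) j)

theorem co_yw (z : ℂ) (w : ℕ → ℂ) (h : ℕ) (r1 r2 N L : ℝ) (PP : Finset (ℕ × Bool))
    (hPP : ∀ P ∈ PP, Adm D P) (j : ℤ) (k : Fin (mm D j)) :
    co D j k (yw D z w h r1 r2 N L PP j) = Mph w r1 r2 N ⟨j, k⟩ -
      (1 / (L : ℂ)) * ∑ P ∈ PP, z * cw P (⟨j, k⟩ : Fq D) / (P.1 : ℂ) *
        Mph w r1 r2 (N * Real.exp (-(uslN h P.1 / h))) ⟨j, k⟩ := by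
  unfold yw
  rw [co_sub, co_smul, co_sum, co_VPh]
  congr 2
  refine Finset.sum_congr rfl fun P hP => ?_
  rw [co_smul, co_Ug (hPP P hP), co_VPh]
  unfold cw
  ring

open Classical in
/-- the component of the difference -/
theorem yw_comp {z : ℂ} {y : ℝ} {w : ℕ → ℂ} (hw : Wy z y w) {h : ℕ} (hh : 0 < h) {r1 r2 N L B : ℝ} (hr1 : 0 < r1) (hr2 : 0 < r2)
    (hN : 0 < N) (hB : Real.exp (1 / h) * r2 ≤ B) (hB2 : r2 ≤ B)
    (PP : Finset (ℕ × Bool)) (hPP : ∀ P ∈ PP, Adm D P) (hPy : ∀ P ∈ PP, (P.1 : ℝ) ≤ y)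
    (j : ℤ) (i : Cx D)
    (α : ZMod D.K × ZMod D.K) (W : Finset V)
    (hW : ∀ v, v ∈ W ↔ Sec (rp i) D.T v ∧ Prim v ∧ ((rp i).q v : ℝ) ≤ B * N) :
    yw D z w h r1 r2 N L PP j (i, α) =
      (1 / (N : ℂ)) * ∑ v ∈ W, (((if r1 * N < ((rp i).q v : ℝ) ∧ ((rp i).q v : ℝ) ≤ r2 * N
        then 1 else 0 : ℝ)) : ℂ) * (fcw w i α v * uu i v ^ j) -
      (1 / (L : ℂ)) * ((1 / (N : ℂ)) * (∑ v ∈ W,
        (bet (fun v => ((rp i).q v : ℝ)) h r1 r2 N PP Prod.fst
          (fun P v => Eig P.1 (rg D P) (rp i) v) v : ℂ) * (fcw w i α v * uu i v ^ j) +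
        ∑ v ∈ W, (∑ P ∈ PP, eW w h r1 r2 N P i α v) * uu i v ^ j)) := by
  unfold yw
  rw [PiLp.sub_apply, PiLp.smul_apply, MRH.Dec21.Hs_sum, VPh_comp, smul_eq_mul]
  have e1 : ∑ v ∈ (Shg i (r1 * N) (r2 * N)).filter Prim, Gw w j i α v =
      ∑ v ∈ W, (((if r1 * N < ((rp i).q v : ℝ) ∧ ((rp i).q v : ℝ) ≤ r2 * N
        then 1 else 0 : ℝ)) : ℂ) * (fcw w i α v * uu i v ^ j) := by
    have h1 : ∀ v ∈ W, (((if r1 * N < ((rp i).q v : ℝ) ∧ ((rp i).q v : ℝ) ≤ r2 * N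
        then 1 else 0 : ℝ)) : ℂ) * (fcw w i α v * uu i v ^ j) =
        if r1 * N < ((rp i).q v : ℝ) ∧ ((rp i).q v : ℝ) ≤ r2 * N then Gw w j i α v else 0 := by
      intro v _
      unfold Gw
      split_ifs <;> simp
    rw [Finset.sum_congr rfl h1, ← Finset.sum_filter]
    refine Finset.sum_congr ?_ fun _ _ => rfl
    ext v
    rw [Finset.mem_filter, Finset.mem_filter, mem_Shg, hW]
    constructor
    · rintro ⟨⟨h2, h3, h4⟩, h5⟩
      exact ⟨⟨h2, h5, h4.trans (mul_le_mul_of_nonneg_right hB2 hN.le)⟩, h3, h4⟩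
    · rintro ⟨⟨h2, h3, h4⟩, h5, h6⟩
      exact ⟨⟨h2, h5, h6⟩, h3⟩
  have e2 : ∑ P ∈ PP, ((z / (P.1 : ℂ)) •
      Ug D P j (VPh D w r1 r2 (N * Real.exp (-(uslN h P.1 / h))) j)) (i, α) =
      (1 / (N : ℂ)) * (∑ v ∈ W,
        (bet (fun v => ((rp i).q v : ℝ)) h r1 r2 N PP Prod.fst
          (fun P v => Eig P.1 (rg D P) (rp i) v) v : ℂ) * (fcw w i α v * uu i v ^ j) +
        ∑ v ∈ W, (∑ P ∈ PP, eW w h r1 r2 N P i α v) * uu i v ^ j) := by
    have h1 : ∀ P ∈ PP, ((z / (P.1 : ℂ)) •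
        Ug D P j (VPh D w r1 r2 (N * Real.exp (-(uslN h P.1 / h))) j)) (i, α) =
        (1 / (N : ℂ)) * (∑ v ∈ W, ((if Eig P.1 (rg D P) (rp i) v then
        bwN h r1 r2 N P.1 (((rp i).q v : ℝ) / P.1) else 0 : ℝ) : ℂ) * (fcw w i α v * uu i v ^ j) +
        ∑ v ∈ W, eW w h r1 r2 N P i α v * uu i v ^ j) := by
      intro P hP
      rw [PiLp.smul_apply, smul_eq_mul]
      exact Ug_compw (hPP P hP) hw (hPy P hP) hh hr2 hN hB j i α W hW hr1
    rw [Finset.sum_congr rfl h1, ← Finset.mul_sum, Finset.sum_add_distrib, Finset.sum_comm,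
      Finset.sum_comm (s := PP)]
    congr 2
    · refine Finset.sum_congr rfl fun v _ => ?_
      rw [← Finset.sum_mul]
      unfold bet
      rw [Complex.ofReal_sum]
    · refine Finset.sum_congr rfl fun v _ => ?_
      rw [Finset.sum_mul]
  rw [e1, e2]

/-- **(M2) DEC, uniform in the weight** -/
theorem stDecH_21 (D : Dat) : StDecH D := by
  classical
  intro z _ r1 r2 hr1 hr
  have hr2 : 0 < r2 := hr1.trans hr
  obtain ⟨B, hB⟩ : ∃ B : ℝ, B = 3 * r2 + 1 := ⟨_, rfl⟩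
  have hB0 : 0 < B := by rw [hB]; linarith
  have hB1 : 1 ≤ B := by rw [hB]; linarith
  obtain ⟨Cn1, hCn1, hcard, -⟩ := counts D
  obtain ⟨Ca, hCa, th1⟩ := thin D r1 hr1
  obtain ⟨Cb, hCb, th2⟩ := thin D r2 hr2
  obtain ⟨CT, hCT, htk⟩ := tk D
  have hls := fun i : Cx D => lsn D i B hB1
  choose CA hCA hLs using hls
  set CC : Cx D → ℝ := fun i => 3 * (CA i * (CT * r2) + 4 * CA i * (Cn1 * B) +
    CA i * (4 * (CT * B)) + CA i * (4 * (CT * B) + 152 * ((Cn1 * B) / 38) + 4 * (Ca + Cb)))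
    with hCC
  have hCC0 : ∀ i, 0 < CC i := by
    intro i
    have := hCA i
    simp only [hCC]
    positivity
  set N0 : ℝ := 1 + 1 / r2 + (1 / r2) ^ 2 with hN0
  have hN01 : 1 ≤ N0 := by
    have h1 : 0 < 1 / r2 := by positivity
    nlinarith [sq_nonneg (1 / r2)]
  refine ⟨1 + ∑ i : Cx D, ∑ _α : ZMod D.K × ZMod D.K, CC i, N0, ?_, hN01, ?_⟩
  · have : 0 ≤ ∑ i : Cx D, ∑ _α : ZMod D.K × ZMod D.K, CC i :=
      Finset.sum_nonneg fun i _ => Finset.sum_nonneg fun _ _ => (hCC0 i).le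
    linarith
  intro h u0 u1 N hh hu0 hu01 hN hhN hyN hLL J hJ w hw
  have hN1 : 1 ≤ N := hN01.trans hN
  have hNpos : 0 < N := by linarith
  have hq1 : (1 / r2) ^ 2 ≤ N := by
    have h1 : 0 < 1 / r2 := by positivity
    linarith
  have hq2 : 1 / r2 ≤ N := by
    have h1 : 0 < 1 / r2 := by positivity
    nlinarith [sq_nonneg (1 / r2)]
  have hqB1 : (1 / B) ^ 2 ≤ N := by
    have h1 : 1 / B ≤ 1 := by rw [div_le_one hB0]; exact hB1
    have h2 : 0 < 1 / B := by positivity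
    nlinarith
  have hqB2 : 1 / B ≤ N := by
    have h1 : 1 / B ≤ 1 := by rw [div_le_one hB0]; exact hB1
    linarith
  set PP := slg D (Real.exp (u0 / h)) (Real.exp (u1 / h)) with hPP
  set L := LLg D (Real.exp (u0 / h)) (Real.exp (u1 / h)) with hL
  have hLdef : L = ∑ P ∈ PP, 1 / (P.1 : ℝ) := rfl
  have hAdm : ∀ P ∈ PP, Adm D P := fun P hP => (mem_slg.1 hP).1
  have hpy : ∀ P ∈ PP, (P.1 : ℝ) ≤ Real.exp (u1 / h) := fun P hP => (mem_slg.1 hP).2.2.le
  have hpN : ∀ P ∈ PP, (P.1 : ℝ) ≤ N ^ (1 / 8 : ℝ) := fun P hP =>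
    (mem_slg.1 hP).2.2.le.trans hyN
  have hL0 : 0 < L := by linarith
  have hh0 : (0 : ℝ) < h := by exact_mod_cast hh
  have hh1 : (1 : ℝ) ≤ h := by exact_mod_cast hh
  have he3 : Real.exp (1 / h) ≤ 3 := by
    have hx1 : (1 : ℝ) / h ≤ 1 := by
      rw [div_le_one hh0]
      exact hh1
    have h1 : Real.exp (1 / h) ≤ Real.exp 1 := Real.exp_le_exp.2 hx1
    linarith [Real.exp_one_lt_d9]
  have hBe : Real.exp (1 / h) * r2 ≤ B := by rw [hB]; nlinarith
  have hB2 : r2 ≤ B := by rw [hB]; linarith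
  have hWex : ∀ i : Cx D, ∃ W : Finset V, ∀ v, v ∈ W ↔
      Sec (rp i) D.T v ∧ Prim v ∧ ((rp i).q v : ℝ) ≤ B * N := by
    intro i
    refine ⟨(shS (rp i) D.T 0 (B * N)).filter Prim, fun v => ?_⟩
    rw [Finset.mem_filter, mem_shS (rp_hyp i)]
    constructor
    · rintro ⟨⟨h1, _, h2⟩, h3⟩
      exact ⟨h1, h3, h2⟩
    · rintro ⟨h1, h2, h3⟩
      have := q_one h1
      exact ⟨⟨h1, by linarith, h3⟩, h2⟩
  choose W hW using hWex
  have hkey : ∀ (i : Cx D) (α : ZMod D.K × ZMod D.K),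
      ∑ j ∈ Finset.Icc (-(J : ℤ)) J, ‖yw D z w h r1 r2 N L PP j (i, α)‖ ^ 2 ≤
        CC i * (1 / L + 1 / h) := by
    intro i α
    have hmain := dec_abs (W := W i) (q := fun v => ((rp i).q v : ℝ)) (P := PP)
      (p := Prod.fst) (Dv := fun P v => Eig P.1 (rg D P) (rp i) v)
      (fun P hP => (hAdm P hP).1) (fun n => MRSG.PwtG84.fib_le PP n)
      (fun v hv => zero_le_one.trans (q_one ((hW i v).1 hv).1)) (J := J) hh
      (r1 := r1) (r2 := r2) (B := B) hNpos (hCA i)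
      (by positivity : 0 < CT * r2) (by positivity : 0 < CT * B)
      (by positivity : 0 < Cn1 * B) (by positivity : 0 < Ca + Cb)
      (by positivity : 0 < Cn1 * B) hLdef hLL (χ := fun j v => uu i v ^ j)
      (f := fcw w i α) (e := fun v => ∑ P ∈ PP, eW w h r1 r2 N P i α v)
      (norm_fcw hw.le i α) ?_ ?_ ?_ ?_ ?_ ?_ ?_
    · refine le_trans (le_of_eq ?_) hmain
      refine Finset.sum_congr rfl fun j _ => ?_
      rw [yw_comp hw hh hr1 hr2 hNpos hBe hB2 PP hAdm hpy j i α (W i) (hW i)]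
    · intro v _
      refine (norm_sum_le _ _).trans (Finset.sum_le_sum fun P hP => ?_)
      exact norm_eW hw.le hh hr2 hNpos hBe (hAdm P hP) i α v
    · intro c
      exact hLs i N hN1 J hJ (W i) (fun v hv => (hW i v).1 hv) c
    · have h1 := htk r2 hr2 i N hN1 hq1 hq2 PP (fun P hP => ⟨hAdm P hP, hpN P hP⟩)
        ((W i).filter (fun v => ((rp i).q v : ℝ) ≤ r2 * N)) (fun v hv => by
          rw [Finset.mem_filter] at hv
          exact ⟨((hW i v).1 hv.1).1, hv.2⟩)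
      exact h1
    · exact htk B hB0 i N hN1 hqB1 hqB2 PP (fun P hP => ⟨hAdm P hP, hpN P hP⟩) (W i)
        (fun v hv => ⟨((hW i v).1 hv).1, ((hW i v).1 hv).2.2⟩)
    · have h1 := hcard i (W i) (B * N) (by positivity)
        (fun v hv => ⟨((hW i v).1 hv).1, ((hW i v).1 hv).2.2⟩)
      linarith
    · have h2 : (((W i).filter (fun v => ThinG r1 r2 N h ((rp i).q v : ℝ))).card : ℝ) ≤
          ((W i).filter (fun v => r1 * N < ((rp i).q v : ℝ) ∧
            ((rp i).q v : ℝ) ≤ r1 * N * Real.exp (1 / h))).card +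
          ((W i).filter (fun v => r2 * N < ((rp i).q v : ℝ) ∧
            ((rp i).q v : ℝ) ≤ r2 * N * Real.exp (1 / h))).card := by
        have h1 : (W i).filter (fun v => ThinG r1 r2 N h ((rp i).q v : ℝ)) =
            (W i).filter (fun v => r1 * N < ((rp i).q v : ℝ) ∧
              ((rp i).q v : ℝ) ≤ r1 * N * Real.exp (1 / h)) ∪
            (W i).filter (fun v => r2 * N < ((rp i).q v : ℝ) ∧
              ((rp i).q v : ℝ) ≤ r2 * N * Real.exp (1 / h)) := by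
          ext v
          simp only [Finset.mem_filter, Finset.mem_union]
          unfold ThinG
          tauto
        rw [h1]
        exact_mod_cast Finset.card_union_le _ _
      have h3 := th1 i N h hN1 hh hhN ((W i).filter (fun v => r1 * N < ((rp i).q v : ℝ) ∧
            ((rp i).q v : ℝ) ≤ r1 * N * Real.exp (1 / h))) (fun u hu => by
          rw [Finset.mem_filter] at hu
          exact ⟨((hW i u).1 hu.1).1, hu.2.1, hu.2.2⟩)
      have h4 := th2 i N h hN1 hh hhN ((W i).filter (fun v => r2 * N < ((rp i).q v : ℝ) ∧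
            ((rp i).q v : ℝ) ≤ r2 * N * Real.exp (1 / h))) (fun u hu => by
          rw [Finset.mem_filter] at hu
          exact ⟨((hW i u).1 hu.1).1, hu.2.1, hu.2.2⟩)
      rw [add_mul]
      exact h2.trans (add_le_add h3 h4)
    · intro P hP
      have hp0 : (0 : ℝ) < P.1 := by exact_mod_cast (hAdm P hP).1.pos
      have h1 := hcard i ((W i).filter (fun v => (P.1 : ℝ) ^ 2 * ((rp i).q v : ℝ) ≤ B * N))
        (B * N / (P.1 : ℝ) ^ 2) (by positivity) (fun v hv => by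
          rw [Finset.mem_filter] at hv
          refine ⟨((hW i v).1 hv.1).1, ?_⟩
          rw [le_div_iff₀ (by positivity)]
          linarith [hv.2])
      refine h1.trans (le_of_eq ?_)
      ring
  have hid : ∀ (j : ℤ) (k : Fin (mm D j)), Mph w r1 r2 N (⟨j, k⟩ : Fq D) -
      (1 / (L : ℂ)) * ∑ u ∈ Finset.Ico u0 u1, Qsg z h u (⟨j, k⟩ : Fq D) *
        Mph w r1 r2 (N * Real.exp (-(u / h))) ⟨j, k⟩ =
      co D j k (yw D z w h r1 r2 N L PP j) := by
    intro j k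
    rw [co_yw z w h r1 r2 N L PP hAdm j k]
    congr 2
    rw [hPP, ← sum_slices (D := D) hh u0 u1 (fun u P =>
      z * cw P (⟨j, k⟩ : Fq D) / (P.1 : ℂ) *
        Mph w r1 r2 (N * Real.exp (-(u / h))) (⟨j, k⟩ : Fq D))]
    refine Finset.sum_congr rfl fun u _ => ?_
    unfold Qsg
    rw [Finset.sum_mul]
  rw [sum_SJ]
  calc ∑ j ∈ Finset.Icc (-(J : ℤ)) J, ∑ k : Fin (mm D j),
        ‖Mph w r1 r2 N (⟨j, k⟩ : Fq D) - (1 / (L : ℂ)) * ∑ u ∈ Finset.Ico u0 u1,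
          Qsg z h u (⟨j, k⟩ : Fq D) * Mph w r1 r2 (N * Real.exp (-(u / h))) ⟨j, k⟩‖ ^ 2
      = ∑ j ∈ Finset.Icc (-(J : ℤ)) J, ∑ k : Fin (mm D j),
        ‖co D j k (yw D z w h r1 r2 N L PP j)‖ ^ 2 := by
        refine Finset.sum_congr rfl fun j _ => Finset.sum_congr rfl fun k _ => ?_
        rw [hid j k]
    _ ≤ ∑ j ∈ Finset.Icc (-(J : ℤ)) J, ∑ ia, ‖yw D z w h r1 r2 N L PP j ia‖ ^ 2 :=
        Finset.sum_le_sum fun j _ => co_bessel j _
    _ = ∑ i : Cx D, ∑ α : ZMod D.K × ZMod D.K, ∑ j ∈ Finset.Icc (-(J : ℤ)) J,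
        ‖yw D z w h r1 r2 N L PP j (i, α)‖ ^ 2 := by
        rw [Finset.sum_comm, Fintype.sum_prod_type]
    _ ≤ ∑ i : Cx D, ∑ _α : ZMod D.K × ZMod D.K, CC i * (1 / L + 1 / h) :=
        Finset.sum_le_sum fun i _ => Finset.sum_le_sum fun α _ => hkey i α
    _ = (∑ i : Cx D, ∑ _α : ZMod D.K × ZMod D.K, CC i) * (1 / L + 1 / h) := by
        rw [Finset.sum_mul]
        refine Finset.sum_congr rfl fun i _ => ?_
        rw [Finset.sum_mul]
    _ ≤ (1 + ∑ i : Cx D, ∑ _α : ZMod D.K × ZMod D.K, CC i) * (1 / L + 1 / h + h / u0) := by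
        have e1 : 0 ≤ ∑ i : Cx D, ∑ _α : ZMod D.K × ZMod D.K, CC i :=
          Finset.sum_nonneg fun i _ => Finset.sum_nonneg fun _ _ => (hCC0 i).le
        have e2 : 0 ≤ (h : ℝ) / u0 := by positivity
        have e3 : 0 ≤ 1 / L + 1 / h := by positivity
        apply mul_le_mul (by linarith) (by linarith) e3 (by linarith)

end Pool.Agent.Lib.MP_a17b09_nt.PQH.DecH21
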