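import Pool.Agent.Lib.MP_a17b09_nt.PQH.Stmts99
import Pool.Agent.Lib.MP_a17b09_nt.PQ.M8_12

/-! PQH (MP_a17b09_nt), row M8: assembly of the levels and the set `U`, all frequencies but `0`
(helper7, fork of PQ/M8_12). -/

set_option autoImplicit false

open Filter Topology Finset

namespace Pool.Agent.Lib.MP_a17b09_nt.PQH

open CH CH.PE HY HY.S68 MRH
open PQ (B1 Wy gw gcw)

/-- row M8 -/
theorem stCoreH_7 (D : Dat) (h1 : StLevH D) (h2 : StUpH D) : StCoreH D := by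
  classical
  intro z hz c0 hc0 r1 r2 hr1 hr2 ε hε
  obtain ⟨c, hc, hcc0, hup⟩ := h2 z hz c0 hc0 r1 r2 hr1.le hr2
  obtain ⟨N1, hN1⟩ := hup (ε / 3) (by positivity)
  obtain ⟨H0, hH0, hlev⟩ := h1 z hz c0 hc0 r1 r2 hr1 hr2 (ε / 3) c (by positivity) hc
  refine ⟨H0, hH0, fun H hH => ?_⟩
  obtain ⟨N0, hN0⟩ := hlev H hH
  refine ⟨max (max N0 1) N1, fun N hN w hw => ?_⟩
  have hNa : N0 ≤ N := (le_max_left _ _).trans ((le_max_left _ _).trans hN)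
  have hNb : 1 ≤ N := (le_max_right _ _).trans ((le_max_left _ _).trans hN)
  have hNc : N1 ≤ N := (le_max_right _ _).trans hN
  obtain ⟨U, hU, hUc, hlevU⟩ := hN0 N hNa w hw
  have hH : 1 ≤ H := hH0.trans hH
  set U' : Finset (Fq D) := U.filter (fun f => f.1 ≠ 0) with hU'
  have hUs : ∀ f ∈ U', |(f.1 : ℝ)| ≤ N := by
    intro f hf
    have h4 := mem_SJ.1 (hU (Finset.mem_filter.1 hf).1)
    have h5 : |f.1| ≤ (⌊N / H⌋₊ : ℤ) := abs_le.2 h4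
    have h6 : |(f.1 : ℝ)| ≤ ((⌊N / H⌋₊ : ℕ) : ℝ) := by exact_mod_cast h5
    refine h6.trans ((Nat.floor_le (by positivity)).trans ?_)
    rw [div_le_iff₀ (by positivity)]
    nlinarith
  have hw' : Wy z (N ^ c) w := hw.mono12 (Real.rpow_le_rpow_of_exponent_le hNb hcc0)
  have h7 := hN1 N hNc w hw' U' (le_trans (by exact_mod_cast Finset.card_filter_le _ _) hUc)
    (fun f hf => (Finset.mem_filter.1 hf).2) hUs
  have h9 : ∑ f ∈ U.filter (fun f => ¬ f.1 ≠ 0), ‖Mph w r1 r2 N f‖ ^ 2 ≤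
      ∑ e : Fin (mm D 0), ‖Mph w r1 r2 N (⟨0, e⟩ : Fq D)‖ ^ 2 := by
    have h10 : U.filter (fun f => ¬ f.1 ≠ 0) ⊆
        Finset.univ.image (fun e : Fin (mm D 0) => (⟨0, e⟩ : Fq D)) := by
      intro f hf
      obtain ⟨-, hf0⟩ := Finset.mem_filter.1 hf
      obtain ⟨j, e⟩ := f
      have hj : j = 0 := by simpa using hf0
      subst hj
      exact Finset.mem_image.2 ⟨e, Finset.mem_univ _, rfl⟩
    refine (Finset.sum_le_sum_of_subset_of_nonneg h10 fun _ _ _ => by positivity).trans ?_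
    rw [Finset.sum_image]
    intro a _ b _ hab
    simpa using hab
  calc ∑ f ∈ SJ D ⌊N / H⌋₊, ‖Mph w r1 r2 N f‖ ^ 2
      = ∑ f ∈ SJ D ⌊N / H⌋₊ \ U, ‖Mph w r1 r2 N f‖ ^ 2 + ∑ f ∈ U, ‖Mph w r1 r2 N f‖ ^ 2 :=
        (Finset.sum_sdiff hU).symm
    _ ≤ ε / 3 + (ε / 3 + ∑ e : Fin (mm D 0), ‖Mph w r1 r2 N (⟨0, e⟩ : Fq D)‖ ^ 2) := by
        refine add_le_add hlevU ?_
        rw [← Finset.sum_filter_add_sum_filter_not U (fun f => f.1 ≠ 0)]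
        exact add_le_add h7 h9
    _ ≤ ε + ∑ e : Fin (mm D 0), ‖Mph w r1 r2 N (⟨0, e⟩ : Fq D)‖ ^ 2 := by linarith

end Pool.Agent.Lib.MP_a17b09_nt.PQH
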