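import Pool.Agent.Lib.MP_a17b09_nt.PQH.Stmts99
import Pool.Agent.Lib.MP_a17b09_nt.HY.TwM68
import Pool.Agent.Lib.MP_a17b09_nt.HY.TopH20

/-!
Project PQH (MP_a17b09_nt), row T1: the twisted theorem for two weights, positive nonsquare
discriminant (`HY.TwM68` for two weights).
-/

set_option autoImplicit false

open Filter Topology Finset

namespace Pool.Agent.Lib.MP_a17b09_nt.PQH

open CH CH.PE HY HY.S68 MRH
open PQ (B1 Wy gw gcw TwW)

namespace T1h

open CH.G68 (cnd phi norm_phi phi_per fm fm_D)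
open HY.H68 (fv_pos mem_near PH forward backward omH)

/-- the value of a pair -/
noncomputable def valW (a b c : ℤ) (w1 w2 : ℕ → ℂ) (t d : ℕ) : ℂ :=
  w1 d * w2 (a.natAbs * ((fv a b c t).natAbs / d))

theorem term_eqW {a b c : ℤ} (ha : 0 < a) {ι : Type} (S : HSystem ι)
    (w : ι → ℕ) (w1 w2 : ℕ → ℂ) {T : ℝ} {h t0 : ℕ} {α β : ℝ}
    {T0 N : ℕ} (hT0 : |b| + |c| < T0) {t d : ℕ} (ht : t ∈ Finset.Icc T0 N)
    (hth : t ≡ t0 [MOD h]) (hd : d ∈ nearG a b c α β t) (i : ι) {f : V × V}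
    (hf : f ∈ PH (S.Q i) T d (2 * a * t + b) (a * (fv a b c t / d))) :
    kerHW S w1 w2 (omH S w a b h t0) i f.1 f.2 = (1 / (w i : ℂ)) * valW a b c w1 w2 t d := by
  have hb := backward ha hT0 ht hth hd hf
  obtain ⟨-, hc⟩ := hb
  obtain ⟨hw, hs, hcn, h1, h2, h3⟩ := hf
  rw [Finset.mem_Icc] at ht
  have htZ : |b| + |c| < (t : ℤ) := hT0.trans_le (by exact_mod_cast ht.1)
  have hfv := (fv_pos ha htZ).1
  have hdv := ((mem_near hfv).1 hd).1
  have hphi : phi a b h t0 ((S.Q i).q f.1) ((S.Q i).B f.1 f.2) ((S.Q i).q f.2) = 1 := by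
    unfold phi
    rw [if_pos hc]
  have hna : (a * (fv a b c t / d)).natAbs = a.natAbs * ((fv a b c t).natAbs / d) := by
    rw [Int.natAbs_mul, Int.natAbs_ediv_of_dvd hdv]
    simp
  unfold kerHW omH gw valW
  rw [hphi, h1, h3, hna, Int.natAbs_natCast]
  ring

open Classical in
theorem sum_iW {a b c : ℤ} (ha : 0 < a) {ι : Type} (S : HSystem ι)
    (hSd : (S.d : ℤ) = b ^ 2 - 4 * a * c)
    (w : ι → ℕ) (w1 w2 : ℕ → ℂ) {T : ℝ} {h t0 : ℕ} {α β : ℝ}
    {T0 N : ℕ} (hT0 : |b| + |c| < T0) (i : ι) (hfin : (HFG (S.Q i) T a b α β T0 N).Finite)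
    (hfinP : ∀ t ∈ Finset.Icc T0 N, ∀ d ∈ nearG a b c α β t,
      (PH (S.Q i) T d (2 * a * t + b) (a * (fv a b c t / d))).Finite) :
    ∑ f ∈ hfin.toFinset, kerHW S w1 w2 (omH S w a b h t0) i f.1 f.2 =
    ∑ p ∈ ((Finset.Icc T0 N).filter (fun t => t ≡ t0 [MOD h])).sigma
      (fun t => nearG a b c α β t),
      (((PH (S.Q i) T p.2 (2 * a * p.1 + b) (a * (fv a b c p.1 / p.2))).ncard : ℂ) / w i) *
        valW a b c w1 w2 p.1 p.2 := by
  have hQD : (S.Q i).D = 4 * a * c - b ^ 2 := by rw [(S.hyp i).disc, hSd]; ring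
  have e1 : ∑ f ∈ hfin.toFinset, kerHW S w1 w2 (omH S w a b h t0) i f.1 f.2 =
      ∑ f ∈ hfin.toFinset.filter
        (fun f => cnd a b h t0 ((S.Q i).B f.1 f.2) ((S.Q i).q f.2)),
      kerHW S w1 w2 (omH S w a b h t0) i f.1 f.2 := by
    symm
    apply Finset.sum_subset (Finset.filter_subset _ _)
    intro f hf1 hf2
    have hn : ¬ cnd a b h t0 ((S.Q i).B f.1 f.2) ((S.Q i).q f.2) := fun hc =>
      hf2 (Finset.mem_filter.2 ⟨hf1, hc⟩)
    unfold kerHW omH phi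
    rw [if_neg hn]
    ring
  rw [e1]
  let g : V × V → (Σ _ : ℕ, ℕ) := fun f =>
    ⟨(((S.Q i).B f.1 f.2 - b) / (2 * a)).toNat, ((S.Q i).q f.1).toNat⟩
  have hgv : ∀ (t d : ℕ) (f : V × V), (S.Q i).q f.1 = d → (S.Q i).B f.1 f.2 = 2 * a * t + b →
      g f = ⟨t, d⟩ := by
    intro t d f h1 h2
    simp only [g]
    rw [h1, h2]
    have h3 : (2 * a * (t : ℤ) + b - b) / (2 * a) = t := by
      have : 2 * a * (t : ℤ) + b - b = (2 * a) * t := by ring
      rw [this]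
      exact Int.mul_ediv_cancel_left _ (by positivity)
    rw [h3]
    simp
  rw [← Finset.sum_fiberwise_of_maps_to (g := g) (t := ((Finset.Icc T0 N).filter
    (fun t => t ≡ t0 [MOD h])).sigma (fun t => nearG a b c α β t))]
  · apply Finset.sum_congr rfl
    rintro ⟨t, d⟩ hp
    rw [Finset.mem_sigma, Finset.mem_filter] at hp
    obtain ⟨⟨ht, hth⟩, hd⟩ := hp
    have hP := hfinP t ht d hd
    have hset : (hfin.toFinset.filter
        (fun f => cnd a b h t0 ((S.Q i).B f.1 f.2) ((S.Q i).q f.2))).filter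
        (fun f => g f = ⟨t, d⟩) = hP.toFinset := by
      ext f
      rw [Finset.mem_filter, Finset.mem_filter, Set.Finite.mem_toFinset,
        Set.Finite.mem_toFinset]
      constructor
      · rintro ⟨⟨hf1, hf2⟩, hf3⟩
        obtain ⟨t', d', h1, h2, h3, h4⟩ := forward ha (S.hyp i) hQD hT0 hf1 hf2
        have h6 := hgv t' d' f h4.2.2.2.1 h4.2.2.2.2.1
        rw [hf3] at h6
        simp only [Sigma.mk.injEq, heq_eq_eq] at h6
        obtain ⟨rfl, rfl⟩ := h6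
        exact h4
      · intro hf
        have hb := backward ha hT0 ht hth hd hf
        exact ⟨⟨hb.1, hb.2⟩, hgv t d f hf.2.2.2.1 hf.2.2.2.2.1⟩
    rw [hset, Finset.sum_congr rfl (g := fun _ => (1 / (w i : ℂ)) * valW a b c w1 w2 t d)]
    · rw [Finset.sum_const, nsmul_eq_mul, Set.ncard_eq_toFinset_card _ hP]
      ring
    · intro f hf
      rw [Set.Finite.mem_toFinset] at hf
      exact term_eqW ha S w w1 w2 hT0 ht hth hd i hf
  · intro f hf
    rw [Finset.mem_filter, Set.Finite.mem_toFinset] at hf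
    obtain ⟨t, d, h1, h2, h3, h4⟩ := forward ha (S.hyp i) hQD hT0 hf.1 hf.2
    rw [hgv t d f h4.2.2.2.1 h4.2.2.2.2.1, Finset.mem_sigma, Finset.mem_filter]
    exact ⟨⟨h1, h2⟩, h3⟩

theorem main_idW {a b c : ℤ} (ha : 0 < a) {ι : Type} [Fintype ι]
    (S : HSystem ι) (hSd : (S.d : ℤ) = b ^ 2 - 4 * a * c) (w : ι → ℕ) {T : ℝ}
    (hF : ∀ F : Form, 0 < F.a → 0 < F.b → 0 < F.c → F.D = -(S.d : ℤ) →
      (∀ i, (PH (S.Q i) T F.a F.b F.c).Finite) ∧
      ∑ i, (((PH (S.Q i) T F.a F.b F.c).ncard : ℂ) / w i) = 1)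
    (w1 w2 : ℕ → ℂ) {h t0 : ℕ} {α β : ℝ} {T0 N : ℕ} (hT0 : |b| + |c| < T0)
    (hfin : ∀ i, (HFG (S.Q i) T a b α β T0 N).Finite) :
    ∑ i, ∑ᶠ f ∈ HFG (S.Q i) T a b α β T0 N, kerHW S w1 w2 (omH S w a b h t0) i f.1 f.2 =
    ∑ t ∈ (Finset.Icc T0 N).filter (fun t => t ≡ t0 [MOD h]),
      ∑ d ∈ nearG a b c α β t, w1 d * w2 (a.natAbs * ((fv a b c t).natAbs / d)) := by
  -- the forms of the pairs
  have hform : ∀ t ∈ Finset.Icc T0 N, ∀ d ∈ nearG a b c α β t,
      0 < (fm a b c t d).a ∧ 0 < (fm a b c t d).b ∧ 0 < (fm a b c t d).c ∧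
        (fm a b c t d).D = -(S.d : ℤ) := by
    intro t ht d hd
    rw [Finset.mem_Icc] at ht
    have htZ : |b| + |c| < (t : ℤ) := hT0.trans_le (by exact_mod_cast ht.1)
    obtain ⟨h1, h2⟩ := fv_pos ha htZ
    have hdv := ((mem_near h1).1 hd).1
    have hd0 : 0 < d := by
      rcases Nat.eq_zero_or_pos d with h0 | h0
      · exfalso
        rw [h0, Nat.cast_zero, zero_dvd_iff] at hdv
        omega
      · exact h0
    have hd0' : (0 : ℤ) < d := by exact_mod_cast hd0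
    refine ⟨hd0', h2, ?_, by rw [fm_D hdv, hSd]; ring⟩
    obtain ⟨e, he⟩ := hdv
    have h3 : fv a b c t / d = e := by rw [he]; exact Int.mul_ediv_cancel_left e hd0'.ne'
    have h4 : 0 < e := by
      rw [he] at h1
      exact (mul_pos_iff_of_pos_left hd0').1 h1
    change 0 < a * (fv a b c t / d)
    rw [h3]
    exact mul_pos ha h4
  have e0 : ∀ i, ∑ᶠ f ∈ HFG (S.Q i) T a b α β T0 N, kerHW S w1 w2 (omH S w a b h t0) i f.1 f.2 =
      ∑ p ∈ ((Finset.Icc T0 N).filter (fun t => t ≡ t0 [MOD h])).sigma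
      (fun t => nearG a b c α β t),
      (((PH (S.Q i) T p.2 (2 * a * p.1 + b) (a * (fv a b c p.1 / p.2))).ncard : ℂ) / w i) *
        valW a b c w1 w2 p.1 p.2 := by
    intro i
    rw [finsum_mem_eq_finite_toFinset_sum _ (hfin i)]
    refine sum_iW ha S hSd w w1 w2 hT0 i (hfin i) fun t ht d hd => ?_
    obtain ⟨h1, h2, h3, h4⟩ := hform t ht d hd
    exact (hF _ h1 h2 h3 h4).1 i
  rw [Finset.sum_congr rfl (fun i _ => e0 i), Finset.sum_comm]
  have e1 : ∀ p ∈ ((Finset.Icc T0 N).filter (fun t => t ≡ t0 [MOD h])).sigma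
      (fun t => nearG a b c α β t),
      ∑ i, (((PH (S.Q i) T p.2 (2 * a * p.1 + b) (a * (fv a b c p.1 / p.2))).ncard : ℂ) / w i) *
        valW a b c w1 w2 p.1 p.2 = valW a b c w1 w2 p.1 p.2 := by
    rintro ⟨t, d⟩ hp
    rw [Finset.mem_sigma, Finset.mem_filter] at hp
    obtain ⟨⟨ht, hth⟩, hd⟩ := hp
    simp only at hd ⊢
    obtain ⟨h1, h2, h3, h4⟩ := hform t ht d hd
    have h5 := (hF _ h1 h2 h3 h4).2
    rw [← Finset.sum_mul]
    have h6 : ∑ i, (((PH (S.Q i) T d (2 * a * t + b) (a * (fv a b c t / d))).ncard : ℂ) /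
      w i) = 1 := h5
    rw [h6, one_mul]
  rw [Finset.sum_congr rfl e1, Finset.sum_sigma]
  rfl

end T1h

/-- (T1) from `StHFm` -/
theorem twHW_99 (hFm : StHFm) : StTwHW := by
  intro a b c ha d hd hns w1 w2 hb1 hb2 M hA h hh t0 α β hα hβ
  obtain ⟨ι, hι, S, w, e, hSd, he, hw0, hws, hF⟩ := stHSys_68 d hns
  have hSd' : (S.d : ℤ) = b ^ 2 - 4 * a * c := by rw [hSd, hd]
  -- the weight
  obtain ⟨K, hK⟩ : ∃ K : ℕ, 2 * a * h = (K : ℤ) :=
    ⟨_, (Int.toNat_of_nonneg (by positivity)).symm⟩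
  have hK0 : 0 < K := by
    have hh' : (0 : ℤ) < h := by exact_mod_cast hh
    have : (0 : ℤ) < K := by rw [← hK]; positivity
    exact_mod_cast this
  have hWt : HWt S K (HY.H68.omH S w a b h t0) := by
    apply stHWt_68 ι S w
    · intro p hp h4 i
      rw [hSd] at h4
      exact hws p hp h4 i
    · exact hK0
    · intro x y z u v t
      rw [← hK]
      exact CH.G68.phi_per a b h t0 x y z u v t
  have hNull := hA ι S hSd K hK0 _ hWt e he
  have hbd : ∃ C : ℝ, ∀ i v v', ‖kerHW S w1 w2 (HY.H68.omH S w a b h t0) i v v'‖ ≤ C := by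
    refine ⟨1, fun i v v' => ?_⟩
    unfold kerHW gw HY.H68.omH
    rw [norm_mul, norm_mul, norm_mul]
    have g1 := hb1 ((S.Q i).q v).natAbs
    have g2 := hb2 ((S.Q i).q v').natAbs
    have h1 : ‖(1 / (w i : ℂ))‖ ≤ 1 := by
      rw [norm_div, norm_one, Complex.norm_natCast]
      have : (1 : ℝ) ≤ w i := by exact_mod_cast hw0 i
      rw [div_le_one (by linarith)]
      exact this
    have h2 := CH.G68.norm_phi a b h t0 ((S.Q i).q v) ((S.Q i).B v v') ((S.Q i).q v')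
    calc _ ≤ (1 : ℝ) * 1 * 1 * 1 := by gcongr
      _ = 1 := by norm_num
  let T0 : ℕ := b.natAbs + c.natAbs + 1
  have hT1 : 0 < T0 := Nat.succ_pos _
  have hT0 : |b| + |c| < T0 := by
    simp only [T0]
    push_cast
    linarith
  obtain ⟨hfin, hB, hE⟩ := hFm M ι S.d S.Q S.hyp (per e) (per_pos he) _ hbd hNull a b α β ha hα
    hβ T0 hT1
  -- comparison
  let G : ℕ → ℂ := fun t =>
    ∑ d ∈ nearG a b c α β t, w1 d * w2 (a.natAbs * ((fv a b c t).natAbs / d))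
  let C1 : ℝ := ∑ t ∈ Finset.Icc 1 (T0 - 1), ‖G t‖
  have hC1 : 0 ≤ C1 := Finset.sum_nonneg (fun _ _ => norm_nonneg _)
  have hcmp : ∀ N : ℕ, ‖TwW a b c α β h t0 w1 w2 N‖ ≤ C1 +
      ‖∑ i, ∑ᶠ f ∈ HFG (S.Q i) (per e) a b α β T0 N,
        kerHW S w1 w2 (HY.H68.omH S w a b h t0) i f.1 f.2‖ := by
    intro N
    rw [T1h.main_idW ha S hSd' w (T := per e) (fun F h1 h2 h3 h4 => hF F h1 h2 h3 (by
      rw [h4, hSd])) w1 w2 hT0 (fun i => hfin i N)]
    have hsub : (Finset.Icc 1 N).filter (fun t => t ≡ t0 [MOD h]) =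
        ((Finset.Icc 1 N).filter (fun t => t ≡ t0 [MOD h])).filter (fun t => t < T0) ∪
        (Finset.Icc T0 N).filter (fun t => t ≡ t0 [MOD h]) := by
      ext t
      rw [Finset.mem_union, Finset.mem_filter, Finset.mem_filter, Finset.mem_filter,
        Finset.mem_filter, Finset.mem_Icc, Finset.mem_Icc]
      constructor
      · rintro ⟨h1, h2⟩
        by_cases h3 : t < T0
        · exact Or.inl ⟨⟨h1, h2⟩, h3⟩
        · exact Or.inr ⟨⟨by omega, h1.2⟩, h2⟩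
      · rintro (h1 | h1)
        · exact h1.1
        · exact ⟨⟨by omega, h1.1.2⟩, h1.2⟩
    have hdis : Disjoint
        (((Finset.Icc 1 N).filter (fun t => t ≡ t0 [MOD h])).filter (fun t => t < T0))
        ((Finset.Icc T0 N).filter (fun t => t ≡ t0 [MOD h])) := by
      rw [Finset.disjoint_left]
      intro t h1 h2
      rw [Finset.mem_filter] at h1
      rw [Finset.mem_filter, Finset.mem_Icc] at h2
      omega
    have e1 : TwW a b c α β h t0 w1 w2 N =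
        ∑ t ∈ ((Finset.Icc 1 N).filter (fun t => t ≡ t0 [MOD h])).filter (fun t => t < T0), G t +
        ∑ t ∈ (Finset.Icc T0 N).filter (fun t => t ≡ t0 [MOD h]), G t := by
      rw [← Finset.sum_union hdis, ← hsub]
      rfl
    rw [e1]
    refine (norm_add_le _ _).trans (add_le_add ?_ le_rfl)
    refine (norm_sum_le _ _).trans ?_
    apply Finset.sum_le_sum_of_subset_of_nonneg
    · intro t ht
      rw [Finset.mem_filter, Finset.mem_filter, Finset.mem_Icc] at ht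
      rw [Finset.mem_Icc]
      omega
    · intro t _ _
      exact norm_nonneg _
  have hle : ∀ N : ℕ, ‖TwW a b c α β h t0 w1 w2 N‖ / N ≤ C1 / N +
      ‖∑ i, ∑ᶠ f ∈ HFG (S.Q i) (per e) a b α β T0 N,
        kerHW S w1 w2 (HY.H68.omH S w a b h t0) i f.1 f.2‖ / N := by
    intro N
    rw [← add_div]
    exact div_le_div_of_nonneg_right (hcmp N) (Nat.cast_nonneg N)
  have hr0 : Tendsto (fun N : ℕ => C1 / (N : ℝ)) atTop (𝓝 0) :=
    tendsto_const_div_atTop_nhds_zero_nat C1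
  have hrB : Bdd (fun N : ℕ => C1 / (N : ℝ)) := by
    refine ⟨C1, fun N => ?_⟩
    rw [abs_of_nonneg (by positivity)]
    rcases Nat.eq_zero_or_pos N with h0 | h0
    · rw [h0]; simpa using hC1
    · apply div_le_self hC1
      exact_mod_cast h0
  have hfB : Bdd (fun N : ℕ => ‖TwW a b c α β h t0 w1 w2 N‖ / N) := by
    obtain ⟨C, hC⟩ := hB
    obtain ⟨C', hC'⟩ := hrB
    refine ⟨C' + C, fun N => ?_⟩
    rw [abs_of_nonneg (by positivity)]
    exact (hle N).trans (add_le_add ((le_abs_self _).trans (hC' N))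
      ((le_abs_self _).trans (hC N)))
  apply le_antisymm
  · calc M.E (fun N : ℕ => ‖TwW a b c α β h t0 w1 w2 N‖ / N)
        ≤ M.E (fun N : ℕ => C1 / (N : ℝ) + ‖∑ i, ∑ᶠ f ∈ HFG (S.Q i) (per e) a b α β T0 N,
          kerHW S w1 w2 (HY.H68.omH S w a b h t0) i f.1 f.2‖ / N) :=
          LMean.mono M hfB (Bdd.add hrB hB) hle
      _ = 0 := by
          rw [M.add _ _ hrB hB, M.null _ hrB hr0, hE, add_zero]
  · exact M.nonneg _ hfB (fun N => by positivity)

/-- (T1) -/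
theorem stTwHW_99 : StTwHW := twHW_99 HY.TopH20.hFm

end Pool.Agent.Lib.MP_a17b09_nt.PQH
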